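import Pool.Agent.Lib.MP_973905_nt.K10.Stmts
import Pool.Agent.Lib.MP_973905_nt.K5.AK
import Pool.Agent.Lib.MP_973905_nt.K2.Arith2

set_option autoImplicit false

/-! Module K10-B0: the arithmetic factor as a limit over finite products, `0 < k`. -/

namespace Pool.Agent.Lib.MP_973905_nt
namespace K10

open MeasureTheory ProbabilityTheory Complex Filter Topology K1 K4 K5

namespace AKgAux

open CK K5.AKaux

lemma bc_le {k : ℝ} (hk : 0 < k) {N : ℕ} (hkN : k ≤ N) (m : ℕ) : bc k m ≤ ((m : ℝ) + 1) ^ N := by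
  induction m with
  | zero => rw [bc_zero hk]; simp
  | succ m ih =>
    rw [bc_succ hk]
    have h0 : (0 : ℝ) < (m : ℝ) + 1 := by positivity
    have h1 : 0 ≤ (k + m) / ((m : ℝ) + 1) := by positivity
    have h2 : (k + m) / ((m : ℝ) + 1) ≤ 1 + N * (1 / ((m : ℝ) + 1)) := by
      rw [div_le_iff₀ h0]
      have : (1 + N * (1 / ((m : ℝ) + 1))) * (m + 1) = m + 1 + N := by field_simp
      rw [this]
      linarith
    have h3 : 1 + N * (1 / ((m : ℝ) + 1)) ≤ (1 + 1 / ((m : ℝ) + 1)) ^ N := by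
      refine one_add_mul_le_pow ?_ N
      have : (0 : ℝ) ≤ 1 / ((m : ℝ) + 1) := by positivity
      linarith
    calc bc k m * ((k + m) / (m + 1)) ≤ ((m : ℝ) + 1) ^ N * (1 + 1 / ((m : ℝ) + 1)) ^ N :=
          mul_le_mul ih (h2.trans h3) h1 (by positivity)
      _ = (((m + 1 : ℕ) : ℝ) + 1) ^ N := by
        rw [← mul_pow]
        congr 1
        push_cast
        field_simp

lemma summable_bc {k x : ℝ} (hk : 0 < k) (hx0 : 0 ≤ x) (hx : x < 1) :
    Summable fun m : ℕ => bc k m ^ 2 * x ^ m := by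
  obtain ⟨N, hN⟩ := exists_nat_ge k
  have hn : ‖x‖ < 1 := by rwa [Real.norm_eq_abs, abs_of_nonneg hx0]
  -- compare with `(2 m) ^ (2 N) x ^ m + (0 ^ m)`
  have h2 := summable_pow_mul_geometric_of_norm_lt_one (2 * N) hn
  have h3 : Summable fun m : ℕ => (2 : ℝ) ^ (2 * N) * ((m : ℝ) ^ (2 * N) * x ^ m) + x ^ m :=
    (h2.mul_left _).add (summable_geometric_of_norm_lt_one hn)
  refine Summable.of_nonneg_of_le (fun m => by positivity) (fun m => ?_) h3
  have h4 := bc_le hk hN m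
  have h5 : bc k m ^ 2 ≤ (((m : ℝ) + 1) ^ N) ^ 2 := pow_le_pow_left₀ (bc_pos hk m).le h4 2
  have h6 : (((m : ℝ) + 1) ^ N) ^ 2 ≤ (2 : ℝ) ^ (2 * N) * (m : ℝ) ^ (2 * N) + 1 := by
    rw [← pow_mul, mul_comm N 2]
    rcases Nat.eq_zero_or_pos m with rfl | hm
    · rw [Nat.cast_zero, zero_add, one_pow]
      have : (0 : ℝ) ≤ 2 ^ (2 * N) * 0 ^ (2 * N) := by positivity
      linarith
    · rw [← mul_pow]
      have hm1 : (1 : ℝ) ≤ m := by exact_mod_cast hm
      have h7 : ((m : ℝ) + 1) ^ (2 * N) ≤ (2 * (m : ℝ)) ^ (2 * N) :=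
        pow_le_pow_left₀ (by positivity) (by linarith) _
      linarith
  calc bc k m ^ 2 * x ^ m ≤ ((2 : ℝ) ^ (2 * N) * (m : ℝ) ^ (2 * N) + 1) * x ^ m :=
        mul_le_mul_of_nonneg_right (h5.trans h6) (by positivity)
    _ = _ := by ring

lemma Fk_bounds {k : ℝ} (hk : 0 < k) : ∃ C : ℝ, 0 ≤ C ∧ ∀ x : ℝ, 0 ≤ x → x ≤ 1 / 2 →
    1 + k ^ 2 * x ≤ Fk k x ∧ Fk k x ≤ 1 + k ^ 2 * x + C * x ^ 2 := by
  have hsC : Summable fun m : ℕ => bc k (m + 2) ^ 2 * (1 / 2 : ℝ) ^ (m + 2) :=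
    (summable_nat_add_iff 2).mpr (summable_bc hk (by norm_num) (by norm_num))
  have hsC' : Summable fun m : ℕ => bc k (m + 2) ^ 2 * (1 / 2 : ℝ) ^ m := by
    refine (hsC.mul_left 4).congr fun m => ?_
    ring
  refine ⟨∑' m : ℕ, bc k (m + 2) ^ 2 * (1 / 2 : ℝ) ^ m, tsum_nonneg fun m => by positivity,
    fun x hx0 hx => ?_⟩
  have hs := summable_bc hk hx0 (by linarith : x < 1)
  constructor
  · have h := hs.sum_le_tsum (Finset.range 2) (fun m _ => by positivity)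
    simp only [Finset.sum_range_succ, Finset.sum_range_zero] at h
    rw [show (1 : ℕ) = 0 + 1 by rfl, bc_succ hk, bc_zero hk] at h
    simpa [Fk] using h
  · have e : Fk k x = ∑ m ∈ Finset.range 2, bc k m ^ 2 * x ^ m +
        ∑' m : ℕ, bc k (m + 2) ^ 2 * x ^ (m + 2) := (hs.sum_add_tsum_nat_add 2).symm
    have hs' : Summable fun m : ℕ => bc k (m + 2) ^ 2 * x ^ (m + 2) :=
      (summable_nat_add_iff 2).mpr hs
    have h2 : ∑' m : ℕ, bc k (m + 2) ^ 2 * x ^ (m + 2) ≤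
        ∑' m : ℕ, (bc k (m + 2) ^ 2 * (1 / 2 : ℝ) ^ m) * x ^ 2 := by
      refine hs'.tsum_le_tsum (fun m => ?_) (hsC'.mul_right _)
      have h3 : x ^ m ≤ (1 / 2 : ℝ) ^ m := pow_le_pow_left₀ hx0 hx m
      calc bc k (m + 2) ^ 2 * x ^ (m + 2) = bc k (m + 2) ^ 2 * x ^ m * x ^ 2 := by ring
        _ ≤ _ := by gcongr
    rw [tsum_mul_right] at h2
    have h6 : ∑ m ∈ Finset.range 2, bc k m ^ 2 * x ^ m = 1 + k ^ 2 * x := by
      simp only [Finset.sum_range_succ, Finset.sum_range_zero]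
      rw [show (1 : ℕ) = 0 + 1 by rfl, bc_succ hk, bc_zero hk]
      simp
    rw [e, h6]
    linarith

lemma one_le_Fk {k x : ℝ} (hk : 0 < k) (hx0 : 0 ≤ x) (hx : x ≤ 1 / 2) : 1 ≤ Fk k x := by
  obtain ⟨C, -, h⟩ := Fk_bounds hk
  have h1 := (h x hx0 hx).1
  have : 0 ≤ k ^ 2 * x := by positivity
  linarith

lemma lf_pos {k x : ℝ} (hk : 0 < k) (hx0 : 0 ≤ x) (hx : x ≤ 1 / 2) : 0 < lf k x := by
  have h2 := one_le_Fk hk hx0 hx
  have h3 : 0 < 1 - x := by linarith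
  unfold lf
  positivity

lemma log_lf_eq {k x : ℝ} (hk : 0 < k) (hx0 : 0 ≤ x) (hx : x ≤ 1 / 2) :
    Real.log (lf k x) = k ^ 2 * Real.log (1 - x) + Real.log (Fk k x) := by
  have h2 := one_le_Fk hk hx0 hx
  have h3 : 0 < 1 - x := by linarith
  rw [lf, Real.log_mul (by positivity) (by linarith), Real.log_rpow h3]

lemma abs_log_lf {k : ℝ} (hk : 0 < k) : ∃ C : ℝ, 0 ≤ C ∧ ∀ x : ℝ, 0 ≤ x → x ≤ 1 / 2 →
    |Real.log (lf k x)| ≤ C * x ^ 2 := by
  obtain ⟨C, hC, hb⟩ := Fk_bounds hk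
  refine ⟨C + 2 * k ^ 2 + k ^ 4, by positivity, fun x hx0 hx => ?_⟩
  obtain ⟨h1, h2⟩ := hb x hx0 hx
  have hkx : 0 ≤ k ^ 2 * x := by positivity
  have hF : 0 < Fk k x := by linarith
  have h3 : 0 < 1 - x := by linarith
  have hx2 : 0 ≤ x ^ 2 := by positivity
  have hk20 : 0 ≤ k ^ 2 := by positivity
  have h4 : Real.log (1 - x) ≤ -x := by
    have := Real.log_le_sub_one_of_pos h3; linarith
  have h5 : -x - 2 * x ^ 2 ≤ Real.log (1 - x) := by
    have h8 := Real.one_sub_inv_le_log_of_pos h3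
    have h9 : 1 - (1 - x)⁻¹ = -(x / (1 - x)) := by field_simp; ring
    have h7 : x / (1 - x) ≤ x + 2 * x ^ 2 := by
      rw [div_le_iff₀ h3]
      nlinarith [mul_nonneg hx2 (by linarith : (0 : ℝ) ≤ 1 - 2 * x)]
    rw [h9] at h8
    linarith
  have h10 : Real.log (Fk k x) ≤ k ^ 2 * x + C * x ^ 2 := by
    have h11 := Real.log_le_sub_one_of_pos hF
    linarith
  have h13 : k ^ 2 * x - k ^ 4 * x ^ 2 ≤ Real.log (Fk k x) := by
    have h14 : Real.log (1 + k ^ 2 * x) ≤ Real.log (Fk k x) := Real.log_le_log (by linarith) h1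
    have h15 := Real.one_sub_inv_le_log_of_pos (show 0 < 1 + k ^ 2 * x by linarith)
    have h16 : k ^ 2 * x - (k ^ 2 * x) ^ 2 ≤ 1 - (1 + k ^ 2 * x)⁻¹ := by
      have h17 : 1 - (1 + k ^ 2 * x)⁻¹ = (k ^ 2 * x) / (1 + k ^ 2 * x) := by
        have : (1 + k ^ 2 * x) ≠ 0 := by linarith
        field_simp; ring
      rw [h17, le_div_iff₀ (by linarith)]
      have : 0 ≤ (k ^ 2 * x) ^ 3 := by positivity
      nlinarith
    have h18 : (k ^ 2 * x) ^ 2 = k ^ 4 * x ^ 2 := by ring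
    linarith
  have h19 := mul_le_mul_of_nonneg_left h4 hk20
  have h20 := mul_le_mul_of_nonneg_left h5 hk20
  have h21 : 0 ≤ k ^ 2 * x ^ 2 := by positivity
  have h22 : 0 ≤ k ^ 4 * x ^ 2 := by positivity
  have h23 : 0 ≤ C * x ^ 2 := by positivity
  rw [log_lf_eq hk hx0 hx, abs_le]
  constructor
  · nlinarith
  · nlinarith

lemma summable_log_lf {k : ℝ} (hk : 0 < k) :
    Summable fun p : Nat.Primes => Real.log (lf k (((p : ℕ) : ℝ)⁻¹)) := by
  obtain ⟨C, -, hb⟩ := abs_log_lf hk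
  refine Summable.of_norm_bounded (g := fun p : Nat.Primes => C * (((p : ℕ) : ℝ)⁻¹) ^ 2)
    (summable_prime_sq.mul_left _) fun p => ?_
  rw [Real.norm_eq_abs]
  exact hb _ (prime_inv p).1 (prime_inv p).2

lemma aK_exp {k : ℝ} (hk : 0 < k) :
    aK k = Real.exp (∑' p : Nat.Primes, Real.log (lf k (((p : ℕ) : ℝ)⁻¹))) := by
  rw [aK_eq]
  refine (Real.rexp_tsum_eq_tprod (fun p => ?_) (summable_log_lf hk)).symm
  exact lf_pos hk (prime_inv p).1 (prime_inv p).2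

theorem aK_pos {k : ℝ} (hk : 0 < k) : 0 < aK k := by
  rw [aK_exp hk]; exact Real.exp_pos _

lemma tendsto_lf {k : ℝ} (hk : 0 < k) :
    Tendsto (fun y : ℝ => ∏ p ∈ PS 0 y, lf k ((p : ℝ)⁻¹)) atTop (𝓝 (aK k)) := by
  have h1 := (summable_log_lf hk).hasSum.comp tendsto_PP
  have h2 := (Real.continuous_exp.tendsto _).comp h1
  rw [← aK_exp hk] at h2
  refine h2.congr fun y => ?_
  simp only [Function.comp_apply]
  rw [sum_PP y (fun p => Real.log (lf k ((p : ℝ)⁻¹))), Real.exp_sum]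
  refine Finset.prod_congr rfl fun p hp => ?_
  have hp2 := (K5.AKaux.mem_PS.mp hp).2
  have := prime_inv ⟨p, hp2⟩
  exact Real.exp_log (lf_pos hk this.1 this.2)

end AKgAux

open AKgAux CK K5.AKaux in
theorem stAKg (h : K5.StMertens) : StAKg := by
  intro k hk
  refine ⟨AKgAux.aK_pos hk, ?_, ?_⟩
  · have h1 := (((tendsto_ratio h).rpow_const (p := k ^ 2) (Or.inl one_ne_zero))).mul
      (AKgAux.tendsto_lf hk)
    rw [Real.one_rpow, one_mul] at h1
    refine h1.congr' ?_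
    filter_upwards [eventually_gt_atTop 1] with y hy
    have hL : 0 < Real.exp Real.eulerMascheroniConstant * Real.log y :=
      mul_pos (Real.exp_pos _) (Real.log_pos hy)
    rw [prod_Dl hk, Real.div_rpow (MM_pos y).le hL.le]
    ring
  · have h1 := (((tendsto_ratio h).rpow_const (p := k ^ 2 - 1) (Or.inl one_ne_zero))).mul
      (AKgAux.tendsto_lf hk)
    rw [Real.one_rpow, one_mul] at h1
    refine h1.congr' ?_
    filter_upwards [eventually_gt_atTop 1] with y hy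
    have hL : 0 < Real.exp Real.eulerMascheroniConstant * Real.log y :=
      mul_pos (Real.exp_pos _) (Real.log_pos hy)
    rw [Finset.prod_mul_distrib, prod_Dl hk, prod_one_sub,
      Real.div_rpow (MM_pos y).le hL.le, Real.rpow_sub (MM_pos y), Real.rpow_one]
    ring

end K10
end Pool.Agent.Lib.MP_973905_nt
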