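import Pool.Agent.Lib.MP_973905_nt.K10.Stmts
import Pool.Agent.Lib.MP_973905_nt.K8.Adm8

/-! Module N4 (K10): our data are admissible. -/

namespace Pool.Agent.Lib.MP_973905_nt
namespace K10

open MeasureTheory ProbabilityTheory Complex Filter Topology K1 K4 K5
open K8 (Cfg pe rk tk GW VT nb LG aZ aV rhoZ rho8 ETz SB8 BB8 lam8)

namespace Adm10Aux

variable {κ : ℝ}

theorem dk_ge (κ : ℝ) : κ * (1 + κ) ≤ dk κ := Nat.le_ceil _

theorem dk_two (h1 : 1 ≤ κ) : (2 : ℝ) ≤ dk κ := by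
  have h := dk_ge κ
  nlinarith

theorem th_pos (κ : ℝ) : 0 < th κ := by
  unfold th
  positivity

theorem th_mul (κ : ℝ) : th κ * (4085 / 1000 * dk κ + 1) = 44 / 100 := by
  unfold th
  exact div_mul_cancel₀ _ (by positivity)

/-- `κ th κ ≤ 11/200`. -/
theorem kth_le (h1 : 1 ≤ κ) : κ * th κ ≤ 11 / 200 := by
  have h2 := dk_ge κ
  have h3 := th_mul κ
  have h4 := th_pos κ
  have h5 : κ * 8 ≤ 4085 / 1000 * dk κ + 1 := by nlinarith
  have h6 : th κ * (κ * 8) ≤ th κ * (4085 / 1000 * dk κ + 1) :=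
    mul_le_mul_of_nonneg_left h5 h4.le
  linarith

theorem th_le (h1 : 1 ≤ κ) : th κ ≤ 11 / 200 := by
  have h2 := kth_le h1
  have h4 := th_pos κ
  nlinarith

end Adm10Aux

open Adm10Aux in
/-- Our data are admissible. -/
theorem stAdm10 (hA : StAh10) : StAdm10 := by
  intro κ h1
  have h0 : 0 < κ := by linarith
  have hth := th_pos κ
  have hd2 := dk_two h1
  have hdk := dk_ge κ
  obtain ⟨M₀, hM₀⟩ := exists_nat_ge (14 - Real.log (th κ))
  refine ⟨M₀, fun M hM => ?_⟩
  have hMr : (M₀ : ℝ) ≤ M := by exact_mod_cast hM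
  have hx : 14 ≤ (M : ℝ) + Real.log (th κ) := by linarith
  set N : ℕ := Nt κ M with hNdef
  have hN1 : (N : ℝ) ≤ (M : ℝ) + Real.log (th κ) := Nat.floor_le (by linarith)
  have hN2 : (M : ℝ) + Real.log (th κ) < N + 1 := Nat.lt_floor_add_one _
  have hN3 : (13 : ℝ) < N := by linarith
  have hN4 : 13 < N := by exact_mod_cast hN3
  -- the ends
  have hte : ∀ i, i < N → te10 κ M i = th κ * Real.exp (-(i : ℝ)) := fun i hi => if_pos hi
  have hteN : te10 κ M N = Real.exp (-(M : ℝ)) := if_neg (lt_irrefl _)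
  have hte0 : te10 κ M 0 = th κ := by
    rw [hte 0 (by omega), Nat.cast_zero, neg_zero, Real.exp_zero, mul_one]
  have htpos : ∀ i, 0 < te10 κ M i := by
    intro i
    unfold te10
    split_ifs
    · positivity
    · positivity
  have hV1 : ∀ i, i + 1 < N → Real.log (te10 κ M i / te10 κ M (i + 1)) = 1 := by
    intro i hi
    rw [hte i (by omega), hte (i + 1) hi, mul_div_mul_left _ _ hth.ne', ← Real.exp_sub,
      Real.log_exp]
    push_cast
    ring
  have hV2 : Real.log (te10 κ M (N - 1) / te10 κ M (N - 1 + 1)) =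
      Real.log (th κ) + M - N + 1 := by
    have h2 : N - 1 + 1 = N := by omega
    rw [h2, hte (N - 1) (by omega), hteN, Real.log_div (by positivity) (by positivity),
      Real.log_mul hth.ne' (by positivity), Real.log_exp, Real.log_exp,
      Nat.cast_sub (by omega), Nat.cast_one]
    ring
  have hDr : ∀ i, ((Dk κ i : ℕ) : ℝ) = (2 + i) * dk κ := by
    intro i
    unfold Dk
    push_cast
    ring
  have hVb : ∀ i, i < N → 1 ≤ Real.log (te10 κ M i / te10 κ M (i + 1)) ∧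
      Real.log (te10 κ M i / te10 κ M (i + 1)) ≤ 2 ∧
      2 * (κ * (1 + κ) * Real.log (te10 κ M i / te10 κ M (i + 1))) ≤ ((Dk κ i : ℕ) : ℝ) := by
    intro i hi
    have h5 : 0 ≤ κ * (1 + κ) := by positivity
    have h3 : (0 : ℝ) ≤ i := Nat.cast_nonneg i
    rcases Nat.lt_or_ge (i + 1) N with h | h
    · rw [hV1 i h]
      refine ⟨le_rfl, by norm_num, ?_⟩
      rw [hDr]
      nlinarith
    · have hi' : i = N - 1 := by omega
      subst hi'
      rw [hV2]
      refine ⟨by linarith, by linarith, ?_⟩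
      have h4 : Real.log (th κ) + M - N + 1 ≤ 2 := by linarith
      have h6 : κ * (1 + κ) * (Real.log (th κ) + M - N + 1) ≤ κ * (1 + κ) * 2 :=
        mul_le_mul_of_nonneg_left h4 h5
      have h7 : (2 : ℕ) ≤ N - 1 := by omega
      have h8 : (2 : ℝ) ≤ ((N - 1 : ℕ) : ℝ) := by exact_mod_cast h7
      rw [hDr]
      nlinarith
  have hdec : ∀ i, i < N → te10 κ M (i + 1) < te10 κ M i := by
    intro i hi
    have h2 := (hVb i hi).1
    have h3 : 0 < te10 κ M i / te10 κ M (i + 1) := div_pos (htpos _) (htpos _)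
    have h4 : Real.exp 1 ≤ te10 κ M i / te10 κ M (i + 1) := by
      rw [← Real.exp_log h3]
      exact Real.exp_le_exp.2 h2
    have h5 : 1 < te10 κ M i / te10 κ M (i + 1) := by linarith [K8.Adm8Aux.e_lb]
    rwa [lt_div_iff₀ (htpos _), one_mul] at h5
  have hDpos : ∀ i, (1 : ℝ) ≤ ((Dk κ i : ℕ) : ℝ) := by
    intro i
    rw [hDr]
    have h3 : (0 : ℝ) ≤ i := Nat.cast_nonneg i
    nlinarith
  -- the derivative term
  have hrho : rho8 (cfg10 κ M) ≤ 2 * κ * th κ := by
    have h2 : rho8 (cfg10 κ M) ≤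
        ∑ i ∈ Finset.range N, (te10 κ M i - te10 κ M (i + 1)) * (2 * κ) := by
      unfold rho8
      refine Finset.sum_le_sum fun i hi => ?_
      have hi' : i < N := Finset.mem_range.1 hi
      obtain ⟨hv1, hv2, hv3⟩ := hVb i hi'
      obtain ⟨ha, _, hb⟩ := hA κ (Real.log (te10 κ M i / te10 κ M (i + 1))) (Dk κ i) h1
        (by exact_mod_cast hDpos i) hv1 hv2 hv3
      refine mul_le_mul_of_nonneg_left ?_ (sub_nonneg.2 (hdec i hi').le)
      have hm : 0 < (((Dk κ i : ℕ) : ℝ) / κ) ^ (2 * (Dk κ i)) := by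
        have := hDpos i
        positivity
      have hpos : 0 < LG (Dk κ i) (Real.log (te10 κ M i / te10 κ M (i + 1)) +
          (((Dk κ i : ℕ) : ℝ) / κ - (1 + κ) * Real.log (te10 κ M i / te10 κ M (i + 1))))
          (Real.log (te10 κ M i / te10 κ M (i + 1))) := by
        have h5 : 0 < LG (Dk κ i) (Real.log (te10 κ M i / te10 κ M (i + 1)) +
          (((Dk κ i : ℕ) : ℝ) / κ - (1 + κ) * Real.log (te10 κ M i / te10 κ M (i + 1))))
          (Real.log (te10 κ M i / te10 κ M (i + 1))) /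
            (((Dk κ i : ℕ) : ℝ) / κ) ^ (2 * (Dk κ i)) :=
          lt_of_lt_of_le (by positivity) ha
        exact (div_pos_iff_of_pos_right hm).1 h5
      exact (div_le_iff₀ hpos).2 hb
    refine h2.trans ?_
    rw [← Finset.sum_mul, Finset.sum_range_sub' (te10 κ M) N, hte0]
    have h3 := htpos N
    nlinarith
  have hth1 := th_le h1
  have hkth := kth_le h1
  have hthm := th_mul κ
  -- budgets
  have hS : ∀ a b : ℝ, 0 ≤ a → 0 ≤ b →
      ∑ i ∈ Finset.range N, (a * ((Dk κ i : ℕ) : ℝ) + b) * te10 κ M i ≤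
        th κ * (a * (4085 / 1000 * dk κ) + b * (1582 / 1000)) := by
    intro a b ha hb
    have h2 : ∑ i ∈ Finset.range N, (a * ((Dk κ i : ℕ) : ℝ) + b) * te10 κ M i =
        th κ * (a * (dk κ * (2 * ∑ i ∈ Finset.range N, Real.exp (-(i : ℝ)) +
          ∑ i ∈ Finset.range N, (i : ℝ) * Real.exp (-(i : ℝ)))) +
          b * ∑ i ∈ Finset.range N, Real.exp (-(i : ℝ))) := by
      rw [Finset.mul_sum, Finset.mul_sum, ← Finset.sum_add_distrib, Finset.mul_sum,
        Finset.mul_sum, ← Finset.sum_add_distrib, Finset.mul_sum]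
      refine Finset.sum_congr rfl fun i hi => ?_
      rw [hte i (Finset.mem_range.1 hi), hDr]
      ring
    rw [h2]
    refine mul_le_mul_of_nonneg_left ?_ hth.le
    have h3 := K8.Adm8Aux.sum0 N
    have h4 := K8.Adm8Aux.sum1 N
    have h5 : (dk κ : ℝ) * (2 * ∑ i ∈ Finset.range N, Real.exp (-(i : ℝ)) +
        ∑ i ∈ Finset.range N, (i : ℝ) * Real.exp (-(i : ℝ))) ≤
        4085 / 1000 * dk κ := by
      have h6 : (dk κ : ℝ) * (2 * ∑ i ∈ Finset.range N, Real.exp (-(i : ℝ)) +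
        ∑ i ∈ Finset.range N, (i : ℝ) * Real.exp (-(i : ℝ))) ≤
          dk κ * (4085 / 1000) :=
        mul_le_mul_of_nonneg_left (by linarith) (Nat.cast_nonneg _)
      linarith
    exact add_le_add (mul_le_mul_of_nonneg_left h5 ha) (mul_le_mul_of_nonneg_left h3 hb)
  refine ⟨⟨?_, ?_, ?_, hteN, ?_, ?_, ?_, ?_, ?_, ?_, ?_⟩, hrho, hte0, hV1, ?_, ?_, ?_⟩
  · change 1 ≤ N
    omega
  · exact fun i _ => htpos i
  · exact hdec
  · change te10 κ M 0 ≤ 1 / 4
    rw [hte0]
    linarith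
  · intro i _
    exact_mod_cast hDpos i
  · intro i _
    have := hDpos i
    change 0 < ((Dk κ i : ℕ) : ℝ) / κ
    positivity
  · intro i hi
    obtain ⟨hv1, hv2, hv3⟩ := hVb i hi
    change ((Dk κ i : ℕ) : ℝ) ≤ 4 * κ * (Real.log (te10 κ M i / te10 κ M (i + 1)) +
      (((Dk κ i : ℕ) : ℝ) / κ - (1 + κ) * Real.log (te10 κ M i / te10 κ M (i + 1))))
    have h2 : κ * (((Dk κ i : ℕ) : ℝ) / κ) = ((Dk κ i : ℕ) : ℝ) := by field_simp
    have h3 : 0 ≤ κ * Real.log (te10 κ M i / te10 κ M (i + 1)) := by positivity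
    have h4 : 4 * κ * (Real.log (te10 κ M i / te10 κ M (i + 1)) +
      (((Dk κ i : ℕ) : ℝ) / κ - (1 + κ) * Real.log (te10 κ M i / te10 κ M (i + 1)))) =
      4 * (κ * (((Dk κ i : ℕ) : ℝ) / κ)) - 4 * (κ * κ *
        Real.log (te10 κ M i / te10 κ M (i + 1))) := by ring
    rw [h4, h2]
    nlinarith [hDpos i]
  · linarith
  · have h2 := hS 1 0 (by norm_num) le_rfl
    have h4 : ∑ i ∈ Finset.range (cfg10 κ M).N, ((cfg10 κ M).D i : ℝ) * (cfg10 κ M).te i =
        ∑ i ∈ Finset.range N, (1 * ((Dk κ i : ℕ) : ℝ) + 0) * te10 κ M i := by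
      refine Finset.sum_congr rfl fun i _ => ?_
      rw [one_mul, add_zero]
      rfl
    rw [h4]
    refine h2.trans ?_
    linarith
  · have h2 := hS 2 1 (by norm_num) (by norm_num)
    have h4 : ∑ i ∈ Finset.range (cfg10 κ M).N, ((rk κ (cfg10 κ M) i : ℝ) + 1) * (cfg10 κ M).te i ≤
        ∑ i ∈ Finset.range N, (2 * ((Dk κ i : ℕ) : ℝ) + 1) * te10 κ M i := by
      refine Finset.sum_le_sum fun i _ => ?_
      refine mul_le_mul_of_nonneg_right ?_ (htpos i).le
      have h5 : (rk κ (cfg10 κ M) i : ℝ) ≤ ((Dk κ i : ℕ) : ℝ) * pe κ := by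
        refine Nat.floor_le ?_
        unfold pe
        have := hDpos i
        change 0 ≤ ((Dk κ i : ℕ) : ℝ) * ((1 + κ) / κ)
        positivity
      have h6 : pe κ ≤ 2 := by
        unfold pe
        rw [div_le_iff₀ h0]
        linarith
      have h7 : ((Dk κ i : ℕ) : ℝ) * pe κ ≤ ((Dk κ i : ℕ) : ℝ) * 2 :=
        mul_le_mul_of_nonneg_left h6 (Nat.cast_nonneg _)
      linarith
    refine h4.trans (h2.trans ?_)
    linarith
  · exact (hVb (N - 1) (by omega)).1
  · exact (hVb (N - 1) (by omega)).2.1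
  · change (M : ℝ) + Real.log (th κ) - 1 ≤ N
    linarith

end K10
end Pool.Agent.Lib.MP_973905_nt
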