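import Pool.Agent.Lib.MP_973905_nt.K10.Stmts
import Pool.Agent.Lib.MP_973905_nt.K8.Ah

/-! Module N1 (K10): the factor of a top block on the side of zeta, all orders `k ≥ 2`. The lemmas
of `K8.AhX` hold for every `κ > 0`. -/

namespace Pool.Agent.Lib.MP_973905_nt
namespace K10

open MeasureTheory ProbabilityTheory Complex Filter Topology K1 K4 K5
open K8 (Cfg pe rk tk GW VT nb LG aZ aV rhoZ rho8 ETz SB8 BB8 lam8)

theorem stAh10 (hF : K8.StFock) : StAh10 := by
  intro κ V D hκ hD hV1 hV2 hbig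
  have h0 : 0 < κ := by linarith
  have hV : 0 < V := by linarith
  have hy : V + ((D : ℝ) / κ - (1 + κ) * V) = (D : ℝ) / κ - κ * V := by ring
  rw [hy]
  have hlt : κ ^ 2 * V < D := by
    have h1 : 0 < κ * V := by positivity
    have h2 : 0 < κ ^ 2 * V := by positivity
    nlinarith
  have hy0 : 0 < (D : ℝ) / κ - κ * V := by
    have : κ * ((D : ℝ) / κ - κ * V) = D - κ ^ 2 * V := by field_simp
    have h2 : 0 < κ * ((D : ℝ) / κ - κ * V) := by rw [this]; linarith
    exact (pos_iff_pos_of_mul_pos h2).1 h0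
  refine ⟨?_, K8.AhX.deriv_nonneg hV.le hy0.le, K8.AhX.deriv_le h0 hV hlt⟩
  refine le_trans ?_ (K8.AhX.lower hF h0 hV hD)
  have h3 : 0 ≤ κ ^ 4 * V ^ 2 / (2 * (D : ℝ) ^ 2) := by positivity
  exact le_mul_of_one_le_right (Real.exp_pos _).le (by linarith)

end K10
end Pool.Agent.Lib.MP_973905_nt
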