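import Pool.Agent.Lib.MP_973905_nt.K10.Base
import Pool.Agent.Lib.MP_973905_nt.K8.BQZ

/-! Module (Z5) of folder K10: the weight `|GW|²` is a polynomial of two variables of length
`T^{0.89}` with small coefficients. -/

namespace Pool.Agent.Lib.MP_973905_nt
namespace K10

open MeasureTheory ProbabilityTheory Complex Filter Topology K1 K4 K5
open K8 (Cfg pe rk tk GW VT nb LG aZ aV rhoZ rho8 ETz SB8 BB8 lam8)

namespace BQ10x

open K5.BQx K8.BQZx

/-- The product over the top blocks. -/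
lemma prod_icz10 {κ : ℝ} {M : ℕ} {C : Cfg} (hC : Adm κ M C) (n : ℕ) (hn : n ≤ C.N) :
    ∃ K : ℝ, 0 ≤ K ∧ ∀ T : ℝ, 1 ≤ T →
    IC (WA (∑ i ∈ Finset.range n, 2 * C.D i)
      (Real.exp ((∑ i ∈ Finset.range n, (2 * (C.D i : ℝ)) * C.te i) * Real.log T))) K
      (fun f => ((∏ i ∈ Finset.range n, ‖C.z T i f‖ ^ (2 * C.D i) : ℝ) : ℂ)) := by
  induction n with
  | zero =>
    refine ⟨1, zero_le_one, fun T _ => ?_⟩
    refine (IC.one ?_).congr fun f _ => by simp
    simp [WA]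
  | succ n ih =>
    obtain ⟨K, hK, h⟩ := ih (by omega)
    obtain ⟨L, hL, h'⟩ := sq_ic (∑ i ∈ Finset.range n, 2 * C.D i) (C.D n) (C.c n) (C.m n)
    refine ⟨L * K, mul_nonneg hL hK, fun T hT => ?_⟩
    have hlog : 0 ≤ Real.log T := Real.log_nonneg hT
    have h1 := h' (Real.exp_pos _).le (y := Real.exp (C.te n * Real.log T))
      (Real.one_le_exp (mul_nonneg (hC.hpos n (by omega)).le hlog)) (h T hT) (C.U T n)
      (fun p hp => (Blk10.mem_U.mp hp).1) (fun p hp => (Blk10.mem_U.mp hp).2.2)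
    refine (h1.mono (WA_mono ?_ ?_) le_rfl).congr fun f _ => ?_
    · rw [Finset.sum_range_succ]
    · rw [Finset.sum_range_succ, ← Real.exp_nat_mul, ← Real.exp_add]
      apply le_of_eq
      congr 1
      push_cast
      ring
    · rw [Finset.prod_range_succ, mul_comm, ofReal_mul]
      rfl

end BQ10x

open BQ10x K8.BQZx K5.BQx in
/-- (Z5) our weight belongs to the class -/
theorem stBQ10 (h : StShortg) : StBQ10 := by
  intro κ hk1
  obtain ⟨M₀, hM₀⟩ := h κ (1 / 4000) (by norm_num)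
  refine ⟨M₀, fun M hM C hC => ?_⟩
  obtain ⟨T₁, hT₁3, hT₁⟩ := hM₀ M hM
  obtain ⟨K, hK0, hK⟩ := prod_icz10 hC C.N le_rfl
  have hev : ∀ᶠ T : ℝ in atTop, K ≤ T ^ (1 / 2000 : ℝ) :=
    (tendsto_rpow_atTop (by norm_num)).eventually_ge_atTop _
  obtain ⟨T₂, hT₂⟩ := eventually_atTop.mp hev
  refine ⟨max T₁ T₂, hT₁3.trans (le_max_left _ _), fun T hT => ?_⟩
  have hT1 : T₁ ≤ T := (le_max_left _ _).trans hT
  have hT2 := hT₂ T ((le_max_right _ _).trans hT)
  have hT3 : 3 ≤ T := hT₁3.trans hT1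
  have hT0 : 0 < T := by linarith
  have hL : 0 ≤ Real.log T := Real.log_nonneg (by linarith)
  have hG : DP (T ^ (1 / 4000 : ℝ)) (T ^ (1 / 4000 : ℝ)) (NN T M κ) :=
    hT₁ T hT1 κ (by rw [abs_le]; constructor <;> linarith) _ _
  have h1 : IC (K5.BQx.WB (T ^ (88 / 100 : ℝ))) K
      (fun f => ((∏ i ∈ Finset.range C.N, ‖C.z T i f‖ ^ (2 * C.D i) : ℝ) : ℂ)) := by
    refine (hK T (by linarith)).mono (fun x hx => ⟨hx.1, hx.2.1, hx.2.2.1.trans ?_⟩) le_rfl
    rw [Real.rpow_def_of_pos hT0]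
    apply Real.exp_le_exp.mpr
    rw [mul_comm (Real.log T)]
    apply mul_le_mul_of_nonneg_right _ hL
    have h2 := hC.bud1
    have h3 : ∑ i ∈ Finset.range C.N, (2 * (C.D i : ℝ)) * C.te i =
        2 * ∑ i ∈ Finset.range C.N, (C.D i : ℝ) * C.te i := by
      rw [Finset.mul_sum]
      exact Finset.sum_congr rfl fun i _ => by ring
    rw [h3]
    linarith
  have h2 := h1.dp hG
  apply IC.bq
  refine (h2.mono (fun x hx => ⟨hx.1, hx.2.1, hx.2.2.trans ?_⟩) ?_).congr fun f _ => ?_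
  · calc T ^ (1 / 4000 : ℝ) * T ^ (1 / 4000 : ℝ) * K
        ≤ T ^ (1 / 4000 : ℝ) * T ^ (1 / 4000 : ℝ) * T ^ (1 / 2000 : ℝ) := by gcongr
      _ = T ^ (1 / 1000 : ℝ) := by
        rw [← Real.rpow_add hT0, ← Real.rpow_add hT0]
        norm_num
  · rw [GW, mul_conj, normSq_eq_norm_sq, ← ofReal_mul]
    congr 1
    rw [norm_mul, mul_pow, norm_prod, ← Finset.prod_pow]
    congr 1
    refine Finset.prod_congr rfl fun i _ => ?_
    rw [norm_pow, ← pow_mul, mul_comm 2]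
  · rw [← Real.rpow_add hT0, ← Real.rpow_add hT0]
    apply Real.rpow_le_rpow_of_exponent_le (by linarith)
    norm_num

end K10
end Pool.Agent.Lib.MP_973905_nt
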