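import Pool.Agent.Lib.MP_973905_nt.K10.Stmts
import Pool.Agent.Lib.MP_973905_nt.K8.BadN

/-! K10, module V3: the mean of the correction in a bottom block. -/

namespace Pool.Agent.Lib.MP_973905_nt
namespace K10

open MeasureTheory ProbabilityTheory Complex Filter Topology K1 K4 K5
open K8 (Cfg pe rk tk GW VT nb LG aZ aV rhoZ rho8 ETz SB8 BB8 lam8)

theorem stBadN10 : StBadN10 := by
  intro κ hκ
  have hκ0 : 0 < κ := by linarith
  have hp : 1 ≤ pe κ := by
    rw [K8.pe, le_div_iff₀ hκ0]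
    linarith
  set p := pe κ with hpdef
  set q : ℝ := 11 * p * (1 + κ) * Real.exp 2 with hq
  have hq0 : 0 < q := by positivity
  obtain ⟨C, hC, hexp⟩ := K7.WMean.exp_mom (q := q) hq0.le
  obtain ⟨M₀, hM₀⟩ := block_cond (C + 1) (by linarith)
  refine ⟨max M₀ 2, fun M hM => ?_⟩
  obtain ⟨T₀, hT₀, hb⟩ := hM₀ M ((le_max_left _ _).trans hM)
  have hM2 : 2 ≤ M := (le_max_right _ _).trans hM
  refine ⟨T₀, hT₀, fun T hT j hj => ?_⟩
  have hT1 : 1 < T := by linarith
  set K := KK M (JJ T) j with hK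
  set l := ll M (JJ T) j with hl
  set S := Sj T M (JJ T) j with hS
  set n := nb κ T M j with hn
  have hK2 : 2 ≤ K := by
    have h1 := KK_ge_M (M := M) hj
    have h2 := Real.add_one_le_exp (3 / 4 * (M : ℝ))
    have h3 : (2 : ℝ) ≤ M := by exact_mod_cast hM2
    linarith
  have hK0 : 0 < K := by linarith
  have hl1 : 10 * K ≤ (l : ℝ) := Nat.le_ceil _
  have hl2 : (l : ℝ) ≤ 10 * K + 1 := (Nat.ceil_lt_add_one (by positivity)).le
  have hn1 : p * l ≤ (n : ℝ) := Nat.le_ceil _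
  have hn2 : (n : ℝ) ≤ p * l + 1 := (Nat.ceil_lt_add_one (by positivity)).le
  have hn3 : (n : ℝ) ≤ 11 * p * K := by nlinarith
  have hK'0 : 0 < K / (1 + κ) := by positivity
  have hn4 : (n : ℝ) ≤ q * (K / (1 + κ)) * Real.exp (-2) := by
    have : q * (K / (1 + κ)) * Real.exp (-2) = 11 * p * K := by
      rw [hq, Real.exp_neg]
      field_simp
    rw [this]
    exact hn3
  have hn5 : 10 * (p * K) ≤ (n : ℝ) := by nlinarith
  have hprime : ∀ x ∈ S, x.Prime := fun x hx => prime_Sj hT1 hx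
  have h1 := hexp M S (by omega) hprime
  have h2 := (hb T hT j hj (1 / 2) le_rfl).1
  have e1 : ∑ x ∈ S, (x : ℝ) ^ (-(2 * (1 / 2 : ℝ))) = ∑ x ∈ S, (1 : ℝ) / x := by
    refine Finset.sum_congr rfl fun x _ => ?_
    rw [show -(2 * (1 / 2 : ℝ)) = -1 by norm_num, Real.rpow_neg_one, one_div]
  rw [e1] at h2
  have hs0 : 0 ≤ ∑ x ∈ S, (1 : ℝ) / x := Finset.sum_nonneg fun x _ => by positivity
  have h3 : ES S (fun f => Real.exp (q * ‖Pj M S (tw (1 / 2) f)‖) ^ 2) ≤ Real.exp ((l : ℝ) / 2) := by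
    refine h1.trans (le_trans ?_ h2)
    gcongr
    linarith
  have h4 : ES S (fun f => ‖(((1 + κ : ℝ) : ℂ) * Pj M S (tw (1 / 2) f) / (K : ℂ)) ^ n‖ ^ 2) ≤
      ES S (fun f => Real.exp (-(4 * n)) * Real.exp (q * ‖Pj M S (tw (1 / 2) f)‖) ^ 2) := by
    refine ES_mono (fun ω => by positivity)
      ((K7.WMean.bs_exp M S hq0.le).integrable.const_mul _) fun ω => ?_
    rw [norm_pow, norm_div, norm_mul, Complex.norm_real, Complex.norm_real,
      Real.norm_of_nonneg hK0.le, Real.norm_of_nonneg (by positivity : (0 : ℝ) ≤ 1 + κ)]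
    have h6 : ∀ x : ℝ, (1 + κ) * x / K = x / (K / (1 + κ)) := fun x => by field_simp
    rw [h6]
    exact K8.BadN.pow_le hq0 (norm_nonneg _) hK'0 hn4
  rw [ES_const_mul] at h4
  calc Real.exp (2 * p * K) *
        ES S (fun f => ‖(((1 + κ : ℝ) : ℂ) * Pj M S (tw (1 / 2) f) / (K : ℂ)) ^ n‖ ^ 2)
      ≤ Real.exp (2 * p * K) * (Real.exp (-(4 * n)) * Real.exp ((l : ℝ) / 2)) := by
        gcongr
        exact h4.trans (by gcongr)
    _ = Real.exp (2 * p * K + (-(4 * n) + (l : ℝ) / 2)) := by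
        rw [← Real.exp_add, ← Real.exp_add]
    _ ≤ Real.exp (-K) := by
        apply Real.exp_le_exp.2
        have h5 : K ≤ p * K := by nlinarith
        linarith

end K10
end Pool.Agent.Lib.MP_973905_nt
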