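import Pool.Agent.Lib.MP_973905_nt.K10.Stmts
import Pool.Agent.Lib.MP_973905_nt.K9.NB

/-! (N3) The factor of a block, side without zeta. -/

namespace Pool.Agent.Lib.MP_973905_nt
namespace K10

open MeasureTheory ProbabilityTheory Complex Filter Topology K1 K4 K5
open K8 (Cfg pe rk tk GW VT nb LG aZ aV rhoZ rho8 ETz SB8 BB8 lam8)

namespace Bh10x

/-- the bound for the derivative of one mean square -/
lemma bd (h : K9.StCrudeD) (hP : StPart10) (a l τ v : ℝ) (n : ℕ) (ha : 0 < a) (hl : 0 < l)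
    (hu1 : a / l ≤ 1 / 8) (hn : 1 ≤ n) (hτ : (n : ℝ) = τ + l / a) (h1 : -1 ≤ τ) (h2 : τ ≤ 1)
    (hv : 0 ≤ v) (hy : a * l * v ≤ 1 / 2) :
    ∑' j : ℕ, ((j + 1 : ℕ) : ℝ) ^ 2 * K8.dcf a l n (j + 1) ^ 2 * (j.factorial : ℝ) * v ^ j ≤
      a * l * (a * l * v / (1 - a * l * v) * (1 + a * l * v / (1 - a * l * v)) +
        a / l * (3 / 10 + 2 * (a * l * v / (1 - a * l * v)) * (1 - a * l * v / (1 - a * l * v)) *
          (1 + a * l * v / (1 - a * l * v)) * τ +
          6 / 5 * (1 + (a * l * v / (1 - a * l * v)) ^ 2) * τ ^ 2)) := by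
  set y : ℝ := a * l * v with hyd
  have hy0 : 0 ≤ y := by positivity
  have hw : 0 < 1 - y := by linarith
  set r : ℝ := y / (1 - y) with hr
  have hr0 : 0 ≤ r := by positivity
  have hr1 : r ≤ 1 := by
    rw [hr, div_le_iff₀ hw]
    linarith
  set u : ℝ := a / l with hu
  have hu0 : 0 ≤ u := by positivity
  have hE : 0 < 1 + (1 - τ) * u * r := by
    have : 0 ≤ (1 - τ) * u * r := mul_nonneg (mul_nonneg (by linarith) hu0) hr0
    linarith
  set E : ℝ := 1 + (1 - τ) * u * r with hEd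
  have ha0 : a ≠ 0 := ha.ne'
  have hl0 : l ≠ 0 := hl.ne'
  have hw0 : 1 - y ≠ 0 := hw.ne'
  have hE0 : E ≠ 0 := hE.ne'
  have hD : 1 - ((n : ℝ) - 1) * a ^ 2 * v = (1 - y) * E := by
    rw [hEd, hr, hτ, hu]
    field_simp
    rw [hyd]
    ring
  have hDp : 0 < (1 - y) * E := mul_pos hw hE
  have hlt : ((n : ℝ) - 1) * a ^ 2 * v < 1 := by linarith
  have k1 := (h a l v n ha hn hv hlt).2.2
  have k2 := hP τ r u h1 h2 hr0 hr1 hu0 hu1
  rw [hD] at k1
  have e1 : l - ((n : ℝ) - 1) * a = (1 - τ) * a := by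
    rw [hτ]
    field_simp
    ring
  have e2 : (n : ℝ) - l / a = τ := by rw [hτ]; ring
  rw [e1, e2] at k1
  have e3 : ((1 - τ) * a) ^ 2 * v / ((1 - y) * E) = (1 - τ) ^ 2 * u * r / E := by
    rw [hr, hu, hyd]
    rw [hyd] at hw0
    field_simp
  have e4 : a ^ 2 * (1 / ((1 - y) * E)) * Real.exp ((1 - τ) ^ 2 * u * r / E) *
      ((τ + l * ((1 - τ) * a) * v / ((1 - y) * E)) ^ 2 + l ^ 2 * v / ((1 - y) * E)) =
      a * l * ((1 + r) / E * Real.exp ((1 - τ) ^ 2 * u * r / E) *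
        (u * (τ + (1 - τ) * r / E) ^ 2 + r / E)) := by
    have f1 : 1 + r = 1 / (1 - y) := by
      rw [hr]
      field_simp
      ring
    have f2 : l * ((1 - τ) * a) * v / ((1 - y) * E) = (1 - τ) * r / E := by
      rw [hr, hyd]
      rw [hyd] at hw0
      field_simp
    have f3 : l ^ 2 * v / ((1 - y) * E) = l / a * (r / E) := by
      rw [hr, hyd]
      rw [hyd] at hw0
      field_simp
    rw [f1, f2, f3, hu]
    generalize Real.exp ((1 - τ) ^ 2 * (a / l) * r / E) = X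
    generalize (τ + (1 - τ) * r / E) ^ 2 = Y
    field_simp
  rw [e3, e4] at k1
  refine k1.trans ?_
  exact mul_le_mul_of_nonneg_left k2 (mul_pos ha hl).le

/-- the value of the series at `0` -/
lemma at_zero (a l : ℝ) (n : ℕ) :
    ∑' j : ℕ, K8.dcf a l n j ^ 2 * (j.factorial : ℝ) * (0 : ℝ) ^ j = 1 := by
  rw [tsum_eq_single 0]
  · have : K8.dcf a l n 0 = 1 := rfl
    simp [this]
  · intro j hj
    rw [zero_pow hj, mul_zero]

/-- the bound for the weighted sum -/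
lemma main (h : K9.StCrudeD) (hP : StPart10) (a l t V : ℝ) (m : ℕ) (ha : 0 < a) (hl : 0 < l)
    (hu1 : a / l ≤ 1 / 8) (hm : 1 ≤ m) (hmt : l / a = m + t) (ht0 : 0 ≤ t) (ht1 : t ≤ 1)
    (hV : 1 ≤ V) (hy : a * l * V ≤ 1 / 2) :
    (1 - t) * ∑' j : ℕ, K8.dcf a l m j ^ 2 * (j.factorial : ℝ) * V ^ j +
      t * ∑' j : ℕ, K8.dcf a l (m + 1) j ^ 2 * (j.factorial : ℝ) * V ^ j ≤
      1 / (1 - a * l * V) + Real.log (1 - a * l * V) + a ^ 2 * V := by
  have ha0 : a ≠ 0 := ha.ne'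
  have hl0 : l ≠ 0 := hl.ne'
  have hV0 : 0 ≤ V := by linarith
  have hlt : ∀ v : ℝ, 0 ≤ v → v ≤ V + 1 / 2 → ∀ n : ℕ, n ≤ m + 1 →
      ((n : ℝ) - 1) * a ^ 2 * v < 1 := by
    intro v hv0 hv n hn
    have hn' : (n : ℝ) ≤ m + 1 := by exact_mod_cast hn
    have q1 : ((n : ℝ) - 1) * a ≤ l := by
      have q0 : (n : ℝ) - 1 ≤ l / a := by rw [hmt]; linarith
      calc ((n : ℝ) - 1) * a ≤ l / a * a := mul_le_mul_of_nonneg_right q0 ha.le
        _ = l := by field_simp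
    have hlv : 0 ≤ a * v := by positivity
    have q2 : ((n : ℝ) - 1) * a * (a * v) ≤ l * (a * v) := mul_le_mul_of_nonneg_right q1 hlv
    have hal : 0 < a * l := mul_pos ha hl
    have q3 : a * l * v ≤ a * l * (3 / 2 * V) := mul_le_mul_of_nonneg_left (by linarith) hal.le
    calc ((n : ℝ) - 1) * a ^ 2 * v = ((n : ℝ) - 1) * a * (a * v) := by ring
      _ ≤ l * (a * v) := q2
      _ = a * l * v := by ring
      _ ≤ a * l * (3 / 2 * V) := q3
      _ = 3 / 2 * (a * l * V) := by ring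
      _ ≤ 3 / 2 * (1 / 2) := by linarith
      _ < 1 := by norm_num
  have n2 : 1 ≤ m + 1 := by omega
  have hder : ∀ n : ℕ, 1 ≤ n → n ≤ m + 1 → ∀ v : ℝ, 0 ≤ v → v ≤ V →
      HasDerivAt (fun v => ∑' j : ℕ, K8.dcf a l n j ^ 2 * (j.factorial : ℝ) * v ^ j)
        (∑' j : ℕ, ((j + 1 : ℕ) : ℝ) ^ 2 * K8.dcf a l n (j + 1) ^ 2 * (j.factorial : ℝ) *
          v ^ j) v := by
    intro n hn hn2 v hv0 hv
    have hs := (h a l (V + 1 / 2) n ha hn (by linarith) (hlt _ (by linarith) le_rfl n hn2)).2.1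
    have e : ∀ (j : ℕ) (w : ℝ), ((j + 1 : ℕ) : ℝ) ^ 2 * K8.dcf a l n (j + 1) ^ 2 *
        (j.factorial : ℝ) * w ^ j = ((j + 1 : ℕ) : ℝ) *
          (K8.dcf a l n (j + 1) ^ 2 * ((j + 1).factorial : ℝ)) * w ^ j := by
      intro j w
      rw [Nat.factorial_succ]
      push_cast
      ring
    simp only [e] at hs ⊢
    exact K9.NBx.deriv_ser (fun j => K8.dcf a l n j ^ 2 * (j.factorial : ℝ))
      (fun j => by positivity) (V + 1 / 2) hs v (by rw [abs_of_nonneg hv0]; linarith)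
  set S : ℕ → ℝ → ℝ := fun n v => ∑' j : ℕ, K8.dcf a l n j ^ 2 * (j.factorial : ℝ) * v ^ j with hS
  set S' : ℕ → ℝ → ℝ := fun n v => ∑' j : ℕ, ((j + 1 : ℕ) : ℝ) ^ 2 *
    K8.dcf a l n (j + 1) ^ 2 * (j.factorial : ℝ) * v ^ j with hS'
  set G : ℝ → ℝ := fun v => (1 - t) * S m v + t * S (m + 1) v -
    (1 / (1 - a * l * v) + Real.log (1 - a * l * v) + a ^ 2 * v) with hG
  have hal : 0 < a * l := mul_pos ha hl
  have hyv : ∀ v : ℝ, v ≤ V → a * l * v ≤ 1 / 2 := fun v hv =>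
    (mul_le_mul_of_nonneg_left hv hal.le).trans hy
  have hGd : ∀ v : ℝ, 0 ≤ v → v ≤ V → HasDerivAt G ((1 - t) * S' m v +
      t * S' (m + 1) v - (a * l / (1 - a * l * v) ^ 2 + -(a * l) / (1 - a * l * v) +
        a ^ 2)) v := by
    intro v hv0 hv
    have hp : 0 < 1 - a * l * v := by linarith [hyv v hv]
    have d1 := hder m hm (by omega) v hv0 hv
    have d2 := hder (m + 1) n2 le_rfl v hv0 hv
    have a1 : HasDerivAt (fun v : ℝ => a * l * v) (a * l) v := by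
      simpa using (hasDerivAt_id v).const_mul (a * l)
    have a2 : HasDerivAt (fun v : ℝ => 1 - a * l * v) (-(a * l)) v := by
      simpa using a1.const_sub 1
    have a3 : HasDerivAt (fun v : ℝ => 1 / (1 - a * l * v)) (a * l / (1 - a * l * v) ^ 2) v := by
      have h5 := a2.fun_inv hp.ne'
      rw [neg_neg] at h5
      exact h5.congr_of_eventuallyEq (Filter.Eventually.of_forall fun w => one_div _)
    have a4 := a2.log hp.ne'
    have a5 : HasDerivAt (fun v : ℝ => a ^ 2 * v) (a ^ 2) v := by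
      simpa using (hasDerivAt_id v).const_mul (a ^ 2)
    exact ((d1.const_mul (1 - t)).add (d2.const_mul t)).sub ((a3.add a4).add a5)
  have hanti : AntitoneOn G (Set.Icc 0 V) := by
    refine antitoneOn_of_deriv_nonpos (convex_Icc 0 V) ?_ ?_ ?_
    · exact fun v hv => (hGd v hv.1 hv.2).continuousAt.continuousWithinAt
    · intro v hv
      rw [interior_Icc] at hv
      exact (hGd v hv.1.le hv.2.le).differentiableAt.differentiableWithinAt
    · intro v hv
      rw [interior_Icc] at hv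
      rw [(hGd v hv.1.le hv.2.le).deriv]
      have hv0 := hv.1.le
      have hy := hyv v hv.2.le
      have hp : 0 < 1 - a * l * v := by linarith
      have b1 := bd h hP a l (-t) v m ha hl hu1 hm (by rw [hmt]; ring)
        (by linarith) (by linarith) hv0 hy
      have b2 := bd h hP a l (1 - t) v (m + 1) ha hl hu1 n2 (by rw [hmt]; push_cast; ring)
        (by linarith) (by linarith) hv0 hy
      have c1 := mul_le_mul_of_nonneg_left b1 (by linarith : 0 ≤ 1 - t)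
      have c2 := mul_le_mul_of_nonneg_left b2 ht0
      have hr : a * l / (1 - a * l * v) ^ 2 + -(a * l) / (1 - a * l * v) =
          a * l * (a * l * v / (1 - a * l * v) * (1 + a * l * v / (1 - a * l * v))) := by
        field_simp
        ring
      rw [hr]
      have hr0 : 0 ≤ a * l * v / (1 - a * l * v) := by positivity
      have hr1 : a * l * v / (1 - a * l * v) ≤ 1 := by
        rw [div_le_iff₀ hp]
        linarith
      set r : ℝ := a * l * v / (1 - a * l * v) with hrd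
      have c3 : (1 - t) * (a * l * (r * (1 + r) + a / l * (3 / 10 + 2 * r * (1 - r) * (1 + r) *
          (-t) + 6 / 5 * (1 + r ^ 2) * (-t) ^ 2))) + t * (a * l * (r * (1 + r) + a / l *
          (3 / 10 + 2 * r * (1 - r) * (1 + r) * (1 - t) +
            6 / 5 * (1 + r ^ 2) * (1 - t) ^ 2))) =
          a * l * (r * (1 + r)) + a ^ 2 * (3 / 10 + 6 / 5 * (1 + r ^ 2) * (t * (1 - t))) := by
        field_simp
        ring
      have c4 : t * (1 - t) ≤ 1 / 4 := by nlinarith [sq_nonneg (2 * t - 1)]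
      have c4' : 0 ≤ t * (1 - t) := mul_nonneg ht0 (by linarith)
      have c6 : 1 + r ^ 2 ≤ 2 := by nlinarith
      have c7 : (1 + r ^ 2) * (t * (1 - t)) ≤ 2 * (1 / 4) :=
        mul_le_mul c6 c4 c4' (by norm_num)
      have c5 : a ^ 2 * (3 / 10 + 6 / 5 * (1 + r ^ 2) * (t * (1 - t))) ≤ a ^ 2 * 1 := by
        refine mul_le_mul_of_nonneg_left ?_ (sq_nonneg a)
        nlinarith
      simp only [hS']
      linarith
  have hfin := hanti (Set.left_mem_Icc.2 hV0) (Set.right_mem_Icc.2 hV0) hV0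
  have hG0 : G 0 = 0 := by
    simp only [hG, hS, at_zero]
    simp
  rw [hG0] at hfin
  simp only [hG, hS] at hfin
  linarith

end Bh10x

open Bh10x

theorem stBh10 (h1 : K8.StFock) (h2 : K9.StCrudeD) (h3 : StPart10) : StBh10 := by
  intro κ V D hκ hD hV1 hV2 hDV
  have hκ0 : 0 < κ := by linarith
  have hk0 : 0 < 1 + κ := by linarith
  have hDr : (1 : ℝ) ≤ D := by exact_mod_cast hD
  have hDp : (0 : ℝ) < D := by linarith
  have hV0 : 0 < V := by linarith
  set a : ℝ := κ / D with had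
  have ha : 0 < a := div_pos hκ0 hDp
  have hla : (1 + κ) / a = (D : ℝ) * pe κ := by
    rw [had, K8.pe]
    field_simp
  have hinv : (D : ℝ) / κ = 1 / a := by
    rw [had]
    field_simp
  set m : ℕ := ⌊(D : ℝ) * pe κ⌋₊ with hm
  have hpe1 : 1 ≤ pe κ := by
    rw [K8.pe, le_div_iff₀ hκ0]
    linarith
  have hDpe : (1 : ℝ) ≤ (D : ℝ) * pe κ := by nlinarith
  have hfl : (m : ℝ) ≤ (D : ℝ) * pe κ := Nat.floor_le (by linarith)
  have hfl2 : (D : ℝ) * pe κ < m + 1 := Nat.lt_floor_add_one _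
  have hm1 : 1 ≤ m := Nat.le_floor (by exact_mod_cast hDpe)
  set t : ℝ := (D : ℝ) * pe κ - m with ht
  have hx : a * (1 + κ) * V = κ * (1 + κ) * V / D := by
    rw [had]
    ring
  have hx2 : κ * (1 + κ) * V / D ≤ 1 / 2 := by
    rw [div_le_iff₀ hDp]
    linarith
  have hu : a / (1 + κ) ≤ 1 / 8 := by
    rw [had, div_div, div_le_iff₀ (mul_pos hDp hk0)]
    have q1 : 2 * (κ * (1 + κ)) ≤ D := by nlinarith [mul_pos hκ0 hk0]
    nlinarith
  have hmain := main h2 h3 a (1 + κ) t V m ha hk0 hu hm1 (by rw [hla, ht]; ring)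
    (by rw [ht]; linarith) (by rw [ht]; linarith) hV1 (by rw [hx]; exact hx2)
  have hF : ∀ n : ℕ, LG n ((D : ℝ) / κ - (1 + κ) * V) V / ((D : ℝ) / κ) ^ (2 * n) =
      Real.exp (-((1 + κ) ^ 2 * V)) *
        ∑' j : ℕ, K8.dcf a (1 + κ) n j ^ 2 * (j.factorial : ℝ) * V ^ j := by
    intro n
    rw [(h1 a (1 + κ) V n ha hV0).tsum_eq, ← mul_assoc, ← Real.exp_add, neg_add_cancel,
      Real.exp_zero, one_mul, hinv, one_div_pow, div_div_eq_mul_div, div_one, mul_comm]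
  rw [hF, hF]
  have e1 : (1 - t) * (Real.exp (-((1 + κ) ^ 2 * V)) *
        ∑' j : ℕ, K8.dcf a (1 + κ) m j ^ 2 * (j.factorial : ℝ) * V ^ j) +
      t * (Real.exp (-((1 + κ) ^ 2 * V)) *
        ∑' j : ℕ, K8.dcf a (1 + κ) (m + 1) j ^ 2 * (j.factorial : ℝ) * V ^ j) =
      Real.exp (-((1 + κ) ^ 2 * V)) * ((1 - t) *
        (∑' j : ℕ, K8.dcf a (1 + κ) m j ^ 2 * (j.factorial : ℝ) * V ^ j) +
      t * ∑' j : ℕ, K8.dcf a (1 + κ) (m + 1) j ^ 2 * (j.factorial : ℝ) * V ^ j) := by ring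
  rw [e1]
  refine mul_le_mul_of_nonneg_left ?_ (Real.exp_pos _).le
  have e2 : κ ^ 2 * V / (D : ℝ) ^ 2 = a ^ 2 * V := by
    rw [had]
    ring
  rw [e2, ← hx]
  exact hmain

end K10
end Pool.Agent.Lib.MP_973905_nt
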