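import Pool.Agent.Lib.MP_973905_nt.K10.Stmts
import Pool.Agent.Lib.MP_973905_nt.K1.BlockShift

/-! Module (B4) of K10: mean square of a truncated exponential over a block, `1 ≤ k ≤ K₁`. -/

namespace Pool.Agent.Lib.MP_973905_nt
namespace K10

open MeasureTheory ProbabilityTheory Complex Filter Topology K1 K4 K5

namespace BlkNgAux

open K1.BlkShift

lemma Ntr_scale (l : ℕ) (k : ℝ) {L : ℝ} (hL : 1 ≤ L) (z : ℂ) :
    Ntr l k z = Ntr l (k / L) (L * z) := by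
  have hL' : (L : ℂ) ≠ 0 := by
    have : L ≠ 0 := by linarith
    exact_mod_cast this
  unfold Ntr
  refine Finset.sum_congr rfl fun i _ => ?_
  congr 2
  push_cast
  field_simp

lemma abs_scale {k L : ℝ} (hL : 1 ≤ L) (hk0 : 1 ≤ k) (hk1 : k ≤ L) : |k / L| ≤ 1 := by
  rw [abs_of_nonneg (by positivity), div_le_one (by linarith)]
  exact hk1

lemma tail_scale (l : ℕ) {k L : ℝ} (hL : 1 ≤ L) (hk0 : 1 ≤ k) (hk1 : k ≤ L) (z : ℂ) :
    ‖cexp (k * z) - Ntr l k z‖ ≤ Real.exp (-l) * Real.exp (3 * L * ‖z‖) := by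
  have hL' : (L : ℂ) ≠ 0 := by
    have : L ≠ 0 := by linarith
    exact_mod_cast this
  have h := Ntr_tail l (α := k / L) (abs_scale hL hk0 hk1) (L * z)
  rw [← Ntr_scale l k hL] at h
  have e1 : ((k / L : ℝ) : ℂ) * (L * z) = (k : ℂ) * z := by
    push_cast
    field_simp
  have e2 : ‖(L : ℂ) * z‖ = L * ‖z‖ := by
    rw [norm_mul, norm_real, Real.norm_eq_abs, abs_of_nonneg (by linarith)]
  rw [e1, e2] at h
  refine h.trans (le_of_eq ?_)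
  congr 2; ring

lemma norm_Ntr_scale (l : ℕ) {k L : ℝ} (hL : 1 ≤ L) (hk0 : 1 ≤ k) (hk1 : k ≤ L) (z : ℂ) :
    ‖Ntr l k z‖ ≤ Real.exp (L * ‖z‖) := by
  have h := norm_Ntr_le l (α := k / L) (abs_scale hL hk0 hk1) (L * z)
  rw [← Ntr_scale l k hL] at h
  have e2 : ‖(L : ℂ) * z‖ = L * ‖z‖ := by
    rw [norm_mul, norm_real, Real.norm_eq_abs, abs_of_nonneg (by linarith)]
  rwa [e2] at h

lemma norm_exp_scale {k L : ℝ} (hk0 : 1 ≤ k) (hk1 : k ≤ L) (z : ℂ) :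
    ‖cexp (k * z)‖ ≤ Real.exp (L * ‖z‖) := by
  rw [norm_exp, re_ofReal_mul]
  apply Real.exp_le_exp.mpr
  have h1 := abs_re_le_norm z
  have h2 : k * z.re ≤ k * |z.re| := mul_le_mul_of_nonneg_left (le_abs_self _) (by linarith)
  have h3 : k * |z.re| ≤ L * |z.re| := mul_le_mul_of_nonneg_right hk1 (abs_nonneg _)
  have h4 : L * |z.re| ≤ L * ‖z‖ := mul_le_mul_of_nonneg_left h1 (by linarith)
  linarith

lemma diff_scale (l : ℕ) {k L : ℝ} (hL : 1 ≤ L) (hk0 : 1 ≤ k) (hk1 : k ≤ L) (z : ℂ) :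
    |‖Ntr l k z‖ ^ 2 - ‖cexp (k * z)‖ ^ 2| ≤
      2 * Real.exp (-l) * Real.exp (2 * L * ‖z‖) ^ 2 := by
  have e1 : ‖Ntr l k z‖ ^ 2 - ‖cexp (k * z)‖ ^ 2 =
      (‖Ntr l k z‖ - ‖cexp (k * z)‖) * (‖Ntr l k z‖ + ‖cexp (k * z)‖) := by ring
  rw [e1, abs_mul]
  have h3 : |‖Ntr l k z‖ - ‖cexp (k * z)‖| ≤ Real.exp (-l) * Real.exp (3 * L * ‖z‖) := by
    refine (abs_norm_sub_norm_le _ _).trans ?_
    rw [norm_sub_rev]
    exact tail_scale l hL hk0 hk1 z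
  have h4 : |‖Ntr l k z‖ + ‖cexp (k * z)‖| ≤ 2 * Real.exp (L * ‖z‖) := by
    rw [abs_of_nonneg (by positivity)]
    linarith [norm_Ntr_scale l hL hk0 hk1 z, norm_exp_scale hk0 hk1 z]
  calc |‖Ntr l k z‖ - ‖cexp (k * z)‖| * |‖Ntr l k z‖ + ‖cexp (k * z)‖| ≤
        (Real.exp (-l) * Real.exp (3 * L * ‖z‖)) * (2 * Real.exp (L * ‖z‖)) := by gcongr
    _ = 2 * Real.exp (-l) * (Real.exp (3 * L * ‖z‖) * Real.exp (L * ‖z‖)) := by ring
    _ = _ := by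
        rw [← Real.exp_add, ← Real.exp_nat_mul, Nat.cast_ofNat]
        congr 2; ring

/-- the pointwise comparison with the Euler product -/
lemma pt_exp {A : ℕ} {S : Finset ℕ} {k L : ℝ} (hS : ∀ p ∈ S, p.Prime) (hk0 : 1 ≤ k)
    (hk1 : k ≤ L) {f : ℕ → ℂ} (hf : ∀ n, ‖f n‖ = 1) :
    |‖cexp (k * Pj A S (tw ((1 / 2 : ℝ) : ℂ) f))‖ ^ 2 - ‖ZZ S (tw ((1 / 2 : ℝ) : ℂ) f)‖ ^ (2 * k)| ≤
      (Real.exp (2 * L * rho A S) - 1) * ‖ZZ S (tw ((1 / 2 : ℝ) : ℂ) f)‖ ^ (2 * k) := by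
  set P := Pj A S (tw ((1 / 2 : ℝ) : ℂ) f) with hP
  set R := Rm A S (tw ((1 / 2 : ℝ) : ℂ) f) with hR
  set W := ‖ZZ S (tw ((1 / 2 : ℝ) : ℂ) f)‖ ^ (2 * k) with hW
  have hW0 : 0 ≤ W := Real.rpow_nonneg (norm_nonneg _) _
  have hR1 : ‖R‖ ≤ rho A S := norm_Rm_le A hS le_rfl hf
  have hρ := rho_nonneg A S
  have hWe : W = Real.exp (2 * k * P.re + 2 * k * R.re) := norm_ZZ_rpow A hS le_rfl hf k
  have e1 : ‖cexp (k * P)‖ ^ 2 = W * Real.exp (-(2 * k * R.re)) := by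
    rw [hWe, norm_exp, ← Real.exp_nat_mul, re_ofReal_mul, Nat.cast_ofNat, ← Real.exp_add]
    congr 1; ring
  rw [e1, ← mul_sub_one, abs_mul, abs_of_nonneg hW0, mul_comm]
  refine mul_le_mul_of_nonneg_right ?_ hW0
  have h3 : |-(2 * k * R.re)| ≤ 2 * L * rho A S := by
    rw [abs_neg, abs_mul, abs_of_nonneg (by linarith : (0:ℝ) ≤ 2 * k)]
    have h5 := (abs_re_le_norm R).trans hR1
    have h0 := abs_nonneg R.re
    have h6 : 2 * k * |R.re| ≤ 2 * L * |R.re| := by gcongr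
    have h7 : 2 * L * |R.re| ≤ 2 * L * rho A S := by
      have : 0 ≤ 2 * L := by linarith
      gcongr
    linarith
  have h4 : |Real.exp (-(2 * k * R.re)) - 1| ≤ Real.exp |-(2 * k * R.re)| - 1 := by
    have := norm_exp_sub_one_le' ((-(2 * k * R.re) : ℝ) : ℂ)
    rw [← ofReal_exp, ← ofReal_one, ← ofReal_sub, norm_real, norm_real, Real.norm_eq_abs,
      Real.norm_eq_abs] at this
    exact this
  refine h4.trans ?_
  have := Real.exp_le_exp.mpr h3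
  linarith

/-- mean of the exponential -/
lemma mean_exp {L : ℝ} (A : ℕ) (S : Finset ℕ) (k : ℝ) (hS : ∀ p ∈ S, p.Prime)
    (hk0 : 1 ≤ k) (hk1 : k ≤ L) :
    |ES S (fun f => ‖cexp (k * Pj A S (tw ((1 / 2 : ℝ) : ℂ) f))‖ ^ 2) -
        ∏ p ∈ S, Dl k ((p : ℝ) ^ (-(1 / 2) : ℝ))| ≤
      (Real.exp (2 * L * Pool.Agent.Lib.MP_973905_nt.rho A S) - 1) *
        ∏ p ∈ S, Dl k ((p : ℝ) ^ (-(1 / 2) : ℝ)) := by
  set D := ∏ p ∈ S, Dl k ((p : ℝ) ^ (-(1 / 2) : ℝ)) with hD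
  have hDS : DS k (1 / 2) S = D := DS_eq S
  have bP : BS S (fun f => Pj A S (tw ((1 / 2 : ℝ) : ℂ) f)) := bs_Pj A S S _
  have bE : BS S (fun f => ‖cexp (k * Pj A S (tw ((1 / 2 : ℝ) : ℂ) f))‖ ^ 2) :=
    (((bs_const S (k : ℂ)).mul bP).cexp).norm_sq
  have bW := bs_ZZ_rpow hS (le_refl (1 / 2 : ℝ)) k (by linarith)
  have h2 : |ES S (fun f => ‖cexp (k * Pj A S (tw ((1 / 2 : ℝ) : ℂ) f))‖ ^ 2) - D| ≤
      ES S (fun f => (Real.exp (2 * L * Pool.Agent.Lib.MP_973905_nt.rho A S) - 1) *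
        ‖ZZ S (tw ((1 / 2 : ℝ) : ℂ) f)‖ ^ (2 * k)) := by
    rw [← hDS, DS]
    unfold ES
    rw [← integral_sub bE.integrable bW.integrable, ← Real.norm_eq_abs]
    refine (norm_integral_le_integral_norm _).trans ?_
    refine integral_mono (bE.integrable.sub bW.integrable).norm (bW.integrable.const_mul _) ?_
    intro ω
    simp only
    rw [Real.norm_eq_abs]
    exact pt_exp hS hk0 hk1 (norm_ext S ω)
  refine h2.trans (le_of_eq ?_)
  rw [ES_const_mul]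
  have e3 : ES S (fun f => ‖ZZ S (tw ((1 / 2 : ℝ) : ℂ) f)‖ ^ (2 * k)) = D := hDS
  rw [e3]

lemma sixteen_le : (16 : ℝ) ≤ Real.exp 3 := by
  have h1 := Real.exp_one_gt_d9
  have h2 : Real.exp 3 = Real.exp 1 ^ 3 := by
    rw [← Real.exp_nat_mul]
    norm_num
  rw [h2]
  calc (16 : ℝ) ≤ (2.7182818283 : ℝ) ^ 3 := by norm_num
    _ ≤ _ := by gcongr

end BlkNgAux

open K1.BlkShift BlkNgAux in
/-- (B4) mean square of a truncated exponential over a block -/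
theorem stBlkNg : StBlkNg := by
  intro L hL
  obtain ⟨C4, hC4, hexp⟩ := ES_exp_norm (q := 2 * L) (by linarith)
  refine ⟨2 * L + 2 * C4 + 6, by positivity, fun A l S k hA hS hk0 hk1 hcond => ?_⟩
  have hhalf : (1 / 2 : ℂ) = ((1 / 2 : ℝ) : ℂ) := by push_cast; ring
  rw [hhalf]
  set D := ∏ p ∈ S, Dl k ((p : ℝ) ^ (-(1 / 2) : ℝ)) with hD
  have hDS : DS k (1 / 2) S = D := DS_eq S
  have hD1 : 1 ≤ D := by rw [← hDS]; exact DS_ge_one (by linarith) le_rfl hS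
  have hρ := rho_nonneg A S
  have bP : BS S (fun f => Pj A S (tw ((1 / 2 : ℝ) : ℂ) f)) := bs_Pj A S S _
  have bE : BS S (fun f => ‖cexp (k * Pj A S (tw ((1 / 2 : ℝ) : ℂ) f))‖ ^ 2) :=
    (((bs_const S (k : ℂ)).mul bP).cexp).norm_sq
  have bN : BS S (fun f => ‖Ntr l k (Pj A S (tw ((1 / 2 : ℝ) : ℂ) f))‖ ^ 2) :=
    (bs_Ntr l _ bP).norm_sq
  have bX : BS S (fun f => Real.exp (2 * L * ‖Pj A S (tw ((1 / 2 : ℝ) : ℂ) f)‖) ^ 2) := by
    have h := (bP.exp_norm (2 * L) (by linarith)).mul_real (bP.exp_norm (2 * L) (by linarith))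
    have e : (fun f : ℕ → ℂ => Real.exp (2 * L * ‖Pj A S (tw ((1 / 2 : ℝ) : ℂ) f)‖) ^ 2) =
        fun f => Real.exp (2 * L * ‖Pj A S (tw ((1 / 2 : ℝ) : ℂ) f)‖) *
          Real.exp (2 * L * ‖Pj A S (tw ((1 / 2 : ℝ) : ℂ) f)‖) := by
      funext f; rw [sq]
    rw [e]; exact h
  have h0 : 0 ≤ ∑ p ∈ S, 1 / (p : ℝ) := Finset.sum_nonneg fun p _ => by positivity
  -- the moments of the exponential of the norm
  have hX : ES S (fun f => Real.exp (2 * L * ‖Pj A S (tw ((1 / 2 : ℝ) : ℂ) f)‖) ^ 2) ≤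
      Real.exp (l / 2) := by
    have hy : ∀ p ∈ S, yp ((1 / 2 : ℝ) : ℂ).re (1 / 2) p ≤ 3 / 4 := by
      intro p hp
      rw [ofReal_re, yp, max_self]
      exact (prime_rpow_le (hS p hp) le_rfl).2
    have h1 := hexp A 0 S ((1 / 2 : ℝ) : ℂ) (1 / 2) hA (by norm_num)
      (by rw [ofReal_re]; norm_num) hS hy
    have e1 : ∀ f : ℕ → ℂ, ‖(ZZ S (tw ((1 / 2 : ℝ) : ℂ) f)) ^ 0‖ ^ 2 *
        Real.exp (2 * L * ‖Pj A S (tw ((1 / 2 : ℝ) : ℂ) f)‖) ^ 2 =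
        Real.exp (2 * L * ‖Pj A S (tw ((1 / 2 : ℝ) : ℂ) f)‖) ^ 2 := by
      intro f; rw [pow_zero, norm_one, one_pow, one_mul]
    simp only [e1] at h1
    have e2 : ∑ p ∈ S, (yp ((1 / 2 : ℝ) : ℂ).re (1 / 2) p) ^ 2 = ∑ p ∈ S, 1 / (p : ℝ) := by
      refine Finset.sum_congr rfl fun p _ => ?_
      rw [ofReal_re, yp, max_self, inv_form]
    rw [e2] at h1
    refine h1.trans ?_
    calc 16 * Real.exp (C4 * ∑ p ∈ S, 1 / (p : ℝ)) ≤
          Real.exp 3 * Real.exp (C4 * ∑ p ∈ S, 1 / (p : ℝ)) := by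
          gcongr
          exact sixteen_le
      _ = Real.exp (3 + C4 * ∑ p ∈ S, 1 / (p : ℝ)) := by rw [← Real.exp_add]
      _ ≤ Real.exp (l / 2) := by
          apply Real.exp_le_exp.mpr
          have h5 : (2 * L + 2 * C4 + 6) * (1 + ∑ p ∈ S, 1 / (p : ℝ)) =
            6 + 2 * (C4 * ∑ p ∈ S, 1 / (p : ℝ)) + ((2 * L + 2 * C4) +
              (2 * L + 6) * ∑ p ∈ S, 1 / (p : ℝ)) := by ring
          have h6 : 0 ≤ (2 * L + 2 * C4) + (2 * L + 6) * ∑ p ∈ S, 1 / (p : ℝ) := by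
            positivity
          linarith
  have h1 : |ES S (fun f => ‖Ntr l k (Pj A S (tw ((1 / 2 : ℝ) : ℂ) f))‖ ^ 2) -
      ES S (fun f => ‖cexp (k * Pj A S (tw ((1 / 2 : ℝ) : ℂ) f))‖ ^ 2)| ≤
      2 * Real.exp (-(l / 2)) := by
    have h2 : |ES S (fun f => ‖Ntr l k (Pj A S (tw ((1 / 2 : ℝ) : ℂ) f))‖ ^ 2) -
        ES S (fun f => ‖cexp (k * Pj A S (tw ((1 / 2 : ℝ) : ℂ) f))‖ ^ 2)| ≤
        ES S (fun f => 2 * Real.exp (-l) *
          Real.exp (2 * L * ‖Pj A S (tw ((1 / 2 : ℝ) : ℂ) f)‖) ^ 2) := by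
      unfold ES
      rw [← integral_sub bN.integrable bE.integrable, ← Real.norm_eq_abs]
      refine (norm_integral_le_integral_norm _).trans ?_
      refine integral_mono (bN.integrable.sub bE.integrable).norm (bX.integrable.const_mul _) ?_
      intro ω
      simp only
      rw [Real.norm_eq_abs]
      exact diff_scale l hL hk0 hk1 _
    refine h2.trans ?_
    rw [ES_const_mul]
    calc 2 * Real.exp (-(l : ℝ)) *
          ES S (fun f => Real.exp (2 * L * ‖Pj A S (tw ((1 / 2 : ℝ) : ℂ) f)‖) ^ 2) ≤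
          2 * Real.exp (-l) * Real.exp (l / 2) := by gcongr
      _ = 2 * (Real.exp (-l) * Real.exp (l / 2)) := by ring
      _ = 2 * Real.exp (-(l / 2)) := by rw [← Real.exp_add]; congr 2; ring
  have h2 := mean_exp (L := L) A S k hS hk0 hk1
  have h3 := abs_add_le (ES S (fun f => ‖Ntr l k (Pj A S (tw ((1 / 2 : ℝ) : ℂ) f))‖ ^ 2) -
      ES S (fun f => ‖cexp (k * Pj A S (tw ((1 / 2 : ℝ) : ℂ) f))‖ ^ 2))
    (ES S (fun f => ‖cexp (k * Pj A S (tw ((1 / 2 : ℝ) : ℂ) f))‖ ^ 2) - D)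
  rw [sub_add_sub_cancel] at h3
  refine h3.trans ((add_le_add h1 h2).trans ?_)
  have hη := Real.exp_pos (-((l : ℝ) / 2))
  set η := Real.exp (-((l : ℝ) / 2)) with hηd
  set C := 2 * L + 2 * C4 + 6 with hC
  have hC2 : 2 ≤ C := by rw [hC]; linarith
  have hCL : 2 * L ≤ C := by rw [hC]; linarith
  have hr : Real.exp (2 * L * Pool.Agent.Lib.MP_973905_nt.rho A S) - 1 ≤
      Real.exp (C * Pool.Agent.Lib.MP_973905_nt.rho A S) - 1 := by
    have : Real.exp (2 * L * Pool.Agent.Lib.MP_973905_nt.rho A S) ≤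
      Real.exp (C * Pool.Agent.Lib.MP_973905_nt.rho A S) := by
      apply Real.exp_le_exp.mpr
      gcongr
    linarith
  have hr0 : 0 ≤ Real.exp (C * Pool.Agent.Lib.MP_973905_nt.rho A S) - 1 := by
    have := Real.one_le_exp (show 0 ≤ C * Pool.Agent.Lib.MP_973905_nt.rho A S by positivity)
    linarith
  set r := Real.exp (C * Pool.Agent.Lib.MP_973905_nt.rho A S) - 1 with hrd
  have k1 : 2 * η ≤ C * η * D := by
    calc 2 * η ≤ C * η := by gcongr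
      _ ≤ _ := le_mul_of_one_le_right (by positivity) hD1
  have k2 : (Real.exp (2 * L * Pool.Agent.Lib.MP_973905_nt.rho A S) - 1) * D ≤ C * r * D := by
    have h4 : Real.exp (2 * L * Pool.Agent.Lib.MP_973905_nt.rho A S) - 1 ≤ C * r := by
      have h5 : r ≤ C * r := le_mul_of_one_le_left hr0 (by linarith)
      linarith
    exact mul_le_mul_of_nonneg_right h4 (by linarith)
  calc 2 * η + (Real.exp (2 * L * Pool.Agent.Lib.MP_973905_nt.rho A S) - 1) * D ≤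
        C * η * D + C * r * D := add_le_add k1 k2
    _ = _ := by ring

end K10
end Pool.Agent.Lib.MP_973905_nt
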