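import Pool.Agent.Lib.MP_973905_nt.K10.Stmts
import Pool.Agent.Lib.MP_973905_nt.Core3
import Pool.Agent.Lib.MP_973905_nt.Sums
import Pool.Agent.Lib.MP_973905_nt.IngDefs

/-! K10, module V4: the product over the bottom blocks, side without zeta. -/

namespace Pool.Agent.Lib.MP_973905_nt
namespace K10

open MeasureTheory ProbabilityTheory Complex Filter Topology K1 K4 K5
open K8 (Cfg pe rk tk GW VT nb LG aZ aV rhoZ rho8 ETz SB8 BB8 lam8)

namespace BotV10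

lemma half_cast : ((1 / 2 : ℝ) : ℂ) = 1 / 2 := by push_cast; ring

/-- The errors of all the blocks are small for large `M`. -/
lemma small_err {C₁ δ : ℝ} (hδ : 0 < δ) : ∀ᶠ M : ℕ in atTop,
    2 * Real.exp (-(1 / 2 * Real.exp (3 / 4 * (M : ℝ)))) +
      (C₁ * (2 * C₁ * (4 * (2 : ℝ) ^ (-(((M : ℝ) - 3) / 2))) +
        2 * Real.exp (-(5 * Real.exp (3 / 4 * (M : ℝ))))) +
      2 * Real.exp (-(1 * Real.exp (3 / 4 * (M : ℝ))))) ≤ Real.log (1 + δ) ∧
    C₁ * (4 * (2 : ℝ) ^ (-(((M : ℝ) - 3) / 2))) ≤ 1 ∧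
    C₁ ≤ 5 * Real.exp (3 / 4 * (M : ℝ)) := by
  have t1 : Tendsto (fun M : ℕ => (2 : ℝ) ^ (-(((M : ℝ) - 3) / 2))) atTop (𝓝 0) := by
    have h1 : Tendsto (fun M : ℕ => (((M : ℝ) - 3) / 2)) atTop atTop :=
      (tendsto_atTop_add_const_right _ (-3) tendsto_natCast_atTop_atTop).atTop_div_const (by norm_num)
    have h2 : Tendsto (fun x : ℝ => (2 : ℝ) ^ (-x)) atTop (𝓝 0) := by
      have : (fun x : ℝ => (2 : ℝ) ^ (-x)) = fun x : ℝ => Real.exp (-(Real.log 2 * x)) := by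
        ext x; rw [Real.rpow_def_of_pos (by norm_num)]; congr 1; ring
      rw [this]
      exact Real.tendsto_exp_neg_atTop_nhds_zero.comp
        (tendsto_id.const_mul_atTop (Real.log_pos (by norm_num)))
    exact h2.comp h1
  have t3 : ∀ a : ℝ, 0 < a →
      Tendsto (fun M : ℕ => Real.exp (-(a * Real.exp (3 / 4 * (M : ℝ))))) atTop (𝓝 0) := by
    intro a ha
    refine Real.tendsto_exp_neg_atTop_nhds_zero.comp ?_
    refine Tendsto.const_mul_atTop ha (Real.tendsto_exp_atTop.comp ?_)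
    exact Tendsto.const_mul_atTop (by norm_num) tendsto_natCast_atTop_atTop
  have t4 := ((t3 (1 / 2) (by norm_num)).const_mul 2).add
    (((((t1.const_mul 4).const_mul (2 * C₁)).add ((t3 5 (by norm_num)).const_mul 2)).const_mul
      C₁).add ((t3 1 one_pos).const_mul 2))
  have t5 := (t1.const_mul 4).const_mul C₁
  simp only [mul_zero, add_zero] at t4 t5
  have t6 : Tendsto (fun M : ℕ => 5 * Real.exp (3 / 4 * (M : ℝ))) atTop atTop :=
    Tendsto.const_mul_atTop (by norm_num) (Real.tendsto_exp_atTop.comp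
      (Tendsto.const_mul_atTop (by norm_num) tendsto_natCast_atTop_atTop))
  exact (t4.eventually (eventually_le_nhds (Real.log_pos (by linarith)))).and
    ((t5.eventually (eventually_le_nhds zero_lt_one)).and (t6.eventually_ge_atTop C₁))

lemma exp_sub_one_le {x : ℝ} (h0 : 0 ≤ x) (h1 : x ≤ 1) : Real.exp x - 1 ≤ 2 * x := by
  have h2 := Real.abs_exp_sub_one_le (x := x) (by rw [abs_of_nonneg h0]; exact h1)
  rw [abs_of_nonneg h0] at h2
  exact (le_abs_self _).trans h2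

/-- The mean of the majorant of one block. -/
lemma ES_VB (κ T : ℝ) (M j : ℕ) :
    ES (Sj T M (JJ T) j) (fun f => VB κ T M j (tw (1 / 2) f)) =
      (1 + Real.exp (-(KK M (JJ T) j / 2))) * ES (Sj T M (JJ T) j) (fun f =>
        ‖Ntr (ll M (JJ T) j) (1 + κ) (Pj M (Sj T M (JJ T) j) (tw (1 / 2) f))‖ ^ 2) +
      Real.exp (2 * pe κ * KK M (JJ T) j) * ES (Sj T M (JJ T) j) (fun f =>
        ‖(((1 + κ : ℝ) : ℂ) * Pj M (Sj T M (JJ T) j) (tw (1 / 2) f) / (KK M (JJ T) j : ℂ)) ^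
          nb κ T M j‖ ^ 2) := by
  set S := Sj T M (JJ T) j with hS
  have b0 : BS S (fun f => Pj M S (tw (1 / 2) f)) := bs_Pj M S S _
  have b1 : BS S (fun f => ‖Ntr (ll M (JJ T) j) (1 + κ) (Pj M S (tw (1 / 2) f))‖ ^ 2) :=
    (bs_Ntr _ _ b0).norm_sq
  have b2 : BS S (fun f => ‖(((1 + κ : ℝ) : ℂ) * Pj M S (tw (1 / 2) f) /
      (KK M (JJ T) j : ℂ)) ^ nb κ T M j‖ ^ 2) := by
    have b3 : BS S (fun f => ((1 + κ : ℝ) : ℂ) * Pj M S (tw (1 / 2) f) *
        ((KK M (JJ T) j : ℂ))⁻¹) :=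
      ((bs_const S _).mul b0).mul (bs_const S _)
    have b4 := (b3.pow (nb κ T M j)).norm_sq
    simpa only [div_eq_mul_inv] using b4
  have c1 : BS S (fun f => (1 + Real.exp (-(KK M (JJ T) j / 2))) *
      ‖Ntr (ll M (JJ T) j) (1 + κ) (Pj M S (tw (1 / 2) f))‖ ^ 2) :=
    (bs_const S _).mul_real b1
  have c2 : BS S (fun f => Real.exp (2 * pe κ * KK M (JJ T) j) *
      ‖(((1 + κ : ℝ) : ℂ) * Pj M S (tw (1 / 2) f) / (KK M (JJ T) j : ℂ)) ^
        nb κ T M j‖ ^ 2) :=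
    (bs_const S _).mul_real b2
  have h1 := ES_add c1 c2
  rw [ES_const_mul, ES_const_mul] at h1
  rw [← h1]
  rfl

/-- one block -/
lemma one_block {a b c D E : ℝ} (ha : 0 ≤ a) (hb : 0 ≤ b) (hc : 0 ≤ c) (hD : 1 ≤ D)
    (hE : E ≤ (1 + a) * ((1 + b) * D) + c) : E ≤ D * Real.exp (a + (b + c)) := by
  have h1 := Real.add_one_le_exp a
  have h2 := Real.add_one_le_exp b
  have h3 := Real.add_one_le_exp c
  rw [Real.exp_add, Real.exp_add]
  have h4 : (1 + a) * ((1 + b) * (1 + c)) ≤ Real.exp a * (Real.exp b * Real.exp c) := by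
    have : 1 + a ≤ Real.exp a := by linarith
    have : 1 + b ≤ Real.exp b := by linarith
    have : 1 + c ≤ Real.exp c := by linarith
    gcongr
  have h5 : c ≤ D * ((1 + a) * (1 + b) * c) := by
    have h6 : 1 ≤ D * ((1 + a) * (1 + b)) := by
      have : 1 ≤ (1 + a) * (1 + b) := by nlinarith [mul_nonneg ha hb]
      nlinarith
    nlinarith
  calc E ≤ (1 + a) * ((1 + b) * D) + c := hE
    _ ≤ (1 + a) * ((1 + b) * D) + D * ((1 + a) * (1 + b) * c) := by linarith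
    _ = D * ((1 + a) * ((1 + b) * (1 + c))) := by ring
    _ ≤ _ := by gcongr

/-- The product against the normaliser. -/
lemma prod_VB (hb : StBlkNg) (hB : StBadN10) {κ : ℝ} (hκ1 : 1 ≤ κ) {δ : ℝ}
    (hδ : 0 < δ) : ∃ M₀ : ℕ, ∀ M : ℕ, M₀ ≤ M → ∃ T₀ : ℝ, 3 ≤ T₀ ∧ ∀ T, T₀ ≤ T →
    ∏ j ∈ Finset.range (JJ T + 1), ES (Sj T M (JJ T) j) (fun f => VB κ T M j (tw (1 / 2) f)) ≤
      (1 + δ) * DJ (1 + κ) (1 / 2) T M (JJ T) := by
  obtain ⟨C₁, hC₁, hcore⟩ := hb (1 + κ) (by linarith)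
  obtain ⟨M₁, hM₁⟩ := block_cond C₁ hC₁
  obtain ⟨M₂, hM₂⟩ := eventually_atTop.mp (small_err (C₁ := C₁) hδ)
  obtain ⟨M₃, hM₃⟩ := hB κ hκ1
  refine ⟨max (max M₁ M₂) (max M₃ 4), fun M hM => ?_⟩
  have hMM₁ : M₁ ≤ M := (le_max_left _ _).trans ((le_max_left _ _).trans hM)
  have hMM₂ : M₂ ≤ M := (le_max_right _ _).trans ((le_max_left _ _).trans hM)
  have hMM₃ : M₃ ≤ M := (le_max_left _ _).trans ((le_max_right _ _).trans hM)
  have hM4 : 4 ≤ M := (le_max_right _ _).trans ((le_max_right _ _).trans hM)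
  obtain ⟨T₁, hT₁3, hT₁⟩ := hM₁ M hMM₁
  obtain ⟨T₂, hT₂3, hT₂⟩ := hM₃ M hMM₃
  obtain ⟨hsm, hsm', hsm2⟩ := hM₂ M hMM₂
  refine ⟨max T₁ T₂, hT₁3.trans (le_max_left _ _), fun T hT => ?_⟩
  have hTT₁ : T₁ ≤ T := (le_max_left _ _).trans hT
  have hTT₂ : T₂ ≤ T := (le_max_right _ _).trans hT
  have hT1 : 1 < T := by linarith
  set J := JJ T with hJ
  have hS : ∀ j, ∀ p ∈ Sj T M J j, p.Prime := fun j p hp => prime_Sj hT1 hp
  have hDS : ∀ j, 1 ≤ DS (1 + κ) (1 / 2) (Sj T M J j) := fun j =>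
    DS_ge_one (by linarith) le_rfl (hS j)
  set r : ℕ → ℝ := fun j => Pool.Agent.Lib.MP_973905_nt.rho M (Sj T M J j) with hr
  have hr0 : ∀ j, 0 ≤ r j := fun j => rho_nonneg M (Sj T M J j)
  have hrsum : ∑ j ∈ Finset.range (J + 1), r j ≤ 4 * (2 : ℝ) ^ (-(((M : ℝ) - 3) / 2)) :=
    sum_rho hT1 (M := M) (J := J) (by omega)
  have hr1 : ∀ j ∈ Finset.range (J + 1), C₁ * r j ≤ 1 := by
    intro j hj
    have h1 := Finset.single_le_sum (f := r) (fun i _ => hr0 i) hj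
    exact (mul_le_mul_of_nonneg_left (h1.trans hrsum) hC₁.le).trans hsm'
  set b : ℕ → ℝ := fun j => C₁ * (2 * C₁ * r j + Real.exp (-((ll M J j : ℝ) / 2))) with hbdef
  have hb0 : ∀ j, 0 ≤ b j := fun j => by
    have := hr0 j
    simp only [hbdef]; positivity
  set ε : ℕ → ℝ := fun j => Real.exp (-(KK M J j / 2)) + (b j + Real.exp (-KK M J j)) with hε
  have hEM : 1 ≤ Real.exp (3 / 4 * (M : ℝ)) := Real.one_le_exp (by positivity)
  have hEM2 : 2 ≤ Real.exp (3 / 4 * (M : ℝ)) := by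
    have h1 := Real.add_one_le_exp (3 / 4 * (M : ℝ))
    have h2 : (4 : ℝ) ≤ M := by exact_mod_cast hM4
    linarith
  have hεsum : ∑ j ∈ Finset.range (J + 1), ε j ≤ Real.log (1 + δ) := by
    refine le_trans ?_ hsm
    simp only [hε, hbdef]
    rw [Finset.sum_add_distrib, Finset.sum_add_distrib, ← Finset.mul_sum, Finset.sum_add_distrib,
      ← Finset.mul_sum]
    have s1 : ∑ j ∈ Finset.range (J + 1), Real.exp (-(KK M J j / 2)) ≤
        2 * Real.exp (-(1 / 2 * Real.exp (3 / 4 * (M : ℝ)))) := by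
      refine le_trans (le_of_eq ?_) (sum_exp_KK (M := M) (J := J) (a := 1 / 2) (by linarith)
        (by norm_num))
      refine Finset.sum_congr rfl fun j _ => ?_
      congr 2; ring
    have s2 : ∑ j ∈ Finset.range (J + 1), Real.exp (-KK M J j) ≤
        2 * Real.exp (-(1 * Real.exp (3 / 4 * (M : ℝ)))) := by
      refine le_trans (le_of_eq ?_) (sum_exp_KK (M := M) (J := J) (a := 1) (by linarith) one_pos)
      refine Finset.sum_congr rfl fun j _ => ?_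
      congr 2; ring
    have s3 : ∑ j ∈ Finset.range (J + 1), Real.exp (-((ll M J j : ℝ) / 2)) ≤
        2 * Real.exp (-(5 * Real.exp (3 / 4 * (M : ℝ)))) := by
      refine le_trans (Finset.sum_le_sum fun j _ => ?_) (sum_exp_KK (J := J) (by linarith)
        (by norm_num))
      apply Real.exp_le_exp.mpr
      have : 10 * KK M J j ≤ (ll M J j : ℝ) := Nat.le_ceil _
      linarith
    gcongr
  have hexp : Real.exp (∑ j ∈ Finset.range (J + 1), ε j) ≤ 1 + δ := by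
    rw [← Real.exp_log (show 0 < 1 + δ by linarith)]
    exact Real.exp_le_exp.mpr hεsum
  have h1 : ∏ j ∈ Finset.range (J + 1), ES (Sj T M J j) (fun f => VB κ T M j (tw (1 / 2) f)) ≤
      ∏ j ∈ Finset.range (J + 1), (DS (1 + κ) (1 / 2) (Sj T M J j) * Real.exp (ε j)) := by
    refine Finset.prod_le_prod (fun j _ => ES_nonneg fun ω => ?_) fun j hj => ?_
    · unfold VB VBz; positivity
    have hj' : j ≤ J := by have := Finset.mem_range.mp hj; omega
    have hbad := hT₂ T hTT₂ j hj'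
    have hcond := (hT₁ T hTT₁ j hj' (1 / 2) le_rfl).1
    have hsumeq : ∑ p ∈ Sj T M J j, (p : ℝ) ^ (-(2 * (1 / 2 : ℝ))) =
        ∑ p ∈ Sj T M J j, 1 / (p : ℝ) := by
      refine Finset.sum_congr rfl fun p _ => ?_
      rw [show -(2 * (1 / 2 : ℝ)) = -1 by ring, Real.rpow_neg_one, one_div]
    rw [hsumeq] at hcond
    have hcond' : C₁ * (1 + ∑ p ∈ Sj T M J j, 1 / (p : ℝ)) ≤ ll M J j := by
      have k1 : C₁ * ∑ p ∈ Sj T M J j, 1 / (p : ℝ) ≤ ll M J j / 2 := by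
        rw [← Real.exp_le_exp]
        have := Real.exp_pos (C₁ * ∑ p ∈ Sj T M J j, 1 / (p : ℝ))
        linarith
      have k2 : Real.exp (3 / 4 * (M : ℝ)) ≤ KK M J j := by
        unfold KK
        apply Real.exp_le_exp.mpr
        have : (j : ℝ) ≤ J := by exact_mod_cast hj'
        linarith
      have k3 : 10 * KK M J j ≤ (ll M J j : ℝ) := Nat.le_ceil _
      linarith
    have h2 := hcore M (ll M J j) (Sj T M J j) (1 + κ) (by omega) (hS j) (by linarith)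
      le_rfl hcond'
    rw [← DS_eq] at h2
    have h3 := (abs_le.mp h2).2
    have hD := hDS j
    have h4 : C₁ * (Real.exp (C₁ * Pool.Agent.Lib.MP_973905_nt.rho M (Sj T M J j)) - 1 +
        Real.exp (-((ll M J j : ℝ) / 2))) ≤ b j := by
      simp only [hbdef]
      have h5 := exp_sub_one_le (x := C₁ * r j) (mul_nonneg hC₁.le (hr0 j)) (hr1 j hj)
      simp only [hr] at h5 ⊢
      gcongr
      linarith
    have h6 : ES (Sj T M J j) (fun f =>
        ‖Ntr (ll M J j) (1 + κ) (Pj M (Sj T M J j) (tw (1 / 2) f))‖ ^ 2) ≤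
        (1 + b j) * DS (1 + κ) (1 / 2) (Sj T M J j) := by
      have h7 := mul_le_mul_of_nonneg_right h4 (show 0 ≤ DS (1 + κ) (1 / 2) (Sj T M J j) by
        linarith)
      linarith
    have h8 := ES_VB κ T M j
    refine one_block (Real.exp_pos _).le (hb0 j) (Real.exp_pos _).le hD ?_
    rw [h8]
    have h9 : 0 ≤ 1 + Real.exp (-(KK M J j / 2)) := by positivity
    have h10 := mul_le_mul_of_nonneg_left h6 h9
    exact add_le_add h10 hbad
  rw [Finset.prod_mul_distrib, ← Real.exp_sum] at h1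
  have hD0 : 0 ≤ DJ (1 + κ) (1 / 2) T M J := Finset.prod_nonneg fun j _ => by linarith [hDS j]
  calc _ ≤ DJ (1 + κ) (1 / 2) T M J * Real.exp (∑ j ∈ Finset.range (J + 1), ε j) := h1
    _ ≤ DJ (1 + κ) (1 / 2) T M J * (1 + δ) := by gcongr
    _ = _ := mul_comm _ _

/-- The normaliser against its asymptotics. -/
lemma DJ_asymp (hA : StAKg) {k : ℝ} (hk : 0 < k) {δ : ℝ} (hδ : 0 < δ) (M : ℕ) :
    ∃ T₀ : ℝ, 3 ≤ T₀ ∧ ∀ T, T₀ ≤ T →
      DJ k (1 / 2) T M (JJ T) ≤ (1 + δ) * (aK k * lM T M ^ (k ^ 2)) := by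
  obtain ⟨hak, hlim, -⟩ := hA k hk
  have hev : ∀ᶠ y : ℝ in atTop, (∏ p ∈ PS 0 y, Dl k ((p : ℝ) ^ (-(1 / 2) : ℝ))) /
      (Real.exp Real.eulerMascheroniConstant * Real.log y) ^ (k ^ 2) ≤ (1 + δ) * aK k := by
    refine hlim.eventually (eventually_le_nhds ?_)
    nlinarith
  have ht : Tendsto (fun T : ℝ => Real.exp (Real.exp (-(M : ℝ)) * Real.log T)) atTop atTop :=
    Real.tendsto_exp_atTop.comp (Real.tendsto_log_atTop.const_mul_atTop (Real.exp_pos _))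
  obtain ⟨T₁, hT₁⟩ := eventually_atTop.mp (ht.eventually hev)
  refine ⟨max T₁ 3, le_max_right _ _, fun T hT => ?_⟩
  have hT3 : 3 ≤ T := (le_max_right _ _).trans hT
  have hT1 : 1 < T := by linarith
  have hL : 0 < Real.log T := Real.log_pos hT1
  have h1 := hT₁ T ((le_max_left _ _).trans hT)
  have e1 : Real.exp Real.eulerMascheroniConstant *
      Real.log (Real.exp (Real.exp (-(M : ℝ)) * Real.log T)) = lM T M := by
    rw [Real.log_exp, lM, sub_eq_add_neg, Real.exp_add]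
    ring
  rw [e1, ← DJ_eq hT1 k (1 / 2) M (JJ T)] at h1
  have hl : 0 < lM T M := mul_pos (Real.exp_pos _) hL
  rw [div_le_iff₀ (Real.rpow_pos_of_pos hl _)] at h1
  linarith

end BotV10

open BotV10 in
theorem stBotV10 (hb : StBlkNg) (hB : StBadN10) (hA : StAKg) : StBotV10 := by
  intro κ hκ1 η hη
  obtain ⟨δ, hδ, hδ1, hδ2⟩ : ∃ δ : ℝ, 0 < δ ∧ δ ≤ 1 ∧ δ ≤ η / 3 :=
    ⟨min 1 (η / 3), lt_min one_pos (by positivity), min_le_left _ _, min_le_right _ _⟩
  obtain ⟨M₀, hM₀⟩ := prod_VB hb hB hκ1 hδ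
  refine ⟨M₀, fun M hM => ?_⟩
  obtain ⟨T₁, hT₁3, hT₁⟩ := hM₀ M hM
  obtain ⟨T₂, hT₂3, hT₂⟩ := DJ_asymp hA (k := 1 + κ) (by linarith) hδ M
  refine ⟨max T₁ T₂, hT₁3.trans (le_max_left _ _), fun T hT => ?_⟩
  have hT3 : 3 ≤ T := hT₁3.trans ((le_max_left _ _).trans hT)
  have hL : 0 < Real.log T := Real.log_pos (by linarith)
  have h1 := hT₁ T ((le_max_left _ _).trans hT)
  have h2 := hT₂ T ((le_max_right _ _).trans hT)
  obtain ⟨hak, -⟩ := hA (1 + κ) (by linarith)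
  have hl : 0 < lM T M := mul_pos (Real.exp_pos _) hL
  have hP : 0 < aK (1 + κ) * lM T M ^ ((1 + κ) ^ 2) := mul_pos hak (Real.rpow_pos_of_pos hl _)
  calc _ ≤ (1 + δ) * DJ (1 + κ) (1 / 2) T M (JJ T) := h1
    _ ≤ (1 + δ) * ((1 + δ) * (aK (1 + κ) * lM T M ^ ((1 + κ) ^ 2))) := by gcongr
    _ = ((1 + δ) * (1 + δ)) * (aK (1 + κ) * lM T M ^ ((1 + κ) ^ 2)) := by ring
    _ ≤ (1 + η) * (aK (1 + κ) * lM T M ^ ((1 + κ) ^ 2)) := by
        refine mul_le_mul_of_nonneg_right ?_ hP.le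
        nlinarith

end K10
end Pool.Agent.Lib.MP_973905_nt
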