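import Pool.Agent.Lib.MP_973905_nt.K10.Stmts
import Pool.Agent.Lib.MP_973905_nt.K5.BotMain

/-! Module (B3): the bottom blocks, main term, all `k ≥ 2` (compare `K7/BotA`). -/

set_option autoImplicit false

namespace Pool.Agent.Lib.MP_973905_nt
namespace K10

open MeasureTheory ProbabilityTheory Complex Filter Topology K1 K4 K5

namespace BotgAux

open K1.RAx K5.BotMainAux

lemma local_shift {C U : ℝ} (hC : 0 < C) (h : ∀ (u x : ℝ) (x₁ x₂ : ℂ), -U ≤ u → u ≤ 0 → 0 ≤ x →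
    x ≤ 7072 / 10000 → ‖x₁ - x‖ ≤ x / 50 → ‖x₂ - x‖ ≤ x / 50 →
    ‖(1 - x₁ * x₂) * LF u x x₁ x₂ - (1 - (x : ℂ) * x) * LF u x x x‖ ≤
      C * x * (‖x₁ - x‖ + ‖x₂ - x‖)) {p : ℕ} (hp : p.Prime) {k : ℝ} (hk1 : 1 ≤ k)
    (hk2 : k ≤ 1 + U) {w : ℂ} (hw : ‖w‖ * Real.log p ≤ 1 / 100) :
    ‖(1 - (p : ℂ) ^ (-(1 + w + w))) * LF (1 - k) ((p : ℝ) ^ (-(1 / 2) : ℝ)) ((p : ℂ) ^ (-(1 / 2 + w)))
      ((p : ℂ) ^ (-(1 / 2 + w))) -
      (((1 - 1 / (p : ℝ)) * Dl k ((p : ℝ) ^ (-(1 / 2) : ℝ)) : ℝ) : ℂ)‖ ≤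
      (8 * C * ‖w‖ * (Real.log p / p)) *
        ‖(((1 - 1 / (p : ℝ)) * Dl k ((p : ℝ) ^ (-(1 / 2) : ℝ)) : ℝ) : ℂ)‖ := by
  have hk0 : 0 < k := by linarith
  have hp0 : (0 : ℝ) < p := by exact_mod_cast hp.pos
  have hp2 : (2 : ℝ) ≤ p := by exact_mod_cast hp.two_le
  have hl : 0 ≤ Real.log p := Real.log_nonneg (by linarith)
  set x := (p : ℝ) ^ (-(1 / 2) : ℝ) with hx
  have hx0 : 0 ≤ x := by positivity
  have hx2 : x ^ 2 = (p : ℝ)⁻¹ := x_sq
  have hx3 : x ≤ 7072 / 10000 := by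
    have h1 : x ^ 2 ≤ 1 / 2 := by
      rw [hx2, one_div]
      exact inv_anti₀ (by norm_num) hp2
    nlinarith
  have s1 := shift_le hp (a := w) (hw.trans (by norm_num))
  rw [← hx] at s1
  have s2 : ‖(p : ℂ) ^ (-(1 / 2 + w)) - (x : ℂ)‖ ≤ x / 50 := by
    refine s1.trans ?_
    have : x * (2 * (‖w‖ * Real.log p)) ≤ x * (2 * (1 / 100)) := by gcongr
    linarith
  have h3 := h (1 - k) x _ _ (by linarith) (by linarith) hx0 hx3 s2 s2
  rw [cpow_mul_eq hp.ne_zero] at h3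
  have hd : (1 - (x : ℂ) * x) * LF (1 - k) x x x =
      (((1 - 1 / (p : ℝ)) * Dl k x : ℝ) : ℂ) := by
    rw [LF_diag hx0 (by linarith)]
    have h5 : (x : ℂ) * x = ((1 / (p : ℝ) : ℝ) : ℂ) := by
      rw [← ofReal_mul, one_div, ← hx2, sq]
    rw [h5, ofReal_mul, ofReal_sub, ofReal_one]
  rw [hd] at h3
  refine h3.trans ?_
  have hD : 1 ≤ Dl k x := by
    have := Dl_ge hk0 hx0 (show x < 1 by linarith)
    nlinarith [sq_nonneg (k * x)]
  have hlow : 1 / 2 ≤ ‖(((1 - 1 / (p : ℝ)) * Dl k x : ℝ) : ℂ)‖ := by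
    have h6 : 1 / 2 ≤ 1 - 1 / (p : ℝ) := by
      have : 1 / (p : ℝ) ≤ 1 / 2 := one_div_le_one_div_of_le (by norm_num) hp2
      linarith
    rw [norm_real, Real.norm_eq_abs, abs_of_nonneg (by positivity)]
    nlinarith
  have e1 : C * x * (‖(p : ℂ) ^ (-(1 / 2 + w)) - (x : ℂ)‖ + ‖(p : ℂ) ^ (-(1 / 2 + w)) - (x : ℂ)‖) ≤
      C * x * (x * (2 * (‖w‖ * Real.log p)) + x * (2 * (‖w‖ * Real.log p))) := by
    gcongr
  refine e1.trans ?_
  have e2 : C * x * (x * (2 * (‖w‖ * Real.log p)) + x * (2 * (‖w‖ * Real.log p))) =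
      (8 * C * ‖w‖ * (Real.log p / p)) * (1 / 2) := by
    rw [div_eq_mul_inv, ← hx2]; ring
  rw [e2]
  gcongr

end BotgAux

open BotgAux K5.BotMainAux K1.RAx in
theorem stBotg (h1 : StBlkg) (h2 : StLFg) (h3 : StAKg) : StBotg := by
  intro κ hκ1 η hη
  obtain ⟨C₁, c₀, hC₁, hc₀, hB⟩ := h1 (1 + κ) (by linarith)
  obtain ⟨C, hC, hLip⟩ := h2 κ (by linarith)
  obtain ⟨M₁, hM₁⟩ := block_cond C₁ hC₁
  obtain ⟨C₄, hC₄, hsl⟩ := sum_log_div_le
  obtain ⟨k, hk⟩ : ∃ k : ℝ, k = 1 + κ := ⟨_, rfl⟩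
  rw [← hk]
  have hk1 : 1 ≤ k := by linarith
  have hk2 : k ≤ 1 + κ := by linarith
  have hk0 : 0 < k := by linarith
  obtain ⟨hak, -, hlim⟩ := h3 k hk0
  have hlam : 0 < Real.log (1 + η) / 3 := by
    have := Real.log_pos (show 1 < 1 + η by linarith)
    linarith
  set lam := Real.log (1 + η) / 3 with hlamdef
  have t1 : Tendsto (fun M : ℕ => (2 : ℝ) ^ (-(((M : ℝ) - 3) / 2))) atTop (𝓝 0) := by
    have h1 : Tendsto (fun M : ℕ => (((M : ℝ) - 3) / 2)) atTop atTop :=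
      (tendsto_atTop_add_const_right _ (-3) tendsto_natCast_atTop_atTop).atTop_div_const (by norm_num)
    have h2 : Tendsto (fun x : ℝ => (2 : ℝ) ^ (-x)) atTop (𝓝 0) := by
      have : (fun x : ℝ => (2 : ℝ) ^ (-x)) = fun x : ℝ => Real.exp (-(Real.log 2 * x)) := by
        ext x; rw [Real.rpow_def_of_pos (by norm_num)]; congr 1; ring
      rw [this]
      exact Real.tendsto_exp_neg_atTop_nhds_zero.comp
        (tendsto_id.const_mul_atTop (Real.log_pos (by norm_num)))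
    exact h2.comp h1
  have hsmall : ∀ᶠ M : ℕ in atTop, C₁ * (2 * C₁ * (4 * (2 : ℝ) ^ (-(((M : ℝ) - 3) / 2))) +
      2 * Real.exp (-(5 * Real.exp (3 / 4 * (M : ℝ))))) ≤ lam := by
    have t3 : Tendsto (fun M : ℕ => Real.exp (-(5 * Real.exp (3 / 4 * (M : ℝ))))) atTop (𝓝 0) := by
      refine Real.tendsto_exp_neg_atTop_nhds_zero.comp ?_
      refine Tendsto.const_mul_atTop (by norm_num) (Real.tendsto_exp_atTop.comp ?_)
      exact Tendsto.const_mul_atTop (by norm_num) tendsto_natCast_atTop_atTop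
    have t4 := (((t1.const_mul 4).const_mul (2 * C₁)).add (t3.const_mul 2)).const_mul C₁
    simp only [mul_zero, add_zero] at t4
    exact t4.eventually (eventually_le_nhds hlam)
  have hsmall2 : ∀ᶠ M : ℕ in atTop, C₁ * (4 * (2 : ℝ) ^ (-(((M : ℝ) - 3) / 2))) ≤ 1 := by
    have t4 := (t1.const_mul 4).const_mul C₁
    simp only [mul_zero] at t4
    exact t4.eventually (eventually_le_nhds zero_lt_one)
  have hsmall3 : ∀ᶠ M : ℕ in atTop, 8 * C * Real.exp (-(M : ℝ)) ≤ lam / 2 := by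
    have t5 : Tendsto (fun M : ℕ => Real.exp (-(M : ℝ))) atTop (𝓝 0) :=
      Real.tendsto_exp_neg_atTop_nhds_zero.comp tendsto_natCast_atTop_atTop
    have t6 := t5.const_mul (8 * C)
    rw [mul_zero] at t6
    exact t6.eventually (eventually_le_nhds (by linarith))
  have hsmall4 : ∀ᶠ M : ℕ in atTop, Real.exp (-(M : ℝ)) ≤ c₀ := by
    have t5 : Tendsto (fun M : ℕ => Real.exp (-(M : ℝ))) atTop (𝓝 0) :=
      Real.tendsto_exp_neg_atTop_nhds_zero.comp tendsto_natCast_atTop_atTop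
    exact t5.eventually (eventually_le_nhds hc₀)
  have hsmall5 : ∀ᶠ M : ℕ in atTop, C₁ ≤ (M : ℝ) :=
    tendsto_natCast_atTop_atTop.eventually (eventually_ge_atTop C₁)
  obtain ⟨M₂, hM₂⟩ := eventually_atTop.mp
    (hsmall.and (hsmall2.and (hsmall3.and (hsmall4.and hsmall5))))
  refine ⟨max (max M₁ M₂) 6, fun M hM => ?_⟩
  have hMM₁ : M₁ ≤ M := (le_max_left _ _).trans ((le_max_left _ _).trans hM)
  have hMM₂ : M₂ ≤ M := (le_max_right _ _).trans ((le_max_left _ _).trans hM)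
  have hM6 : 6 ≤ M := (le_max_right _ _).trans hM
  have hM6' : (6 : ℝ) ≤ M := by exact_mod_cast hM6
  obtain ⟨hs1, hs2, hs3, hs4, hs5⟩ := hM₂ M hMM₂
  obtain ⟨T₁, hT₁3, hT₁⟩ := hM₁ M hMM₁
  have eM : 0 < Real.exp (-(M : ℝ)) := Real.exp_pos _
  have eMsmall : Real.exp (-(M : ℝ)) ≤ 1 / 100 := by
    have h5 : (100 : ℝ) ≤ Real.exp 6 := by
      have h6 : Real.exp 6 = Real.exp 1 ^ 6 := by rw [← Real.exp_nat_mul]; norm_num
      have h7 : (2.7182818283 : ℝ) < Real.exp 1 := Real.exp_one_gt_d9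
      rw [h6]
      calc (100 : ℝ) ≤ (2.7182818283 : ℝ) ^ 6 := by norm_num
        _ ≤ _ := by gcongr
    calc Real.exp (-(M : ℝ)) ≤ Real.exp (-6) := Real.exp_le_exp.mpr (by linarith)
      _ = (Real.exp 6)⁻¹ := Real.exp_neg 6
      _ ≤ (100 : ℝ)⁻¹ := by gcongr
      _ = 1 / 100 := by norm_num
  -- the limit of the product at `w = 0`
  set δ : ℝ := Real.exp lam - 1 with hδdef
  have hδ : 0 < δ := by
    have := Real.add_one_lt_exp hlam.ne'
    linarith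
  have hev := (Metric.tendsto_nhds.mp hlim) (δ * aK k) (by positivity)
  have hyt : Tendsto (fun T : ℝ => Real.exp (Real.exp (-(M : ℝ)) * Real.log T)) atTop atTop :=
    Real.tendsto_exp_atTop.comp (Real.tendsto_log_atTop.const_mul_atTop eM)
  obtain ⟨T₂, hT₂⟩ := eventually_atTop.mp (hyt.eventually hev)
  set L₀ : ℝ := Real.exp M + 16 * C * C₄ / lam + 4 * C₄ with hL₀
  refine ⟨max (max T₁ T₂) (Real.exp L₀), hT₁3.trans ((le_max_left _ _).trans (le_max_left _ _)),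
    fun T hT w hw => ?_⟩
  have hTT₁ : T₁ ≤ T := (le_max_left _ _).trans ((le_max_left _ _).trans hT)
  have hTT₂ : T₂ ≤ T := (le_max_right _ _).trans ((le_max_left _ _).trans hT)
  have hT3 : 3 ≤ T := hT₁3.trans hTT₁
  have hT1 : 1 < T := by linarith
  have hT0 : 0 < T := by linarith
  have hL : 0 < Real.log T := Real.log_pos hT1
  have hLL : L₀ ≤ Real.log T := by
    rw [Real.le_log_iff_exp_le hT0]; exact (le_max_right _ _).trans hT
  have hLa : Real.exp M ≤ Real.log T := by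
    have : 0 ≤ 16 * C * C₄ / lam + 4 * C₄ := by positivity
    linarith
  have hLb : 16 * C * C₄ / lam ≤ Real.log T := by
    have : 0 ≤ Real.exp M + 4 * C₄ := by positivity
    linarith
  have hLc : 4 * C₄ ≤ Real.log T := by
    have : 0 ≤ Real.exp M + 16 * C * C₄ / lam := by positivity
    linarith
  set L := Real.log T with hLdef
  have hwL : ‖w‖ * L ≤ 1 := by rwa [← le_div_iff₀ hL]
  -- the shifts
  have hshift : ∀ j, j ≤ JJ T → ∀ p ∈ Sj T M (JJ T) j, ‖w‖ * Real.log p ≤ 1 / 100 := by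
    intro j hj p hp
    have h1 := log_le_of_mem hT1 hj hp
    calc ‖w‖ * Real.log p ≤ ‖w‖ * (Real.exp (-(M : ℝ)) * L) := by gcongr
      _ = Real.exp (-(M : ℝ)) * (‖w‖ * L) := by ring
      _ ≤ (1 / 100) * 1 := by gcongr
      _ = 1 / 100 := by norm_num
  have hshift0 : ∀ j, j ≤ JJ T → ∀ p ∈ Sj T M (JJ T) j, ‖w‖ * Real.log p ≤ c₀ := by
    intro j hj p hp
    have h1 := log_le_of_mem hT1 hj hp
    calc ‖w‖ * Real.log p ≤ ‖w‖ * (Real.exp (-(M : ℝ)) * L) := by gcongr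
      _ = Real.exp (-(M : ℝ)) * (‖w‖ * L) := by ring
      _ ≤ c₀ * 1 := by gcongr
      _ = c₀ := mul_one _
  set y : ℝ := Real.exp (Real.exp (-(M : ℝ)) * L) with hy
  have hey : 1 ≤ Real.exp (-(M : ℝ)) * L := by
    rw [Real.exp_neg, inv_mul_eq_div, le_div_iff₀ (Real.exp_pos _), one_mul]; exact hLa
  have hy2 : 2 ≤ y := by
    have := Real.add_one_le_exp (Real.exp (-(M : ℝ)) * L)
    linarith
  have hUp : ∀ p ∈ PS 0 y, p.Prime := fun p hp => ((mem_PS le_rfl (by linarith)).mp hp).1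
  have hUmem : ∀ p ∈ PS 0 y, ∃ j, j ≤ JJ T ∧ p ∈ Sj T M (JJ T) j := by
    intro p hp
    rw [hy, hLdef, ← biUnion_eq hT1, Finset.mem_biUnion] at hp
    obtain ⟨j, hj, hp⟩ := hp
    exact ⟨j, by have := Finset.mem_range.mp hj; omega, hp⟩
  have hUsub : ∀ j, j ≤ JJ T → Sj T M (JJ T) j ⊆ PS 0 y := by
    intro j hj
    rw [hy, hLdef, ← biUnion_eq hT1]
    exact Finset.subset_biUnion_of_mem (fun j => Sj T M (JJ T) j) (Finset.mem_range.mpr (by omega))
  have hlogU : ∀ p ∈ PS 0 y, 0 ≤ Real.log p / (p : ℝ) := fun p hp =>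
    div_nonneg (Real.log_nonneg (by exact_mod_cast (hUp p hp).one_lt.le)) (by positivity)
  have hsumL : ‖w‖ * ∑ p ∈ PS 0 y, Real.log p / p ≤ Real.exp (-(M : ℝ)) + C₄ / L := by
    have h1 := hsl y (by linarith)
    have h2 : Real.log y = Real.exp (-(M : ℝ)) * L := by rw [hy, Real.log_exp]
    rw [h2] at h1
    have h3 : 0 ≤ ∑ p ∈ PS 0 y, Real.log p / (p : ℝ) := Finset.sum_nonneg hlogU
    calc ‖w‖ * ∑ p ∈ PS 0 y, Real.log p / p
        ≤ (1 / L) * (Real.exp (-(M : ℝ)) * L + C₄) := by gcongr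
      _ = Real.exp (-(M : ℝ)) + C₄ / L := by field_simp
  have hC4L : C₄ / L ≤ 1 / 4 := by
    rw [div_le_iff₀ hL]; linarith
  have hsumU : (‖w‖ + ‖w‖) * ∑ p ∈ PS 0 y, Real.log p / p ≤ 1 := by
    have : (‖w‖ + ‖w‖) * ∑ p ∈ PS 0 y, Real.log p / (p : ℝ) =
      2 * (‖w‖ * ∑ p ∈ PS 0 y, Real.log p / p) := by ring
    linarith
  have hsumj : ∀ j, j ≤ JJ T → (‖w‖ + ‖w‖) * ∑ p ∈ Sj T M (JJ T) j, Real.log p / p ≤ 1 := by
    intro j hj
    refine le_trans ?_ hsumU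
    exact mul_le_mul_of_nonneg_left
      (Finset.sum_le_sum_of_subset_of_nonneg (hUsub j hj) fun p hp _ => hlogU p hp) (by positivity)
  -- the blocks
  set ε : ℕ → ℝ := fun j => C₁ * (Real.exp (C₁ * rho M (Sj T M (JJ T) j)) - 1 +
    Real.exp (-((ll M (JJ T) j : ℝ) / 2))) with hε
  have hε0 : ∀ j, 0 ≤ ε j := fun j => by
    have h1 : 1 ≤ Real.exp (C₁ * rho M (Sj T M (JJ T) j)) :=
      Real.one_le_exp (by have := rho_nonneg M (Sj T M (JJ T) j); positivity)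
    have h2 := Real.exp_pos (-((ll M (JJ T) j : ℝ) / 2))
    simp only [hε]
    apply mul_nonneg hC₁.le
    linarith
  have hrho := sum_rho hT1 (M := M) (J := JJ T) (by omega)
  have hεsum : ∑ j ∈ Finset.range (JJ T + 1), ε j ≤ lam := by
    refine le_trans ?_ hs1
    simp only [hε]
    rw [← Finset.mul_sum, Finset.sum_add_distrib]
    have h2 : ∑ j ∈ Finset.range (JJ T + 1), Real.exp (-((ll M (JJ T) j : ℝ) / 2)) ≤
        2 * Real.exp (-(5 * Real.exp (3 / 4 * (M : ℝ)))) := by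
      refine le_trans (Finset.sum_le_sum fun j _ => ?_) (sum_exp_KK (J := JJ T) ?_ (by norm_num))
      · apply Real.exp_le_exp.mpr
        have : 10 * KK M (JJ T) j ≤ (ll M (JJ T) j : ℝ) := Nat.le_ceil _
        linarith
      · have := Real.one_le_exp (show 0 ≤ 3 / 4 * (M : ℝ) by positivity)
        linarith
    have h3 : ∑ j ∈ Finset.range (JJ T + 1), (Real.exp (C₁ * rho M (Sj T M (JJ T) j)) - 1) ≤
        2 * C₁ * (4 * (2 : ℝ) ^ (-(((M : ℝ) - 3) / 2))) := by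
      refine le_trans (Finset.sum_le_sum (g := fun j => 2 * C₁ * rho M (Sj T M (JJ T) j))
        fun j hj => ?_) ?_
      · have h4 := rho_nonneg M (Sj T M (JJ T) j)
        have h5 : rho M (Sj T M (JJ T) j) ≤ 4 * (2 : ℝ) ^ (-(((M : ℝ) - 3) / 2)) :=
          (Finset.single_le_sum (f := fun j => rho M (Sj T M (JJ T) j))
            (fun i _ => rho_nonneg M _) hj).trans hrho
        have h6 : |C₁ * rho M (Sj T M (JJ T) j)| ≤ 1 := by
          rw [abs_of_nonneg (by positivity)]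
          exact (mul_le_mul_of_nonneg_left h5 hC₁.le).trans hs2
        have h7 := Real.abs_exp_sub_one_le h6
        rw [abs_of_nonneg (by positivity : 0 ≤ C₁ * rho M (Sj T M (JJ T) j))] at h7
        have h8 := le_abs_self (Real.exp (C₁ * rho M (Sj T M (JJ T) j)) - 1)
        linarith
      · rw [← Finset.mul_sum]
        gcongr
    gcongr
  set z : ℕ → ℂ := fun j => EB T M k w w j * WB T M w w j with hz
  set v : ℕ → ℂ := fun j => LP (1 - k) w w (Sj T M (JJ T) j) * WB T M w w j with hv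
  have hzv : ∀ j ∈ Finset.range (JJ T + 1), ‖z j - v j‖ ≤ ε j * ‖v j‖ := by
    intro j hj
    have hj' : j ≤ JJ T := by have := Finset.mem_range.mp hj; omega
    have hcond := (hT₁ T hTT₁ j hj' (1 / 2) le_rfl).1
    have hcond2 : Real.exp (C₁ * ∑ p ∈ Sj T M (JJ T) j, 1 / (p : ℝ)) ≤
        Real.exp ((ll M (JJ T) j : ℝ) / 2) := by
      have e0 : 16 * Real.exp (C₁ * ∑ p ∈ Sj T M (JJ T) j, 1 / (p : ℝ)) ≤
          Real.exp ((ll M (JJ T) j : ℝ) / 2) := by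
        refine le_trans (le_of_eq ?_) hcond
        congr 3
        refine Finset.sum_congr rfl fun p _ => ?_
        rw [one_div, ← Real.rpow_neg_one]
        norm_num
      have e1 := Real.exp_pos (C₁ * ∑ p ∈ Sj T M (JJ T) j, 1 / (p : ℝ))
      linarith
    have hcond3 : C₁ * ∑ p ∈ Sj T M (JJ T) j, 1 / (p : ℝ) ≤ (ll M (JJ T) j : ℝ) / 2 :=
      Real.exp_le_exp.mp hcond2
    have hcond' : C₁ * (1 + ∑ p ∈ Sj T M (JJ T) j, 1 / (p : ℝ)) ≤ (ll M (JJ T) j : ℝ) := by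
      have e2 := KK_ge_M (M := M) hj'
      have e3 := Real.add_one_le_exp (3 / 4 * (M : ℝ))
      have e4 : 10 * KK M (JJ T) j ≤ (ll M (JJ T) j : ℝ) := Nat.le_ceil _
      have e5 : C₁ ≤ (ll M (JJ T) j : ℝ) / 2 := by linarith
      rw [mul_add, mul_one]
      linarith
    have h1 := hB M (ll M (JJ T) j) (Sj T M (JJ T) j) k w w (by omega)
      (fun p hp => prime_Sj hT1 hp) hk1 hk2
      (fun p hp => ⟨hshift0 j hj' p hp, hshift0 j hj' p hp⟩)
      (hsumj j hj') hcond'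
    simp only [hz, hv]
    rw [← sub_mul, norm_mul, norm_mul, ← mul_assoc]
    exact mul_le_mul_of_nonneg_right h1 (norm_nonneg _)
  have hQ := prod_sub_le' (Finset.range (JJ T + 1)) z v ε (fun j _ => hε0 j) hzv
  -- the product of the local factors
  have hQeq : ∏ j ∈ Finset.range (JJ T + 1), v j =
      ∏ p ∈ PS 0 y, ((1 - (p : ℂ) ^ (-(1 + w + w))) * LF (1 - k) ((p : ℝ) ^ (-(1 / 2) : ℝ))
      ((p : ℂ) ^ (-(1 / 2 + w))) ((p : ℂ) ^ (-(1 / 2 + w)))) := by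
    rw [hy, hLdef, ← prod_biUnion_Sj hT1]
    refine Finset.prod_congr rfl fun j _ => ?_
    simp only [hv]
    rw [LP, WB, ← Finset.prod_mul_distrib]
    exact Finset.prod_congr rfl fun p _ => mul_comm _ _
  set Q := ∏ j ∈ Finset.range (JJ T + 1), v j with hQdef
  set E : ℝ := ∏ p ∈ PS 0 y, (1 - 1 / (p : ℝ)) * Dl k ((p : ℝ) ^ (-(1 / 2) : ℝ)) with hEdef
  have hpB : ‖Q - (E : ℂ)‖ ≤ (Real.exp lam - 1) * ‖(E : ℂ)‖ := by
    rw [hQeq, hEdef, ofReal_prod]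
    refine (prod_sub_le' (PS 0 y) _ _ (fun p => 8 * C * ‖w‖ * (Real.log p / p))
      (fun p hp => ?_) (fun p hp => ?_)).trans ?_
    · have := hlogU p hp
      positivity
    · obtain ⟨j, hj, hpj⟩ := hUmem p hp
      exact BotgAux.local_shift hC hLip (hUp p hp) hk1 hk2 (hshift j hj p hpj)
    · gcongr
      rw [← Finset.mul_sum]
      have e1 : 8 * C * ‖w‖ * ∑ p ∈ PS 0 y, Real.log p / (p : ℝ) =
          8 * C * (‖w‖ * ∑ p ∈ PS 0 y, Real.log p / p) := by ring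
      rw [e1]
      have e2 : 8 * C * (C₄ / L) ≤ lam / 2 := by
        rw [mul_div_assoc', div_le_iff₀ hL]
        have h5 : 16 * C * C₄ ≤ L * lam := by
          rwa [div_le_iff₀ hlam] at hLb
        linarith
      calc 8 * C * (‖w‖ * ∑ p ∈ PS 0 y, Real.log p / (p : ℝ))
          ≤ 8 * C * (Real.exp (-(M : ℝ)) + C₄ / L) := by gcongr
        _ = 8 * C * Real.exp (-(M : ℝ)) + 8 * C * (C₄ / L) := by ring
        _ ≤ lam := by linarith
  -- the value at `0`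
  have hlM : Real.exp Real.eulerMascheroniConstant * Real.log y = lM T M := by
    rw [hy, Real.log_exp, lM, hLdef, ← mul_assoc, ← Real.exp_add]
    congr 2
  have hlM0 : 0 < lM T M := by
    rw [lM]; positivity
  have hE3 : |E / lM T M ^ (k ^ 2 - 1) - aK k| < δ * aK k := by
    have h5 := hT₂ T hTT₂
    rw [Real.dist_eq] at h5
    simp only [← hLdef, ← hy] at h5
    rwa [hlM, ← hEdef] at h5
  set R := lM T M ^ (k ^ 2 - 1) with hR
  have hR0 : 0 < R := Real.rpow_pos_of_pos hlM0 _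
  set X := aK k * R with hX
  have hX0 : 0 < X := by positivity
  have hE2 : |E - X| ≤ δ * X := by
    have e1 : E - X = (E / R - aK k) * R := by rw [hX]; field_simp
    rw [e1, abs_mul, abs_of_pos hR0, hX, ← mul_assoc]
    exact mul_le_mul_of_nonneg_right hE3.le hR0.le
  have hE0 : 0 < E := by
    rw [hEdef]
    refine Finset.prod_pos fun p hp => ?_
    have hpp := hUp p hp
    have hp2 : (2 : ℝ) ≤ p := by exact_mod_cast hpp.two_le
    have hx1 := x_le hpp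
    have hx0 : 0 ≤ (p : ℝ) ^ (-(1 / 2) : ℝ) := by positivity
    have h5 := Dl_ge hk0 hx0 (by linarith)
    have h6 : 1 / (p : ℝ) ≤ 1 / 2 := one_div_le_one_div_of_le (by norm_num) hp2
    have h7 : 0 ≤ k ^ 2 * ((p : ℝ) ^ (-(1 / 2) : ℝ)) ^ 2 := by positivity
    apply mul_pos <;> linarith
  have hE1 : E ≤ Real.exp lam * X := by
    have := (abs_le.mp hE2).2
    rw [hδdef] at this
    linarith
  have hEn : ‖(E : ℂ)‖ = E := by rw [norm_real, Real.norm_eq_abs, abs_of_pos hE0]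
  rw [hEn] at hpB
  set A := Real.exp (∑ j ∈ Finset.range (JJ T + 1), ε j) with hA'
  have hA1 : 1 ≤ A := Real.one_le_exp (Finset.sum_nonneg fun j _ => hε0 j)
  have hA2 : A ≤ Real.exp lam := Real.exp_le_exp.mpr hεsum
  set B := Real.exp lam with hBB
  have hB1 : 1 ≤ B := Real.one_le_exp hlam.le
  have hQ1 : ‖Q‖ ≤ B * E := by
    have h1 : ‖Q‖ ≤ ‖Q - (E : ℂ)‖ + ‖(E : ℂ)‖ := by simpa using norm_add_le (Q - (E : ℂ)) (E : ℂ)
    rw [hEn] at h1
    linarith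
  -- conclusion
  have hprod : ∏ j ∈ Finset.range (JJ T + 1), EBo T M k (Finset.range (JJ T + 1)) ∅ w j =
      ∏ j ∈ Finset.range (JJ T + 1), z j :=
    Finset.prod_congr rfl fun j hj => EBo_eq hj
  rw [hprod]
  have h1 : ‖(∏ j ∈ Finset.range (JJ T + 1), z j) - (X : ℂ)‖ ≤
      ‖(∏ j ∈ Finset.range (JJ T + 1), z j) - Q‖ + (‖Q - (E : ℂ)‖ + ‖(E : ℂ) - (X : ℂ)‖) := by
    refine (norm_sub_le_norm_sub_add_norm_sub _ Q _).trans ?_
    gcongr
    exact norm_sub_le_norm_sub_add_norm_sub _ _ _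
  have h2 : ‖(E : ℂ) - (X : ℂ)‖ ≤ (B - 1) * X := by
    rw [← ofReal_sub, norm_real, Real.norm_eq_abs]; exact hE2
  refine h1.trans ?_
  have h3 : (A - 1) * ‖Q‖ ≤ (B - 1) * (B * (B * X)) := by
    have : ‖Q‖ ≤ B * (B * X) := hQ1.trans (by gcongr)
    exact mul_le_mul (by linarith) this (norm_nonneg _) (by linarith)
  have h4 : (B - 1) * E ≤ (B - 1) * (B * X) := mul_le_mul_of_nonneg_left hE1 (by linarith)
  have h5 : B * B * B = 1 + η := by
    rw [hBB, ← Real.exp_add, ← Real.exp_add]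
    have h6 : lam + lam + lam = Real.log (1 + η) := by rw [hlamdef]; ring
    rw [h6, Real.exp_log (by linarith)]
  calc ‖(∏ j ∈ Finset.range (JJ T + 1), z j) - Q‖ + (‖Q - (E : ℂ)‖ + ‖(E : ℂ) - (X : ℂ)‖)
      ≤ (A - 1) * ‖Q‖ + ((B - 1) * E + (B - 1) * X) := by gcongr
    _ ≤ (B - 1) * (B * (B * X)) + ((B - 1) * (B * X) + (B - 1) * X) := by gcongr
    _ = (B * B * B - 1) * X := by ring
    _ = η * X := by rw [h5]; ring

end K10
end Pool.Agent.Lib.MP_973905_nt
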