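import Pool.Agent.Lib.MP_973905_nt.K10.Base
import Pool.Agent.Lib.MP_973905_nt.K5.Hold
import Pool.Agent.Lib.MP_973905_nt.K1.Small
import Pool.Agent.Lib.MP_973905_nt.Len

/-! Module (Z8) of folder K10: continuity and size of our functions on the critical line. -/

namespace Pool.Agent.Lib.MP_973905_nt
namespace K10

open MeasureTheory ProbabilityTheory Complex Filter Topology K1 K4 K5
open K8 (Cfg pe rk tk GW VT nb LG aZ aV rhoZ rho8 ETz SB8 BB8 lam8)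

namespace Cont10

variable {κ T : ℝ} {M : ℕ} {C : Cfg}

/-! ### values on the line -/

lemma norm_line {n : ℕ} (hn : 0 < n) (t : ℝ) :
    ‖fs (1 / 2 + t * I) n‖ = (n : ℝ) ^ (-(1 / 2) : ℝ) := by
  unfold fs
  rw [Complex.norm_natCast_cpow_of_pos hn]
  congr 1
  simp

lemma dp_line {N B : ℝ} {G : (ℕ → ℂ) → ℂ} (h : DP N B G) :
    (Continuous fun t : ℝ => G (fs (1 / 2 + t * I))) ∧
      ∀ t : ℝ, ‖G (fs (1 / 2 + t * I))‖ ≤ B := by
  obtain ⟨k, c, n, h1, h2, h3⟩ := h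
  have hn0 : ∀ i, n i ≠ 0 := fun i => Nat.one_le_iff_ne_zero.mp (h1 i).1
  constructor
  · have e : (fun t : ℝ => G (fs (1 / 2 + t * I))) =
        fun t : ℝ => ∑ i, c i * fs (1 / 2 + t * I) (n i) := by
      funext t
      exact h3 _ (cmul_fs _)
    rw [e]
    exact continuous_finsetSum _ fun i _ => continuous_const.mul (HoldAux.fs_line (hn0 i)).1
  · intro t
    rw [h3 _ (cmul_fs _)]
    refine (norm_sum_le _ _).trans (le_trans (Finset.sum_le_sum fun i _ => ?_) h2)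
    rw [norm_mul]
    exact mul_le_of_le_one_right (norm_nonneg _) ((HoldAux.fs_line (hn0 i)).2 t)

lemma PS_ne {y x : ℝ} {p : ℕ} (hp : p ∈ PS y x) : p ≠ 0 := by
  unfold PS at hp
  exact (Finset.mem_filter.1 hp).2.ne_zero

lemma cont_z (C : Cfg) (T : ℝ) (i : ℕ) :
    Continuous fun t : ℝ => C.z T i (fs (1 / 2 + t * I)) := by
  unfold K8.Cfg.z
  refine Continuous.div_const (Continuous.add ?_ continuous_const) _
  refine continuous_finsetSum _ fun p hp => (HoldAux.fs_line ?_).1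
  unfold K8.Cfg.U at hp
  exact PS_ne hp

lemma cont_Pj (M : ℕ) (T : ℝ) (j : ℕ) :
    Continuous fun t : ℝ => Pj M (Sj T M (JJ T) j) (fs (1 / 2 + t * I)) := by
  unfold Pj
  refine continuous_finsetSum _ fun p hp => ?_
  have h1 := (HoldAux.fs_line (n := p) (by unfold Sj at hp; exact PS_ne hp)).1
  unfold QQ
  exact continuous_finsetSum _ fun a _ => (h1.pow a).div_const _

lemma cont_Ntr (l : ℕ) (α : ℝ) : Continuous fun z : ℂ => Ntr l α z := by
  unfold Ntr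
  exact continuous_finsetSum _ fun i _ => ((continuous_const.mul continuous_id).pow i).div_const _

lemma cont_VB (κ T : ℝ) (M j : ℕ) :
    Continuous fun t : ℝ => VB κ T M j (fs (1 / 2 + t * I)) := by
  unfold VB VBz
  have h1 := cont_Pj M T j
  have h2 := (cont_Ntr (ll M (JJ T) j) (1 + κ)).comp h1
  refine Continuous.add (continuous_const.mul ?_) (continuous_const.mul ?_)
  · exact h2.norm.pow 2
  · exact ((((continuous_const.mul h1).div_const _).pow _).norm).pow 2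

lemma cont_VT (κ : ℝ) (C : Cfg) (T : ℝ) (i : ℕ) :
    Continuous fun t : ℝ => VT κ C T i (fs (1 / 2 + t * I)) := by
  unfold VT
  have h1 := (cont_z C T i).norm
  exact (h1.pow _).mul (continuous_const.add (continuous_const.mul (h1.pow 2)))

lemma cont_VV (κ : ℝ) (C : Cfg) (T : ℝ) (M : ℕ) :
    Continuous fun t : ℝ => VV10 κ C T M (fs (1 / 2 + t * I)) := by
  unfold VV10
  exact (continuous_finsetProd _ fun j _ => cont_VB κ T M j).mul
    (continuous_finsetProd _ fun i _ => cont_VT κ C T i)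

/-! ### the linear forms -/

lemma sum_rsqrt (N : ℕ) :
    ∑ n ∈ Finset.Icc 1 N, (n : ℝ) ^ (-(1 / 2) : ℝ) ≤ 2 * Real.sqrt N := by
  induction N with
  | zero => simp
  | succ N ih =>
    rw [Finset.sum_Icc_succ_top (by omega)]
    have h0 : (0 : ℝ) ≤ N := by positivity
    have h1 : (0 : ℝ) < Real.sqrt ((N : ℝ) + 1) := Real.sqrt_pos.mpr (by positivity)
    have h2 : ((N + 1 : ℕ) : ℝ) ^ (-(1 / 2) : ℝ) = (Real.sqrt ((N : ℝ) + 1))⁻¹ := by
      rw [Real.rpow_neg (by positivity), Real.sqrt_eq_rpow]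
      push_cast
      rfl
    have h3 : (Real.sqrt ((N : ℝ) + 1))⁻¹ ≤ 2 * (Real.sqrt ((N : ℝ) + 1) - Real.sqrt N) := by
      rw [inv_le_iff_one_le_mul₀ h1]
      have h4 := Real.sq_sqrt h0
      have h5 := Real.sq_sqrt (show (0 : ℝ) ≤ (N : ℝ) + 1 by positivity)
      nlinarith [sq_nonneg (Real.sqrt ((N : ℝ) + 1) - Real.sqrt N)]
    rw [h2]
    push_cast
    linarith

lemma sum_U (C : Cfg) (hT : 0 < T) (i : ℕ) :
    ∑ p ∈ C.U T i, (p : ℝ) ^ (-(1 / 2) : ℝ) ≤ 2 * T ^ (C.te i / 2) := by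
  have h1 : C.U T i ⊆ Finset.Icc 1 ⌊Real.exp (C.te i * Real.log T)⌋₊ := by
    intro p hp
    have hp' := Blk10.mem_U.mp hp
    rw [Finset.mem_Icc]
    exact ⟨hp'.1.one_lt.le, Nat.le_floor hp'.2.2⟩
  refine (Finset.sum_le_sum_of_subset_of_nonneg h1 fun _ _ _ => by positivity).trans ?_
  refine (sum_rsqrt _).trans ?_
  have h2 : Real.sqrt ((⌊Real.exp (C.te i * Real.log T)⌋₊ : ℕ) : ℝ) ≤ T ^ (C.te i / 2) := by
    rw [Real.sqrt_le_left (by positivity)]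
    refine (Nat.floor_le (Real.exp_pos _).le).trans (le_of_eq ?_)
    rw [← Real.rpow_natCast, ← Real.rpow_mul hT.le, Real.rpow_def_of_pos hT]
    congr 1
    push_cast
    ring
  linarith

lemma z_le (hC : Adm κ M C) (hT : 1 ≤ T) {i : ℕ} (hi : i < C.N) (t : ℝ) :
    ‖C.z T i (fs (1 / 2 + t * I))‖ ≤ (2 + |C.c i|) / C.m i * T ^ (C.te i / 2) := by
  unfold K8.Cfg.z
  rw [norm_div, norm_real, Real.norm_eq_abs, abs_of_pos (hC.hm i hi), div_mul_eq_mul_div]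
  apply div_le_div_of_nonneg_right _ (hC.hm i hi).le
  refine (norm_add_le _ _).trans ?_
  rw [norm_real, Real.norm_eq_abs (C.c i)]
  have h1 : ‖∑ p ∈ C.U T i, fs (1 / 2 + t * I) p‖ ≤ 2 * T ^ (C.te i / 2) := by
    refine (norm_sum_le _ _).trans (le_trans (le_of_eq (Finset.sum_congr rfl fun p hp => ?_))
      (sum_U C (by linarith) i))
    exact norm_line (Blk10.mem_U.mp hp).1.pos t
  have h2 : 1 ≤ T ^ (C.te i / 2) :=
    Real.one_le_rpow hT (by have := hC.hpos i hi.le; linarith)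
  nlinarith [abs_nonneg (C.c i)]

/-- the constant in the bounds of the linear forms -/
noncomputable def Bc (C : Cfg) : ℝ := 1 + ∑ i ∈ Finset.range C.N, (2 + |C.c i|) / C.m i

lemma one_le_Bc (hC : Adm κ M C) : 1 ≤ Bc C := by
  unfold Bc
  have : 0 ≤ ∑ i ∈ Finset.range C.N, (2 + |C.c i|) / C.m i :=
    Finset.sum_nonneg fun i hi => by
      have := hC.hm i (Finset.mem_range.mp hi)
      positivity
  linarith

lemma z_le' (hC : Adm κ M C) (hT : 1 ≤ T) {i : ℕ} (hi : i < C.N) (t : ℝ) :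
    ‖C.z T i (fs (1 / 2 + t * I))‖ ≤ Bc C * T ^ (C.te i / 2) := by
  refine (z_le hC hT hi t).trans (mul_le_mul_of_nonneg_right ?_ (by positivity))
  have h1 : (2 + |C.c i|) / C.m i ≤ ∑ i ∈ Finset.range C.N, (2 + |C.c i|) / C.m i :=
    Finset.single_le_sum (f := fun i => (2 + |C.c i|) / C.m i) (fun j hj => by
      have := hC.hm j (Finset.mem_range.mp hj)
      positivity) (Finset.mem_range.mpr hi)
  unfold Bc
  linarith

lemma top_le (hC : Adm κ M C) (hT : 1 ≤ T) (t : ℝ) :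
    ‖∏ i ∈ Finset.range C.N, C.z T i (fs (1 / 2 + t * I)) ^ C.D i‖ ≤
      Bc C ^ (∑ i ∈ Finset.range C.N, C.D i) * T ^ (22 / 100 : ℝ) := by
  have hT0 : 0 < T := by linarith
  have hB := one_le_Bc hC
  rw [norm_prod]
  calc ∏ i ∈ Finset.range C.N, ‖C.z T i (fs (1 / 2 + t * I)) ^ C.D i‖
      ≤ ∏ i ∈ Finset.range C.N, (Bc C ^ C.D i * T ^ ((C.D i : ℝ) * C.te i / 2)) := by
        refine Finset.prod_le_prod (fun _ _ => norm_nonneg _) fun i hi => ?_
        rw [norm_pow]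
        refine (pow_le_pow_left₀ (norm_nonneg _) (z_le' hC hT (Finset.mem_range.mp hi) t)
          _).trans (le_of_eq ?_)
        rw [mul_pow, ← Real.rpow_natCast (T ^ (C.te i / 2)), ← Real.rpow_mul hT0.le]
        congr 2
        ring
    _ = Bc C ^ (∑ i ∈ Finset.range C.N, C.D i) *
          T ^ (∑ i ∈ Finset.range C.N, (C.D i : ℝ) * C.te i / 2) := by
        rw [Finset.prod_mul_distrib, Finset.prod_pow_eq_pow_sum, Real.rpow_sum_of_pos hT0]
    _ ≤ _ := by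
        apply mul_le_mul_of_nonneg_left _ (by positivity)
        apply Real.rpow_le_rpow_of_exponent_le hT
        rw [← Finset.sum_div]
        linarith [hC.bud1]

lemma VT_le (hκ : 0 < κ) (hC : Adm κ M C) (hT : 1 ≤ T) {i : ℕ} (hi : i < C.N) (t : ℝ) :
    VT κ C T i (fs (1 / 2 + t * I)) ≤
      Bc C ^ (2 * (rk κ C i + 1)) * T ^ (((rk κ C i : ℝ) + 1) * C.te i) := by
  obtain ⟨h1, h2⟩ := Blk10.tk_mem (C := C) hκ i
  have hT0 : 0 < T := by linarith
  have hB := one_le_Bc hC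
  have hz := z_le' hC hT hi t
  have h5 : 1 ≤ T ^ (C.te i / 2) :=
    Real.one_le_rpow hT (by have := hC.hpos i hi.le; linarith)
  set Y := Bc C * T ^ (C.te i / 2) with hYd
  have hY : 1 ≤ Y := one_le_mul_of_one_le_of_one_le hB h5
  have h3 : ‖C.z T i (fs (1 / 2 + t * I))‖ ^ 2 ≤ Y ^ 2 :=
    pow_le_pow_left₀ (norm_nonneg _) hz 2
  have h4 : 1 ≤ Y ^ 2 := one_le_pow₀ hY
  have h6 : (1 - tk κ C i) + tk κ C i * ‖C.z T i (fs (1 / 2 + t * I))‖ ^ 2 ≤ Y ^ 2 := by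
    have h7 : tk κ C i * ‖C.z T i (fs (1 / 2 + t * I))‖ ^ 2 ≤ tk κ C i * Y ^ 2 :=
      mul_le_mul_of_nonneg_left h3 h1
    have h8 : (1 - tk κ C i) * 1 ≤ (1 - tk κ C i) * Y ^ 2 :=
      mul_le_mul_of_nonneg_left h4 (by linarith)
    linarith
  have h9 : 0 ≤ (1 - tk κ C i) + tk κ C i * ‖C.z T i (fs (1 / 2 + t * I))‖ ^ 2 := by
    have : 0 ≤ 1 - tk κ C i := by linarith
    positivity
  unfold VT
  calc ‖C.z T i (fs (1 / 2 + t * I))‖ ^ (2 * rk κ C i) *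
        ((1 - tk κ C i) + tk κ C i * ‖C.z T i (fs (1 / 2 + t * I))‖ ^ 2)
      ≤ Y ^ (2 * rk κ C i) * Y ^ 2 :=
        mul_le_mul (pow_le_pow_left₀ (norm_nonneg _) hz _) h6 h9 (by positivity)
    _ = Y ^ (2 * (rk κ C i + 1)) := by rw [← pow_add]; rfl
    _ = _ := by
        rw [hYd, mul_pow, ← Real.rpow_natCast (T ^ (C.te i / 2)), ← Real.rpow_mul hT0.le]
        congr 2
        push_cast
        ring

lemma prod_VT_le (hκ : 0 < κ) (hC : Adm κ M C) (hT : 1 ≤ T) (t : ℝ) :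
    ∏ i ∈ Finset.range C.N, VT κ C T i (fs (1 / 2 + t * I)) ≤
      Bc C ^ (∑ i ∈ Finset.range C.N, 2 * (rk κ C i + 1)) * T ^ (93 / 100 : ℝ) := by
  have hT0 : 0 < T := by linarith
  have hB := one_le_Bc hC
  calc ∏ i ∈ Finset.range C.N, VT κ C T i (fs (1 / 2 + t * I))
      ≤ ∏ i ∈ Finset.range C.N,
          (Bc C ^ (2 * (rk κ C i + 1)) * T ^ (((rk κ C i : ℝ) + 1) * C.te i)) :=
        Finset.prod_le_prod (fun i _ => Blk10.VT_nonneg hκ i _) fun i hi =>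
          VT_le hκ hC hT (Finset.mem_range.mp hi) t
    _ = Bc C ^ (∑ i ∈ Finset.range C.N, 2 * (rk κ C i + 1)) *
          T ^ (∑ i ∈ Finset.range C.N, ((rk κ C i : ℝ) + 1) * C.te i) := by
        rw [Finset.prod_mul_distrib, Finset.prod_pow_eq_pow_sum, Real.rpow_sum_of_pos hT0]
    _ ≤ _ := by
        apply mul_le_mul_of_nonneg_left _ (by positivity)
        exact Real.rpow_le_rpow_of_exponent_le hT hC.bud2

/-! ### the bottom blocks -/

lemma VBz_le (hκ : 0 < κ) {j : ℕ} (hj : j ≤ JJ T) (z : ℂ) {X : ℝ}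
    (h1 : ‖Ntr (ll M (JJ T) j) (1 + κ) z‖ ≤ X)
    (h2 : ‖(((1 + κ : ℝ) : ℂ) * z / (KK M (JJ T) j : ℂ)) ^ nb κ T M j‖ ≤ X) :
    VBz κ T M j z ≤ (2 * Real.exp (2 * pe κ * KK M (JJ T) j)) * X ^ 2 := by
  have hK := Len.KK_ge_one (M := M) hj
  have hp : 1 ≤ pe κ := by
    unfold pe
    rw [one_le_div hκ]
    linarith
  have hE : 2 ≤ Real.exp (2 * pe κ * KK M (JJ T) j) := by
    have h3 := Real.add_one_le_exp (2 * pe κ * KK M (JJ T) j)
    have h4 : 1 ≤ pe κ * KK M (JJ T) j := one_le_mul_of_one_le_of_one_le hp hK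
    nlinarith
  have he : Real.exp (-(KK M (JJ T) j / 2)) ≤ 1 := by
    rw [Real.exp_le_one_iff]
    linarith
  have h5 : ‖Ntr (ll M (JJ T) j) (1 + κ) z‖ ^ 2 ≤ X ^ 2 := pow_le_pow_left₀ (norm_nonneg _) h1 2
  have h6 : ‖(((1 + κ : ℝ) : ℂ) * z / (KK M (JJ T) j : ℂ)) ^ nb κ T M j‖ ^ 2 ≤ X ^ 2 :=
    pow_le_pow_left₀ (norm_nonneg _) h2 2
  have hX : 0 ≤ X ^ 2 := sq_nonneg X
  unfold VBz
  calc (1 + Real.exp (-(KK M (JJ T) j / 2))) * ‖Ntr (ll M (JJ T) j) (1 + κ) z‖ ^ 2 +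
        Real.exp (2 * pe κ * KK M (JJ T) j) * ‖(((1 + κ : ℝ) : ℂ) * z / (KK M (JJ T) j : ℂ)) ^ nb κ T M j‖ ^ 2
      ≤ 2 * X ^ 2 + Real.exp (2 * pe κ * KK M (JJ T) j) * X ^ 2 := by
        gcongr
        linarith
    _ ≤ Real.exp (2 * pe κ * KK M (JJ T) j) * X ^ 2 +
          Real.exp (2 * pe κ * KK M (JJ T) j) * X ^ 2 := by
        gcongr
    _ = _ := by ring

lemma prod_VB_le (hκ : 0 < κ) {R : ℝ} (hR : ∀ h : Finset ℕ,
    DP R R (fun f => ∏ j ∈ Finset.range (JJ T + 1),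
      (if j ∈ h then (((1 + κ : ℝ) : ℂ) * Pj M (Sj T M (JJ T) j) f / (KK M (JJ T) j : ℂ)) ^ nb κ T M j
        else Ntr (ll M (JJ T) j) (1 + κ) (Pj M (Sj T M (JJ T) j) f))))
    (hE : ∏ j ∈ Finset.range (JJ T + 1), (2 * Real.exp (2 * pe κ * KK M (JJ T) j)) ≤ R)
    (hR0 : 0 ≤ R) (t : ℝ) :
    ∏ j ∈ Finset.range (JJ T + 1), VB κ T M j (fs (1 / 2 + t * I)) ≤ R * R ^ 2 := by
  classical
  set f := fs (1 / 2 + t * I) with hf
  set Z : ℕ → ℂ := fun j => (((1 + κ : ℝ) : ℂ) * Pj M (Sj T M (JJ T) j) f / (KK M (JJ T) j : ℂ)) ^ nb κ T M j with hZ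
  set W : ℕ → ℂ := fun j => Ntr (ll M (JJ T) j) (1 + κ) (Pj M (Sj T M (JJ T) j) f) with hW
  set h : Finset ℕ := (Finset.range (JJ T + 1)).filter (fun j => ‖W j‖ ≤ ‖Z j‖) with hh
  have h1 := (dp_line (hR h)).2 t
  simp only [← hf] at h1
  have h2 : ∏ j ∈ Finset.range (JJ T + 1), VB κ T M j f ≤
      ∏ j ∈ Finset.range (JJ T + 1), ((2 * Real.exp (2 * pe κ * KK M (JJ T) j)) *
        ‖(if j ∈ h then Z j else W j)‖ ^ 2) := by
    refine Finset.prod_le_prod (fun j _ => Blk10.VBz_nonneg j _) fun j hj => ?_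
    have hj' := Finset.mem_range.mp hj
    unfold VB
    apply VBz_le hκ (by omega)
    · by_cases hjh : j ∈ h
      · rw [if_pos hjh]
        exact (Finset.mem_filter.mp hjh).2
      · rw [if_neg hjh]
    · by_cases hjh : j ∈ h
      · rw [if_pos hjh]
      · rw [if_neg hjh]
        have h3 : ¬ ‖W j‖ ≤ ‖Z j‖ := fun h4 => hjh (Finset.mem_filter.mpr ⟨hj, h4⟩)
        exact (not_le.mp h3).le
  refine h2.trans ?_
  rw [Finset.prod_mul_distrib, Finset.prod_pow, ← norm_prod]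
  refine mul_le_mul hE (pow_le_pow_left₀ (norm_nonneg _) h1 2) (by positivity) hR0

/-- large powers of `T` absorb constants -/
lemma large (A : ℝ) : ∃ T₁ : ℝ, 3 ≤ T₁ ∧ ∀ T : ℝ, T₁ ≤ T → A ≤ T ^ (1 / 100 : ℝ) := by
  have h3 : ∀ᶠ x : ℝ in atTop, A ≤ x ^ (1 / 100 : ℝ) :=
    (tendsto_rpow_atTop (by norm_num : (0 : ℝ) < 1 / 100)).eventually_ge_atTop A
  obtain ⟨T₁, hT₁⟩ := Filter.eventually_atTop.mp h3
  exact ⟨max 3 T₁, le_max_left _ _, fun T hT => hT₁ T ((le_max_right _ _).trans hT)⟩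

end Cont10

open Cont10 in
/-- (Z8) continuity and size of our functions on the critical line -/
theorem stCont10 (hs : StShortg) (hl : StLen10) : StCont10 := by
  intro κ hκ1
  have hκ0 : 0 < κ := by linarith
  obtain ⟨M₁, hM₁⟩ := hs κ (1 / 100) (by norm_num)
  obtain ⟨M₂, hM₂⟩ := hl κ (1 / 100) hκ1 (by norm_num)
  refine ⟨max M₁ M₂, fun M hM C hC => ?_⟩
  obtain ⟨T₁, hT₁3, hT₁⟩ := hM₁ M ((le_max_left _ _).trans hM)
  obtain ⟨T₂, hT₂3, hT₂⟩ := hM₂ M ((le_max_right _ _).trans hM)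
  obtain ⟨T₃, hT₃3, hT₃⟩ := large (Bc C ^ (∑ i ∈ Finset.range C.N, C.D i))
  obtain ⟨T₄, hT₄3, hT₄⟩ := large (Bc C ^ (∑ i ∈ Finset.range C.N, 2 * (rk κ C i + 1)))
  refine ⟨max (max T₁ T₂) (max T₃ T₄), hT₁3.trans ((le_max_left _ _).trans (le_max_left _ _)),
    fun T hT => ?_⟩
  have hT1 : T₁ ≤ T := ((le_max_left _ _).trans (le_max_left _ _)).trans hT
  have hT2 : T₂ ≤ T := ((le_max_right _ _).trans (le_max_left _ _)).trans hT
  have hT3 : T₃ ≤ T := ((le_max_left _ _).trans (le_max_right _ _)).trans hT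
  have hT4 : T₄ ≤ T := ((le_max_right _ _).trans (le_max_right _ _)).trans hT
  have hT' : 3 ≤ T := hT₁3.trans hT1
  have hT0 : 0 < T := by linarith
  have hT01 : 1 ≤ T := by linarith
  have hB := one_le_Bc hC
  have hN : DP (T ^ (1 / 100 : ℝ)) (T ^ (1 / 100 : ℝ)) (NN T M κ) :=
    hT₁ T hT1 κ (by rw [abs_of_pos hκ0]) _ _
  obtain ⟨hNc, hNb⟩ := dp_line hN
  refine ⟨?_, fun t => ?_, cont_VV κ C T M, fun f => ?_, fun t => ?_⟩
  · unfold GW
    exact hNc.mul (continuous_finsetProd _ fun i _ => (cont_z C T i).pow _)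
  · unfold GW
    rw [norm_mul]
    calc ‖NN T M κ (fs (1 / 2 + t * I))‖ *
          ‖∏ i ∈ Finset.range C.N, C.z T i (fs (1 / 2 + t * I)) ^ C.D i‖
        ≤ T ^ (1 / 100 : ℝ) *
          (Bc C ^ (∑ i ∈ Finset.range C.N, C.D i) * T ^ (22 / 100 : ℝ)) :=
          mul_le_mul (hNb t) (top_le hC hT01 t) (norm_nonneg _) (by positivity)
      _ ≤ T ^ (1 / 100 : ℝ) * (T ^ (1 / 100 : ℝ) * T ^ (22 / 100 : ℝ)) := by
          have := hT₃ T hT3
          gcongr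
      _ = T ^ (24 / 100 : ℝ) := by
          rw [← Real.rpow_add hT0, ← Real.rpow_add hT0]
          norm_num
      _ ≤ T ^ (1 : ℝ) := Real.rpow_le_rpow_of_exponent_le hT01 (by norm_num)
      _ = T := Real.rpow_one T
  · unfold VV10
    exact mul_nonneg (Finset.prod_nonneg fun j _ => Blk10.VBz_nonneg j _)
      (Finset.prod_nonneg fun i _ => Blk10.VT_nonneg hκ0 i f)
  · unfold VV10
    have h1 := prod_VB_le (T := T) (M := M) hκ0 (fun h => (hT₂ T hT2 h).1) (hT₂ T hT2 ∅).2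
      (by positivity) t
    have h2 := prod_VT_le hκ0 hC hT01 t
    have h3 : 0 ≤ ∏ i ∈ Finset.range C.N, VT κ C T i (fs (1 / 2 + t * I)) :=
      Finset.prod_nonneg fun i _ => Blk10.VT_nonneg hκ0 i _
    calc (∏ j ∈ Finset.range (JJ T + 1), VB κ T M j (fs (1 / 2 + t * I))) *
          ∏ i ∈ Finset.range C.N, VT κ C T i (fs (1 / 2 + t * I))
        ≤ (T ^ (1 / 100 : ℝ) * (T ^ (1 / 100 : ℝ)) ^ 2) *
          (Bc C ^ (∑ i ∈ Finset.range C.N, 2 * (rk κ C i + 1)) * T ^ (93 / 100 : ℝ)) :=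
          mul_le_mul h1 h2 h3 (by positivity)
      _ ≤ (T ^ (1 / 100 : ℝ) * (T ^ (1 / 100 : ℝ)) ^ 2) *
          (T ^ (1 / 100 : ℝ) * T ^ (93 / 100 : ℝ)) := by
          have := hT₄ T hT4
          gcongr
      _ = T ^ (97 / 100 : ℝ) := by
          rw [← Real.rpow_natCast (T ^ (1 / 100 : ℝ)) 2, ← Real.rpow_mul hT0.le,
            ← Real.rpow_add hT0, ← Real.rpow_add hT0, ← Real.rpow_add hT0]
          norm_num
      _ ≤ T ^ (2 : ℝ) := Real.rpow_le_rpow_of_exponent_le hT01 (by norm_num)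
      _ = T ^ 2 := by
          rw [← Real.rpow_natCast T 2]
          norm_num

end K10
end Pool.Agent.Lib.MP_973905_nt
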