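import Pool.Agent.Lib.MP_973905_nt.K10.Base
import Pool.Agent.Lib.MP_973905_nt.K1.LF

/-! Module (Z4) of folder K10: the arithmetic factor on the side of zeta is a product over the
blocks. -/

namespace Pool.Agent.Lib.MP_973905_nt
namespace K10

open MeasureTheory ProbabilityTheory Complex Filter Topology K1 K4 K5
open K8 (Cfg pe rk tk GW VT nb LG aZ aV rhoZ rho8 ETz SB8 BB8 lam8)

/-- (Z4) the arithmetic factor is a product over the blocks -/
theorem stFact10 : StFact10 := by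
  intro κ hκ1 M C hC
  have hκ0 : 0 < κ := by linarith
  have h : StLF := K1.stLF
  have htb := Blk10.te_zero_pos hC
  have hte := Blk10.te_zero_le hC
  refine ⟨max 3 (Real.exp (4 / C.te 0)), le_max_left _ _, fun T hT N c hN hG w hw => ?_⟩
  have hT3 : 3 ≤ T := (le_max_left _ _).trans hT
  have hT1 : 1 < T := by linarith
  have hT0 : 0 < T := by linarith
  have hL : 0 < Real.log T := Real.log_pos hT1
  have hLL : 4 / C.te 0 ≤ Real.log T := by
    rw [Real.le_log_iff_exp_le hT0]; exact (le_max_right _ _).trans hT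
  have hL4 : 4 ≤ C.te 0 * Real.log T := by
    rw [div_le_iff₀ htb] at hLL; linarith
  have hL4' : 4 ≤ Real.log T := by
    nlinarith
  have hmem : ∀ n ∈ Finset.Icc 1 N, n ∈ Nat.factoredNumbers (UU (SB8 C T M)) := by
    intro n hn
    rw [Finset.mem_Icc] at hn
    refine Blk10.mem_factored_SB8 hC hT1 hn.1 ?_
    have : (n : ℝ) ≤ N := by exact_mod_cast hn.2
    exact this.trans hN
  have hwn : ‖w‖ ≤ 1 / 4 := hw.trans (by
    rw [div_le_div_iff₀ hL (by norm_num)]; linarith)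
  have hwre : -(1 / 2) < w.re := by
    have h1 := Complex.abs_re_le_norm w
    have h2 := neg_abs_le w.re
    linarith
  rw [← FactM.RB_eq (Blk10.blk_SB8 hC hT1) hmem c hwre]
  have hκ : 1 + κ - 1 = κ := by ring
  set A : ℕ → (ℕ → ℂ) → ℂ := fun j f => ZZ (Sj T M (JJ T) j) (tw (1 / 2 + w) f) *
    (starRingEnd ℂ) (ZZ (Sj T M (JJ T) j) (tw (1 / 2 + (starRingEnd ℂ) w) f)) *
    ((‖Fc T M (JJ T) (1 + κ - 1) (Finset.range (JJ T + 1)) ∅ j (tw (1 / 2) f)‖ ^ 2 : ℝ) : ℂ)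
    with hA
  set B : ℕ → (ℕ → ℂ) → ℂ := fun i f => ZZ (C.U T i) (tw (1 / 2 + w) f) *
    (starRingEnd ℂ) (ZZ (C.U T i) (tw (1 / 2 + (starRingEnd ℂ) w) f)) *
    ((‖C.z T i (tw (1 / 2) f)‖ ^ (2 * C.D i) : ℝ) : ℂ) with hB
  set S := PS (Real.exp (C.te 0 * Real.log T)) T with hS
  set E : (ℕ → ℂ) → ℂ := fun f => ZZ S (tw (1 / 2 + w) f) *
    (starRingEnd ℂ) (ZZ S (tw (1 / 2 + (starRingEnd ℂ) w) f)) with hE
  have hGW : ∀ f, ‖GW κ C T M f‖ ^ 2 =
      (∏ j ∈ Finset.range (JJ T + 1), ‖Fc T M (JJ T) κ (Finset.range (JJ T + 1)) ∅ j f‖ ^ 2) *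
        ∏ i ∈ Finset.range C.N, ‖C.z T i f‖ ^ (2 * C.D i) := by
    intro f
    unfold GW NN
    rw [norm_mul, mul_pow, FactM.norm_AA_sq, norm_prod, ← Finset.prod_pow]
    congr 1
    refine Finset.prod_congr rfl fun i _ => ?_
    rw [norm_pow, ← pow_mul, mul_comm (C.D i) 2]
  have e1 : ER (SB8 C T M) (fun f => ZZ (UU (SB8 C T M)) (tw (1 / 2 + w) f) *
    (starRingEnd ℂ) (ZZ (UU (SB8 C T M)) (tw (1 / 2 + (starRingEnd ℂ) w) f)) *
      GB N c (tw (1 / 2) f)) = ER (SB8 C T M) (fun f =>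
      (∏ j ∈ Finset.range (JJ T + 1), A j f) * (∏ i ∈ Finset.range C.N, B i f) * E f) := by
    refine FinM.ER_congr fun ω => ?_
    rw [← hG _ (cmul_tw (cmul_XX _ ω) _), hGW]
    unfold ZZ
    rw [Blk10.prod_UU_SB8 hC hT1, Blk10.prod_UU_SB8 hC hT1]
    simp only [hA, hB, hE, hκ, ZZ, Finset.prod_mul_distrib, map_mul, map_prod, ofReal_mul,
      ofReal_prod, ← hS]
    ring
  rw [e1, Blk10.fact_gen hC hT1 A B E (by
    intro j f g' hfg
    simp only [hA]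
    rw [ZZ_dep (w := 1 / 2 + w) hfg, ZZ_dep (w := 1 / 2 + (starRingEnd ℂ) w) hfg,
      Fc_dep hfg]) (by
    intro i f g' hfg
    simp only [hB]
    rw [ZZ_dep (w := 1 / 2 + w) hfg, ZZ_dep (w := 1 / 2 + (starRingEnd ℂ) w) hfg,
      Blk10.z_dep hfg]) (by
    intro f g' hfg
    simp only [hE]
    rw [ZZ_dep (w := 1 / 2 + w) hfg, ZZ_dep (w := 1 / 2 + (starRingEnd ℂ) w) hfg]),
    Blk10.prod_UU_SB8 hC hT1]
  have hbd : ∀ p ∈ S, ‖(p : ℂ) ^ (-(1 / 2 + w))‖ ≤ 3 / 4 := by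
    intro p hp
    obtain ⟨hpp, h1, h2⟩ := (Blk10.mem_top hT1).mp hp
    have hp0 : (0 : ℝ) < p := by exact_mod_cast hpp.pos
    have h3 : C.te 0 * Real.log T ≤ Real.log p := by
      have := Real.log_le_log (Real.exp_pos _) h1.le
      rwa [Real.log_exp] at this
    have h4 : Real.log p ≤ Real.log T := Real.log_le_log hp0 h2
    refine (RAx.norm_x hpp w).trans ?_
    rw [Real.rpow_def_of_pos hp0, ← Real.exp_add]
    have h5 : ‖w‖ * Real.log p ≤ 1 := by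
      calc ‖w‖ * Real.log p ≤ (1 / Real.log T) * Real.log T := by
            have : 0 ≤ Real.log p := by linarith
            gcongr
        _ = 1 := by field_simp
    calc Real.exp (Real.log p * (-(1 / 2)) + ‖w‖ * Real.log p) ≤ Real.exp (-1) :=
          Real.exp_le_exp.mpr (by linarith)
      _ ≤ 3 / 4 := by
          rw [Real.exp_neg]
          have : (2 : ℝ) ≤ Real.exp 1 := by linarith [Real.exp_one_gt_d9]
          calc (Real.exp 1)⁻¹ ≤ (2 : ℝ)⁻¹ := by gcongr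
            _ ≤ 3 / 4 := by norm_num
  have htop := RAx.top_eq h (fun p hp => ((Blk10.mem_top hT1).mp hp).1) hbd hbd
  have e2 : ∏ j ∈ Finset.range (JJ T + 1), EBo T M (1 + κ) (Finset.range (JJ T + 1)) ∅ w j =
      (∏ j ∈ Finset.range (JJ T + 1), ES (Sj T M (JJ T) j) (A j)) *
        ∏ j ∈ Finset.range (JJ T + 1), ∏ p ∈ Sj T M (JJ T) j, (1 - (p : ℂ) ^ (-(1 + w + w))) := by
    rw [← Finset.prod_mul_distrib]
    rfl
  have e3 : ∏ i ∈ Finset.range C.N, ETz C T w i =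
      (∏ i ∈ Finset.range C.N, ES (C.U T i) (B i)) *
        ∏ i ∈ Finset.range C.N, ∏ p ∈ C.U T i, (1 - (p : ℂ) ^ (-(1 + w + w))) := by
    rw [← Finset.prod_mul_distrib]
    rfl
  have e4 : ES S E * ∏ p ∈ S, (1 - (p : ℂ) ^ (-(1 + w + w))) = 1 := htop
  rw [e2, e3]
  linear_combination (∏ j ∈ Finset.range (JJ T + 1), ES (Sj T M (JJ T) j) (A j)) *
        (∏ j ∈ Finset.range (JJ T + 1), ∏ p ∈ Sj T M (JJ T) j, (1 - (p : ℂ) ^ (-(1 + w + w)))) *
        (∏ i ∈ Finset.range C.N, ES (C.U T i) (B i)) *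
        (∏ i ∈ Finset.range C.N, ∏ p ∈ C.U T i, (1 - (p : ℂ) ^ (-(1 + w + w)))) * e4

end K10
end Pool.Agent.Lib.MP_973905_nt
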