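import Pool.Agent.Lib.MP_973905_nt.K10.Stmts
import Pool.Agent.Lib.MP_973905_nt.K8.Gu
import Pool.Agent.Lib.MP_973905_nt.K9.Gu9

/-! (N6) The Barnes quotient `G(1+k)^2 / G(1+2k)` for `k ≥ 2` from above, by the exact recursion. -/

namespace Pool.Agent.Lib.MP_973905_nt
namespace K10

open CK

namespace Gu10M

lemma harm : 40272 / 10000 ≤ harmonic 31 := by decide +kernel

lemma gamma_ge : 56 / 100 ≤ Real.eulerMascheroniConstant := by
  have h1 := Real.eulerMascheroniSeq_lt_eulerMascheroniConstant 31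
  unfold Real.eulerMascheroniSeq at h1
  have h2 : Real.log (((31 : ℕ) : ℝ) + 1) = 5 * Real.log 2 := by
    rw [show (((31 : ℕ) : ℝ) + 1) = 2 ^ 5 by norm_num, Real.log_pow]
    norm_num
  rw [h2] at h1
  have h3 : (((40272 / 10000 : ℚ)) : ℝ) ≤ ((harmonic 31 : ℚ) : ℝ) := by
    exact_mod_cast harm
  have h4 := Real.log_two_lt_d9
  push_cast at h3
  linarith

/-- the logarithm of the quotient -/
noncomputable def lq (k : ℝ) : ℝ := Real.log (barnesG (k + 1) ^ 2 / barnesG (2 * k + 1))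

/-- the step of the recursion -/
noncomputable def ll (k : ℝ) : ℝ := 2 * Real.log (Real.Gamma (k + 1)) -
  Real.log (Real.Gamma (2 * k + 1)) - Real.log (Real.Gamma (2 * k + 2))

lemma lq_eq {k : ℝ} (hk : 0 < k) :
    lq k = 2 * Real.log (barnesG (k + 1)) - Real.log (barnesG (2 * k + 1)) := by
  have h1 := barnesG_pos (x := k + 1) (by linarith)
  have h2 := barnesG_pos (x := 2 * k + 1) (by linarith)
  rw [lq, Real.log_div (by positivity) h2.ne', Real.log_pow]
  norm_num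

lemma lq_succ {k : ℝ} (hk : 0 < k) : lq (k + 1) = lq k + ll k := by
  rw [lq_eq hk, lq_eq (by linarith), ll]
  have h1 := barnesG_pos (x := k + 1) (by linarith)
  have h2 := barnesG_pos (x := 2 * k + 1) (by linarith)
  have g1 := Real.Gamma_pos_of_pos (s := k + 1) (by linarith)
  have g2 := Real.Gamma_pos_of_pos (s := 2 * k + 1) (by linarith)
  have g3 := Real.Gamma_pos_of_pos (s := 2 * k + 2) (by linarith)
  have e1 : 2 * (k + 1) + 1 = (2 * k + 2) + 1 := by ring
  have e2 : 2 * k + 2 = (2 * k + 1) + 1 := by ring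
  rw [barnesG_add_one (by linarith : 0 < k + 1), e1,
    barnesG_add_one (by linarith : 0 < 2 * k + 2)]
  nth_rw 2 [e2]
  rw [barnesG_add_one (by linarith : 0 < 2 * k + 1),
    Real.log_mul g1.ne' h1.ne', Real.log_mul g3.ne' (mul_pos g2 h2).ne',
    Real.log_mul g2.ne' h2.ne']
  ring

lemma ll_succ {k : ℝ} (hk : 0 < k) :
    ll (k + 1) = ll k - Real.log 4 - Real.log ((2 * k + 1) * (2 * k + 3)) := by
  have g1 := Real.Gamma_pos_of_pos (s := k + 1) (by linarith)
  have g2 := Real.Gamma_pos_of_pos (s := 2 * k + 1) (by linarith)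
  have g3 := Real.Gamma_pos_of_pos (s := 2 * k + 2) (by linarith)
  have p1 : 0 < k + 1 := by linarith
  have p2 : 0 < 2 * k + 1 := by linarith
  have p3 : 0 < 2 * k + 3 := by linarith
  have p4 : 0 < 2 * k + 2 := by linarith
  unfold ll
  rw [show 2 * (k + 1) + 1 = (2 * k + 2) + 1 by ring,
    show 2 * (k + 1) + 2 = ((2 * k + 2) + 1) + 1 by ring,
    Real.Gamma_add_one p1.ne', Real.Gamma_add_one (by linarith : 2 * k + 2 + 1 ≠ 0),
    Real.Gamma_add_one p4.ne']
  have e : Real.Gamma (2 * k + 2) = (2 * k + 1) * Real.Gamma (2 * k + 1) := by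
    rw [show 2 * k + 2 = (2 * k + 1) + 1 by ring, Real.Gamma_add_one p2.ne']
  rw [e, show 2 * k + 2 + 1 = 2 * k + 3 by ring, Real.log_mul p1.ne' g1.ne',
    Real.log_mul p4.ne' (mul_pos p2 g2).ne', Real.log_mul p2.ne' g2.ne',
    Real.log_mul p3.ne' (mul_pos p4 (mul_pos p2 g2)).ne',
    Real.log_mul p4.ne' (mul_pos p2 g2).ne', Real.log_mul p2.ne' g2.ne',
    Real.log_mul p2.ne' p3.ne', show 2 * k + 2 = 2 * (k + 1) by ring,
    Real.log_mul two_ne_zero p1.ne', show (4 : ℝ) = 2 ^ 2 by norm_num, Real.log_pow]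
  push_cast
  ring

/-- the difference of `F` -/
noncomputable def dd (k : ℝ) : ℝ := ll k + (k + 1) ^ 2 * Real.log (k + 1) - k ^ 2 * Real.log k -
  (2 * k + 1) / 4

lemma log_one_sub {u : ℝ} (h0 : 0 ≤ u) (h1 : u < 1) :
    Real.log (1 - u) ≤ -u - u ^ 2 / 2 - u ^ 3 / 3 := by
  have h := Real.hasSum_pow_div_log_of_abs_lt_one (x := u) (by rw [abs_of_nonneg h0]; exact h1)
  have h2 := sum_le_hasSum (Finset.range 3) (fun i _ => by positivity) h
  simp only [Finset.sum_range_succ, Finset.sum_range_zero] at h2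
  norm_num at h2
  linarith

lemma log15 : -(1 / 15 : ℝ) ≤ Real.log (15 / 16) := by
  have := Real.one_sub_inv_le_log_of_pos (x := (15 / 16 : ℝ)) (by norm_num)
  norm_num at this ⊢
  linarith

lemma dd_succ {k : ℝ} (hk : 1 ≤ k) : dd (k + 1) ≤ dd k := by
  unfold dd
  rw [ll_succ (by linarith)]
  obtain ⟨x, rfl⟩ : ∃ x, k = x - 1 := ⟨k + 1, by ring⟩
  have hx : 2 ≤ x := by linarith
  have hx0 : 0 < x := by linarith
  obtain ⟨u, hu⟩ : ∃ u, u = 1 / x := ⟨_, rfl⟩
  have hu0 : 0 < u := by rw [hu]; positivity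
  have hu1 : u ≤ 1 / 2 := by
    rw [hu]
    exact one_div_le_one_div_of_le (by norm_num) hx
  have e1 : Real.log (x - 1 + 1 + 1) = Real.log x + Real.log (1 + u) := by
    rw [← Real.log_mul hx0.ne' (by linarith)]
    congr 1
    rw [hu]
    field_simp
    ring
  have e2 : Real.log (x - 1) = Real.log x + Real.log (1 - u) := by
    rw [← Real.log_mul hx0.ne' (by linarith)]
    congr 1
    rw [hu]
    field_simp
  have hu2 : u ^ 2 ≤ 1 / 4 := by nlinarith
  have e3 : Real.log ((2 * (x - 1) + 1) * (2 * (x - 1) + 3)) =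
      Real.log 4 + 2 * Real.log x + Real.log (1 - u ^ 2 / 4) := by
    have h4 : (4 : ℝ) * x ^ 2 ≠ 0 := by positivity
    have h5 : 1 - u ^ 2 / 4 ≠ 0 := by linarith
    have : 2 * Real.log x = Real.log (x ^ 2) := by rw [Real.log_pow]; norm_num
    rw [this, ← Real.log_mul (by norm_num) (by positivity), ← Real.log_mul h4 h5]
    congr 1
    rw [hu]
    field_simp
    ring
  have e4 : x - 1 + 1 = x := by ring
  rw [e1, e2, e3, e4]
  have h1 := K5.GQ.log_le (x := u) hu0.le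
  have h2 := log_one_sub hu0.le (by linarith)
  have h3 : -(1 / 15 : ℝ) ≤ Real.log (1 - u ^ 2 / 4) :=
    log15.trans (Real.log_le_log (by norm_num) (by linarith))
  have h4 : Real.log 4 = 2 * Real.log 2 := by
    rw [show (4 : ℝ) = 2 ^ 2 by norm_num, Real.log_pow]
    norm_num
  have h5 := Real.log_two_gt_d9
  have m1 := mul_le_mul_of_nonneg_left h1 (sq_nonneg (x + 1))
  have m2 := mul_le_mul_of_nonneg_left h2 (sq_nonneg (x - 1))
  have e5 : (x + 1) ^ 2 * (u - u ^ 2 / 2 + u ^ 3 / 3) + (x - 1) ^ 2 * (-u - u ^ 2 / 2 - u ^ 3 / 3) =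
      3 + u ^ 2 / 3 := by
    rw [hu]
    field_simp
    ring
  rw [h4]
  nlinarith

/-! ### the base -/

lemma ll_le {k : ℝ} (hk : 0 < k) :
    ll k ≤ Real.log Real.pi - (4 * k + 1) * Real.log 2 - 2 * Real.log (Real.Gamma (k + 1)) := by
  have g1 := Real.Gamma_pos_of_pos (s := k + 1) (by linarith)
  have g2 := Real.Gamma_pos_of_pos (s := 2 * k + 1) (by linarith)
  have g3 := Real.Gamma_pos_of_pos (s := 2 * k + 2) (by linarith)
  have g4 := Real.Gamma_pos_of_pos (s := k + 1 / 2) (by linarith)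
  have g5 := Real.Gamma_pos_of_pos (s := k + 3 / 2) (by linarith)
  have hp := Real.pi_pos
  have a1 := Real.Gamma_mul_Gamma_add_half_of_pos (s := k + 1 / 2) (by linarith)
  have a2 := Real.Gamma_mul_Gamma_add_half_of_pos (s := k + 1) (by linarith)
  rw [show k + 1 / 2 + 1 / 2 = k + 1 by ring, show 2 * (k + 1 / 2) = 2 * k + 1 by ring] at a1
  rw [show k + 1 + 1 / 2 = k + 3 / 2 by ring, show 2 * (k + 1) = 2 * k + 2 by ring] at a2
  have b1 := congrArg Real.log a1
  have b2 := congrArg Real.log a2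
  have hs : 0 < √Real.pi := Real.sqrt_pos.2 hp
  rw [Real.log_mul g4.ne' g1.ne', Real.log_mul (by positivity) hs.ne', Real.log_mul g2.ne'
    (by positivity), Real.log_rpow two_pos, Real.log_sqrt hp.le] at b1
  rw [Real.log_mul g1.ne' g5.ne', Real.log_mul (by positivity) hs.ne', Real.log_mul g3.ne'
    (by positivity), Real.log_rpow two_pos, Real.log_sqrt hp.le] at b2
  have c := Real.convexOn_log_Gamma.2 (Set.mem_Ioi.2 (by linarith : 0 < k + 1 / 2))
    (Set.mem_Ioi.2 (by linarith : 0 < k + 3 / 2)) (by norm_num : (0 : ℝ) ≤ 1 / 2)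
    (by norm_num : (0 : ℝ) ≤ 1 / 2) (by norm_num)
  simp only [smul_eq_mul, Function.comp] at c
  rw [show 1 / 2 * (k + 1 / 2) + 1 / 2 * (k + 3 / 2) = k + 1 by ring] at c
  unfold ll
  linarith

lemma lg_a {κ : ℝ} (hk : 0 ≤ κ) :
    -(Real.eulerMascheroniConstant * κ) ≤ Real.log (Real.Gamma (1 + κ)) := by
  rcases hk.eq_or_lt with h | h
  · rw [← h]
    simp
  · have hd : HasDerivAt (Real.log ∘ Real.Gamma) (-Real.eulerMascheroniConstant) 1 := by
      have := Real.hasDerivAt_Gamma_one.log (by rw [Real.Gamma_one]; norm_num)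
      rw [Real.Gamma_one, div_one] at this
      exact this
    have := Real.convexOn_log_Gamma.le_slope_of_hasDerivAt (Set.mem_Ioi.2 one_pos)
      (Set.mem_Ioi.2 (by linarith : 0 < 1 + κ)) (by linarith) hd
    rw [slope_def_field, le_div_iff₀ (by linarith)] at this
    simp only [Function.comp, Real.Gamma_one, Real.log_one] at this
    linarith

lemma lg_b {κ : ℝ} (hk : 0 ≤ κ) (hk1 : κ ≤ 1) :
    -((1 - Real.eulerMascheroniConstant) * (1 - κ)) ≤ Real.log (Real.Gamma (1 + κ)) := by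
  rcases hk1.eq_or_lt with h | h
  · rw [h, one_add_one_eq_two, Real.Gamma_two]
    simp
  · have hd : HasDerivAt (Real.log ∘ Real.Gamma) (1 - Real.eulerMascheroniConstant) 2 := by
      have h1 := Real.hasDerivAt_Gamma_nat 1
      norm_num at h1
      have := h1.log (by rw [Real.Gamma_two]; norm_num)
      rw [Real.Gamma_two, div_one] at this
      refine this.congr_deriv ?_
      ring
    have := Real.convexOn_log_Gamma.slope_le_of_hasDerivAt
      (Set.mem_Ioi.2 (by linarith : 0 < 1 + κ)) (Set.mem_Ioi.2 two_pos) (by linarith) hd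
    rw [slope_def_field, div_le_iff₀ (by linarith)] at this
    simp only [Function.comp, Real.Gamma_two, Real.log_one] at this
    linarith

lemma log_pi : Real.log Real.pi ≤ 11450 / 10000 := by
  have h : 3 * Real.log Real.pi = Real.log (Real.pi ^ 3) := by rw [Real.log_pow]; norm_num
  have h1 : Real.pi ^ 3 ≤ 32 * (31010 / 32000) := by
    have h3 := Real.pi_lt_d4
    have h4 := Real.pi_pos
    calc Real.pi ^ 3 ≤ 3.1416 ^ 3 := pow_le_pow_left₀ h4.le h3.le 3
      _ ≤ _ := by norm_num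
  have h2 := Real.log_le_log (by positivity) h1
  rw [Real.log_mul (by norm_num) (by norm_num)] at h2
  have h4 : Real.log (32 : ℝ) = 5 * Real.log 2 := by
    rw [show (32 : ℝ) = 2 ^ 5 by norm_num, Real.log_pow]
    norm_num
  have h5 := Real.log_le_sub_one_of_pos (x := (31010 / 32000 : ℝ)) (by norm_num)
  have h6 := Real.log_two_lt_d9
  norm_num only at h2 h4 h5 h6 ⊢
  linarith

lemma base {κ g : ℝ} (hk : 0 ≤ κ) (hg : -g ≤ Real.log (Real.Gamma (1 + κ))) :
    ll (1 + κ) + (2 + κ) ^ 2 * Real.log (2 + κ) ≤ 4519 / 10000 + 6932 / 10000 * κ ^ 2 -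
      4 * κ / (2 + κ) + 2 * g + 2 * κ + 3 / 2 * κ ^ 2 + κ ^ 3 / 6 + κ ^ 4 / 24 + κ ^ 5 / 24 := by
  have h1 := ll_le (k := 1 + κ) (by linarith)
  have g1 := Real.Gamma_pos_of_pos (s := 1 + κ) (by linarith)
  rw [Real.Gamma_add_one (by linarith), Real.log_mul (by linarith) g1.ne'] at h1
  have h2 := Real.le_log_one_add_of_nonneg hk
  have h3 := K5.GQ.log_le (x := κ / 2) (by linarith)
  have e : Real.log (2 + κ) = Real.log 2 + Real.log (1 + κ / 2) := by
    rw [← Real.log_mul two_ne_zero (by linarith)]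
    congr 1
    ring
  rw [e]
  have m := mul_le_mul_of_nonneg_left h3 (sq_nonneg (2 + κ))
  have hp := log_pi
  have l1 := Real.log_two_gt_d9
  have l2 := Real.log_two_lt_d9
  have e2 : 4 * κ / (2 + κ) = 2 * (2 * κ / (κ + 2)) := by
    rw [add_comm κ 2]
    ring
  rw [e2]
  have m2 := mul_le_mul_of_nonneg_left l2.le (sq_nonneg κ)
  nlinarith

lemma ll3 {κ : ℝ} (hk : 0 ≤ κ) (hk1 : κ ≤ 1) : ll (1 + κ) + (2 + κ) ^ 2 * Real.log (2 + κ) ≤
    min (1 / 2 + 183 / 100 * κ + 165 / 100 * κ ^ 2 + 1 / 5 * κ ^ 3)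
      (3 / 4 + κ / 2 + (1 + κ) ^ 2 * (2 * κ / (2 + κ))) := by
  have hg1 := K9.Gu9M.gamma_le
  have hg2 := gamma_ge
  have h2 : 0 < 2 + κ := by linarith
  obtain ⟨q, hq⟩ : ∃ q, q = κ / (2 + κ) := ⟨_, rfl⟩
  have e1 : 4 * κ / (2 + κ) = 4 * q := by rw [hq]; ring
  have e2 : 2 * κ / (2 + κ) = 2 * q := by rw [hq]; ring
  have hq2 : q * (2 + κ) = κ := by rw [hq]; field_simp
  rcases le_total κ (43 / 100) with h | h
  · have hb := base (g := 58 / 100 * κ) hk ((by nlinarith : -(58 / 100 * κ) ≤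
      -(Real.eulerMascheroniConstant * κ)).trans (lg_a hk))
    have hq3 : 100 / 243 * κ ≤ q := by
      rw [hq, le_div_iff₀ h2]
      nlinarith
    have k2 : κ ^ 2 ≤ 43 / 100 * κ := by nlinarith
    have k3 : 0 ≤ κ ^ 3 := by positivity
    have k4 : κ ^ 4 ≤ 8 / 100 * κ := by
      have : κ ^ 4 = κ ^ 2 * κ ^ 2 := by ring
      rw [this]
      nlinarith [sq_nonneg κ]
    have k5 : κ ^ 5 ≤ 4 / 100 * κ := by
      have : κ ^ 5 = κ ^ 4 * κ := by ring
      rw [this]
      nlinarith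
    rw [e1] at hb
    rw [e2]
    refine hb.trans (le_min ?_ ?_)
    · nlinarith
    · have : (1 + κ) ^ 2 * (2 * q) + 4 * q = q * (6 + 4 * κ + 2 * κ ^ 2) := by ring
      have h6 : 0 ≤ 6 + 4 * κ + 2 * κ ^ 2 := by positivity
      have := mul_le_mul_of_nonneg_right hq3 h6
      nlinarith
  · have hb := base (g := 44 / 100 * (1 - κ)) hk ((by nlinarith : -(44 / 100 * (1 - κ)) ≤
      -((1 - Real.eulerMascheroniConstant) * (1 - κ))).trans (lg_b hk hk1))
    have hq3 : 591 / 10000 + 274 / 1000 * κ ≤ q := by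
      rw [hq, le_div_iff₀ h2]
      nlinarith
    have k3 : 0 ≤ κ ^ 3 := by positivity
    have k4 : κ ^ 4 ≤ κ ^ 2 := by
      have : κ ^ 4 = κ ^ 2 * κ ^ 2 := by ring
      rw [this]
      nlinarith [sq_nonneg κ]
    have k5 : κ ^ 5 ≤ κ ^ 2 := by
      have : κ ^ 5 = κ ^ 4 * κ := by ring
      rw [this]
      nlinarith [pow_nonneg hk 4]
    rw [e1] at hb
    rw [e2]
    refine hb.trans (le_min ?_ ?_)
    · nlinarith
    · have : (1 + κ) ^ 2 * (2 * q) + 4 * q = q * (6 + 4 * κ + 2 * κ ^ 2) := by ring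
      have h6 : 0 ≤ 6 + 4 * κ + 2 * κ ^ 2 := by positivity
      have := mul_le_mul_of_nonneg_right hq3 h6
      nlinarith

/-- the function `F` -/
noncomputable def ff (k : ℝ) : ℝ := lq k + k ^ 2 * Real.log k - k ^ 2 / 4 + 1 / 2

lemma ff_succ {k : ℝ} (hk : 0 < k) : ff (k + 1) = ff k + dd k := by
  unfold ff dd
  rw [lq_succ hk]
  ring

lemma lq_le {κ : ℝ} (hk : 0 ≤ κ) (hk1 : κ < 1) :
    lq (1 + κ) ≤ -(κ * (83 / 100 + 7 / 5 * κ + 1 / 5 * κ ^ 2)) := by
  have h1 := barnesG_pos (x := 1 + κ + 1) (by linarith)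
  have h2 := barnesG_pos (x := 2 * (1 + κ) + 1) (by linarith)
  rcases hk.eq_or_lt with h | h
  · rw [← h, lq, add_zero, K5.GQ.barnes2, K5.GQ.barnes3]
    simp
  · rw [lq, Real.log_le_iff_le_exp (by positivity)]
    exact K8.stGu κ h hk1

lemma start {κ : ℝ} (hk : 0 ≤ κ) (hk1 : κ < 1) : ff (1 + κ + 1) ≤ 0 ∧ dd (1 + κ) ≤ 0 := by
  have h := ll3 hk hk1.le
  have h1 := h.trans (min_le_left _ _)
  have h2 := h.trans (min_le_right _ _)
  have e : 1 + κ + 1 = 2 + κ := by ring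
  constructor
  · rw [ff, lq_succ (by linarith), e]
    have := lq_le hk hk1
    nlinarith
  · rw [dd, e]
    have h3 := Real.le_log_one_add_of_nonneg hk
    have h4 := mul_le_mul_of_nonneg_left h3 (sq_nonneg (1 + κ))
    rw [add_comm κ 2] at h4
    linarith

lemma all {κ : ℝ} (hk : 0 ≤ κ) (hk1 : κ < 1) (m : ℕ) :
    ff (1 + κ + m + 1) ≤ 0 ∧ dd (1 + κ + m) ≤ 0 := by
  induction m with
  | zero => simpa using start hk hk1
  | succ m ih =>
    have hm : (0 : ℝ) ≤ m := by positivity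
    have hd : dd (1 + κ + m + 1) ≤ 0 := (dd_succ (by linarith)).trans ih.2
    have e : 1 + κ + ((m + 1 : ℕ) : ℝ) = 1 + κ + m + 1 := by
      push_cast
      ring
    rw [e]
    refine ⟨?_, hd⟩
    rw [ff_succ (by linarith)]
    linarith [ih.1]

end Gu10M

open Gu10M in
/-- (N6) -/
theorem stGu10 : StGu10 := by
  intro k hk
  have h1 := barnesG_pos (x := k + 1) (by linarith)
  have h2 := barnesG_pos (x := 2 * k + 1) (by linarith)
  have hfl := Nat.floor_le (by linarith : 0 ≤ k - 2)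
  have hfu := Nat.lt_floor_add_one (k - 2)
  have h := (all (κ := k - 2 - ⌊k - 2⌋₊) (by linarith) (by linarith) ⌊k - 2⌋₊).1
  have e : 1 + (k - 2 - (⌊k - 2⌋₊ : ℝ)) + ⌊k - 2⌋₊ + 1 = k := by ring
  rw [e] at h
  rw [← Real.log_le_iff_le_exp (by positivity)]
  unfold ff lq at h
  linarith

end K10
end Pool.Agent.Lib.MP_973905_nt
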