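import Pool.Agent.Lib.MP_973905_nt.K10.Base
import Pool.Agent.Lib.MP_973905_nt.K8.Hold8

/-! Module (H) of K10: Hölder's inequality. -/

namespace Pool.Agent.Lib.MP_973905_nt
namespace K10

open MeasureTheory ProbabilityTheory Complex Filter Topology K1 K4 K5
open K8 (Cfg pe rk tk GW VT nb LG aZ aV rhoZ rho8 ETz SB8 BB8 lam8)

namespace Hold10

/-! ### the constants -/

lemma small {κ η η' ρ : ℝ} (hκ : 1 ≤ κ) (hη' : 0 < η') (h1 : (1 + κ) * η' ≤ 1 / 40)
    (h2 : 11 * ((1 + κ) * η') ≤ η) (hρ : ρ ≤ 9 / 10) :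
    (1 - η) * (1 - ρ) ^ (1 + κ) ≤ (1 - ρ - η') ^ (1 + κ) / (1 + η') ^ κ := by
  have a0 : 0 < 1 - ρ := by linarith
  have hη1 : η' ≤ 1 / 80 := by nlinarith
  have a1 : (1 - ρ) * (1 - 10 * η') ≤ 1 - ρ - η' := by nlinarith
  have a2 : 0 < 1 - 10 * η' := by linarith
  have a3 : (1 - ρ) ^ (1 + κ) * (1 - 10 * η') ^ (1 + κ) ≤ (1 - ρ - η') ^ (1 + κ) := by
    rw [← Real.mul_rpow a0.le a2.le]
    exact Real.rpow_le_rpow (by positivity) a1 (by linarith)
  have a4 : 1 - 10 * ((1 + κ) * η') ≤ (1 - 10 * η') ^ (1 + κ) := by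
    have := one_add_mul_self_le_rpow_one_add (show -1 ≤ -(10 * η') by linarith)
      (show 1 ≤ 1 + κ by linarith)
    calc 1 - 10 * ((1 + κ) * η') = 1 + (1 + κ) * -(10 * η') := by ring
      _ ≤ (1 + -(10 * η')) ^ (1 + κ) := this
      _ = (1 - 10 * η') ^ (1 + κ) := by rw [← sub_eq_add_neg]
  have a6 : 0 < (1 + η') ^ κ := Real.rpow_pos_of_pos (by linarith) _
  have a5 : (1 + η') ^ κ * (1 - (1 + κ) * η') ≤ 1 := by
    have b1 : (1 + η') ^ κ ≤ Real.exp ((1 + κ) * η') := by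
      rw [Real.rpow_def_of_pos (by linarith)]
      refine Real.exp_le_exp.mpr ?_
      have b2 : Real.log (1 + η') ≤ η' := by
        have := Real.log_le_sub_one_of_pos (show 0 < 1 + η' by linarith)
        linarith
      nlinarith
    have b3 : 1 - (1 + κ) * η' ≤ Real.exp (-((1 + κ) * η')) := by
      have := Real.add_one_le_exp (-((1 + κ) * η'))
      linarith
    calc (1 + η') ^ κ * (1 - (1 + κ) * η') ≤
        Real.exp ((1 + κ) * η') * Real.exp (-((1 + κ) * η')) := by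
          refine mul_le_mul b1 b3 (by linarith) (Real.exp_pos _).le
      _ = 1 := by rw [← Real.exp_add, add_neg_cancel, Real.exp_zero]
  have a7 : 0 < (1 - ρ) ^ (1 + κ) := Real.rpow_pos_of_pos a0 _
  rw [le_div_iff₀ a6]
  have a8 : (1 - η) * (1 + η') ^ κ ≤ 1 - 10 * ((1 + κ) * η') := by
    set s := (1 + κ) * η' with hs
    have hs0 : 0 < s := by rw [hs]; positivity
    have c1 : 1 - η ≤ (1 - 10 * s) * (1 - s) := by nlinarith
    have c2 : 0 ≤ 1 - 10 * s := by linarith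
    calc (1 - η) * (1 + η') ^ κ ≤ (1 - 10 * s) * (1 - s) * (1 + η') ^ κ := by gcongr
      _ = (1 - 10 * s) * ((1 + η') ^ κ * (1 - s)) := by ring
      _ ≤ (1 - 10 * s) * 1 := mul_le_mul_of_nonneg_left a5 c2
      _ = 1 - 10 * s := mul_one _
  calc (1 - η) * (1 - ρ) ^ (1 + κ) * (1 + η') ^ κ
      = (1 - ρ) ^ (1 + κ) * ((1 - η) * (1 + η') ^ κ) := by ring
    _ ≤ (1 - ρ) ^ (1 + κ) * (1 - 10 * ((1 + κ) * η')) := by gcongr
    _ ≤ (1 - ρ) ^ (1 + κ) * (1 - 10 * η') ^ (1 + κ) := by gcongr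
    _ ≤ _ := a3

end Hold10

theorem stHold10 (hZ : StSideZ10) (hV : StSideV10) (hp : StPt10) (hc : StCont10) (hr : StRho10)
    (hA : StAKg) : StHold10 := by
  intro κ hκ1 η hη
  have hκ : 0 < κ := by linarith
  set η' := min η 1 / (40 * (1 + κ)) with hη'
  have hη0 : 0 < η' := by rw [hη']; positivity
  have hηe : (1 + κ) * η' = min η 1 / 40 := by rw [hη']; field_simp
  have hη1 : (1 + κ) * η' ≤ 1 / 40 := by rw [hηe]; have := min_le_right η 1; linarith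
  have hη2 : 11 * ((1 + κ) * η') ≤ η := by
    have := min_le_left η 1
    have h2 : 0 < min η 1 := by positivity
    rw [hηe]; linarith
  obtain ⟨M₁, h1⟩ := hZ κ hκ1 η' hη0
  obtain ⟨M₂, h2⟩ := hV κ hκ1 η' hη0
  obtain ⟨M₃, h3⟩ := hp κ hκ1
  obtain ⟨M₄, h4⟩ := hc κ hκ1
  obtain ⟨K, -, h5⟩ := hr κ hκ1
  refine ⟨max (max M₁ M₂) (max M₃ M₄), fun M hM C hC => ?_⟩
  have m1 : M₁ ≤ M := ((le_max_left _ _).trans (le_max_left _ _)).trans hM
  have m2 : M₂ ≤ M := ((le_max_right _ _).trans (le_max_left _ _)).trans hM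
  have m3 : M₃ ≤ M := ((le_max_left _ _).trans (le_max_right _ _)).trans hM
  have m4 : M₄ ≤ M := ((le_max_right _ _).trans (le_max_right _ _)).trans hM
  obtain ⟨T₁, t1, k1⟩ := h1 M m1 C hC
  obtain ⟨T₂, t2, k2⟩ := h2 M m2 C hC
  obtain ⟨T₄, t4, k4⟩ := h4 M m4 C hC
  obtain ⟨-, hZp, hVp, hρ0, -, -, -⟩ := h5 M C hC
  refine ⟨max T₁ (max T₂ T₄), t1.trans (le_max_left _ _), fun T hT => ?_⟩
  have u1 : T₁ ≤ T := (le_max_left _ _).trans hT
  have u2 : T₂ ≤ T := ((le_max_left _ _).trans (le_max_right _ _)).trans hT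
  have u4 : T₄ ≤ T := ((le_max_right _ _).trans (le_max_right _ _)).trans hT
  have hT3 : 3 ≤ T := t1.trans u1
  have hT0 : 0 < T := by linarith
  have hL : 0 < Real.log T := Real.log_pos (by linarith)
  have b1 := k1 T u1
  have b2 := k2 T u2
  obtain ⟨cW, -, cV, hV0, -⟩ := k4 T u4
  have hAp : 0 < aK (1 + κ) := (hA (1 + κ) (by linarith)).1
  set P := ∏ i ∈ Finset.range C.N, aZ C i with hP
  set Q := ∏ i ∈ Finset.range C.N, aV κ C i with hQ
  have hPp : 0 < P := Finset.prod_pos fun i hi => hZp i (Finset.mem_range.mp hi)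
  have hQp : 0 < Q := Finset.prod_pos fun i hi => hVp i (Finset.mem_range.mp hi)
  have hs : 0 < 1 - rho8 C - η' := by
    have := hC.hrho
    nlinarith
  have hlM : 0 < lM T M := by unfold lM; positivity
  have cz : Continuous fun t : ℝ => ‖riemannZeta (1 / 2 + t * I)‖ ^ 2 :=
    K1.Lower.continuous_zeta_half.norm.pow 2
  have cG : Continuous fun t : ℝ => ‖GW κ C T M (fs (1 / 2 + t * I))‖ ^ 2 := cW.norm.pow 2
  have b3 := K8.Hold8.holder hκ rfl hT0 cz cG cV (fun t => by positivity) (fun t => by positivity)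
    (fun t => h3 M m3 C hC T _)
  have e1 : ∀ t : ℝ, (‖riemannZeta (1 / 2 + t * I)‖ ^ 2) ^ (1 + κ) =
      ‖riemannZeta (1 / 2 + t * I)‖ ^ (2 * (1 + κ)) := by
    intro t
    rw [← Real.rpow_natCast _ 2, ← Real.rpow_mul (norm_nonneg _)]
    norm_num
  simp only [e1] at b3
  have hI0 : 0 ≤ T⁻¹ * ∫ t in (0 : ℝ)..T, ‖riemannZeta (1 / 2 + t * I)‖ ^ (2 * (1 + κ)) := by
    refine mul_nonneg (inv_pos.mpr hT0).le ?_
    exact intervalIntegral.integral_nonneg hT0.le fun t _ => Real.rpow_nonneg (norm_nonneg _) _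
  have hV1 : 0 ≤ T⁻¹ * ∫ t in (0 : ℝ)..T, VV10 κ C T M (fs (1 / 2 + t * I)) := by
    refine mul_nonneg (inv_pos.mpr hT0).le ?_
    exact intervalIntegral.integral_nonneg hT0.le fun t _ => hV0 _
  have b4 := K8.Hold8.solve hκ rfl (by positivity) hI0 hV1 (by positivity) b1 b2 b3
  refine le_trans ?_ b4
  unfold lM
  rw [K8.Hold8.powers hAp hL hPp hQp hs hη0]
  have b5 := Hold10.small hκ1 hη0 hη1 hη2 hC.hrho
  have hr1 : 0 ≤ 1 - rho8 C := by have := hC.hrho; linarith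
  rw [Real.mul_rpow hPp.le hr1]
  calc _ = aK (1 + κ) * Real.log T ^ ((1 + κ) ^ 2) *
        (Real.exp ((Real.eulerMascheroniConstant - M) * (κ * (1 + κ))) * P ^ (1 + κ) / Q ^ κ) *
        ((1 - η) * (1 - rho8 C) ^ (1 + κ)) := by ring
    _ ≤ _ := by gcongr

end K10
end Pool.Agent.Lib.MP_973905_nt
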