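import Pool.Agent.Lib.MP_973905_nt.K10.Stmts
import Pool.Agent.Lib.MP_973905_nt.K7.LFn

/-! (B1) The local factor with negative exponent is Lipschitz in the shifts, any range. -/

set_option autoImplicit false

namespace Pool.Agent.Lib.MP_973905_nt
namespace K10

open MeasureTheory ProbabilityTheory Complex Filter Topology K1 K4 K5

namespace LFgA

open K7.LFnA K1.LFaux K3.LF4aux

lemma abs_exp_sub_one {y B : ℝ} (h : |y| ≤ B) : |Real.exp y - 1| ≤ |y| * Real.exp B := by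
  have h0 := abs_nonneg y
  have h1 : Real.exp |y| - 1 ≤ |y| * Real.exp |y| := by
    have := Real.add_one_le_exp (-|y|)
    have e : Real.exp (-|y|) * Real.exp |y| = 1 := by rw [← Real.exp_add]; simp
    nlinarith [Real.exp_pos |y|]
  have h2 : |Real.exp y - 1| ≤ Real.exp |y| - 1 := by
    rw [abs_le]
    constructor
    · have a1 := Real.exp_le_exp.mpr (neg_abs_le y)
      have a2 := Real.add_one_le_exp |y|
      have a3 := Real.add_one_le_exp (-|y|)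
      linarith
    · have := Real.exp_le_exp.mpr (le_abs_self y)
      linarith
  have h3 : |y| * Real.exp |y| ≤ |y| * Real.exp B := by gcongr
  linarith

lemma w_sub_one {U u x : ℝ} (hu0 : -U ≤ u) (hu1 : u ≤ 0) (hx0 : 0 ≤ x) (hx1 : x ≤ 3 / 4) {z : ℂ}
    (hz : ‖z‖ = 1) : ‖w u x z - 1‖ ≤ 8 * U * Real.exp (6 * U) * x := by
  obtain ⟨h1, h2⟩ := norm_one_sub hx0 hz
  have e : w u x z - 1 = ((‖1 - (x : ℂ) * z‖ ^ (2 * u) - 1 : ℝ) : ℂ) := by
    unfold w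
    push_cast
    ring
  rw [e, norm_real, Real.norm_eq_abs]
  obtain ⟨r, hrdef⟩ : ∃ r, r = ‖1 - (x : ℂ) * z‖ := ⟨_, rfl⟩
  rw [← hrdef] at h1 h2 ⊢
  have hr : 0 < r := by linarith
  have hlog : |Real.log r| ≤ 4 * x := by
    rw [abs_le]
    constructor
    · have := Real.one_sub_inv_le_log_of_pos hr
      have h3 : r⁻¹ ≤ 1 + 4 * x := by
        rw [inv_le_iff_one_le_mul₀ hr]
        nlinarith
      linarith
    · have := Real.log_le_sub_one_of_pos hr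
      linarith
  have hu : |2 * u| ≤ 2 * U := by
    rw [abs_le]
    constructor <;> linarith
  have hy : |Real.log r * (2 * u)| ≤ 4 * x * (2 * U) := by
    rw [abs_mul]
    exact mul_le_mul hlog hu (abs_nonneg _) (by linarith)
  have hy6 : 4 * x * (2 * U) ≤ 6 * U := by nlinarith
  rw [Real.rpow_def_of_pos hr]
  refine (abs_exp_sub_one (hy.trans hy6)).trans ?_
  calc |Real.log r * (2 * u)| * Real.exp (6 * U) ≤ 4 * x * (2 * U) * Real.exp (6 * U) := by gcongr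
    _ = _ := by ring

end LFgA

open K7.LFnA K1.LFaux K3.LF4aux in
/-- (B1) the local factor is Lipschitz in the shifts -/
theorem stLFg : StLFg := by
  intro U hU
  obtain ⟨W, hW⟩ : ∃ W, W = 8 * U * Real.exp (6 * U) := ⟨_, rfl⟩
  have hW0 : 0 ≤ W := by rw [hW]; positivity
  refine ⟨144 * W + 1, by positivity, ?_⟩
  intro u x x₁ x₂ hu0 hu1 hx0 hx1 h₁ h₂
  have hx34 : x ≤ 3 / 4 := by linarith
  have hxn : ‖(x : ℂ)‖ ≤ 3 / 4 := by
    rw [norm_real, Real.norm_eq_abs, abs_of_nonneg hx0]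
    exact hx34
  have n1 := norm_shift_le hx0 hx1 h₁
  have n2 := norm_shift_le hx0 hx1 h₂
  have hw := w_cont (u := u) hx0 hx34
  have hw1 : ∀ z : ℂ, ‖z‖ = 1 → ‖w u x z - 1‖ ≤ W * x := by
    intro z hz
    rw [hW]
    exact LFgA.w_sub_one hu0 hu1 hx0 hx34 hz
  rw [LF_eq hx0 hx34 n1 n2, LF_eq hx0 hx34 hxn hxn]
  obtain ⟨R, hR⟩ : ∃ R, R = Real.circleAverage (fun z => Kr x₁ x₂ z * (w u x z - 1)) 0 1 :=
    ⟨_, rfl⟩
  obtain ⟨R0, hR0⟩ : ∃ R0, R0 = Real.circleAverage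
    (fun z => Kr (x : ℂ) (x : ℂ) z * (w u x z - 1)) 0 1 := ⟨_, rfl⟩
  have hd0 : 0 ≤ ‖x₁ - x‖ + ‖x₂ - x‖ := by positivity
  have b1 : ‖R - R0‖ ≤ 64 * (‖x₁ - x‖ + ‖x₂ - x‖) * (W * x) := by
    rw [hR, hR0]
    apply avg_sub_le
    · exact (Kr_cont n1 n2).mul (hw.sub continuousOn_const)
    · exact (Kr_cont hxn hxn).mul (hw.sub continuousOn_const)
    · intro z hz
      rw [← sub_mul, norm_mul]
      exact mul_le_mul (Kr_lip n1 n2 hxn hz) (hw1 z hz) (norm_nonneg _) (by positivity)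
  have b2 : ‖R‖ ≤ 16 * (W * x) := by
    rw [hR]
    apply norm_avg_le
    intro z hz
    rw [norm_mul]
    exact mul_le_mul (norm_Kr_le n1 n2 hz) (hw1 z hz) (norm_nonneg _) (by norm_num)
  have b3 : ‖(1 - x₁ * x₂) - (1 - (x : ℂ) * x)‖ ≤ ‖x₁ - x‖ + ‖x₂ - x‖ := by
    have h := mul_lip (p := x₁) (p' := (x : ℂ)) (q := x₂) (q' := (x : ℂ)) le_rfl le_rfl
      n2 hxn
    have e : (1 - x₁ * x₂) - (1 - (x : ℂ) * x) = -(x₁ * x₂ - x * x) := by ring
    rw [e, norm_neg]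
    have := norm_nonneg (x₁ - (x : ℂ))
    have := norm_nonneg (x₂ - (x : ℂ))
    linarith
  have b4 : ‖1 - (x : ℂ) * x‖ ≤ 2 := by
    refine (norm_sub_le _ _).trans ?_
    rw [norm_one, norm_mul]
    nlinarith [norm_nonneg (x : ℂ)]
  have e : 1 + (1 - x₁ * x₂) * R - (1 + (1 - (x : ℂ) * x) * R0) =
      (1 - x₁ * x₂) * R - (1 - (x : ℂ) * x) * R0 := by ring
  rw [← hR, ← hR0, e]
  refine (mul_lip b3 b1 b2 b4).trans ?_
  have h0 : 0 ≤ x * (‖x₁ - x‖ + ‖x₂ - x‖) := by positivity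
  have e2 : (‖x₁ - x‖ + ‖x₂ - x‖) * (16 * (W * x)) +
      2 * (64 * (‖x₁ - x‖ + ‖x₂ - x‖) * (W * x)) + x * (‖x₁ - x‖ + ‖x₂ - x‖) =
      (144 * W + 1) * x * (‖x₁ - x‖ + ‖x₂ - x‖) := by ring
  linarith

end K10
end Pool.Agent.Lib.MP_973905_nt
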