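import Pool.Agent.Lib.MP_973905_nt.K10.Stmts

/-! (N5) the total loss. -/

namespace Pool.Agent.Lib.MP_973905_nt
namespace K10

open MeasureTheory ProbabilityTheory Complex Filter Topology K1 K4 K5
open K8 (Cfg pe rk tk GW VT nb LG aZ aV rhoZ rho8 ETz SB8 BB8 lam8)

namespace Lam10Aux

theorem LG_pos (n : ℕ) (c V : ℝ) (hV : 0 < V) : 0 < LG n c V := by
  unfold LG
  refine Finset.sum_pos' ?_ ⟨n, Finset.self_mem_range_succ n, ?_⟩
  · intro j _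
    have h1 : 0 ≤ c ^ (2 * (n - j)) := by
      rw [pow_mul]; positivity
    positivity
  · have : 0 < ((n.factorial : ℕ) : ℝ) := by exact_mod_cast n.factorial_pos
    simp only [Nat.choose_self, Nat.sub_self, mul_zero, pow_zero, mul_one, Nat.cast_one, one_pow,
      one_mul]
    positivity

/-- `1 / (1 - x) + log (1 - x) - 1 ≤ x² / 2 + 2 x³ / 3 + 2 x⁴` for `0 ≤ x ≤ 1 / 2`. -/
theorem g_le {x : ℝ} (hx : 0 ≤ x) (hx2 : x ≤ 1 / 2) :
    1 / (1 - x) + Real.log (1 - x) - 1 ≤ x ^ 2 / 2 + 2 / 3 * x ^ 3 + 2 * x ^ 4 := by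
  have hd : ∀ t : ℝ, t ≤ 1 / 2 → HasDerivAt
      (fun t : ℝ => (t ^ 2 / 2 + 2 / 3 * t ^ 3 + 2 * t ^ 4) - ((1 - t)⁻¹ + Real.log (1 - t)))
      (t ^ 3 * (1 - 2 * t) * (5 - 4 * t) / (1 - t) ^ 2) t := by
    intro t ht
    have hne : (1 : ℝ) - t ≠ 0 := by linarith
    have h1 : HasDerivAt (fun t : ℝ => 1 - t) (-1) t := by
      simpa using (hasDerivAt_id t).const_sub 1
    have h2 : HasDerivAt (fun t : ℝ => (1 - t)⁻¹) (-(-1) / (1 - t) ^ 2) t := h1.inv hne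
    have h3 : HasDerivAt (fun t : ℝ => Real.log (1 - t)) (-1 / (1 - t)) t := h1.log hne
    have h4 : HasDerivAt (fun t : ℝ => t ^ 2 / 2) ((2 : ℕ) * t ^ (2 - 1) / 2) t :=
      (hasDerivAt_pow 2 t).div_const 2
    have h5 : HasDerivAt (fun t : ℝ => 2 / 3 * t ^ 3) (2 / 3 * ((3 : ℕ) * t ^ (3 - 1))) t :=
      (hasDerivAt_pow 3 t).const_mul _
    have h6 : HasDerivAt (fun t : ℝ => 2 * t ^ 4) (2 * ((4 : ℕ) * t ^ (4 - 1))) t :=
      (hasDerivAt_pow 4 t).const_mul _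
    have h7 := ((h4.add h5).add h6).sub (h2.add h3)
    have e : (2 : ℕ) * t ^ (2 - 1) / 2 + 2 / 3 * ((3 : ℕ) * t ^ (3 - 1)) +
        2 * ((4 : ℕ) * t ^ (4 - 1)) - (-(-1) / (1 - t) ^ 2 + -1 / (1 - t)) =
        t ^ 3 * (1 - 2 * t) * (5 - 4 * t) / (1 - t) ^ 2 := by
      field_simp
      push_cast
      ring
    rw [e] at h7
    exact h7
  have key : MonotoneOn
      (fun t : ℝ => (t ^ 2 / 2 + 2 / 3 * t ^ 3 + 2 * t ^ 4) - ((1 - t)⁻¹ + Real.log (1 - t)))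
      (Set.Icc 0 (1 / 2)) := by
    apply monotoneOn_of_deriv_nonneg (convex_Icc 0 (1 / 2))
    · intro t ht
      exact (hd t ht.2).continuousAt.continuousWithinAt
    · intro t ht
      rw [interior_Icc] at ht
      exact (hd t ht.2.le).differentiableAt.differentiableWithinAt
    · intro t ht
      rw [interior_Icc] at ht
      rw [(hd t ht.2.le).deriv]
      have h0 : 0 < t := ht.1
      have h1 : 0 ≤ 1 - 2 * t := by linarith [ht.2]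
      have h2 : 0 ≤ 5 - 4 * t := by linarith [ht.2]
      positivity
  have h := key (Set.left_mem_Icc.mpr (by norm_num)) (Set.mem_Icc.mpr ⟨hx, hx2⟩) hx
  simp only [sub_zero, Real.log_one, inv_one] at h
  rw [one_div]
  nlinarith [h]

/-- The loss of one block. -/
theorem lam_le (hB : StBh10) (hA : StAh10) {κ : ℝ} (h1 : 1 ≤ κ) (M i : ℕ)
    (hD : 1 ≤ Dk κ i) (hV1 : 1 ≤ (cfg10 κ M).V i) (hV2 : (cfg10 κ M).V i ≤ 2)
    (h3 : 2 * (κ * (1 + κ) * (cfg10 κ M).V i) ≤ ((Dk κ i : ℕ) : ℝ)) :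
    lam8 κ (cfg10 κ M) i ≤
      κ * ((κ * (1 + κ) * (cfg10 κ M).V i / ((Dk κ i : ℕ) : ℝ)) ^ 2 / 2 +
        2 / 3 * (κ * (1 + κ) * (cfg10 κ M).V i / ((Dk κ i : ℕ) : ℝ)) ^ 3 +
        2 * (κ * (1 + κ) * (cfg10 κ M).V i / ((Dk κ i : ℕ) : ℝ)) ^ 4 +
        κ ^ 2 * (cfg10 κ M).V i / ((Dk κ i : ℕ) : ℝ) ^ 2) := by
  have h0 : 0 < κ := by linarith
  have hDr : (1 : ℝ) ≤ ((Dk κ i : ℕ) : ℝ) := by exact_mod_cast hD
  have hB' := hB κ ((cfg10 κ M).V i) (Dk κ i) h1 hD hV1 hV2 h3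
  obtain ⟨hA', -, -⟩ := hA κ ((cfg10 κ M).V i) (Dk κ i) h1 hD hV1 hV2 h3
  have eV : aV κ (cfg10 κ M) i =
      (1 - (((Dk κ i : ℕ) : ℝ) * pe κ - ⌊((Dk κ i : ℕ) : ℝ) * pe κ⌋₊)) *
        (LG ⌊((Dk κ i : ℕ) : ℝ) * pe κ⌋₊ (((Dk κ i : ℕ) : ℝ) / κ -
          (1 + κ) * (cfg10 κ M).V i) ((cfg10 κ M).V i) /
            (((Dk κ i : ℕ) : ℝ) / κ) ^ (2 * ⌊((Dk κ i : ℕ) : ℝ) * pe κ⌋₊)) +
      (((Dk κ i : ℕ) : ℝ) * pe κ - ⌊((Dk κ i : ℕ) : ℝ) * pe κ⌋₊) *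
        (LG (⌊((Dk κ i : ℕ) : ℝ) * pe κ⌋₊ + 1) (((Dk κ i : ℕ) : ℝ) / κ -
          (1 + κ) * (cfg10 κ M).V i) ((cfg10 κ M).V i) /
          (((Dk κ i : ℕ) : ℝ) / κ) ^ (2 * (⌊((Dk κ i : ℕ) : ℝ) * pe κ⌋₊ + 1))) := rfl
  have eZ : aZ (cfg10 κ M) i =
      LG (Dk κ i) ((cfg10 κ M).V i + (((Dk κ i : ℕ) : ℝ) / κ - (1 + κ) * (cfg10 κ M).V i))
        ((cfg10 κ M).V i) / (((Dk κ i : ℕ) : ℝ) / κ) ^ (2 * Dk κ i) := rfl
  rw [← eV] at hB'
  rw [← eZ] at hA'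
  set V := (cfg10 κ M).V i with hVdef
  set D : ℝ := ((Dk κ i : ℕ) : ℝ) with hDdef
  have hVpos : 0 < V := by linarith
  have hDpos : 0 < D := by linarith
  have hm : 0 < D / κ := by positivity
  have hpe : 0 < pe κ := by unfold pe; positivity
  have hr1 : (⌊D * pe κ⌋₊ : ℝ) ≤ D * pe κ := Nat.floor_le (by positivity)
  have hr2 : D * pe κ < (⌊D * pe κ⌋₊ : ℝ) + 1 := Nat.lt_floor_add_one _
  have haV : 0 < aV κ (cfg10 κ M) i := by
    rw [eV]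
    have p1 := LG_pos ⌊D * pe κ⌋₊ (D / κ - (1 + κ) * V) V hVpos
    have p2 := LG_pos (⌊D * pe κ⌋₊ + 1) (D / κ - (1 + κ) * V) V hVpos
    have q1 : 0 < LG ⌊D * pe κ⌋₊ (D / κ - (1 + κ) * V) V / (D / κ) ^ (2 * ⌊D * pe κ⌋₊) := by
      positivity
    have q2 : 0 < LG (⌊D * pe κ⌋₊ + 1) (D / κ - (1 + κ) * V) V /
        (D / κ) ^ (2 * (⌊D * pe κ⌋₊ + 1)) := by positivity
    have r1 : 0 < 1 - (D * pe κ - ⌊D * pe κ⌋₊) := by linarith
    have r2 : 0 ≤ D * pe κ - ⌊D * pe κ⌋₊ := by linarith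
    have := mul_pos r1 q1
    have := mul_nonneg r2 q2.le
    linarith
  set x : ℝ := κ * (1 + κ) * V / D with hx
  have hx0 : 0 ≤ x := by positivity
  have hx2 : x ≤ 1 / 2 := by
    rw [hx, div_le_iff₀ hDpos]
    linarith
  set Nn : ℝ := 1 / (1 - x) + Real.log (1 - x) + κ ^ 2 * V / D ^ 2 with hNn
  have hNpos : 0 < Nn := by
    by_contra hneg
    have := mul_nonpos_of_nonneg_of_nonpos (Real.exp_pos (-((1 + κ) ^ 2 * V))).le
      (not_lt.mp hneg)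
    linarith
  have hlV : Real.log (aV κ (cfg10 κ M) i) ≤ -((1 + κ) ^ 2 * V) + (Nn - 1) := by
    have h4 := Real.log_le_log haV hB'
    rw [Real.log_mul (Real.exp_pos _).ne' hNpos.ne', Real.log_exp] at h4
    have h5 := Real.log_le_sub_one_of_pos hNpos
    linarith
  have hlZ : -(κ ^ 2 * V) ≤ Real.log (aZ (cfg10 κ M) i) := by
    have hh := Real.log_le_log (Real.exp_pos _) hA'
    rwa [Real.log_exp] at hh
  have hg := g_le hx0 hx2
  unfold lam8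
  rw [← hVdef]
  have e1 : κ * Real.log (aV κ (cfg10 κ M) i) ≤ κ * (-((1 + κ) ^ 2 * V) + (Nn - 1)) :=
    mul_le_mul_of_nonneg_left hlV h0.le
  have e2 : (1 + κ) * (-(κ ^ 2 * V)) ≤ (1 + κ) * Real.log (aZ (cfg10 κ M) i) :=
    mul_le_mul_of_nonneg_left hlZ (by linarith)
  have e3 : κ * (-((1 + κ) ^ 2 * V) + (Nn - 1)) - (1 + κ) * (-(κ ^ 2 * V)) +
      κ * (1 + κ) * V = κ * (Nn - 1) := by ring
  have e4 : κ * (Nn - 1) ≤ κ * (x ^ 2 / 2 + 2 / 3 * x ^ 3 + 2 * x ^ 4 + κ ^ 2 * V / D ^ 2) := by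
    apply mul_le_mul_of_nonneg_left _ h0.le
    rw [hNn]
    linarith
  linarith

end Lam10Aux

open Lam10Aux in
/-- (N5) the total loss -/
theorem stLam10 (hB : StBh10) (hA : StAh10) (hadm : StAdm10) : StLam10 := by
  intro κ h1 ε hε
  obtain ⟨M₀, hM₀⟩ := hadm κ h1
  have h0 : 0 < κ := by linarith
  have hk : 0 < κ * (1 + κ) := by positivity
  have hd : 1 ≤ dk κ := by
    unfold dk
    exact Nat.one_le_ceil_iff.mpr (by positivity)
  have hdk : κ * (1 + κ) ≤ (dk κ : ℝ) := Nat.le_ceil _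
  have hdr : (1 : ℝ) ≤ (dk κ : ℝ) := by exact_mod_cast hd
  have hdpos : (0 : ℝ) < dk κ := by linarith
  have hκd : κ ≤ (dk κ : ℝ) := by nlinarith
  refine ⟨max M₀ ⌈8 * κ / ε + 4 - Real.log (th κ)⌉₊, ?_⟩
  intro M hM
  obtain ⟨-, -, -, hV1, hVl1, hVl2, hN⟩ := hM₀ M ((le_max_left _ _).trans hM)
  have hM2 : 8 * κ / ε + 4 - Real.log (th κ) ≤ (M : ℝ) :=
    (Nat.le_ceil _).trans (by exact_mod_cast (le_max_right _ _).trans hM)
  have hpos8 : 0 < 8 * κ / ε := by positivity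
  have hNB : 8 * κ / ε + 3 ≤ ((cfg10 κ M).N : ℝ) := by linarith
  obtain ⟨n, hn⟩ : ∃ n, (cfg10 κ M).N = n + 1 := by
    refine Nat.exists_eq_succ_of_ne_zero ?_
    intro h
    rw [h] at hNB
    norm_num at hNB
    linarith
  have hnr : ((cfg10 κ M).N : ℝ) = n + 1 := by rw [hn]; push_cast; ring
  have hn8 : 8 * κ / ε + 2 ≤ (n : ℝ) := by linarith
  have hDk : ∀ i, ((Dk κ i : ℕ) : ℝ) = (2 + i) * dk κ := by
    intro i
    unfold Dk
    push_cast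
    ring
  have hDk1 : ∀ i, 1 ≤ Dk κ i := by
    intro i
    unfold Dk
    exact Nat.mul_pos (by omega) hd
  -- the last block
  have hlast : lam8 κ (cfg10 κ M) n ≤ ε := by
    have hVn1 : 1 ≤ (cfg10 κ M).V n := by
      have := hVl1
      rwa [hn, Nat.add_sub_cancel] at this
    have hVn2 : (cfg10 κ M).V n ≤ 2 := by
      have := hVl2
      rwa [hn, Nat.add_sub_cancel] at this
    have hn2 : (2 : ℝ) ≤ n := by linarith
    have h3V : 2 * (κ * (1 + κ) * (cfg10 κ M).V n) ≤ ((Dk κ n : ℕ) : ℝ) := by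
      rw [hDk]
      have a1 : κ * (1 + κ) * (cfg10 κ M).V n ≤ dk κ * 2 :=
        mul_le_mul hdk hVn2 (by linarith) (by linarith)
      nlinarith
    have h := lam_le hB hA h1 M n (hDk1 n) hVn1 hVn2 h3V
    refine h.trans ?_
    rw [hDk]
    set V := (cfg10 κ M).V n
    set x : ℝ := κ * (1 + κ) * V / ((2 + n) * dk κ) with hx
    have hx0 : 0 ≤ x := by positivity
    have hx1 : x ≤ 2 / (2 + n) := by
      rw [hx, div_le_div_iff₀ (by positivity) (by positivity)]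
      have a1 : κ * (1 + κ) * V ≤ dk κ * 2 := mul_le_mul hdk hVn2 (by linarith) (by linarith)
      have a2 : 0 ≤ (2 + (n : ℝ)) := by positivity
      nlinarith [mul_le_mul_of_nonneg_right a1 a2]
    have hx2 : x ≤ 1 / 2 := by
      refine hx1.trans ?_
      rw [div_le_div_iff₀ (by positivity) (by norm_num)]
      linarith
    have b1 : x ^ 2 ≤ (2 / (2 + n)) ^ 2 := pow_le_pow_left₀ hx0 hx1 2
    have b2 : x ^ 2 / 2 + 2 / 3 * x ^ 3 + 2 * x ^ 4 ≤ 4 / 3 * x ^ 2 := by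
      nlinarith [mul_nonneg (sq_nonneg x) (sub_nonneg.mpr hx2), mul_nonneg (sq_nonneg x)
        (mul_nonneg hx0 (sub_nonneg.mpr hx2))]
    have b3 : κ ^ 2 * V / ((2 + n) * dk κ) ^ 2 ≤ 2 / (2 + n) ^ 2 := by
      rw [div_le_div_iff₀ (by positivity) (by positivity), mul_pow]
      have a1 : κ ^ 2 * V ≤ dk κ ^ 2 * 2 :=
        mul_le_mul (pow_le_pow_left₀ h0.le hκd 2) hVn2 (by linarith) (by positivity)
      have a2 : 0 ≤ (2 + (n : ℝ)) ^ 2 := by positivity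
      nlinarith [mul_le_mul_of_nonneg_right a1 a2]
    have b4 : x ^ 2 / 2 + 2 / 3 * x ^ 3 + 2 * x ^ 4 + κ ^ 2 * V / ((2 + n) * dk κ) ^ 2 ≤
        8 / (2 + n) ^ 2 := by
      have e1 : (2 / (2 + (n : ℝ))) ^ 2 = 4 / (2 + n) ^ 2 := by
        rw [div_pow]; norm_num
      have e2 : 4 / 3 * (4 / (2 + (n : ℝ)) ^ 2) + 2 / (2 + n) ^ 2 ≤ 8 / (2 + n) ^ 2 := by
        have : 0 < (2 + (n : ℝ)) ^ 2 := by positivity
        rw [← mul_div_assoc, ← add_div]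
        exact div_le_div_of_nonneg_right (by norm_num) this.le
      rw [e1] at b1
      linarith
    calc κ * (x ^ 2 / 2 + 2 / 3 * x ^ 3 + 2 * x ^ 4 + κ ^ 2 * V / ((2 + n) * dk κ) ^ 2)
        ≤ κ * (8 / (2 + n) ^ 2) := mul_le_mul_of_nonneg_left b4 h0.le
      _ ≤ ε := by
        have c1 : 8 * κ / ε ≤ 2 + n := by linarith
        rw [div_le_iff₀ hε] at c1
        have c2 : (2 + (n : ℝ)) ≤ (2 + n) ^ 2 := by nlinarith
        rw [← mul_div_assoc, div_le_iff₀ (by positivity)]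
        nlinarith
  -- the other blocks
  have hrest : ∑ i ∈ Finset.range n, lam8 κ (cfg10 κ M) i ≤ LamB κ := by
    set y : ℝ := κ * (1 + κ) / dk κ with hy
    have hy0 : 0 ≤ y := by positivity
    have hy1 : y ≤ 1 := by
      rw [hy, div_le_one hdpos]
      exact hdk
    have hterm : ∀ i ∈ Finset.range n, lam8 κ (cfg10 κ M) i ≤
        4 / 5 * κ * y ^ 2 * (1 / ((i : ℝ) + 1) - 1 / (((i + 1 : ℕ) : ℝ) + 1)) := by
      intro i hi
      rw [Finset.mem_range] at hi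
      have hVi : (cfg10 κ M).V i = 1 := hV1 i (by omega)
      have hi0 : (0 : ℝ) ≤ i := Nat.cast_nonneg i
      have h := lam_le hB hA h1 M i (hDk1 i) (by rw [hVi]) (by rw [hVi]; norm_num)
        (by
          rw [hVi, hDk]
          nlinarith)
      refine h.trans ?_
      rw [hVi, hDk, mul_one, mul_one]
      have m0 : (0 : ℝ) < 2 + i := by positivity
      have e1 : κ * (1 + κ) / ((2 + (i : ℝ)) * dk κ) = y / (2 + i) := by
        rw [hy, div_div, mul_comm (dk κ : ℝ)]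
      have e2 : κ ^ 2 / ((2 + (i : ℝ)) * dk κ) ^ 2 ≤ y ^ 2 / 4 / (2 + i) ^ 2 := by
        rw [hy, div_pow, mul_pow, div_div, div_div, div_le_div_iff₀ (by positivity)
          (by positivity)]
        have a1 : κ ^ 2 * 4 ≤ (κ * (1 + κ)) ^ 2 := by
          have : (2 : ℝ) ≤ 1 + κ := by linarith
          have a2 : (4 : ℝ) ≤ (1 + κ) ^ 2 := by nlinarith
          rw [mul_pow]
          exact mul_le_mul_of_nonneg_left a2 (by positivity)
        have a3 : 0 ≤ (dk κ : ℝ) ^ 2 * (2 + i) ^ 2 := by positivity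
        nlinarith [mul_le_mul_of_nonneg_right a1 a3]
      rw [e1]
      have e3 : (y / (2 + (i : ℝ))) ^ 2 / 2 + 2 / 3 * (y / (2 + i)) ^ 3 + 2 * (y / (2 + i)) ^ 4 +
          κ ^ 2 / ((2 + (i : ℝ)) * dk κ) ^ 2 ≤
          y ^ 2 * (3 / 4 / (2 + i) ^ 2 + 2 / 3 / (2 + i) ^ 3 + 2 / (2 + i) ^ 4) := by
        have f3 : (y / (2 + (i : ℝ))) ^ 3 ≤ y ^ 2 / (2 + i) ^ 3 := by
          rw [div_pow]
          exact div_le_div_of_nonneg_right (by nlinarith [sq_nonneg y]) (by positivity)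
        have f4 : (y / (2 + (i : ℝ))) ^ 4 ≤ y ^ 2 / (2 + i) ^ 4 := by
          rw [div_pow]
          refine div_le_div_of_nonneg_right ?_ (by positivity)
          have : y ^ 2 ≤ 1 := by nlinarith
          nlinarith [sq_nonneg y]
        have f2 : (y / (2 + (i : ℝ))) ^ 2 / 2 = y ^ 2 / 2 / (2 + i) ^ 2 := by
          rw [div_pow, div_right_comm]
        rw [f2]
        have f5 : y ^ 2 * (3 / 4 / (2 + (i : ℝ)) ^ 2 + 2 / 3 / (2 + i) ^ 3 + 2 / (2 + i) ^ 4) =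
            y ^ 2 / 2 / (2 + i) ^ 2 + 2 / 3 * (y ^ 2 / (2 + i) ^ 3) +
              2 * (y ^ 2 / (2 + i) ^ 4) + y ^ 2 / 4 / (2 + i) ^ 2 := by ring
        rw [f5]
        linarith
      have e4 : 3 / 4 / (2 + (i : ℝ)) ^ 2 + 2 / 3 / (2 + i) ^ 3 + 2 / (2 + i) ^ 4 ≤
          4 / 5 * (1 / ((i : ℝ) + 1) - 1 / (((i + 1 : ℕ) : ℝ) + 1)) := by
        have g1 : (i : ℝ) ≤ (i : ℝ) ^ 2 := by exact_mod_cast Nat.le_self_pow (by norm_num) i
        have g2 : 4 / 5 * (1 / ((i : ℝ) + 1) - 1 / (((i + 1 : ℕ) : ℝ) + 1)) -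
            (3 / 4 / (2 + (i : ℝ)) ^ 2 + 2 / 3 / (2 + i) ^ 3 + 2 / (2 + i) ^ 4) =
            (3 * (i : ℝ) ^ 3 + 23 * (i : ℝ) ^ 2 - 24 * i + 4) / (60 * ((i + 1) * (2 + i) ^ 4)) := by
          have h2 : (2 : ℝ) + i ≠ 0 := m0.ne'
          have h3 : (i : ℝ) + 1 ≠ 0 := by positivity
          have h4 : ((i + 1 : ℕ) : ℝ) + 1 = 2 + i := by push_cast; ring
          rw [h4]
          field_simp
          ring
        have g3 : 0 ≤ 3 * (i : ℝ) ^ 3 + 23 * (i : ℝ) ^ 2 - 24 * i + 4 := by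
          have : (0 : ℝ) ≤ (i : ℝ) ^ 3 := by positivity
          have g4 : (i : ℝ) ≤ (i : ℝ) ^ 3 := by exact_mod_cast Nat.le_self_pow (by norm_num) i
          linarith
        have g5 : 0 ≤ (3 * (i : ℝ) ^ 3 + 23 * (i : ℝ) ^ 2 - 24 * i + 4) /
            (60 * ((i + 1) * (2 + i) ^ 4)) := div_nonneg g3 (by positivity)
        linarith
      calc κ * ((y / (2 + (i : ℝ))) ^ 2 / 2 + 2 / 3 * (y / (2 + i)) ^ 3 +
            2 * (y / (2 + i)) ^ 4 + κ ^ 2 / ((2 + (i : ℝ)) * dk κ) ^ 2)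
          ≤ κ * (y ^ 2 * (4 / 5 * (1 / ((i : ℝ) + 1) - 1 / (((i + 1 : ℕ) : ℝ) + 1)))) := by
            apply mul_le_mul_of_nonneg_left _ h0.le
            exact e3.trans (mul_le_mul_of_nonneg_left e4 (sq_nonneg y))
        _ = 4 / 5 * κ * y ^ 2 * (1 / ((i : ℝ) + 1) - 1 / (((i + 1 : ℕ) : ℝ) + 1)) := by ring
    refine (Finset.sum_le_sum hterm).trans ?_
    rw [← Finset.mul_sum, Finset.sum_range_sub' (fun i : ℕ => 1 / ((i : ℝ) + 1)) n]
    unfold LamB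
    rw [← hy]
    have z1 : 0 ≤ 1 / ((n : ℝ) + 1) := by positivity
    have z2 : 0 ≤ 4 / 5 * κ * y ^ 2 := by positivity
    have z3 : (1 / (((0 : ℕ) : ℝ) + 1) - 1 / ((n : ℝ) + 1)) ≤ 1 := by
      simp only [Nat.cast_zero, zero_add, div_one]
      linarith
    calc 4 / 5 * κ * y ^ 2 * (1 / (((0 : ℕ) : ℝ) + 1) - 1 / ((n : ℝ) + 1))
        ≤ 4 / 5 * κ * y ^ 2 * 1 := mul_le_mul_of_nonneg_left z3 z2
      _ = 4 / 5 * κ * y ^ 2 := mul_one _
  rw [hn, Finset.sum_range_succ]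
  linarith

end K10
end Pool.Agent.Lib.MP_973905_nt
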