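import Pool.Agent.Lib.MP_973905_nt.K10.Defs

/-! Statements (as propositions) of the modules of folder K10 (lower bounds, all `k ≥ 2`). -/

namespace Pool.Agent.Lib.MP_973905_nt
namespace K10

open MeasureTheory ProbabilityTheory Complex Filter Topology K1 K4 K5
open K8 (Cfg pe rk tk GW VT nb LG aZ aV rhoZ rho8 ETz SB8 BB8 lam8)

/-! ### Part B: general facts -/

/-- (B0) the arithmetic factor as a limit over finite products (compare `K7.StAK7`) -/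
def StAKg : Prop := ∀ k : ℝ, 0 < k → 0 < aK k ∧
    Tendsto (fun y : ℝ => (∏ p ∈ PS 0 y, Dl k ((p : ℝ) ^ (-(1 / 2) : ℝ))) /
      (Real.exp Real.eulerMascheroniConstant * Real.log y) ^ (k ^ 2)) atTop (𝓝 (aK k)) ∧
    Tendsto (fun y : ℝ => (∏ p ∈ PS 0 y, (1 - 1 / (p : ℝ)) * Dl k ((p : ℝ) ^ (-(1 / 2) : ℝ))) /
      (Real.exp Real.eulerMascheroniConstant * Real.log y) ^ (k ^ 2 - 1)) atTop (𝓝 (aK k))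

/-- (B1) the local factor is Lipschitz in the shifts (compare `K7.StLFn`) -/
def StLFg : Prop := ∀ U : ℝ, 0 ≤ U → ∃ C : ℝ, 0 < C ∧ ∀ (u x : ℝ) (x₁ x₂ : ℂ), -U ≤ u → u ≤ 0 →
    0 ≤ x → x ≤ 7072 / 10000 → ‖x₁ - x‖ ≤ x / 50 → ‖x₂ - x‖ ≤ x / 50 →
    ‖(1 - x₁ * x₂) * LF u x x₁ x₂ - (1 - (x : ℂ) * x) * LF u x x x‖ ≤
      C * x * (‖x₁ - x‖ + ‖x₂ - x‖)

/-- (B2) one block with shifts (compare `K7.StBlk2`) -/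
def StBlkg : Prop := ∀ K₁ : ℝ, 1 ≤ K₁ → ∃ C₁ c₀ : ℝ, 0 < C₁ ∧ 0 < c₀ ∧
    ∀ (A l : ℕ) (S : Finset ℕ) (k : ℝ) (a₁ a₂ : ℂ),
    1 ≤ A → (∀ p ∈ S, p.Prime) → 1 ≤ k → k ≤ K₁ →
    (∀ p ∈ S, ‖a₁‖ * Real.log p ≤ c₀ ∧ ‖a₂‖ * Real.log p ≤ c₀) →
    (‖a₁‖ + ‖a₂‖) * ∑ p ∈ S, Real.log p / p ≤ 1 →
    C₁ * (1 + ∑ p ∈ S, 1 / (p : ℝ)) ≤ l →
    ‖ES S (fun f => ZZ S (tw (1 / 2 + a₁) f) *
        (starRingEnd ℂ) (ZZ S (tw (1 / 2 + (starRingEnd ℂ) a₂) f)) *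
        (Ntr l (k - 1) (Pj A S (tw (1 / 2) f)) *
          (starRingEnd ℂ) (Ntr l (k - 1) (Pj A S (tw (1 / 2) f))))) - LP (1 - k) a₁ a₂ S‖ ≤
      C₁ * (Real.exp (C₁ * Pool.Agent.Lib.MP_973905_nt.rho A S) - 1 + Real.exp (-(l / 2))) *
        ‖LP (1 - k) a₁ a₂ S‖

/-- (B3) the bottom blocks, main term (compare `K7.StBotA`) -/
def StBotg : Prop := ∀ κ : ℝ, 1 ≤ κ → ∀ η : ℝ, 0 < η → ∃ M₀ : ℕ, ∀ M : ℕ, M₀ ≤ M →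
    ∃ T₀ : ℝ, 3 ≤ T₀ ∧ ∀ T, T₀ ≤ T → ∀ w : ℂ, ‖w‖ ≤ 1 / Real.log T →
    ‖(∏ j ∈ Finset.range (JJ T + 1), EBo T M (1 + κ) (Finset.range (JJ T + 1)) ∅ w j) -
      ((aK (1 + κ) * lM T M ^ ((1 + κ) ^ 2 - 1) : ℝ) : ℂ)‖ ≤
      η * (aK (1 + κ) * lM T M ^ ((1 + κ) ^ 2 - 1))

/-- (B4) mean square of a truncated exponential over a block (compare `K8.StBlkN`) -/
def StBlkNg : Prop := ∀ K₁ : ℝ, 1 ≤ K₁ → ∃ C₁ : ℝ, 0 < C₁ ∧ ∀ (A l : ℕ) (S : Finset ℕ) (k : ℝ),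
    1 ≤ A → (∀ p ∈ S, p.Prime) → 1 ≤ k → k ≤ K₁ →
    C₁ * (1 + ∑ p ∈ S, 1 / (p : ℝ)) ≤ l →
    |ES S (fun f => ‖Ntr l k (Pj A S (tw (1 / 2) f))‖ ^ 2) -
        ∏ p ∈ S, Dl k ((p : ℝ) ^ (-(1 / 2) : ℝ))| ≤
      C₁ * (Real.exp (C₁ * Pool.Agent.Lib.MP_973905_nt.rho A S) - 1 + Real.exp (-(l / 2))) *
        ∏ p ∈ S, Dl k ((p : ℝ) ^ (-(1 / 2) : ℝ))

/-- (B5) our polynomials are as short as we like (compare `K1.StShort`) -/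
def StShortg : Prop := ∀ A θ : ℝ, 0 < θ → ∃ M₀ : ℕ, ∀ M : ℕ, M₀ ≤ M → ∃ T₀ : ℝ, 3 ≤ T₀ ∧
    ∀ T, T₀ ≤ T → ∀ α : ℝ, |α| ≤ A → ∀ g h : Finset ℕ, DP (T ^ θ) (T ^ θ) (AA T M (JJ T) α g h)

/-! ### Part Z: the side of zeta -/

/-- (Z2) the limits of the top factors (compare `K8.StTop8`) -/
def StTop10 : Prop := ∀ κ : ℝ, 1 ≤ κ → ∀ (M : ℕ) (C : Cfg), Adm κ M C → ∀ i, i < C.N →
    ∀ ε : ℝ, 0 < ε → ∃ T₀ : ℝ, 3 ≤ T₀ ∧ ∀ T, T₀ ≤ T →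
    (∀ u : ℂ, ‖u‖ ≤ 1 → ‖ETz C T (u / Real.log T) i -
      LG (C.D i) (vv (C.te (i + 1)) (C.te i) u + (C.c i : ℂ)) (C.V i : ℂ) /
        (C.m i : ℂ) ^ (2 * C.D i)‖ ≤ ε) ∧
    |ES (C.U T i) (fun f => VT κ C T i (tw (1 / 2) f)) - aV κ C i| ≤ ε

/-- (Z3) facts on the limits (compare `K8.StRhoZ`) -/
def StRho10 : Prop := ∀ κ : ℝ, 1 ≤ κ → ∃ K : ℝ, 1 ≤ K ∧ ∀ (M : ℕ) (C : Cfg), Adm κ M C →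
    Differentiable ℂ (rhoZ C) ∧ (∀ i, i < C.N → 0 < aZ C i) ∧ (∀ i, i < C.N → 0 < aV κ C i) ∧
    0 ≤ rho8 C ∧
    rhoZ C 0 = ((∏ i ∈ Finset.range C.N, aZ C i : ℝ) : ℂ) ∧
    deriv (rhoZ C) 0 = ((-(rho8 C * ∏ i ∈ Finset.range C.N, aZ C i) : ℝ) : ℂ) ∧
    ∀ u : ℂ, ‖u‖ ≤ 1 → ‖rhoZ C u‖ ≤ K * ∏ i ∈ Finset.range C.N, aZ C i

/-- (Z4) the arithmetic factor is a product over the blocks (compare `K8.StFactZ`) -/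
def StFact10 : Prop := ∀ κ : ℝ, 1 ≤ κ → ∀ (M : ℕ) (C : Cfg), Adm κ M C → ∃ T₀ : ℝ,
    3 ≤ T₀ ∧ ∀ T, T₀ ≤ T → ∀ (N : ℕ) (c : ℕ → ℕ → ℂ), (N : ℝ) ≤ T →
    (∀ f, CMul f → ((‖GW κ C T M f‖ ^ 2 : ℝ) : ℂ) = GB N c f) →
      ∀ w : ℂ, ‖w‖ ≤ 1 / Real.log T → RB N c w =
        (∏ j ∈ Finset.range (JJ T + 1), EBo T M (1 + κ) (Finset.range (JJ T + 1)) ∅ w j) *
          ∏ i ∈ Finset.range C.N, ETz C T w i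

/-- (Z5) our weight belongs to the class (compare `K8.StBQZ`) -/
def StBQ10 : Prop := ∀ κ : ℝ, 1 ≤ κ → ∃ M₀ : ℕ, ∀ M : ℕ, M₀ ≤ M → ∀ C : Cfg, Adm κ M C →
    ∃ T₀ : ℝ, 3 ≤ T₀ ∧ ∀ T, T₀ ≤ T →
    BQ (T ^ (89 / 100 : ℝ)) (T ^ (1 / 1000 : ℝ)) (fun f => ((‖GW κ C T M f‖ ^ 2 : ℝ) : ℂ))

/-- (Z6) lower bound for the Gaussian means of `|ζ|² |GW|²` (compare `K8.StSecZ`) -/
def StSec10 : Prop := ∀ κ : ℝ, 1 ≤ κ → ∀ η : ℝ, 0 < η → ∃ M₀ : ℕ, ∀ M : ℕ, M₀ ≤ M →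
    ∀ C : Cfg, Adm κ M C → ∃ T₀ : ℝ, 3 ≤ T₀ ∧ ∀ T, T₀ ≤ T → ∀ τ : ℝ, T / Real.log T ≤ |τ| →
    |τ| ≤ 3 / 2 * T →
    aK (1 + κ) * lM T M ^ ((1 + κ) ^ 2 - 1) * Real.log T * (∏ i ∈ Finset.range C.N, aZ C i) *
      (1 - rho8 C - η) ≤
    EG T τ (fun t => ‖riemannZeta (1 / 2 + t * I)‖ ^ 2 * ‖GW κ C T M (fs (1 / 2 + t * I))‖ ^ 2)

/-- (Z8) continuity and size of our functions on the critical line (compare `K8.StCont8`) -/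
def StCont10 : Prop := ∀ κ : ℝ, 1 ≤ κ → ∃ M₀ : ℕ, ∀ M : ℕ, M₀ ≤ M → ∀ C : Cfg, Adm κ M C →
    ∃ T₀ : ℝ, 3 ≤ T₀ ∧ ∀ T, T₀ ≤ T →
    (Continuous fun t : ℝ => GW κ C T M (fs (1 / 2 + t * I))) ∧
    (∀ t : ℝ, ‖GW κ C T M (fs (1 / 2 + t * I))‖ ≤ T) ∧
    (Continuous fun t : ℝ => VV10 κ C T M (fs (1 / 2 + t * I))) ∧
    (∀ f, 0 ≤ VV10 κ C T M f) ∧
    ∀ t : ℝ, VV10 κ C T M (fs (1 / 2 + t * I)) ≤ T ^ 2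

/-- (Z9) the side of zeta on `[0, T]` (compare `K8.StSideZ`) -/
def StSideZ10 : Prop := ∀ κ : ℝ, 1 ≤ κ → ∀ η : ℝ, 0 < η → ∃ M₀ : ℕ, ∀ M : ℕ, M₀ ≤ M →
    ∀ C : Cfg, Adm κ M C → ∃ T₀ : ℝ, 3 ≤ T₀ ∧ ∀ T, T₀ ≤ T →
    aK (1 + κ) * lM T M ^ ((1 + κ) ^ 2 - 1) * Real.log T * (∏ i ∈ Finset.range C.N, aZ C i) *
      (1 - rho8 C - η) ≤
    T⁻¹ * ∫ t in (0 : ℝ)..T, ‖riemannZeta (1 / 2 + t * I)‖ ^ 2 *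
      ‖GW κ C T M (fs (1 / 2 + t * I))‖ ^ 2

/-! ### Part V: the side without zeta -/

/-- (V1) the pointwise inequality in a bottom block (compare `K8.StPtB`) -/
def StPtB10 : Prop := ∀ κ : ℝ, 1 ≤ κ → ∃ M₀ : ℕ, ∀ M : ℕ, M₀ ≤ M → ∀ (T : ℝ) (j : ℕ),
    j ≤ JJ T → ∀ z : ℂ, (‖Ntr (ll M (JJ T) j) κ z‖ ^ 2) ^ pe κ ≤ VBz κ T M j z

/-- (V2) the pointwise inequality (compare `K8.StPt8`) -/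
def StPt10 : Prop := ∀ κ : ℝ, 1 ≤ κ → ∃ M₀ : ℕ, ∀ M : ℕ, M₀ ≤ M → ∀ C : Cfg, Adm κ M C →
    ∀ (T : ℝ) (f : ℕ → ℂ), (‖GW κ C T M f‖ ^ 2) ^ pe κ ≤ VV10 κ C T M f

/-- (V3) the mean of the correction in a bottom block (compare `K8.StBadN`) -/
def StBadN10 : Prop := ∀ κ : ℝ, 1 ≤ κ → ∃ M₀ : ℕ, ∀ M : ℕ, M₀ ≤ M → ∃ T₀ : ℝ, 3 ≤ T₀ ∧
    ∀ T, T₀ ≤ T → ∀ j, j ≤ JJ T →
    Real.exp (2 * pe κ * KK M (JJ T) j) * ES (Sj T M (JJ T) j) (fun f =>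
      ‖(((1 + κ : ℝ) : ℂ) * Pj M (Sj T M (JJ T) j) (tw (1 / 2) f) / (KK M (JJ T) j : ℂ)) ^
        nb κ T M j‖ ^ 2) ≤
      Real.exp (-KK M (JJ T) j)

/-- (V4) the product over the bottom blocks (compare `K8.StBotV`) -/
def StBotV10 : Prop := ∀ κ : ℝ, 1 ≤ κ → ∀ η : ℝ, 0 < η → ∃ M₀ : ℕ, ∀ M : ℕ, M₀ ≤ M →
    ∃ T₀ : ℝ, 3 ≤ T₀ ∧ ∀ T, T₀ ≤ T →
    ∏ j ∈ Finset.range (JJ T + 1), ES (Sj T M (JJ T) j) (fun f => VB κ T M j (tw (1 / 2) f)) ≤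
      (1 + η) * (aK (1 + κ) * lM T M ^ ((1 + κ) ^ 2))

/-- (V5) the bottom polynomials are short (compare `K8.StLen8`) -/
def StLen10 : Prop := ∀ κ θ : ℝ, 1 ≤ κ → 0 < θ → ∃ M₀ : ℕ, ∀ M : ℕ, M₀ ≤ M → ∃ T₀ : ℝ,
    3 ≤ T₀ ∧ ∀ T, T₀ ≤ T → ∀ h : Finset ℕ,
    DP (T ^ θ) (T ^ θ) (fun f => ∏ j ∈ Finset.range (JJ T + 1),
      (if j ∈ h then (((1 + κ : ℝ) : ℂ) * Pj M (Sj T M (JJ T) j) f / (KK M (JJ T) j : ℂ)) ^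
          nb κ T M j
        else Ntr (ll M (JJ T) j) (1 + κ) (Pj M (Sj T M (JJ T) j) f))) ∧
    ∏ j ∈ Finset.range (JJ T + 1), (2 * Real.exp (2 * pe κ * KK M (JJ T) j)) ≤ T ^ θ

/-- (V6) the Gaussian means of the weight (compare `K8.StMeanV`) -/
def StMeanV10 : Prop := ∀ κ : ℝ, 1 ≤ κ → ∃ M₀ : ℕ, ∀ M : ℕ, M₀ ≤ M → ∀ C : Cfg, Adm κ M C →
    ∃ T₀ : ℝ, 3 ≤ T₀ ∧ ∀ T, T₀ ≤ T → ∀ τ : ℝ,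
    EG T τ (fun t => VV10 κ C T M (fs (1 / 2 + t * I))) ≤
      (∏ j ∈ Finset.range (JJ T + 1), ES (Sj T M (JJ T) j) (fun f => VB κ T M j (tw (1 / 2) f))) *
        (∏ i ∈ Finset.range C.N, ES (C.U T i) (fun f => VT κ C T i (tw (1 / 2) f))) +
      T ^ (-10 : ℝ)

/-- (V7) the side without zeta on `[0, T]` (compare `K8.StSideV`) -/
def StSideV10 : Prop := ∀ κ : ℝ, 1 ≤ κ → ∀ η : ℝ, 0 < η → ∃ M₀ : ℕ, ∀ M : ℕ, M₀ ≤ M →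
    ∀ C : Cfg, Adm κ M C → ∃ T₀ : ℝ, 3 ≤ T₀ ∧ ∀ T, T₀ ≤ T →
    T⁻¹ * ∫ t in (0 : ℝ)..T, VV10 κ C T M (fs (1 / 2 + t * I)) ≤
      (1 + η) * (aK (1 + κ) * lM T M ^ ((1 + κ) ^ 2) * ∏ i ∈ Finset.range C.N, aV κ C i)

/-! ### The lower bound -/

/-- (H) Hölder's inequality (compare `K8.StHold8`) -/
def StHold10 : Prop := ∀ κ : ℝ, 1 ≤ κ → ∀ η : ℝ, 0 < η → ∃ M₀ : ℕ, ∀ M : ℕ, M₀ ≤ M →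
    ∀ C : Cfg, Adm κ M C → ∃ T₀ : ℝ, 3 ≤ T₀ ∧ ∀ T, T₀ ≤ T →
    (1 - η) * (aK (1 + κ) * Real.log T ^ ((1 + κ) ^ 2) *
      (Real.exp ((Real.eulerMascheroniConstant - M) * (κ * (1 + κ))) *
        ((∏ i ∈ Finset.range C.N, aZ C i) * (1 - rho8 C)) ^ (1 + κ) /
        (∏ i ∈ Finset.range C.N, aV κ C i) ^ κ)) ≤
    T⁻¹ * ∫ t in (0 : ℝ)..T, ‖riemannZeta (1 / 2 + t * I)‖ ^ (2 * (1 + κ))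

/-! ### Part N: numbers -/

/-- (N1) the factor of a block, side of zeta (compare `K8.StAh`) -/
def StAh10 : Prop := ∀ (κ V : ℝ) (D : ℕ), 1 ≤ κ → 1 ≤ D → 1 ≤ V → V ≤ 2 →
    2 * (κ * (1 + κ) * V) ≤ D →
    Real.exp (-(κ ^ 2 * V)) ≤ LG D (V + (D / κ - (1 + κ) * V)) V / (D / κ) ^ (2 * D) ∧
    0 ≤ deriv (fun y : ℝ => LG D y V) (V + (D / κ - (1 + κ) * V)) ∧
    deriv (fun y : ℝ => LG D y V) (V + (D / κ - (1 + κ) * V)) ≤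
      2 * κ * LG D (V + (D / κ - (1 + κ) * V)) V

/-- (N2) an inequality in three variables (compare `K9.StPart9`) -/
def StPart10 : Prop := ∀ τ r u : ℝ, -1 ≤ τ → τ ≤ 1 → 0 ≤ r → r ≤ 1 → 0 ≤ u → u ≤ 1 / 8 →
    (1 + r) / (1 + (1 - τ) * u * r) * Real.exp ((1 - τ) ^ 2 * u * r / (1 + (1 - τ) * u * r)) *
        (u * (τ + (1 - τ) * r / (1 + (1 - τ) * u * r)) ^ 2 + r / (1 + (1 - τ) * u * r)) ≤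
      r * (1 + r) +
        u * (3 / 10 + 2 * r * (1 - r) * (1 + r) * τ + 6 / 5 * (1 + r ^ 2) * τ ^ 2)

/-- (N3) the factor of a block, side without zeta (compare `K8.StBh`) -/
def StBh10 : Prop := ∀ (κ V : ℝ) (D : ℕ), 1 ≤ κ → 1 ≤ D → 1 ≤ V → V ≤ 2 →
    2 * (κ * (1 + κ) * V) ≤ D →
    (1 - (D * pe κ - ⌊(D : ℝ) * pe κ⌋₊)) *
        (LG ⌊(D : ℝ) * pe κ⌋₊ (D / κ - (1 + κ) * V) V / (D / κ) ^ (2 * ⌊(D : ℝ) * pe κ⌋₊)) +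
      (D * pe κ - ⌊(D : ℝ) * pe κ⌋₊) *
        (LG (⌊(D : ℝ) * pe κ⌋₊ + 1) (D / κ - (1 + κ) * V) V /
          (D / κ) ^ (2 * (⌊(D : ℝ) * pe κ⌋₊ + 1))) ≤
      Real.exp (-((1 + κ) ^ 2 * V)) * (1 / (1 - κ * (1 + κ) * V / D) +
        Real.log (1 - κ * (1 + κ) * V / D) + κ ^ 2 * V / D ^ 2)

/-- (N4) our data are admissible (compare `K8.StAdm8`) -/
def StAdm10 : Prop := ∀ κ : ℝ, 1 ≤ κ → ∃ M₀ : ℕ, ∀ M : ℕ, M₀ ≤ M →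
    Adm κ M (cfg10 κ M) ∧ rho8 (cfg10 κ M) ≤ 2 * κ * th κ ∧
    (cfg10 κ M).te 0 = th κ ∧ (∀ i, i + 1 < (cfg10 κ M).N → (cfg10 κ M).V i = 1) ∧
    1 ≤ (cfg10 κ M).V ((cfg10 κ M).N - 1) ∧ (cfg10 κ M).V ((cfg10 κ M).N - 1) ≤ 2 ∧
    (M : ℝ) + Real.log (th κ) - 1 ≤ (cfg10 κ M).N

/-- (N5) the total loss (compare `K8.StLam8`) -/
def StLam10 : Prop := ∀ κ : ℝ, 1 ≤ κ → ∀ ε : ℝ, 0 < ε → ∃ M₁ : ℕ, ∀ M : ℕ, M₁ ≤ M →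
    ∑ i ∈ Finset.range (cfg10 κ M).N, lam8 κ (cfg10 κ M) i ≤ LamB κ + ε

/-- (N6) the Barnes quotient from above -/
def StGu10 : Prop := ∀ k : ℝ, 2 ≤ k → barnesG (k + 1) ^ 2 / barnesG (2 * k + 1) ≤
    Real.exp (-(k ^ 2 * Real.log k) + k ^ 2 / 4 - 1 / 2)

/-- (N7) the final inequality -/
def StNum10 : Prop := ∀ κ : ℝ, 1 ≤ κ →
    -(κ * (1 + κ) * Real.log 8) - (1 + κ) * (κ - 1) * Real.log (1 + κ) ≤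
      κ * (1 + κ) * (Real.eulerMascheroniConstant + Real.log (th κ)) +
        (1 + κ) * Real.log (1 - 2 * κ * th κ) - LamB κ +
        ((1 + κ) ^ 2 * Real.log (1 + κ) - (1 + κ) ^ 2 / 4 + 1 / 2)

/-! ### the theorem -/

/-- (F) the lower bound for every order `k ≥ 2` -/
def StFinal10 : Prop := ∀ k : ℝ, 2 ≤ k → ∀ ε : ℝ, 0 < ε → ∃ T₀ : ℝ, 3 ≤ T₀ ∧ ∀ T, T₀ ≤ T →
    LL10 k - ε ≤ (T⁻¹ * ∫ t in (0 : ℝ)..T, ‖riemannZeta (1 / 2 + t * I)‖ ^ (2 * k)) /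
      (cK k * (Real.log T) ^ (k ^ 2))

end K10
end Pool.Agent.Lib.MP_973905_nt
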