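import Pool.Agent.Lib.MP_973905_nt.K3.LenQ
import Pool.Agent.Lib.MP_973905_nt.K10.Stmts
import Pool.Agent.Lib.MP_973905_nt.K8.Len8

/-! Module V5 of K10: the bottom polynomials are short. -/

namespace Pool.Agent.Lib.MP_973905_nt
namespace K10

open MeasureTheory ProbabilityTheory Complex Filter Topology
open K8 (Cfg pe rk tk GW VT nb LG aZ aV rhoZ rho8 ETz SB8 BB8 lam8)

namespace L10
open Len

lemma pe_ge {κ : ℝ} (h1 : 1 ≤ κ) : 1 ≤ pe κ := by
  unfold pe
  rw [le_div_iff₀ (by linarith)]
  linarith

lemma dp_NtrA {N B : ℝ} (hN : 1 ≤ N) (hB : 1 ≤ B) {P : (ℕ → ℂ) → ℂ} (h : DP N B P) {α A : ℝ}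
    (hα : |α| ≤ A) (l : ℕ) : DP (N ^ l) (Real.exp A * B ^ l) (fun f => Ntr l α (P f)) := by
  have hM0 : 0 ≤ B := by linarith
  have hA0 : 0 ≤ A := (abs_nonneg _).trans hα
  have h0 : DP N (A * B) (fun f => (α : ℂ) * P f) :=
    (h.const_mul (α : ℂ)).mono le_rfl (by
      rw [norm_real, Real.norm_eq_abs]
      exact mul_le_mul_of_nonneg_right hα hM0)
  have h1 : ∀ i ∈ Finset.range (l + 1), DP (N ^ l) (B ^ l * (A ^ i / (i.factorial : ℝ)))
      (fun f => ((α : ℂ) * P f) ^ i / i.factorial) := by
    intro i hi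
    rw [Finset.mem_range] at hi
    have h2 := (h0.pow i).const_mul ((i.factorial : ℂ)⁻¹)
    have h3 : ‖((i.factorial : ℂ)⁻¹)‖ = 1 / (i.factorial : ℝ) := by
      rw [norm_inv, norm_natCast, one_div]
    rw [h3] at h2
    refine (h2.mono (pow_le_pow_right₀ hN (by omega)) ?_).congr fun f _ => by ring
    have h5 : B ^ i ≤ B ^ l := pow_le_pow_right₀ hB (by omega)
    rw [mul_pow]
    calc 1 / (i.factorial : ℝ) * (A ^ i * B ^ i) ≤ 1 / (i.factorial : ℝ) * (A ^ i * B ^ l) := by
          gcongr
      _ = _ := by ring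
  have h4 := dp_sum (Finset.range (l + 1)) h1
  refine h4.mono le_rfl ?_
  rw [← Finset.mul_sum, mul_comm]
  gcongr
  exact Real.sum_le_exp_of_nonneg hA0 (l + 1)

/-- the exponents -/
noncomputable def ex (κ T : ℝ) (M : ℕ) (h : Finset ℕ) (j : ℕ) : ℕ :=
  if j ∈ h then nb κ T M j else ll M (JJ T) j

lemma ex_le {κ T : ℝ} {M j : ℕ} (h1 : 1 ≤ κ) (hj : j ≤ JJ T) (h : Finset ℕ) :
    ((ex κ T M h j : ℕ) : ℝ) ≤ 12 * pe κ * KK M (JJ T) j := by
  have hK := KK_ge_one (M := M) hj
  have hp := pe_ge h1
  have h2 : (ll M (JJ T) j : ℝ) < 10 * KK M (JJ T) j + 1 := Nat.ceil_lt_add_one (by linarith)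
  have h3 : (ll M (JJ T) j : ℝ) ≤ 11 * KK M (JJ T) j := by linarith
  have hl0 : (0 : ℝ) ≤ ll M (JJ T) j := Nat.cast_nonneg _
  unfold ex
  split_ifs
  · have h4 : (nb κ T M j : ℝ) < pe κ * ll M (JJ T) j + 1 :=
      Nat.ceil_lt_add_one (mul_nonneg (by linarith) hl0)
    have h5 : pe κ * (ll M (JJ T) j : ℝ) ≤ pe κ * (11 * KK M (JJ T) j) :=
      mul_le_mul_of_nonneg_left h3 (by linarith)
    nlinarith
  · nlinarith

lemma dp_F8 {κ T : ℝ} (h1 : 1 ≤ κ) (hT : 1 < T) {M j : ℕ} (hM : 2 ≤ M) (hMκ : κ ≤ M)
    (hj : j ≤ JJ T) (h : Finset ℕ) :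
    DP ((Real.exp (bet M (JJ T) j * Real.log T) ^ M) ^ ex κ T M h j)
      (Real.exp (1 + κ) * (M * Real.exp (bet M (JJ T) j * Real.log T)) ^ ex κ T M h j)
      (fun f => if j ∈ h then (((1 + κ : ℝ) : ℂ) * Pj M (Sj T M (JJ T) j) f /
          (KK M (JJ T) j : ℂ)) ^ nb κ T M j
        else Ntr (ll M (JJ T) j) (1 + κ) (Pj M (Sj T M (JJ T) j) f)) := by
  set y := Real.exp (bet M (JJ T) j * Real.log T) with hy
  have hL : 0 < Real.log T := Real.log_pos hT
  have hy1 : 1 ≤ y := Real.one_le_exp (mul_nonneg (bet_pos _ _ _).le hL.le)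
  have hM2 : (2 : ℝ) ≤ M := by exact_mod_cast hM
  have hM1 : (1 : ℝ) ≤ M := by linarith
  have hN1 : 1 ≤ y ^ M := one_le_pow₀ hy1
  have hB1 : 1 ≤ M * y := by nlinarith
  have hP := dp_Pj (A := M) (M := M) hT hj
  rw [← hy] at hP
  have hK := KK_ge_one (M := M) hj
  unfold ex
  by_cases hjh : j ∈ h
  · simp only [if_pos hjh]
    refine (DP.pow (DP.scale hP (c := ((1 + κ : ℝ) : ℂ) * ((KK M (JJ T) j : ℝ) : ℂ)⁻¹) ?_)
      _).mono le_rfl ?_ |>.congr fun f _ => by rw [div_eq_mul_inv]; ring
    · rw [norm_mul, norm_inv, norm_real, norm_real, Real.norm_eq_abs, Real.norm_eq_abs,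
        abs_of_nonneg (by linarith), abs_of_nonneg (by linarith), ← div_eq_mul_inv,
        div_le_one (by linarith)]
      have e1 := KK_ge_M (M := M) hj
      have e2 : (3 / 4 * (M : ℝ) / 2 + 1) ^ 2 ≤ Real.exp (3 / 4 * M) := by
        have e3 := Real.add_one_le_exp (3 / 4 * (M : ℝ) / 2)
        calc (3 / 4 * (M : ℝ) / 2 + 1) ^ 2 ≤ Real.exp (3 / 4 * (M : ℝ) / 2) ^ 2 := by gcongr
          _ = Real.exp (3 / 4 * M) := by
            rw [← Real.exp_nat_mul]
            congr 1
            push_cast
            ring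
      have e4 : 1 + (M : ℝ) ≤ (3 / 4 * (M : ℝ) / 2 + 1) ^ 2 := by nlinarith
      linarith
    · have h5 : 0 ≤ (M * y) ^ nb κ T M j := by positivity
      have h6 : 1 ≤ Real.exp (1 + κ) := Real.one_le_exp (by linarith)
      nlinarith
  · simp only [if_neg hjh]
    exact dp_NtrA hN1 hB1 hP (α := 1 + κ) (by rw [abs_of_nonneg (by linarith)]) (ll M (JJ T) j)

end L10

open Len L10 in
/-- (V4) the bottom polynomials are short. -/
theorem stLen10 : StLen10 := by
  intro κ ε h1 hε
  have hp := pe_ge h1
  set c : ℝ := 12 * pe κ with hc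
  have hc24 : 12 ≤ c := by rw [hc]; linarith
  have hcpos : 0 < c := by linarith
  obtain ⟨M₀, hM₀, hM₀'⟩ := K8.L8.M_bound8 hcpos hε
  refine ⟨max M₀ ⌈κ⌉₊, fun M hM' => ?_⟩
  have hM : M₀ ≤ M := (le_max_left _ _).trans hM'
  have hMκ : κ ≤ M := (Nat.le_ceil κ).trans (by exact_mod_cast (le_max_right _ _).trans hM')
  have hMb := hM₀' M hM
  have hM1 : (100 : ℝ) ≤ M := by exact_mod_cast hM₀.trans hM
  set D : ℝ := (2 / ε) * ((4 + κ) + c * Real.log M * Real.exp (3 / 4 * M)) with hD
  have hev : ∀ᶠ T : ℝ in atTop, 3 ≤ T ∧ 1 ≤ Real.log T ∧ 1 ≤ Real.log (Real.log T) ∧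
      D * ((4 * Real.log (Real.log (Real.log T)) + 1) *
      Real.exp (3 / 4 * (4 * Real.log (Real.log (Real.log T))))) ≤ Real.log T := by
    have h1 : Tendsto (fun T : ℝ => Real.log (Real.log T)) atTop atTop :=
      Real.tendsto_log_atTop.comp Real.tendsto_log_atTop
    filter_upwards [eventually_ge_atTop 3, Real.tendsto_log_atTop.eventually_ge_atTop 1,
      h1.eventually_ge_atTop 1, eventually_small D] with T a b c d
    exact ⟨a, b, c, d⟩
  obtain ⟨T₀, hT₀⟩ := eventually_atTop.1 hev
  refine ⟨max T₀ 3, le_max_right _ _, fun T hT h => ?_⟩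
  obtain ⟨hT3, hL1, hb1, hsm⟩ := hT₀ T ((le_max_left _ _).trans hT)
  have hT0 : 0 < T := by linarith
  have hT1 : 1 < T := by linarith
  set L := Real.log T with hL
  set b := Real.log (Real.log T) with hb
  set J := JJ T with hJ
  have hJle : (J : ℝ) ≤ 4 * Real.log b := by
    rw [hJ, JJ]
    exact Nat.floor_le (mul_nonneg (by norm_num) (Real.log_nonneg hb1))
  have hlogM1 : 1 ≤ Real.log M := by
    rw [Real.le_log_iff_exp_le (by linarith)]
    linarith [Real.exp_one_lt_d9]
  have hlogM : 0 ≤ Real.log M := by linarith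
  have hM1' : 2 ≤ M := by
    have : (2 : ℝ) ≤ M := by linarith
    exact_mod_cast this
  have hexpM : 0 < Real.exp (-(M : ℝ) / 4) := Real.exp_pos _
  -- the common bound
  have hcommon : (J + 1) * (4 + κ) + (c * Real.log M) * ∑ j ∈ Finset.range (J + 1), KK M J j ≤
      L * (ε / 2) := by
    have h9 : 0 ≤ 4 * Real.log b + 1 := by
      have := Real.log_nonneg hb1; linarith
    have h8 : 0 ≤ c * Real.log M := by positivity
    calc (J + 1) * (4 + κ) + (c * Real.log M) * ∑ j ∈ Finset.range (J + 1), KK M J j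
        ≤ (J + 1) * (4 + κ) + (c * Real.log M) * ((J + 1) * Real.exp (3 / 4 * ((M : ℝ) + J))) := by
          have h1 := sum_KK M J
          gcongr
      _ ≤ (4 * Real.log b + 1) * (4 + κ) + (c * Real.log M) * ((4 * Real.log b + 1) *
          (Real.exp (3 / 4 * M) * Real.exp (3 / 4 * (4 * Real.log b)))) := by
          have h3 : Real.exp (3 / 4 * ((M : ℝ) + J)) ≤
              Real.exp (3 / 4 * M) * Real.exp (3 / 4 * (4 * Real.log b)) := by
            rw [← Real.exp_add]
            apply Real.exp_le_exp.2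
            linarith
          gcongr
      _ ≤ (ε / 2) * (D * ((4 * Real.log b + 1) * Real.exp (3 / 4 * (4 * Real.log b)))) := by
          have h10 : 1 ≤ Real.exp (3 / 4 * (4 * Real.log b)) := by
            apply Real.one_le_exp
            have := Real.log_nonneg hb1
            positivity
          have h11 : (4 * Real.log b + 1) * (4 + κ) ≤
              (4 * Real.log b + 1) * ((4 + κ) * Real.exp (3 / 4 * (4 * Real.log b))) := by
            gcongr
            exact le_mul_of_one_le_right (by linarith) h10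
          calc _ ≤ (4 * Real.log b + 1) * ((4 + κ) * Real.exp (3 / 4 * (4 * Real.log b))) +
              (c * Real.log M) * ((4 * Real.log b + 1) *
            (Real.exp (3 / 4 * M) * Real.exp (3 / 4 * (4 * Real.log b)))) := by linarith
            _ = _ := by
              rw [hD]
              field_simp
      _ ≤ (ε / 2) * L := by gcongr
      _ = L * (ε / 2) := by ring
  have hKK0 : 0 ≤ ∑ j ∈ Finset.range (J + 1), KK M J j :=
    Finset.sum_nonneg fun j _ => (Real.exp_pos _).le
  constructor
  · have key := dp_prod (Finset.range (J + 1)) (fun j hj => dp_F8 (κ := κ) (T := T) (M := M)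
      h1 hT1 hM1' hMκ (show j ≤ JJ T by rw [Finset.mem_range] at hj; omega) h)
    refine key.mono ?_ ?_
    · -- length
      have e1 : ∏ j ∈ Finset.range (J + 1),
          (Real.exp (bet M J j * L) ^ M) ^ (ex κ T M h j) =
          Real.exp (∑ j ∈ Finset.range (J + 1),
            bet M J j * L * M * ((ex κ T M h j : ℕ) : ℝ)) := by
        rw [Real.exp_sum]
        refine Finset.prod_congr rfl fun j _ => ?_
        rw [← pow_mul, ← Real.exp_nat_mul]
        congr 1
        push_cast
        ring
      rw [e1, Real.rpow_def_of_pos hT0]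
      apply Real.exp_le_exp.2
      calc ∑ j ∈ Finset.range (J + 1), bet M J j * L * M * ((ex κ T M h j : ℕ) : ℝ)
          ≤ ∑ j ∈ Finset.range (J + 1), (c * L * M) * (bet M J j * KK M J j) := by
            refine Finset.sum_le_sum fun j hj => ?_
            have h1 := ex_le (M := M) h1
              (show j ≤ JJ T by rw [Finset.mem_range] at hj; omega) h
            have h2 : 0 ≤ bet M J j * L * M := by
              have := (bet_pos M J j).le
              positivity
            calc bet M J j * L * M * ((ex κ T M h j : ℕ) : ℝ)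
                ≤ bet M J j * L * M * (c * KK M J j) := mul_le_mul_of_nonneg_left h1 h2
              _ = _ := by ring
        _ = (c * L * M) * ∑ j ∈ Finset.range (J + 1), bet M J j * KK M J j := by
            rw [Finset.mul_sum]
        _ ≤ (c * L * M) * (5 * Real.exp (-(M : ℝ) / 4)) := by
            gcongr
            exact sum_bet_KK M J
        _ = L * (5 * c * M * Real.exp (-(M : ℝ) / 4)) := by ring
        _ ≤ L * ε := by
            gcongr
            linarith
    · -- norm
      have hM0 : (0 : ℝ) < M := by linarith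
      have e1 : ∏ j ∈ Finset.range (J + 1),
          (Real.exp (1 + κ) * (M * Real.exp (bet M J j * L)) ^ (ex κ T M h j)) =
          Real.exp (∑ j ∈ Finset.range (J + 1),
            ((1 + κ) + (Real.log M + bet M J j * L) * ((ex κ T M h j : ℕ) : ℝ))) := by
        rw [Real.exp_sum]
        refine Finset.prod_congr rfl fun j _ => ?_
        rw [Real.exp_add (1 + κ)]
        congr 1
        rw [mul_comm (Real.log M + bet M J j * L), Real.exp_nat_mul, Real.exp_add,
          Real.exp_log hM0]
      rw [e1, Real.rpow_def_of_pos hT0]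
      apply Real.exp_le_exp.2
      calc ∑ j ∈ Finset.range (J + 1),
            ((1 + κ) + (Real.log M + bet M J j * L) * ((ex κ T M h j : ℕ) : ℝ))
          ≤ ∑ j ∈ Finset.range (J + 1),
            ((4 + κ) + (c * Real.log M) * KK M J j + (c * L) * (bet M J j * KK M J j)) := by
            refine Finset.sum_le_sum fun j hj => ?_
            have h1 := ex_le (M := M) h1
              (show j ≤ JJ T by rw [Finset.mem_range] at hj; omega) h
            have h2 : 0 ≤ Real.log M + bet M J j * L := by
              have := (bet_pos M J j).le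
              positivity
            have h3 := mul_le_mul_of_nonneg_left h1 h2
            calc _ ≤ (4 + κ) + (Real.log M + bet M J j * L) * (c * KK M J j) := by
                  rw [hJ, hc]
                  rw [hJ] at h3
                  linarith
              _ = _ := by ring
        _ = (J + 1) * (4 + κ) + (c * Real.log M) * ∑ j ∈ Finset.range (J + 1), KK M J j +
            (c * L) * ∑ j ∈ Finset.range (J + 1), bet M J j * KK M J j := by
            rw [Finset.sum_add_distrib, Finset.sum_add_distrib, ← Finset.mul_sum,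
              ← Finset.mul_sum, Finset.sum_const, Finset.card_range, nsmul_eq_mul]
            push_cast
            ring
        _ ≤ L * (ε / 2) + (c * L) * (5 * Real.exp (-(M : ℝ) / 4)) := by
            have h2 := sum_bet_KK M J
            gcongr
        _ ≤ L * (ε / 2) + L * (ε / 2) := by
            have h5 : Real.exp (-(M : ℝ) / 4) ≤ M * Real.exp (-(M : ℝ) / 4) := by
              nlinarith
            have h6 : 5 * c * Real.exp (-(M : ℝ) / 4) ≤ ε / 2 := by
              calc 5 * c * Real.exp (-(M : ℝ) / 4) ≤ 5 * c * (M * Real.exp (-(M : ℝ) / 4)) := by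
                    gcongr
                _ = 5 * c * M * Real.exp (-(M : ℝ) / 4) := by ring
                _ ≤ ε / 2 := hMb
            have h7 : 0 ≤ L := by linarith
            have h8 : (c * L) * (5 * Real.exp (-(M : ℝ) / 4)) =
                L * (5 * c * Real.exp (-(M : ℝ) / 4)) := by ring
            rw [h8]
            gcongr
        _ = L * ε := by ring
  · have e1 : ∏ j ∈ Finset.range (J + 1), (2 * Real.exp (2 * pe κ * KK M J j)) =
        Real.exp (∑ j ∈ Finset.range (J + 1), (Real.log 2 + 2 * pe κ * KK M J j)) := by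
      rw [Real.exp_sum]
      refine Finset.prod_congr rfl fun j _ => ?_
      rw [Real.exp_add, Real.exp_log (by norm_num)]
    rw [e1, Real.rpow_def_of_pos hT0]
    apply Real.exp_le_exp.2
    have hl2 := Real.log_two_lt_d9
    calc ∑ j ∈ Finset.range (J + 1), (Real.log 2 + 2 * pe κ * KK M J j)
        = (J + 1) * Real.log 2 + 2 * pe κ * ∑ j ∈ Finset.range (J + 1), KK M J j := by
          rw [Finset.sum_add_distrib, ← Finset.mul_sum]
          simp
      _ ≤ (J + 1) * (4 + κ) + (c * Real.log M) * ∑ j ∈ Finset.range (J + 1), KK M J j := by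
          have h2 : 2 * pe κ ≤ c * Real.log M := by
            rw [hc]
            nlinarith
          gcongr
          linarith
      _ ≤ L * (ε / 2) := hcommon
      _ ≤ L * ε := by
          have : 0 ≤ L := by linarith
          nlinarith

end K10
end Pool.Agent.Lib.MP_973905_nt
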