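import Pool.Agent.Lib.MP_973905_nt.K10.Stmts
import Pool.Agent.Lib.MP_973905_nt.K5.Fact

/-! The blocks `SB8 C T M` (compare `K7.Base`). -/

namespace Pool.Agent.Lib.MP_973905_nt
namespace K10

open MeasureTheory ProbabilityTheory Complex Filter Topology K1 K4 K5
open K8 (Cfg pe rk tk GW VT nb LG aZ aV rhoZ rho8 ETz SB8 BB8 lam8)

namespace Blk10

variable {κ T : ℝ} {M : ℕ} {C : Cfg}

/-! ### the boundaries of the blocks -/

lemma te_anti (hC : Adm κ M C) {i j : ℕ} (h : i ≤ j) (hj : j ≤ C.N) : C.te j ≤ C.te i := by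
  induction j, h using Nat.le_induction with
  | base => exact le_rfl
  | succ n hn ih => exact (hC.hdec n (by omega)).le.trans (ih (by omega))

lemma te_zero_le (hC : Adm κ M C) : C.te 0 ≤ 1 := hC.htop.trans (by norm_num)

lemma te_zero_pos (hC : Adm κ M C) : 0 < C.te 0 := hC.hpos 0 (Nat.zero_le _)

lemma V_pos (hC : Adm κ M C) {i : ℕ} (hi : i < C.N) : 0 < C.V i := by
  apply Real.log_pos
  rw [lt_div_iff₀ (hC.hpos (i + 1) (by omega)), one_mul]
  exact hC.hdec i hi

/-- the sum of all variances -/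
lemma sum_V (hC : Adm κ M C) : ∑ i ∈ Finset.range C.N, C.V i = Real.log (C.te 0) + M := by
  have h : ∀ n, n ≤ C.N → ∑ i ∈ Finset.range n, C.V i = Real.log (C.te 0) - Real.log (C.te n) := by
    intro n
    induction n with
    | zero => intro _; simp
    | succ n ih =>
      intro hn
      rw [Finset.sum_range_succ, ih (by omega), Cfg.V, Real.log_div (hC.hpos n (by omega)).ne'
        (hC.hpos (n + 1) hn).ne']
      ring
  rw [h C.N le_rfl, hC.hlast, Real.log_exp]
  ring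

lemma bd_mono (hC : Adm κ M C) (hT : 1 < T) {i j : ℕ} (h : i ≤ j) (hj : j ≤ C.N) :
    Real.exp (C.te j * Real.log T) ≤ Real.exp (C.te i * Real.log T) := by
  apply Real.exp_le_exp.mpr
  exact mul_le_mul_of_nonneg_right (te_anti hC h hj) (Real.log_pos hT).le

lemma bd_le (hC : Adm κ M C) (hT : 1 < T) : Real.exp (C.te 0 * Real.log T) ≤ T := by
  calc Real.exp (C.te 0 * Real.log T) ≤ Real.exp (1 * Real.log T) := by
        apply Real.exp_le_exp.mpr
        exact mul_le_mul_of_nonneg_right (te_zero_le hC) (Real.log_pos hT).le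
    _ = T := by rw [one_mul, Real.exp_log (by linarith)]

lemma mem_U {i p : ℕ} : p ∈ C.U T i ↔ p.Prime ∧ Real.exp (C.te (i + 1) * Real.log T) < p ∧
    (p : ℝ) ≤ Real.exp (C.te i * Real.log T) :=
  mem_PS (Real.exp_pos _).le (Real.exp_pos _).le

lemma mem_top (hT : 1 < T) {p : ℕ} : p ∈ PS (Real.exp (C.te 0 * Real.log T)) T ↔
    p.Prime ∧ Real.exp (C.te 0 * Real.log T) < p ∧ (p : ℝ) ≤ T :=
  mem_PS (Real.exp_pos _).le (by linarith)

lemma mem_bot (hT : 1 < T) {j p : ℕ} (hj : j ≤ JJ T) (hp : p ∈ Sj T M (JJ T) j) :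
    p.Prime ∧ (p : ℝ) ≤ Real.exp (Real.exp (-(M : ℝ)) * Real.log T) := by
  have h1 : p ∈ (Finset.range (JJ T + 1)).biUnion (fun j => Sj T M (JJ T) j) :=
    Finset.mem_biUnion.mpr ⟨j, Finset.mem_range.mpr (by omega), hp⟩
  rw [RAx.biUnion_eq hT, mem_PS le_rfl (Real.exp_pos _).le] at h1
  exact ⟨h1.1, h1.2.2⟩

lemma BB8_bot {j : ℕ} (hj : j ≤ JJ T) : BB8 C T M j = Sj T M (JJ T) j := if_pos hj

lemma BB8_mid {j : ℕ} (h1 : ¬ j ≤ JJ T) (h2 : j ≤ JJ T + C.N) :
    BB8 C T M j = C.U T (j - (JJ T + 1)) := by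
  rw [BB8, if_neg h1, if_pos h2]

lemma BB8_top {j : ℕ} (h1 : ¬ j ≤ JJ T) (h2 : ¬ j ≤ JJ T + C.N) :
    BB8 C T M j = PS (Real.exp (C.te 0 * Real.log T)) T := by
  rw [BB8, if_neg h1, if_neg h2]

lemma BB8_prime (hT : 1 < T) {j p : ℕ} (hp : p ∈ BB8 C T M j) : p.Prime := by
  by_cases h1 : j ≤ JJ T
  · rw [BB8_bot h1] at hp
    exact (mem_bot hT h1 hp).1
  · by_cases h2 : j ≤ JJ T + C.N
    · rw [BB8_mid h1 h2] at hp
      exact (mem_U.mp hp).1
    · rw [BB8_top h1 h2] at hp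
      exact ((mem_top hT).mp hp).1

lemma BB8_disj (hC : Adm κ M C) (hT : 1 < T) {i j : ℕ} (hi : i ≤ JJ T + 1 + C.N)
    (hj : j ≤ JJ T + 1 + C.N) (h : i ≠ j) : Disjoint (BB8 C T M i) (BB8 C T M j) := by
  wlog hlt : i < j generalizing i j
  · exact (this hj hi h.symm (by omega)).symm
  rw [Finset.disjoint_left]
  intro p hp hp'
  by_cases i1 : i ≤ JJ T
  · rw [BB8_bot i1] at hp
    by_cases j1 : j ≤ JJ T
    · rw [BB8_bot j1] at hp'
      exact Finset.disjoint_left.mp (disj_Sj hT h) hp hp'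
    · have h1 := (mem_bot hT i1 hp).2
      by_cases j2 : j ≤ JJ T + C.N
      · rw [BB8_mid j1 j2] at hp'
        have h2 := (mem_U.mp hp').2.1
        have h3 := bd_mono hC hT (show j - (JJ T + 1) + 1 ≤ C.N by omega) le_rfl
        rw [hC.hlast] at h3
        linarith
      · rw [BB8_top j1 j2] at hp'
        have h2 := ((mem_top hT).mp hp').2.1
        have h3 := bd_mono hC hT (show 0 ≤ C.N by omega) le_rfl
        rw [hC.hlast] at h3
        linarith
  · have j1 : ¬ j ≤ JJ T := by omega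
    have i2 : i ≤ JJ T + C.N := by omega
    rw [BB8_mid i1 i2] at hp
    have h1 := (mem_U.mp hp).2
    by_cases j2 : j ≤ JJ T + C.N
    · rw [BB8_mid j1 j2] at hp'
      have h2 := (mem_U.mp hp').2.2
      have h3 := bd_mono hC hT (show i - (JJ T + 1) + 1 ≤ j - (JJ T + 1) by omega) (by omega)
      linarith [h1.1]
    · rw [BB8_top j1 j2] at hp'
      have h2 := ((mem_top hT).mp hp').2.1
      have h3 := bd_mono hC hT (show 0 ≤ i - (JJ T + 1) by omega) (by omega)
      linarith [h1.2]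

lemma blk_SB8 (hC : Adm κ M C) (hT : 1 < T) : Blk (SB8 C T M) :=
  ⟨fun _ _ hp => BB8_prime hT hp, fun i j hij => BB8_disj hC hT (by omega) (by omega)
    (fun h => hij (Fin.ext h))⟩

lemma exists_U {p : ℕ} (hp : p.Prime) (h0 : (p : ℝ) ≤ Real.exp (C.te 0 * Real.log T)) (n : ℕ)
    (h : Real.exp (C.te n * Real.log T) < p) : ∃ i, i < n ∧ p ∈ C.U T i := by
  induction n with
  | zero => linarith
  | succ n ih =>
    by_cases h1 : Real.exp (C.te n * Real.log T) < p
    · obtain ⟨i, hi, hpi⟩ := ih h1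
      exact ⟨i, by omega, hpi⟩
    · exact ⟨n, by omega, mem_U.mpr ⟨hp, h, not_lt.mp h1⟩⟩

lemma exists_BB8 (hC : Adm κ M C) (hT : 1 < T) {p : ℕ} (hp : p.Prime) (hpT : (p : ℝ) ≤ T) :
    ∃ j, j < JJ T + 1 + C.N + 1 ∧ p ∈ BB8 C T M j := by
  by_cases h1 : (p : ℝ) ≤ Real.exp (C.te 0 * Real.log T)
  · by_cases h2 : Real.exp (C.te C.N * Real.log T) < p
    · obtain ⟨i, hi, hpi⟩ := exists_U hp h1 _ h2
      refine ⟨JJ T + 1 + i, by omega, ?_⟩
      rw [BB8_mid (by omega) (by omega), show JJ T + 1 + i - (JJ T + 1) = i by omega]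
      exact hpi
    · rw [hC.hlast] at h2
      have h3 : p ∈ PS 0 (Real.exp (Real.exp (-(M : ℝ)) * Real.log T)) :=
        (mem_PS le_rfl (Real.exp_pos _).le).mpr ⟨hp, by exact_mod_cast hp.pos, not_lt.mp h2⟩
      rw [← RAx.biUnion_eq hT, Finset.mem_biUnion] at h3
      obtain ⟨j, hj, hpj⟩ := h3
      have hj' := Finset.mem_range.mp hj
      exact ⟨j, by omega, by rw [BB8_bot (by omega)]; exact hpj⟩
  · refine ⟨JJ T + 1 + C.N, by omega, ?_⟩
    rw [BB8_top (by omega) (by omega)]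
    exact (mem_top hT).mpr ⟨hp, not_le.mp h1, hpT⟩

lemma mem_factored_SB8 (hC : Adm κ M C) (hT : 1 < T) {n : ℕ} (h1 : 1 ≤ n) (h2 : (n : ℝ) ≤ T) :
    n ∈ Nat.factoredNumbers (UU (SB8 C T M)) := by
  rw [Nat.mem_factoredNumbers_iff_primeFactors_subset]
  refine ⟨by omega, fun p hp => ?_⟩
  have hp' := Nat.prime_of_mem_primeFactors hp
  have h3 : p ≤ n := Nat.le_of_mem_primeFactors hp
  have h4 : (p : ℝ) ≤ n := by exact_mod_cast h3
  obtain ⟨j, hj, hpj⟩ := exists_BB8 hC hT hp' (h4.trans h2)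
  exact mem_UU.mpr ⟨⟨j, hj⟩, hpj⟩

/-! ### products over the blocks -/

lemma split {β : Type*} [CommMonoid β] (n m : ℕ) (H : ℕ → β) :
    ∏ j : Fin (n + m + 1), H j =
      (∏ j ∈ Finset.range n, H j) * (∏ i ∈ Finset.range m, H (n + i)) * H (n + m) := by
  rw [← Finset.prod_range, Finset.prod_range_succ, Finset.prod_range_add]

lemma prod_UU_SB8 {β : Type*} [CommMonoid β] (hC : Adm κ M C) (hT : 1 < T) (u : ℕ → β) :
    ∏ p ∈ UU (SB8 C T M), u p = (∏ j ∈ Finset.range (JJ T + 1), ∏ p ∈ Sj T M (JJ T) j, u p) *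
      (∏ i ∈ Finset.range C.N, ∏ p ∈ C.U T i, u p) *
        ∏ p ∈ PS (Real.exp (C.te 0 * Real.log T)) T, u p := by
  unfold UU
  rw [Finset.prod_biUnion (fun i _ j _ hij => (blk_SB8 hC hT).2 i j hij)]
  have h1 := split (JJ T + 1) C.N (fun j => ∏ p ∈ BB8 C T M j, u p)
  refine h1.trans ?_
  have e1 : ∏ j ∈ Finset.range (JJ T + 1), ∏ p ∈ BB8 C T M j, u p =
      ∏ j ∈ Finset.range (JJ T + 1), ∏ p ∈ Sj T M (JJ T) j, u p := by
    refine Finset.prod_congr rfl fun j hj => ?_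
    have hj' := Finset.mem_range.mp hj
    rw [BB8_bot (by omega)]
  have e2 : ∏ i ∈ Finset.range C.N, ∏ p ∈ BB8 C T M (JJ T + 1 + i), u p =
      ∏ i ∈ Finset.range C.N, ∏ p ∈ C.U T i, u p := by
    refine Finset.prod_congr rfl fun i hi => ?_
    have hi' := Finset.mem_range.mp hi
    rw [BB8_mid (by omega) (by omega), show JJ T + 1 + i - (JJ T + 1) = i by omega]
  rw [e1, e2, BB8_top (by omega) (by omega)]

/-- factorisation of an expectation over the blocks -/
lemma fact_gen {𝕜 : Type*} [RCLike 𝕜] (hC : Adm κ M C) (hT : 1 < T) (A B : ℕ → (ℕ → ℂ) → 𝕜)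
    (E : (ℕ → ℂ) → 𝕜)
    (hA : ∀ j f g, (∀ p ∈ Sj T M (JJ T) j, f p = g p) → A j f = A j g)
    (hB : ∀ i f g, (∀ p ∈ C.U T i, f p = g p) → B i f = B i g)
    (hE : ∀ f g, (∀ p ∈ PS (Real.exp (C.te 0 * Real.log T)) T, f p = g p) → E f = E g) :
    ER (SB8 C T M) (fun f => (∏ j ∈ Finset.range (JJ T + 1), A j f) *
      (∏ i ∈ Finset.range C.N, B i f) * E f) =
    (∏ j ∈ Finset.range (JJ T + 1), ES (Sj T M (JJ T) j) (A j)) *
      (∏ i ∈ Finset.range C.N, ES (C.U T i) (B i)) *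
        ES (PS (Real.exp (C.te 0 * Real.log T)) T) E := by
  set H : ℕ → (ℕ → ℂ) → 𝕜 := fun j f => if j ≤ JJ T then A j f else
    if j ≤ JJ T + C.N then B (j - (JJ T + 1)) f else E f with hH
  have e0 : ∀ f, (∏ j ∈ Finset.range (JJ T + 1), A j f) * (∏ i ∈ Finset.range C.N, B i f) * E f =
      ∏ j : Fin (JJ T + 1 + C.N + 1), H j f := by
    intro f
    rw [split (JJ T + 1) C.N (fun j => H j f)]
    congr 1
    · congr 1
      · refine Finset.prod_congr rfl fun j hj => ?_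
        have hj' := Finset.mem_range.mp hj
        simp only [hH]
        rw [if_pos (by omega)]
      · refine Finset.prod_congr rfl fun i hi => ?_
        have hi' := Finset.mem_range.mp hi
        simp only [hH]
        rw [if_neg (by omega), if_pos (by omega), show JJ T + 1 + i - (JJ T + 1) = i by omega]
    · simp only [hH]
      rw [if_neg (by omega), if_neg (by omega)]
  simp only [e0]
  rw [ER_prod (blk_SB8 hC hT) (fun j : Fin (JJ T + 1 + C.N + 1) => H j) (by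
    intro j f g hfg
    change ∀ p ∈ BB8 C T M j, f p = g p at hfg
    simp only [hH]
    split_ifs with h1 h2
    · rw [BB8_bot h1] at hfg
      exact hA _ _ _ hfg
    · rw [BB8_mid h1 h2] at hfg
      exact hB _ _ _ hfg
    · rw [BB8_top h1 h2] at hfg
      exact hE _ _ hfg)]
  refine (split (JJ T + 1) C.N (fun j => ES (BB8 C T M j) (H j))).trans ?_
  congr 1
  · congr 1
    · refine Finset.prod_congr rfl fun j hj => ?_
      have hj' := Finset.mem_range.mp hj
      have e1 : H j = A j := by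
        funext f; simp only [hH]; rw [if_pos (by omega)]
      rw [e1, BB8_bot (by omega)]
    · refine Finset.prod_congr rfl fun i hi => ?_
      have hi' := Finset.mem_range.mp hi
      have e1 : H (JJ T + 1 + i) = B i := by
        funext f; simp only [hH]
        rw [if_neg (by omega), if_pos (by omega), show JJ T + 1 + i - (JJ T + 1) = i by omega]
      rw [e1, BB8_mid (by omega) (by omega), show JJ T + 1 + i - (JJ T + 1) = i by omega]
  · have e1 : H (JJ T + 1 + C.N) = E := by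
      funext f; simp only [hH]
      rw [if_neg (by omega), if_neg (by omega)]
    rw [e1, BB8_top (by omega) (by omega)]

lemma z_dep {i : ℕ} {f g : ℕ → ℂ} (h : ∀ p ∈ C.U T i, f p = g p) (w : ℂ) :
    C.z T i (tw w f) = C.z T i (tw w g) := by
  unfold Cfg.z
  congr 2
  refine Finset.sum_congr rfl fun p hp => ?_
  simp only [tw, h p hp]

lemma z_dep' {i : ℕ} {f g : ℕ → ℂ} (h : ∀ p ∈ C.U T i, f p = g p) :
    C.z T i f = C.z T i g := by
  unfold Cfg.z
  congr 2
  exact Finset.sum_congr rfl fun p hp => h p hp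

/-- the fractional part lies in `[0, 1]` -/
lemma tk_mem (hκ : 0 < κ) (i : ℕ) : 0 ≤ tk κ C i ∧ tk κ C i ≤ 1 := by
  unfold tk rk
  have h0 : 0 ≤ (C.D i : ℝ) * pe κ := by
    unfold pe; positivity
  have h1 := Nat.floor_le h0
  have h2 := Nat.lt_floor_add_one ((C.D i : ℝ) * pe κ)
  constructor <;> linarith

lemma VT_nonneg (hκ : 0 < κ) (i : ℕ) (f : ℕ → ℂ) : 0 ≤ VT κ C T i f := by
  obtain ⟨h1, h2⟩ := tk_mem (C := C) hκ i
  unfold VT
  have h3 : 0 ≤ 1 - tk κ C i := by linarith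
  positivity

lemma VBz_nonneg (j : ℕ) (z : ℂ) : 0 ≤ VBz κ T M j z := by
  unfold VBz; positivity

end Blk10

end K10
end Pool.Agent.Lib.MP_973905_nt
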