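import Pool.Agent.Lib.MP_973905_nt.K1.Lower
import Pool.Agent.Lib.MP_973905_nt.K8.Base
import Pool.Agent.Lib.MP_973905_nt.K10.Base

/-! Module V6 of K10: the Gaussian means of the weight on the side without zeta. -/

namespace Pool.Agent.Lib.MP_973905_nt
namespace K10

open MeasureTheory ProbabilityTheory Complex Filter Topology K1 K4 K5
open K8 (Cfg pe rk tk GW VT nb LG aZ aV rhoZ rho8 ETz SB8 BB8 lam8)

namespace MV10

variable {κ T : ℝ} {M : ℕ} {C : Cfg}

/-! ### expansion of the weight -/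

lemma prod_add_ite (s : Finset ℕ) (u v : ℕ → ℝ) :
    ∏ i ∈ s, (u i + v i) = ∑ t ∈ s.powerset, ∏ i ∈ s, (if i ∈ t then u i else v i) := by
  rw [Finset.prod_add]
  refine Finset.sum_congr rfl fun t ht => ?_
  have hts := Finset.mem_powerset.mp ht
  rw [Finset.prod_ite]
  congr 1
  · refine Finset.prod_congr ?_ fun _ _ => rfl
    ext i
    simp only [Finset.mem_filter]
    exact ⟨fun h => ⟨hts h, h⟩, fun h => h.2⟩
  · refine Finset.prod_congr ?_ fun _ _ => rfl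
    ext i
    simp only [Finset.mem_filter, Finset.mem_sdiff]

/-- the coefficients of the bottom blocks -/
noncomputable def ab (κ T : ℝ) (M : ℕ) (h : Finset ℕ) (j : ℕ) : ℝ :=
  if j ∈ h then Real.exp (2 * pe κ * KK M (JJ T) j) else 1 + Real.exp (-(KK M (JJ T) j / 2))

/-- the coefficients of the top blocks -/
noncomputable def at' (κ : ℝ) (C : Cfg) (g : Finset ℕ) (i : ℕ) : ℝ :=
  if i ∈ g then tk κ C i else 1 - tk κ C i

/-- the coefficients -/
noncomputable def ac (κ : ℝ) (C : Cfg) (T : ℝ) (M : ℕ) (h g : Finset ℕ) : ℝ :=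
  (∏ j ∈ Finset.range (JJ T + 1), ab κ T M h j) * ∏ i ∈ Finset.range C.N, at' κ C g i

/-- the bottom polynomials -/
noncomputable def Gb (κ T : ℝ) (M : ℕ) (h : Finset ℕ) (f : ℕ → ℂ) : ℂ :=
  ∏ j ∈ Finset.range (JJ T + 1),
      (if j ∈ h then (((1 + κ : ℝ) : ℂ) * Pj M (Sj T M (JJ T) j) f / (KK M (JJ T) j : ℂ)) ^ nb κ T M j
        else Ntr (ll M (JJ T) j) (1 + κ) (Pj M (Sj T M (JJ T) j) f))

/-- the exponents of the top factors -/
noncomputable def et (κ : ℝ) (C : Cfg) (g : Finset ℕ) (i : ℕ) : ℕ :=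
  rk κ C i + if i ∈ g then 1 else 0

/-- the top polynomials -/
noncomputable def Gt (κ : ℝ) (C : Cfg) (T : ℝ) (g : Finset ℕ) (f : ℕ → ℂ) : ℂ :=
  ∏ i ∈ Finset.range C.N, C.z T i f ^ et κ C g i

/-- our polynomials -/
noncomputable def GG (κ : ℝ) (C : Cfg) (T : ℝ) (M : ℕ) (h g : Finset ℕ) (f : ℕ → ℂ) : ℂ :=
  Gb κ T M h f * Gt κ C T g f

lemma VB_prod (f : ℕ → ℂ) :
    ∏ j ∈ Finset.range (JJ T + 1), VB κ T M j f =
      ∑ h ∈ (Finset.range (JJ T + 1)).powerset,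
        (∏ j ∈ Finset.range (JJ T + 1), ab κ T M h j) * ‖Gb κ T M h f‖ ^ 2 := by
  have e : ∀ j, VB κ T M j f =
      Real.exp (2 * pe κ * KK M (JJ T) j) *
        ‖(((1 + κ : ℝ) : ℂ) * Pj M (Sj T M (JJ T) j) f / (KK M (JJ T) j : ℂ)) ^ nb κ T M j‖ ^ 2 +
      (1 + Real.exp (-(KK M (JJ T) j / 2))) *
        ‖Ntr (ll M (JJ T) j) (1 + κ) (Pj M (Sj T M (JJ T) j) f)‖ ^ 2 := by
    intro j
    unfold VB VBz
    ring
  simp only [e]
  rw [prod_add_ite]
  refine Finset.sum_congr rfl fun h _ => ?_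
  unfold Gb
  rw [norm_prod, ← Finset.prod_pow, ← Finset.prod_mul_distrib]
  refine Finset.prod_congr rfl fun j _ => ?_
  unfold ab
  split_ifs <;> rfl

lemma VT_prod (f : ℕ → ℂ) :
    ∏ i ∈ Finset.range C.N, VT κ C T i f =
      ∑ g ∈ (Finset.range C.N).powerset,
        (∏ i ∈ Finset.range C.N, at' κ C g i) * ‖Gt κ C T g f‖ ^ 2 := by
  have e : ∀ i, VT κ C T i f =
      tk κ C i * ‖C.z T i f ^ (rk κ C i + 1)‖ ^ 2 +
      (1 - tk κ C i) * ‖C.z T i f ^ (rk κ C i + 0)‖ ^ 2 := by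
    intro i
    unfold K8.VT
    rw [norm_pow, norm_pow]
    ring
  simp only [e]
  rw [prod_add_ite]
  refine Finset.sum_congr rfl fun g _ => ?_
  unfold Gt
  rw [norm_prod, ← Finset.prod_pow, ← Finset.prod_mul_distrib]
  refine Finset.prod_congr rfl fun i _ => ?_
  unfold at' et
  split_ifs <;> rfl

/-- the pairs of sets -/
noncomputable def PR (C : Cfg) (T : ℝ) : Finset (Finset ℕ × Finset ℕ) :=
  (Finset.range (JJ T + 1)).powerset ×ˢ (Finset.range C.N).powerset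

lemma VV10_eq (f : ℕ → ℂ) :
    VV10 κ C T M f = ∑ x ∈ PR C T, ac κ C T M x.1 x.2 * ‖GG κ C T M x.1 x.2 f‖ ^ 2 := by
  unfold VV10 PR
  rw [VB_prod, VT_prod, Finset.sum_mul_sum, ← Finset.sum_product']
  refine Finset.sum_congr rfl fun x _ => ?_
  unfold ac GG
  rw [norm_mul, mul_pow]
  ring

lemma ac_nonneg (hκ : 0 < κ) (h g : Finset ℕ) : 0 ≤ ac κ C T M h g := by
  unfold ac
  refine mul_nonneg (Finset.prod_nonneg fun j _ => ?_) (Finset.prod_nonneg fun i _ => ?_)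
  · unfold ab
    split_ifs <;> positivity
  · obtain ⟨h1, h2⟩ := K8.Blk8.tk_mem (C := C) hκ i
    unfold at'
    split_ifs
    · exact h1
    · linarith

lemma pe_ge_one (h0 : 0 < κ) : 1 ≤ pe κ := by
  unfold K8.pe
  rw [le_div_iff₀ h0]
  linarith

lemma sum_ac (hκ : 0 < κ) :
    ∑ x ∈ PR C T, ac κ C T M x.1 x.2 ≤
      ∏ j ∈ Finset.range (JJ T + 1), (2 * Real.exp (2 * pe κ * KK M (JJ T) j)) := by
  unfold PR ac
  rw [Finset.sum_product]
  simp only
  rw [← Finset.sum_mul_sum]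
  have e1 : ∑ g ∈ (Finset.range C.N).powerset, ∏ i ∈ Finset.range C.N, at' κ C g i = 1 := by
    unfold at'
    rw [← prod_add_ite]
    exact Finset.prod_eq_one fun i _ => by ring
  have e2 : ∑ h ∈ (Finset.range (JJ T + 1)).powerset, ∏ j ∈ Finset.range (JJ T + 1), ab κ T M h j =
      ∏ j ∈ Finset.range (JJ T + 1), (Real.exp (2 * pe κ * KK M (JJ T) j) +
        (1 + Real.exp (-(KK M (JJ T) j / 2)))) := by
    unfold ab
    rw [← prod_add_ite]
  rw [e1, e2, mul_one]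
  refine Finset.prod_le_prod (fun j _ => by positivity) fun j hj => ?_
  have hjJ : j ≤ JJ T := by
    have := Finset.mem_range.mp hj
    omega
  have hK := Len.KK_ge_one (M := M) hjJ
  have hp := pe_ge_one hκ
  have h1 : Real.exp (-(KK M (JJ T) j / 2)) ≤ 1 := Real.exp_le_one_iff.mpr (by linarith)
  have h2 : 1 ≤ pe κ * KK M (JJ T) j := by nlinarith
  have h3 := Real.add_one_le_exp (2 * pe κ * KK M (JJ T) j)
  nlinarith

/-! ### the length of the top polynomials -/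

lemma dp_z {i : ℕ} (hi : 0 ≤ C.te i) (hT : 1 < T) (hm : 0 < C.m i) :
    DP (Real.exp (C.te i * Real.log T))
      (Real.exp (C.te i * Real.log T) * ((1 + |C.c i|) / C.m i)) (C.z T i) := by
  set y := Real.exp (C.te i * Real.log T) with hy
  have hL : 0 < Real.log T := Real.log_pos hT
  have hy1 : 1 ≤ y := Real.one_le_exp (mul_nonneg hi hL.le)
  have h1 : DP y (∑ p ∈ C.U T i, ‖(1 : ℂ)‖) (fun f => ∑ p ∈ C.U T i, (1 : ℂ) * f p) :=
    dp_sum (C.U T i) (M := fun _ => ‖(1 : ℂ)‖) (G := fun p f => (1 : ℂ) * f p) fun p hp => by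
      have := Blk10.mem_U.mp hp
      exact dp_single 1 p this.1.one_le this.2.2
  have hcard : ((C.U T i).card : ℝ) ≤ y := by
    have h2 : (C.U T i).card ≤ ⌊y⌋₊ := by
      unfold K8.Cfg.U PS
      refine (Finset.card_filter_le _ _).trans ?_
      rw [Nat.card_Ioc]
      exact Nat.sub_le _ _
    calc ((C.U T i).card : ℝ) ≤ (⌊y⌋₊ : ℝ) := by exact_mod_cast h2
      _ ≤ y := Nat.floor_le (by linarith)
  have h3 : DP y ‖(C.c i : ℂ)‖ (fun _ => (C.c i : ℂ)) := (dp_const _).mono hy1 le_rfl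
  have h4 := (h1.add h3).const_mul ((C.m i : ℂ)⁻¹)
  refine (h4.mono le_rfl ?_).congr fun f _ => ?_
  · simp only [norm_one, Finset.sum_const, nsmul_eq_mul, mul_one]
    rw [norm_inv, norm_real, norm_real, Real.norm_eq_abs, Real.norm_eq_abs, abs_of_pos hm,
      div_eq_mul_inv]
    have hc := abs_nonneg (C.c i)
    have hmi : 0 ≤ (C.m i)⁻¹ := by positivity
    calc (C.m i)⁻¹ * (((C.U T i).card : ℝ) + |C.c i|)
        ≤ (C.m i)⁻¹ * (y + y * |C.c i|) := by
          gcongr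
          nlinarith
      _ = y * ((1 + |C.c i|) * (C.m i)⁻¹) := by ring
  · unfold K8.Cfg.z
    simp only [one_mul]
    rw [div_eq_mul_inv]
    ring

/-- the constant in the coefficients -/
noncomputable def bc (C : Cfg) (i : ℕ) : ℝ := 1 + (1 + |C.c i|) / C.m i

/-- the constant in the coefficients -/
noncomputable def cc (κ : ℝ) (C : Cfg) : ℝ := ∏ i ∈ Finset.range C.N, bc C i ^ (rk κ C i + 1)

lemma bc_ge (hC : Adm κ M C) {i : ℕ} (hi : i < C.N) : 1 ≤ bc C i := by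
  have := hC.hm i hi
  unfold bc
  have : 0 ≤ (1 + |C.c i|) / C.m i := by positivity
  linarith

lemma dp_Gt (hC : Adm κ M C) (hT : 1 < T) (g : Finset ℕ) :
    DP (T ^ (93 / 100 : ℝ)) (T ^ (93 / 100 : ℝ) * cc κ C) (Gt κ C T g) := by
  have hL : 0 < Real.log T := Real.log_pos hT
  have hT0 : 0 < T := by linarith
  have h1 := dp_prod (Finset.range C.N)
    (N := fun i => Real.exp (C.te i * Real.log T) ^ et κ C g i)
    (M := fun i => (Real.exp (C.te i * Real.log T) * ((1 + |C.c i|) / C.m i)) ^ et κ C g i)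
    (G := fun i f => C.z T i f ^ et κ C g i) (fun i hi => by
      have hi' := Finset.mem_range.mp hi
      exact (dp_z (hC.hpos i hi'.le).le hT (hC.hm i hi')).pow _)
  have e1 : ∏ i ∈ Finset.range C.N, Real.exp (C.te i * Real.log T) ^ (rk κ C i + 1) ≤
      T ^ (93 / 100 : ℝ) := by
    have e2 : ∀ i, Real.exp (C.te i * Real.log T) ^ (rk κ C i + 1) =
        Real.exp (((rk κ C i : ℝ) + 1) * C.te i * Real.log T) := by
      intro i
      rw [← Real.exp_nat_mul]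
      congr 1
      push_cast
      ring
    simp only [e2]
    rw [← Real.exp_sum, ← Finset.sum_mul, Real.rpow_def_of_pos hT0]
    apply Real.exp_le_exp.mpr
    rw [mul_comm (Real.log T)]
    exact mul_le_mul_of_nonneg_right hC.bud2 hL.le
  have hle : ∀ i, et κ C g i ≤ rk κ C i + 1 := by
    intro i
    unfold et
    split_ifs <;> omega
  have hy1 : ∀ i, i < C.N → 1 ≤ Real.exp (C.te i * Real.log T) := fun i hi =>
    Real.one_le_exp (mul_nonneg (hC.hpos i hi.le).le hL.le)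
  refine h1.mono ?_ ?_
  · refine le_trans (Finset.prod_le_prod (fun i _ => by positivity) fun i hi => ?_) e1
    exact pow_le_pow_right₀ (hy1 i (Finset.mem_range.mp hi)) (hle i)
  · calc ∏ i ∈ Finset.range C.N,
          (Real.exp (C.te i * Real.log T) * ((1 + |C.c i|) / C.m i)) ^ et κ C g i
        ≤ ∏ i ∈ Finset.range C.N,
          (Real.exp (C.te i * Real.log T) ^ (rk κ C i + 1) * bc C i ^ (rk κ C i + 1)) := by
          refine Finset.prod_le_prod (fun i hi => ?_) fun i hi => ?_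
          · have := hC.hm i (Finset.mem_range.mp hi)
            positivity
          · have hi' := Finset.mem_range.mp hi
            have hm := hC.hm i hi'
            have h2 := hy1 i hi'
            have h3 := bc_ge hC hi'
            rw [← mul_pow]
            calc (Real.exp (C.te i * Real.log T) * ((1 + |C.c i|) / C.m i)) ^ et κ C g i
                ≤ (Real.exp (C.te i * Real.log T) * bc C i) ^ et κ C g i := by
                  gcongr
                  unfold bc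
                  linarith
              _ ≤ _ := pow_le_pow_right₀ (one_le_mul_of_one_le_of_one_le h2 h3) (hle i)
      _ = (∏ i ∈ Finset.range C.N, Real.exp (C.te i * Real.log T) ^ (rk κ C i + 1)) * cc κ C := by
          rw [Finset.prod_mul_distrib]
          rfl
      _ ≤ _ := by
          have : 0 ≤ cc κ C := Finset.prod_nonneg fun i hi => by
            have := bc_ge hC (Finset.mem_range.mp hi)
            positivity
          gcongr

lemma dp_GG (hC : Adm κ M C) (hT : 1 < T) (h g : Finset ℕ)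
    (hb : DP (T ^ (1 / 100 : ℝ)) (T ^ (1 / 100 : ℝ)) (Gb κ T M h)) (hcc : cc κ C ≤ T) :
    DP (T ^ (94 / 100 : ℝ)) (T ^ 2) (GG κ C T M h g) := by
  have hT0 : 0 < T := by linarith
  have h1 := hb.mul (dp_Gt hC hT g)
  have e1 : T ^ (1 / 100 : ℝ) * T ^ (93 / 100 : ℝ) = T ^ (94 / 100 : ℝ) := by
    rw [← Real.rpow_add hT0]
    norm_num
  refine h1.mono e1.le ?_
  rw [← mul_assoc, e1]
  have h2 : T ^ (94 / 100 : ℝ) ≤ T := by
    calc T ^ (94 / 100 : ℝ) ≤ T ^ (1 : ℝ) := Real.rpow_le_rpow_of_exponent_le hT.le (by norm_num)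
      _ = T := Real.rpow_one T
  have h3 : 0 ≤ T ^ (94 / 100 : ℝ) := Real.rpow_nonneg hT0.le _
  calc T ^ (94 / 100 : ℝ) * cc κ C ≤ T ^ (94 / 100 : ℝ) * T := by gcongr
    _ ≤ T * T := by gcongr
    _ = T ^ 2 := by ring

/-! ### the Gaussian means -/

lemma ES_one (S : Finset ℕ) : ES S (fun _ => (1 : ℝ)) = 1 := by
  simp [ES]

lemma ER_VV10 (hC : Adm κ M C) (hT : 1 < T) :
    ER (SB8 C T M) (fun f => VV10 κ C T M (tw (1 / 2) f)) =
      (∏ j ∈ Finset.range (JJ T + 1), ES (Sj T M (JJ T) j) (fun f => VB κ T M j (tw (1 / 2) f))) *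
        (∏ i ∈ Finset.range C.N, ES (C.U T i) (fun f => VT κ C T i (tw (1 / 2) f))) := by
  have h := Blk10.fact_gen (𝕜 := ℝ) hC hT (fun j f => VB κ T M j (tw (1 / 2) f))
    (fun i f => VT κ C T i (tw (1 / 2) f)) (fun _ => 1) (by
      intro j f g hfg
      unfold VB Pj
      congr 1
      refine Finset.sum_congr rfl fun p hp => ?_
      simp only [tw, hfg p hp]) (by
      intro i f g hfg
      unfold K8.VT
      simp only [Blk10.z_dep hfg]) (by
      intro f g _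
      rfl)
  rw [ES_one, mul_one] at h
  rw [← h]
  unfold VV10
  simp only [mul_one]

lemma ev_err : ∀ᶠ T : ℝ in atTop, T ^ 15 * Real.exp (-(T ^ (1 / 50 : ℝ) / 2)) ≤ 1 := by
  have h1 : Tendsto (fun T : ℝ => T ^ (1 / 50 : ℝ)) atTop atTop :=
    tendsto_rpow_atTop (by norm_num)
  have h2 : ∀ᶠ u : ℝ in atTop, u ^ 750 ≤ 1 * Real.exp (1 / 2 * u) := by
    have := (isLittleO_pow_exp_pos_mul_atTop 750 (show (0 : ℝ) < 1 / 2 by norm_num)).def
      (show (0 : ℝ) < 1 by norm_num)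
    filter_upwards [this, eventually_ge_atTop 0] with u hu hu0
    rw [Real.norm_eq_abs, Real.norm_eq_abs, abs_of_nonneg (by positivity),
      abs_of_pos (Real.exp_pos _)] at hu
    exact hu
  filter_upwards [h1.eventually h2, eventually_ge_atTop 0] with T hT hT0
  have e1 : T ^ 15 = (T ^ (1 / 50 : ℝ)) ^ 750 := by
    rw [← Real.rpow_natCast, ← Real.rpow_natCast, ← Real.rpow_mul hT0]
    congr 1; norm_num
  rw [e1]
  calc (T ^ (1 / 50 : ℝ)) ^ 750 * Real.exp (-(T ^ (1 / 50 : ℝ) / 2))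
      ≤ (1 * Real.exp (1 / 2 * T ^ (1 / 50 : ℝ))) * Real.exp (-(T ^ (1 / 50 : ℝ) / 2)) := by gcongr
    _ = Real.exp (1 / 2 * T ^ (1 / 50 : ℝ)) * Real.exp (-(T ^ (1 / 50 : ℝ) / 2)) := by ring
    _ = 1 := by
        rw [← Real.exp_add, show 1 / 2 * T ^ (1 / 50 : ℝ) + -(T ^ (1 / 50 : ℝ) / 2) = 0 by ring,
          Real.exp_zero]

lemma VV_ratio (hT : 0 < T) :
    (VV T : ℝ) / (2 * (T ^ (94 / 100 : ℝ)) ^ 2) = T ^ (1 / 50 : ℝ) / 2 := by
  rw [VV_coe hT.le, ← Real.rpow_natCast (T ^ (94 / 100 : ℝ)), ← Real.rpow_mul hT.le]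
  have : T ^ (19 / 10 : ℝ) = T ^ (1 / 50 : ℝ) * T ^ (94 / 100 * ((2 : ℕ) : ℝ)) := by
    rw [← Real.rpow_add hT]; norm_num
  rw [this]
  have h0 : 0 < T ^ (94 / 100 * ((2 : ℕ) : ℝ)) := Real.rpow_pos_of_pos hT _
  field_simp

lemma mem_blk (hC : Adm κ M C) (hT : 1 < T) (n : ℕ) (h1 : 1 ≤ n)
    (h2 : (n : ℝ) ≤ T ^ (94 / 100 : ℝ)) : n ∈ Nat.factoredNumbers (UU (SB8 C T M)) := by
  refine Blk10.mem_factored_SB8 hC hT h1 (h2.trans ?_)
  calc T ^ (94 / 100 : ℝ) ≤ T ^ (1 : ℝ) := Real.rpow_le_rpow_of_exponent_le hT.le (by norm_num)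
    _ = T := Real.rpow_one T

lemma eg_one (hC : Adm κ M C) (hT : 1 < T) (h g : Finset ℕ)
    (hd : DP (T ^ (94 / 100 : ℝ)) (T ^ 2) (GG κ C T M h g)) (τ : ℝ) :
    EG T τ (fun t => ‖GG κ C T M h g (fs (1 / 2 + t * I))‖ ^ 2) ≤
      ER (SB8 C T M) (fun f => ‖GG κ C T M h g (tw (1 / 2) f)‖ ^ 2) +
        T ^ 4 * Real.exp (-(T ^ (1 / 50 : ℝ) / 2)) := by
  have hT0 : 0 < T := by linarith
  have h1 := transfer_sq (mem_blk hC hT) (hd.twist (w := 1 / 2) (by norm_num)) le_rfl T τ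
  have e1 : ∀ t : ℝ, GG κ C T M h g (tw (1 / 2) (fs (t * I))) =
      GG κ C T M h g (fs (1 / 2 + t * I)) := fun t => (hd.fs_add _ _).symm
  simp only [e1] at h1
  rw [VV_ratio hT0] at h1
  have h2 := (abs_le.1 h1).2
  have e2 : (T ^ 2) ^ 2 = T ^ 4 := by ring
  rw [e2] at h2
  linarith

lemma eg_sum (hκ : 0 < κ) (hC : Adm κ M C) (hT : 1 < T)
    (hd : ∀ h g, DP (T ^ (94 / 100 : ℝ)) (T ^ 2) (GG κ C T M h g)) (τ : ℝ) :
    EG T τ (fun t => VV10 κ C T M (fs (1 / 2 + t * I))) ≤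
      ER (SB8 C T M) (fun f => VV10 κ C T M (tw (1 / 2) f)) +
        (∑ x ∈ PR C T, ac κ C T M x.1 x.2) * (T ^ 4 * Real.exp (-(T ^ (1 / 50 : ℝ) / 2))) := by
  have hint : ∀ x ∈ PR C T, Integrable (fun t : ℝ => ac κ C T M x.1 x.2 *
      ‖GG κ C T M x.1 x.2 (fs (1 / 2 + t * I))‖ ^ 2) (gaussianReal τ (VV T)) := by
    intro x _
    obtain ⟨h1, h2⟩ := Lower.dp_half (hd x.1 x.2)
    apply Integrable.const_mul
    refine Integrable.of_bound (C := (T ^ 2) ^ 2) ((h1.norm.pow 2).aestronglyMeasurable) ?_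
    refine Filter.Eventually.of_forall fun t => ?_
    rw [Real.norm_eq_abs, abs_of_nonneg (by positivity)]
    exact pow_le_pow_left₀ (norm_nonneg _) (h2 t) 2
  have e1 : EG T τ (fun t => VV10 κ C T M (fs (1 / 2 + t * I))) =
      ∑ x ∈ PR C T, ac κ C T M x.1 x.2 *
        EG T τ (fun t => ‖GG κ C T M x.1 x.2 (fs (1 / 2 + t * I))‖ ^ 2) := by
    simp only [EG, VV10_eq]
    rw [integral_finsetSum _ hint]
    refine Finset.sum_congr rfl fun x _ => ?_
    exact integral_const_mul _ _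
  have e2 : ER (SB8 C T M) (fun f => VV10 κ C T M (tw (1 / 2) f)) =
      ∑ x ∈ PR C T, ac κ C T M x.1 x.2 *
        ER (SB8 C T M) (fun f => ‖GG κ C T M x.1 x.2 (tw (1 / 2) f)‖ ^ 2) := by
    simp only [ER_eq, VV10_eq]
    rw [integral_finsetSum]
    · refine Finset.sum_congr rfl fun x _ => ?_
      exact integral_const_mul _ _
    · intro x _
      have h1 : BC (SB8 C T M) (fun f => GG κ C T M x.1 x.2 (tw (1 / 2) f)) :=
        ((hd x.1 x.2).twist (w := 1 / 2) (by norm_num)).eval_XX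
      exact h1.norm_sq.integrable.const_mul _
  rw [e1, e2, Finset.sum_mul, ← Finset.sum_add_distrib]
  refine Finset.sum_le_sum fun x _ => ?_
  rw [← mul_add]
  exact mul_le_mul_of_nonneg_left (eg_one hC hT x.1 x.2 (hd x.1 x.2) τ) (ac_nonneg hκ _ _)

end MV10

open MV10 in
/-- (V6) the Gaussian means of the weight -/
theorem stMeanV10 (h : StLen10) : StMeanV10 := by
  intro κ h1
  have h0 : 0 < κ := by linarith
  obtain ⟨M₀, hM₀⟩ := h κ (1 / 100) h1 (by norm_num)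
  refine ⟨M₀, fun M hM C hC => ?_⟩
  obtain ⟨T₁, hT₁3, hT₁⟩ := hM₀ M hM
  obtain ⟨T₂, hT₂⟩ := Filter.eventually_atTop.mp ev_err
  refine ⟨max T₁ (max T₂ (cc κ C)), hT₁3.trans (le_max_left _ _), fun T hT τ => ?_⟩
  have hTa : T₁ ≤ T := (le_max_left _ _).trans hT
  have hTb : T₂ ≤ T := ((le_max_left _ _).trans (le_max_right _ _)).trans hT
  have hTc : cc κ C ≤ T := ((le_max_right _ _).trans (le_max_right _ _)).trans hT
  have hT3 : 3 ≤ T := hT₁3.trans hTa
  have hT1 : 1 < T := by linarith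
  have hT0 : 0 < T := by linarith
  have hd : ∀ h g, DP (T ^ (94 / 100 : ℝ)) (T ^ 2) (MV10.GG κ C T M h g) := fun h g =>
    dp_GG hC hT1 h g (hT₁ T hTa h).1 hTc
  have h2 := eg_sum h0 hC hT1 hd τ
  rw [ER_VV10 hC hT1] at h2
  refine h2.trans ?_
  have h3 : ∑ x ∈ PR C T, ac κ C T M x.1 x.2 ≤ T := by
    refine ((sum_ac h0).trans (hT₁ T hTa ∅).2).trans ?_
    calc T ^ (1 / 100 : ℝ) ≤ T ^ (1 : ℝ) := Real.rpow_le_rpow_of_exponent_le hT1.le (by norm_num)
      _ = T := Real.rpow_one T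
  have h4 := hT₂ T hTb
  have h5 : (∑ x ∈ PR C T, ac κ C T M x.1 x.2) * (T ^ 4 * Real.exp (-(T ^ (1 / 50 : ℝ) / 2))) ≤
      T ^ (-10 : ℝ) := by
    have h6 : T ^ (-10 : ℝ) = (T ^ 10)⁻¹ := by
      rw [Real.rpow_neg hT0.le]
      congr 1
      exact_mod_cast Real.rpow_natCast T 10
    rw [h6]
    have h7 : 0 < T ^ 10 := by positivity
    rw [← one_div, le_div_iff₀ h7]
    have h8 : 0 ≤ T ^ 4 * Real.exp (-(T ^ (1 / 50 : ℝ) / 2)) := by positivity
    calc (∑ x ∈ PR C T, ac κ C T M x.1 x.2) * (T ^ 4 * Real.exp (-(T ^ (1 / 50 : ℝ) / 2))) * T ^ 10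
        ≤ T * (T ^ 4 * Real.exp (-(T ^ (1 / 50 : ℝ) / 2))) * T ^ 10 := by gcongr
      _ = T ^ 15 * Real.exp (-(T ^ (1 / 50 : ℝ) / 2)) := by ring
      _ ≤ 1 := h4
  linarith

end K10
end Pool.Agent.Lib.MP_973905_nt
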