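import Pool.Agent.Lib.MP_973905_nt.K10.Stmts
import Pool.Agent.Lib.MP_973905_nt.K9.BernBox

set_option autoImplicit false

/-!
# MP_973905_nt, project K10: an elementary inequality in three variables

The inequality reduces to the positivity of a polynomial on a box, which is checked with the
coefficients in the Bernstein basis (`K9.BernBox`).
-/

namespace Pool.Agent.Lib.MP_973905_nt.K10

namespace Part10Aux

open K9.BernBox

/-- The coefficients for `τ = 2 x - 1`, `r = y`, `u = z / 8`. -/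
def dP : List (List (List ℤ)) := [
   [[25600, -40960, 40960, 0, 0, 0], [51200, -204800, 204800, 0, 0, 0],
    [61440, -245760, 245760, 0, 0, 0], [-102400, 409600, -409600, 0, 0, 0]],
   [[], [19200, 6400, -128000, 204800, -102400, 0], [51200, -332800, 691200, -512000, 102400, 0],
    [141312, -590848, 873472, -462848, 38912, 0], [-63488, 535552, -1174528, 868352, -165888, 0]],
   [[], [], [1664, 63488, -311936, 598784, -555776, 235520, -31744],
    [11008, -152320, 556544, -852736, 621824, -216064, 31744],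
    [118528, -624384, 1324800, -1406720, 775680, -219648, 31744],
    [22784, 71424, -551680, 966400, -709120, 231936, -31744]],
   [[], [], [], [32, 22112, -130912, 326560, -431680, 312448, -114432, 15872],
    [-10432, 49024, -77440, 40960, 8000, -11648, 1536],
    [35136, -226688, 617472, -912000, 786880, -400896, 115968, -15872],
    [24000, -112000, 192000, -144000, 40000, 0]],
   [[], [], [], [], [404, -640, -7128, 34384, -69580, 76816, -47760, 15488, -1984],
    [-3096, 22160, -68128, 120384, -137080, 104816, -52560, 15488, -1984],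
    [1600, -11600, 35200, -56800, 51200, -24400, 4800],
    [2400, -14000, 32000, -36000, 20000, -4400]],
   [[], [], [], [], [], [75, -615, 2190, -4350, 5175, -3675, 1440, -240],
    [-100, 700, -2000, 3000, -2500, 1100, -200],
    [60, -540, 2040, -4200, 5100, -3660, 1440, -240], [100, -700, 2000, -3000, 2500, -1100, 200]]]

theorem ok_dP : ok3 dP = true := by decide +kernel

/-- The polynomial inequality. -/
theorem poly_ineq {τ r u s : ℝ} (h1 : -1 ≤ τ) (h2 : τ ≤ 1) (h3 : 0 ≤ r) (h4 : r ≤ 1)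
    (h5 : 0 ≤ u) (h6 : u ≤ 1 / 8) (hs : s = 1 + (1 - τ) * u * r) :
    (1 + r) * (s ^ 2 + (1 - τ) ^ 2 * u * r * s + 31 / 50 * (1 - τ) ^ 4 * u ^ 2 * r ^ 2) *
        (u * (τ * s + (1 - τ) * r) ^ 2 + r * s) ≤
      s ^ 5 * (r * (1 + r) +
        u * (3 / 10 + 2 * r * (1 - r) * (1 + r) * τ + 6 / 5 * (1 + r ^ 2) * τ ^ 2)) := by
  subst hs
  have e := mul_nonneg h5 (ev3_nonneg ok_dP (x := (τ + 1) / 2) (y := r) (z := 8 * u)
    (by linarith) (by linarith) h3 h4 (by linarith) (by linarith))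
  simp only [ev3, ev2, ev1, ev, dP, Int.cast_ofNat, Int.cast_neg, Int.cast_zero, mul_zero,
    add_zero, zero_add] at e
  linear_combination (1 / 51200) * e

theorem exp_le {w : ℝ} (h0 : 0 ≤ w) (h1 : w ≤ 3 / 5) :
    Real.exp w ≤ 1 + w + 31 / 50 * w ^ 2 := by
  have h := Real.exp_bound' h0 (by linarith) (n := 4) (by norm_num)
  simp only [Finset.sum_range_succ, Finset.sum_range_zero, Nat.factorial] at h
  norm_num at h
  have h2 : w ^ 3 ≤ w ^ 2 * (3 / 5) := by
    have := mul_le_mul_of_nonneg_left h1 (pow_nonneg h0 2)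
    linarith [this, pow_succ w 2]
  have h3 : w ^ 4 ≤ w ^ 2 * (9 / 25) := by
    have e1 : w * w ≤ 9 / 25 := by nlinarith
    have := mul_le_mul_of_nonneg_left e1 (pow_nonneg h0 2)
    linarith [this, (by ring : w ^ 4 = w ^ 2 * (w * w))]
  nlinarith [pow_nonneg h0 2]

end Part10Aux

open Part10Aux in
theorem stPart10 : StPart10 := by
  intro τ r u h1 h2 h3 h4 h5 h6
  obtain ⟨s, hs⟩ : ∃ s, s = 1 + (1 - τ) * u * r := ⟨_, rfl⟩
  have hur0 : 0 ≤ u * r := mul_nonneg h5 h3
  have hur : u * r ≤ 1 / 8 := by nlinarith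
  have hs1 : 1 ≤ s := by
    rw [hs]
    nlinarith [mul_nonneg (by linarith : (0:ℝ) ≤ 1 - τ) hur0]
  have hs0 : 0 < s := by linarith
  have hkey := poly_ineq h1 h2 h3 h4 h5 h6 hs
  rw [← hs]
  have hw0 : 0 ≤ (1 - τ) ^ 2 * u * r / s := by positivity
  have hw1 : (1 - τ) ^ 2 * u * r / s ≤ 3 / 5 := by
    rw [div_le_iff₀ hs0]
    have hq : (1 - τ) ^ 2 ≤ 4 := by nlinarith
    have := mul_le_mul_of_nonneg_right hq hur0
    nlinarith
  have hexp := exp_le hw0 hw1
  have e1 : 1 + (1 - τ) ^ 2 * u * r / s + 31 / 50 * ((1 - τ) ^ 2 * u * r / s) ^ 2 =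
      (s ^ 2 + (1 - τ) ^ 2 * u * r * s + 31 / 50 * (1 - τ) ^ 4 * u ^ 2 * r ^ 2) / s ^ 2 := by
    field_simp
    try ring
  have e2 : u * (τ + (1 - τ) * r / s) ^ 2 + r / s =
      (u * (τ * s + (1 - τ) * r) ^ 2 + r * s) / s ^ 2 := by
    field_simp
  have hB : 0 ≤ (u * (τ * s + (1 - τ) * r) ^ 2 + r * s) / s ^ 2 := by positivity
  rw [e1] at hexp
  rw [e2]
  have hr : 0 ≤ (1 + r) / s := by positivity
  calc (1 + r) / s * Real.exp ((1 - τ) ^ 2 * u * r / s) *
        ((u * (τ * s + (1 - τ) * r) ^ 2 + r * s) / s ^ 2) ≤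
      (1 + r) / s * ((s ^ 2 + (1 - τ) ^ 2 * u * r * s + 31 / 50 * (1 - τ) ^ 4 * u ^ 2 * r ^ 2) /
        s ^ 2) * ((u * (τ * s + (1 - τ) * r) ^ 2 + r * s) / s ^ 2) :=
        mul_le_mul_of_nonneg_right (mul_le_mul_of_nonneg_left hexp hr) hB
    _ = (1 + r) * (s ^ 2 + (1 - τ) ^ 2 * u * r * s + 31 / 50 * (1 - τ) ^ 4 * u ^ 2 * r ^ 2) *
        (u * (τ * s + (1 - τ) * r) ^ 2 + r * s) / s ^ 5 := by
        field_simp
    _ ≤ r * (1 + r) +
        u * (3 / 10 + 2 * r * (1 - r) * (1 + r) * τ + 6 / 5 * (1 + r ^ 2) * τ ^ 2) := by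
        rw [div_le_iff₀ (by positivity)]
        linarith

end Pool.Agent.Lib.MP_973905_nt.K10
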