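import Pool.Agent.Lib.MP_973905_nt.K10.Final10

/-! The logical structure of folder K10, checked: each hypothesis below is one module. -/

namespace Pool.Agent.Lib.MP_973905_nt
namespace K10

theorem plan10 (mertens : K5.StMertens) (long : K5.StLong) (gaussC : K8.StGaussC)
    (fock : K8.StFock) (avL : K8.StAvL) (crudeD : K9.StCrudeD)
    (aKg : K5.StMertens → StAKg) (lFg : StLFg) (blkg : StLFg → StBlkg)
    (botg : StBlkg → StLFg → StAKg → StBotg) (blkNg : StBlkNg) (shortg : StShortg)
    (top10 : K8.StGaussC → StTop10) (rho10 : StRho10) (fact10 : StFact10)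
    (bQ10 : StShortg → StBQ10)
    (sec10 : K5.StLong → StBQ10 → StFact10 → StBotg → StTop10 → StRho10 → StAKg → StSec10)
    (len10 : StLen10) (cont10 : StShortg → StLen10 → StCont10)
    (sideZ10 : StSec10 → K8.StAvL → StCont10 → StRho10 → StAKg → StSideZ10)
    (ptB10 : StPtB10) (pt10 : StPtB10 → StPt10) (badN10 : StBadN10)
    (botV10 : StBlkNg → StBadN10 → StAKg → StBotV10)
    (meanV10 : StLen10 → StMeanV10)
    (sideV10 : StMeanV10 → StBotV10 → StTop10 → StCont10 → StRho10 → StAKg → StSideV10)
    (hold10 : StSideZ10 → StSideV10 → StPt10 → StCont10 → StRho10 → StAKg → StHold10)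
    (ah10 : K8.StFock → StAh10) (part10 : StPart10)
    (bh10 : K8.StFock → K9.StCrudeD → StPart10 → StBh10)
    (adm10 : StAh10 → StAdm10) (lam10 : StBh10 → StAh10 → StAdm10 → StLam10)
    (gu10 : StGu10) (num10 : StNum10) : StFinal10 := by
  have hAK := aKg mertens
  have hBlk := blkg lFg
  have hBot := botg hBlk lFg hAK
  have hTop := top10 gaussC
  have hBQ := bQ10 shortg
  have hSec := sec10 long hBQ fact10 hBot hTop rho10 hAK
  have hCont := cont10 shortg len10
  have hZ := sideZ10 hSec avL hCont rho10 hAK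
  have hPt := pt10 ptB10
  have hBotV := botV10 blkNg badN10 hAK
  have hMean := meanV10 len10
  have hV := sideV10 hMean hBotV hTop hCont rho10 hAK
  have hH := hold10 hZ hV hPt hCont rho10 hAK
  have hAh := ah10 fock
  have hBh := bh10 fock crudeD part10
  have hAdm := adm10 hAh
  have hLam := lam10 hBh hAh hAdm
  exact stFinal10 hH hAdm hLam gu10 num10 rho10 hAK

end K10
end Pool.Agent.Lib.MP_973905_nt
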