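import Pool.Agent.Lib.MP_973905_nt.K10.Base
import Pool.Agent.Lib.MP_973905_nt.K8.Pt8

/-! K10, module V2: the pointwise inequality. -/

namespace Pool.Agent.Lib.MP_973905_nt
namespace K10

open MeasureTheory ProbabilityTheory Complex Filter Topology K1 K4 K5
open K8 (Cfg pe rk tk GW VT nb LG aZ aV rhoZ rho8 ETz SB8 BB8 lam8)

/-- module V2 -/
theorem stPt10 (h : StPtB10) : StPt10 := by
  intro κ hκ
  obtain ⟨M₀, hM₀⟩ := h κ hκ
  refine ⟨M₀, fun M hM C hC T f => ?_⟩
  have hκ0 : 0 < κ := by linarith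
  have hp : 0 < pe κ := by unfold pe; positivity
  have e1 : NN T M κ f = ∏ j ∈ Finset.range (JJ T + 1),
      Ntr (ll M (JJ T) j) κ (Pj M (Sj T M (JJ T) j) f) := by
    unfold NN AA
    refine Finset.prod_congr rfl fun j hj => ?_
    unfold Fc
    rw [if_pos hj, if_neg (Finset.notMem_empty j), mul_one]
  have e2 : ‖GW κ C T M f‖ ^ 2 = (∏ j ∈ Finset.range (JJ T + 1),
      ‖Ntr (ll M (JJ T) j) κ (Pj M (Sj T M (JJ T) j) f)‖ ^ 2) *
      ∏ i ∈ Finset.range C.N, ‖C.z T i f ^ C.D i‖ ^ 2 := by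
    unfold GW
    rw [e1, norm_mul, norm_prod, norm_prod, mul_pow, Finset.prod_pow, Finset.prod_pow]
  rw [e2, Real.mul_rpow (Finset.prod_nonneg fun _ _ => by positivity)
    (Finset.prod_nonneg fun _ _ => by positivity),
    ← Real.finsetProd_rpow _ _ (fun _ _ => by positivity),
    ← Real.finsetProd_rpow _ _ (fun _ _ => by positivity)]
  unfold VV10
  refine mul_le_mul ?_ ?_ (Finset.prod_nonneg fun _ _ => by positivity)
    (Finset.prod_nonneg fun j _ => Blk10.VBz_nonneg j _)
  · refine Finset.prod_le_prod (fun _ _ => by positivity) fun j hj => ?_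
    have hj' := Finset.mem_range.mp hj
    exact hM₀ M hM T j (by omega) _
  · refine Finset.prod_le_prod (fun _ _ => by positivity) fun i _ => ?_
    exact K8.Pt8.top_pow hκ0 i _

end K10
end Pool.Agent.Lib.MP_973905_nt
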