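import Pool.Agent.Lib.MP_973905_nt.K10.Stmts
import Pool.Agent.Lib.MP_973905_nt.K8.Pt8

/-! K10, module V1: the pointwise inequality in a bottom block. -/

namespace Pool.Agent.Lib.MP_973905_nt
namespace K10

open MeasureTheory ProbabilityTheory Complex Filter Topology K1 K4 K5
open K8 (Cfg pe rk tk GW VT nb LG aZ aV rhoZ rho8 ETz SB8 BB8 lam8)

namespace PtB10

/-- change of the parameter -/
lemma Ntr_scale (l : ℕ) (a b : ℝ) (z : ℂ) : Ntr l (a * b) z = Ntr l a ((b : ℂ) * z) := by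
  unfold Ntr
  refine Finset.sum_congr rfl fun i _ => ?_
  congr 2
  push_cast
  ring

/-- the good set -/
lemma good {α p K : ℝ} {l : ℕ} (hα : 0 < α) (hα1 : α ≤ 1) (hp : 0 < p) (hαp : α * p = 1)
    (hK : 1 ≤ K) (hl : 10 * K ≤ l) (hs : (4 * p + 8) * Real.exp (-(K / 2)) ≤ 1) {w : ℂ}
    (hw : ‖w‖ ≤ K) :
    (‖Ntr l α w‖ ^ 2) ^ p ≤ (1 + Real.exp (-(K / 2))) * ‖Ntr l 1 w‖ ^ 2 := by
  have ha : |α| ≤ 1 := by rw [abs_of_pos hα]; exact hα1
  have hb : |(1 : ℝ)| ≤ 1 := by rw [abs_one]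
  obtain ⟨-, a2⟩ := Ntr_ratio l ha hK hl hw
  obtain ⟨b1, -⟩ := Ntr_ratio l hb hK hl hw
  obtain ⟨s, hse⟩ : ∃ s, s = Real.exp (-(K / 2)) := ⟨_, rfl⟩
  have hs0 : 0 < s := hse ▸ Real.exp_pos _
  have he : Real.exp (-K) = s ^ 2 := by
    rw [hse, ← Real.exp_nat_mul]; congr 1; push_cast; ring
  rw [← hse] at hs ⊢
  rw [he] at a2 b1
  have h1 := K8.Pt8.const_good hp hs0 hs
  have hs8 : s ≤ 1 / 8 := by nlinarith
  have hs2 : s ^ 2 ≤ 1 / 64 := by nlinarith
  calc (‖Ntr l α w‖ ^ 2) ^ p ≤ (((1 + s ^ 2) * Real.exp (α * w.re)) ^ 2) ^ p :=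
        Real.rpow_le_rpow (by positivity) (pow_le_pow_left₀ (norm_nonneg _) a2 2) hp.le
    _ = ((1 + s ^ 2) ^ 2) ^ p * (Real.exp (1 * w.re)) ^ 2 := by
        rw [mul_pow, Real.mul_rpow (by positivity) (by positivity)]
        congr 1
        rw [← Real.exp_nat_mul, ← Real.exp_nat_mul, ← Real.exp_mul]
        congr 1
        calc ((2 : ℕ) : ℝ) * (α * w.re) * p = ((2 : ℕ) : ℝ) * ((α * p) * w.re) := by ring
          _ = _ := by rw [hαp]
    _ ≤ (1 + s) * (1 - s ^ 2) ^ 2 * (Real.exp (1 * w.re)) ^ 2 :=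
        mul_le_mul_of_nonneg_right h1 (by positivity)
    _ = (1 + s) * ((1 - s ^ 2) * Real.exp (1 * w.re)) ^ 2 := by ring
    _ ≤ (1 + s) * ‖Ntr l 1 w‖ ^ 2 := by
        refine mul_le_mul_of_nonneg_left ?_ (by linarith)
        exact pow_le_pow_left₀ (mul_nonneg (by linarith) (Real.exp_pos _).le) b1 2

/-- the bad set -/
lemma bad {α p K : ℝ} {l n : ℕ} (hα : 0 < α) (hα1 : α ≤ 1) (hp : 0 < p) (hK : 1 ≤ K)
    (hn : p * l ≤ n) {w : ℂ} (hw : K ≤ ‖w‖) :
    (‖Ntr l α w‖ ^ 2) ^ p ≤ Real.exp (2 * p * K) * ‖(w / (K : ℂ)) ^ n‖ ^ 2 := by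
  have hK0 : 0 < K := by linarith
  obtain ⟨t, ht⟩ : ∃ t, t = ‖w‖ / K := ⟨_, rfl⟩
  have ht1 : 1 ≤ t := by rw [ht, le_div_iff₀ hK0, one_mul]; exact hw
  have hzt : ‖w‖ = t * K := by rw [ht]; field_simp
  have h1 : ‖Ntr l α w‖ ≤ t ^ l * Real.exp K := by
    calc ‖Ntr l α w‖ ≤ ∑ i ∈ Finset.range (l + 1), t ^ l * (K ^ i / i.factorial) := by
          refine (norm_sum_le _ _).trans (Finset.sum_le_sum fun i hi => ?_)
          rw [norm_div, norm_pow, norm_natCast, norm_mul, norm_real, Real.norm_eq_abs,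
            abs_of_pos hα, hzt]
          have hi' : i ≤ l := by
            have := Finset.mem_range.mp hi
            omega
          have h2 : (α * (t * K)) ^ i ≤ t ^ l * K ^ i := by
            calc (α * (t * K)) ^ i = α ^ i * (t ^ i * K ^ i) := by rw [mul_pow, mul_pow]
              _ ≤ 1 * (t ^ l * K ^ i) := by
                  refine mul_le_mul (pow_le_one₀ hα.le hα1) ?_ (by positivity) zero_le_one
                  exact mul_le_mul_of_nonneg_right (pow_le_pow_right₀ ht1 hi') (by positivity)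
              _ = _ := one_mul _
          rw [← mul_div_assoc]
          exact div_le_div_of_nonneg_right h2 (by positivity)
      _ = t ^ l * ∑ i ∈ Finset.range (l + 1), K ^ i / i.factorial := by rw [Finset.mul_sum]
      _ ≤ t ^ l * Real.exp K :=
          mul_le_mul_of_nonneg_left (Real.sum_le_exp_of_nonneg hK0.le _) (by positivity)
  have h3 : ‖(w / (K : ℂ)) ^ n‖ = t ^ n := by
    rw [norm_pow, norm_div, norm_real, Real.norm_eq_abs, abs_of_pos hK0, ← ht]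
  have h4 : ((t ^ l) ^ 2) ^ p ≤ (t ^ n) ^ 2 := by
    have h5 : ((t ^ l) ^ 2) ^ p = t ^ (2 * (p * l)) := by
      rw [← pow_mul, ← Real.rpow_natCast, ← Real.rpow_mul (by linarith)]
      congr 1
      push_cast
      ring
    have h6 : (t ^ n) ^ 2 = t ^ (2 * (n : ℝ)) := by
      rw [← pow_mul, ← Real.rpow_natCast]
      congr 1
      push_cast
      ring
    rw [h5, h6]
    exact Real.rpow_le_rpow_of_exponent_le ht1 (by linarith)
  calc (‖Ntr l α w‖ ^ 2) ^ p ≤ ((t ^ l * Real.exp K) ^ 2) ^ p :=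
        Real.rpow_le_rpow (by positivity) (pow_le_pow_left₀ (norm_nonneg _) h1 2) hp.le
    _ = Real.exp (2 * p * K) * ((t ^ l) ^ 2) ^ p := by
        rw [mul_pow, Real.mul_rpow (by positivity) (by positivity), mul_comm]
        congr 1
        rw [← Real.exp_nat_mul, ← Real.exp_mul]
        congr 1
        push_cast
        ring
    _ ≤ Real.exp (2 * p * K) * ‖(w / (K : ℂ)) ^ n‖ ^ 2 := by
        rw [h3]
        exact mul_le_mul_of_nonneg_left h4 (Real.exp_pos _).le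

end PtB10

open PtB10

/-- module V1 -/
theorem stPtB10 : StPtB10 := by
  intro κ hκ
  have hκ0 : 0 < κ := by linarith
  obtain ⟨M₀, hM₀⟩ := exists_nat_ge (max 2 (4 * pe κ + 8) * 4)
  refine ⟨M₀, fun M hM T j hj z => ?_⟩
  have hM' : max 2 (4 * pe κ + 8) * 4 ≤ M := hM₀.trans (by exact_mod_cast hM)
  have hp : 0 < pe κ := by unfold K8.pe; positivity
  have hK := K8.Pt8.KK_ge (M := M) hj
  have h1 : 8 ≤ (M : ℝ) := by
    have := le_max_left 2 (4 * pe κ + 8)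
    linarith
  have h2 : (4 * pe κ + 8) * 4 ≤ (M : ℝ) := by
    have := le_max_right 2 (4 * pe κ + 8)
    linarith
  obtain ⟨K, hKe⟩ : ∃ K, K = KK M (JJ T) j := ⟨_, rfl⟩
  have hl : 10 * K ≤ ll M (JJ T) j := by
    rw [hKe]
    exact Nat.le_ceil _
  unfold VBz
  rw [← hKe] at hK ⊢
  have hK1 : 1 ≤ K := by linarith
  -- the variable `w = (1 + κ) z`
  have hα : 0 < κ / (1 + κ) := by positivity
  have hα1 : κ / (1 + κ) ≤ 1 := by
    rw [div_le_one (by linarith)]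
    linarith
  have hαp : κ / (1 + κ) * pe κ = 1 := by
    unfold K8.pe
    field_simp
  have e1 : Ntr (ll M (JJ T) j) κ z =
      Ntr (ll M (JJ T) j) (κ / (1 + κ)) (((1 + κ : ℝ) : ℂ) * z) := by
    rw [← Ntr_scale]
    congr 1
    field_simp
  have e2 : Ntr (ll M (JJ T) j) (1 + κ) z =
      Ntr (ll M (JJ T) j) 1 (((1 + κ : ℝ) : ℂ) * z) := by
    rw [← Ntr_scale, one_mul]
  rw [e1, e2]
  rcases le_total ‖((1 + κ : ℝ) : ℂ) * z‖ K with hz | hz
  · have hs : (4 * pe κ + 8) * Real.exp (-(K / 2)) ≤ 1 := by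
      have h3 : 4 * pe κ + 8 ≤ Real.exp (K / 2) := by
        have := Real.add_one_le_exp (K / 2)
        linarith
      calc (4 * pe κ + 8) * Real.exp (-(K / 2)) ≤ Real.exp (K / 2) * Real.exp (-(K / 2)) :=
            mul_le_mul_of_nonneg_right h3 (Real.exp_pos _).le
        _ = 1 := by rw [← Real.exp_add]; simp
    have h4 := good hα hα1 hp hαp hK1 hl hs hz
    have h5 : 0 ≤ Real.exp (2 * pe κ * K) *
        ‖(((1 + κ : ℝ) : ℂ) * z / (K : ℂ)) ^ nb κ T M j‖ ^ 2 := by positivity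
    linarith
  · have h4 := bad (n := nb κ T M j) hα hα1 hp hK1 (Nat.le_ceil _) hz
    have h5 : 0 ≤ (1 + Real.exp (-(K / 2))) *
        ‖Ntr (ll M (JJ T) j) 1 (((1 + κ : ℝ) : ℂ) * z)‖ ^ 2 := by
      positivity
    linarith

end K10
end Pool.Agent.Lib.MP_973905_nt
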