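import Pool.Agent.Lib.MP_973905_nt.K10.Stmts
import Pool.Agent.Lib.MP_973905_nt.K8.RhoZ

/-! Module Z3 of K10: facts on the limits of the top factors. -/

namespace Pool.Agent.Lib.MP_973905_nt
namespace K10

open MeasureTheory ProbabilityTheory Complex Filter Topology K1 K4 K5
open K8 (Cfg pe rk tk GW VT nb LG aZ aV rhoZ rho8 ETz SB8 BB8 lam8)

namespace Rho10A

open K8.RhoZA (LGd LG_hasDeriv LG_cast LGd_cast LG_pos LGd_nonneg LG_norm_le)

theorem LG_norm_le' {κ : ℝ} (hκ : 1 ≤ κ) (n : ℕ) {c δ V : ℝ} {z : ℂ} (hn : (n : ℝ) ≤ 4 * κ * c)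
    (hc : 0 < c) (hV : 0 < V) (hz : ‖z - (c : ℂ)‖ ≤ δ) :
    ‖LG n z (V : ℂ)‖ ≤ LG n c V * Real.exp (8 * κ * δ) := by
  have hδ : 0 ≤ δ := (norm_nonneg _).trans hz
  refine (LG_norm_le n hc hV.le hz).trans ?_
  apply mul_le_mul_of_nonneg_left _ (LG_pos n c hV).le
  calc (1 + δ / c) ^ (2 * n) ≤ (Real.exp (δ / c)) ^ (2 * n) := by
        apply pow_le_pow_left₀ (by positivity)
        rw [add_comm]
        exact Real.add_one_le_exp _
    _ = Real.exp ((2 * n : ℕ) * (δ / c)) := by rw [← Real.exp_nat_mul]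
    _ ≤ Real.exp (8 * κ * δ) := by
        apply Real.exp_le_exp.mpr
        push_cast
        have h1 : (2 * (n : ℝ)) * (δ / c) = (n : ℝ) / c * (2 * δ) := by ring
        rw [h1]
        have h2 : (n : ℝ) / c ≤ 4 * κ := by rwa [div_le_iff₀ hc]
        have h3 := mul_le_mul_of_nonneg_right h2 (by positivity : 0 ≤ 2 * δ)
        linarith

section

variable {κ : ℝ} {M : ℕ} {C : Cfg} (h : Adm κ M C)

include h

theorem te_pos1 {i : ℕ} (hi : i < C.N) : 0 < C.te (i + 1) := h.hpos _ (by omega)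

theorem te_le {i : ℕ} (hi : i < C.N) : C.te (i + 1) ≤ C.te i := (h.hdec i hi).le

theorem V_pos {i : ℕ} (hi : i < C.N) : 0 < C.V i := by
  unfold Cfg.V
  apply Real.log_pos
  rw [one_lt_div (te_pos1 h hi)]
  exact h.hdec i hi

theorem Vc_pos (hκ : 1 ≤ κ) {i : ℕ} (hi : i < C.N) : 0 < C.V i + C.c i := by
  have h1 := h.hc i hi
  have h2 : (1 : ℝ) ≤ C.D i := by exact_mod_cast h.hD i hi
  by_contra h3
  have h4 : 4 * κ * (C.V i + C.c i) ≤ 0 :=
    mul_nonpos_of_nonneg_of_nonpos (by linarith) (not_lt.mp h3)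
  linarith

theorem te_le_top {i : ℕ} (hi : i ≤ C.N) : C.te i ≤ C.te 0 := by
  induction i with
  | zero => exact le_rfl
  | succ n ih => exact (te_le h (by omega)).trans (ih (by omega))

theorem te_le_one {i : ℕ} (hi : i ≤ C.N) : C.te i ≤ 1 :=
  (te_le_top h hi).trans (h.htop.trans (by norm_num))

theorem aZ_pos {i : ℕ} (hi : i < C.N) : 0 < aZ C i := by
  unfold aZ
  have := LG_pos (C.D i) (C.V i + C.c i) (V_pos h hi)
  have hm := h.hm i hi
  positivity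

theorem tk_nonneg (hκ : 0 < κ) (i : ℕ) : 0 ≤ tk κ C i := by
  unfold tk rk pe
  have : 0 ≤ (C.D i : ℝ) * ((1 + κ) / κ) := by positivity
  have := Nat.floor_le this
  linarith

omit h in
theorem tk_lt (κ : ℝ) (C : Cfg) (i : ℕ) : tk κ C i < 1 := by
  unfold tk rk
  have := Nat.lt_floor_add_one ((C.D i : ℝ) * pe κ)
  linarith

theorem aV_pos (hκ : 0 < κ) {i : ℕ} (hi : i < C.N) : 0 < aV κ C i := by
  unfold aV
  have h1 := LG_pos (rk κ C i) (C.c i) (V_pos h hi)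
  have h2 := LG_pos (rk κ C i + 1) (C.c i) (V_pos h hi)
  have hm := h.hm i hi
  have h3 : 0 < 1 - tk κ C i := by linarith [tk_lt κ C i]
  have h4 := tk_nonneg h hκ i
  have h5 : 0 < LG (rk κ C i) (C.c i) (C.V i) / C.m i ^ (2 * rk κ C i) := by positivity
  have h6 : 0 < LG (rk κ C i + 1) (C.c i) (C.V i) / C.m i ^ (2 * (rk κ C i + 1)) := by positivity
  have := mul_pos h3 h5
  have := mul_nonneg h4 h6.le
  linarith

theorem vv0 {i : ℕ} (hi : i < C.N) : vv (C.te (i + 1)) (C.te i) 0 = ((C.V i : ℝ) : ℂ) := by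
  rw [RhoA.vv_zero (te_pos1 h hi) (te_le h hi)]
  rfl

theorem fac0 {i : ℕ} (hi : i < C.N) :
    LG (C.D i) (vv (C.te (i + 1)) (C.te i) 0 + (C.c i : ℂ)) (C.V i : ℂ) /
      (C.m i : ℂ) ^ (2 * C.D i) = ((aZ C i : ℝ) : ℂ) := by
  rw [vv0 h hi, aZ, Complex.ofReal_div, LG_cast]
  push_cast
  rfl

theorem fac_hasDeriv {i : ℕ} (hi : i < C.N) (u : ℂ) :
    HasDerivAt (fun u => LG (C.D i) (vv (C.te (i + 1)) (C.te i) u + (C.c i : ℂ)) (C.V i : ℂ) /
      (C.m i : ℂ) ^ (2 * C.D i))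
      (LGd (C.D i) (vv (C.te (i + 1)) (C.te i) u + (C.c i : ℂ)) (C.V i : ℂ) *
        (-∫ x in (C.te (i + 1))..(C.te i), cexp (-(u * x))) / (C.m i : ℂ) ^ (2 * C.D i)) u := by
  have h1 := (RhoA.vv_hasDeriv (te_pos1 h hi) (te_le h hi) u).add_const (C.c i : ℂ)
  have h2 := (LG_hasDeriv (C.D i) (C.V i : ℂ) (vv (C.te (i + 1)) (C.te i) u + (C.c i : ℂ))).comp u h1
  exact h2.div_const _

theorem rhoZ_hasDeriv (u : ℂ) : HasDerivAt (rhoZ C)
    (∑ i ∈ Finset.range C.N, (∏ j ∈ (Finset.range C.N).erase i,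
      (LG (C.D j) (vv (C.te (j + 1)) (C.te j) u + (C.c j : ℂ)) (C.V j : ℂ) /
        (C.m j : ℂ) ^ (2 * C.D j))) •
      (LGd (C.D i) (vv (C.te (i + 1)) (C.te i) u + (C.c i : ℂ)) (C.V i : ℂ) *
        (-∫ x in (C.te (i + 1))..(C.te i), cexp (-(u * x))) / (C.m i : ℂ) ^ (2 * C.D i))) u := by
  unfold rhoZ
  apply HasDerivAt.fun_finsetProd
  intro i hi
  exact fac_hasDeriv h (Finset.mem_range.mp hi) u

theorem deriv_real (i : ℕ) :
    deriv (fun x : ℝ => LG (C.D i) x (C.V i)) (C.V i + C.c i) =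
      LGd (C.D i) (C.V i + C.c i) (C.V i) := (LG_hasDeriv _ _ _).deriv

theorem rho8_nonneg (hκ : 1 ≤ κ) : 0 ≤ rho8 C := by
  unfold rho8
  refine Finset.sum_nonneg fun i hi => ?_
  have hi' := Finset.mem_range.mp hi
  rw [deriv_real h i]
  have h1 := te_le h hi'
  have h2 := LGd_nonneg (C.D i) (Vc_pos h hκ hi').le (V_pos h hi').le
  have h3 := LG_pos (C.D i) (C.V i + C.c i) (V_pos h hi')
  apply mul_nonneg (by linarith)
  positivity

theorem deriv_zero : deriv (rhoZ C) 0 =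
    ((-(rho8 C * ∏ i ∈ Finset.range C.N, aZ C i) : ℝ) : ℂ) := by
  rw [(rhoZ_hasDeriv h 0).deriv]
  unfold rho8
  rw [Finset.sum_mul, ← Finset.sum_neg_distrib, Complex.ofReal_sum]
  refine Finset.sum_congr rfl fun i hi => ?_
  have hi' := Finset.mem_range.mp hi
  have h1 : (∏ j ∈ (Finset.range C.N).erase i,
      (LG (C.D j) (vv (C.te (j + 1)) (C.te j) 0 + (C.c j : ℂ)) (C.V j : ℂ) /
        (C.m j : ℂ) ^ (2 * C.D j))) = ((∏ j ∈ (Finset.range C.N).erase i, aZ C j : ℝ) : ℂ) := by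
    rw [Complex.ofReal_prod]
    refine Finset.prod_congr rfl fun j hj => ?_
    exact fac0 h (Finset.mem_range.mp (Finset.mem_of_mem_erase hj))
  rw [h1, smul_eq_mul, vv0 h hi', deriv_real h i]
  have h2 : (-∫ x in (C.te (i + 1))..(C.te i), cexp (-((0 : ℂ) * x))) =
      ((-(C.te i - C.te (i + 1)) : ℝ) : ℂ) := by
    simp
  rw [h2, ← Complex.ofReal_add, ← LGd_cast, ← Finset.mul_prod_erase _ _ hi]
  have h3 : (LG (C.D i) (C.V i + C.c i) (C.V i) : ℝ) ≠ 0 :=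
    (LG_pos (C.D i) (C.V i + C.c i) (V_pos h hi')).ne'
  have h4 : (C.m i : ℝ) ≠ 0 := (h.hm i hi').ne'
  rw [← Complex.ofReal_mul, ← Complex.ofReal_pow, ← Complex.ofReal_div, ← Complex.ofReal_mul]
  congr 1
  unfold aZ
  field_simp

theorem sum_te : ∑ i ∈ Finset.range C.N, (C.te i - C.te (i + 1)) ≤ 1 / 4 := by
  rw [Finset.sum_range_sub']
  have := h.hpos C.N le_rfl
  have := h.htop
  linarith

theorem rhoZ_bound (hκ : 1 ≤ κ) {u : ℂ} (hu : ‖u‖ ≤ 1) :
    ‖rhoZ C u‖ ≤ Real.exp (4 * κ) * ∏ i ∈ Finset.range C.N, aZ C i := by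
  unfold rhoZ
  rw [norm_prod]
  have h1 : ∀ i ∈ Finset.range C.N,
      ‖LG (C.D i) (vv (C.te (i + 1)) (C.te i) u + (C.c i : ℂ)) (C.V i : ℂ) /
        (C.m i : ℂ) ^ (2 * C.D i)‖ ≤ aZ C i * Real.exp (16 * κ * (C.te i - C.te (i + 1))) := by
    intro i hi
    have hi' := Finset.mem_range.mp hi
    have hm := h.hm i hi'
    rw [norm_div, norm_pow, Complex.norm_real, Real.norm_of_nonneg hm.le]
    have h2 : ‖(vv (C.te (i + 1)) (C.te i) u + (C.c i : ℂ)) - ((C.V i + C.c i : ℝ) : ℂ)‖ ≤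
        2 * (C.te i - C.te (i + 1)) := by
      have h3 := RhoA.vv_sub_le (te_pos1 h hi') (te_le h hi') (te_le_one h hi'.le) hu
      have h4 : (vv (C.te (i + 1)) (C.te i) u + (C.c i : ℂ)) - ((C.V i + C.c i : ℝ) : ℂ) =
          vv (C.te (i + 1)) (C.te i) u - ((Real.log (C.te i / C.te (i + 1)) : ℝ) : ℂ) := by
        rw [Complex.ofReal_add]
        unfold Cfg.V
        ring
      rw [h4]
      exact h3
    have h5 := LG_norm_le' hκ (C.D i) (h.hc i hi') (Vc_pos h hκ hi') (V_pos h hi') h2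
    have h6 : 8 * κ * (2 * (C.te i - C.te (i + 1))) = 16 * κ * (C.te i - C.te (i + 1)) := by ring
    rw [h6] at h5
    unfold aZ
    rw [div_mul_eq_mul_div]
    exact div_le_div_of_nonneg_right h5 (by positivity)
  refine (Finset.prod_le_prod (fun i _ => norm_nonneg _) h1).trans ?_
  rw [Finset.prod_mul_distrib, ← Real.exp_sum, mul_comm]
  have h7 : 0 ≤ ∏ i ∈ Finset.range C.N, aZ C i :=
    Finset.prod_nonneg fun i hi => (aZ_pos h (Finset.mem_range.mp hi)).le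
  apply mul_le_mul_of_nonneg_right _ h7
  apply Real.exp_le_exp.mpr
  rw [← Finset.mul_sum]
  have := sum_te h
  nlinarith

end

end Rho10A

open Rho10A in
theorem stRho10 : StRho10 := by
  intro κ hκ1
  have hκ : 0 < κ := by linarith
  refine ⟨Real.exp (4 * κ), Real.one_le_exp (by positivity), ?_⟩
  intro M C h
  refine ⟨fun u => (rhoZ_hasDeriv h u).differentiableAt, fun i hi => aZ_pos h hi,
    fun i hi => aV_pos h hκ hi, rho8_nonneg h hκ1, ?_, deriv_zero h, fun u hu => rhoZ_bound h hκ1 hu⟩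
  unfold rhoZ
  rw [Complex.ofReal_prod]
  exact Finset.prod_congr rfl fun i hi => fac0 h (Finset.mem_range.mp hi)

end K10
end Pool.Agent.Lib.MP_973905_nt
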