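import Pool.Agent.Lib.MP_973905_nt.K10.Stmts
import Pool.Agent.Lib.MP_973905_nt.K5.SecF
import Pool.Agent.Lib.MP_973905_nt.K5.Rho

/-! (Z6) lower bound for the Gaussian means on the side of zeta: `stSec10`. -/

namespace Pool.Agent.Lib.MP_973905_nt
namespace K10

open MeasureTheory ProbabilityTheory Complex Filter Topology K1 K4 K5
open K8 (Cfg pe rk tk GW VT nb LG aZ aV rhoZ rho8 ETz SB8 BB8 lam8)

namespace Sec10Aux

/-- the exact evaluation with an entire function -/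
lemma long_apply (hL : K5.StLong) (hq : StBQ10) (hf : StFact10) {κ : ℝ} (hk : 1 ≤ κ) :
    ∃ M₀ : ℕ, ∀ M : ℕ, M₀ ≤ M → ∀ C : Cfg, Adm κ M C → ∃ T₀ : ℝ, 3 ≤ T₀ ∧ ∀ T, T₀ ≤ T →
      ∃ R : ℂ → ℂ, Differentiable ℂ R ∧
      (∀ w : ℂ, ‖w‖ ≤ 1 / Real.log T → R w =
        (∏ j ∈ Finset.range (JJ T + 1), EBo T M (1 + κ) (Finset.range (JJ T + 1)) ∅ w j) *
          ∏ i ∈ Finset.range C.N, ETz C T w i) ∧
      ∀ τ : ℝ, T / Real.log T ≤ |τ| → |τ| ≤ 3 / 2 * T →
        (R 0 * ((Real.log (|τ| / (2 * Real.pi)) + 2 * Real.eulerMascheroniConstant : ℝ) : ℂ) +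
          deriv R 0).re - T ^ (-(5 / 1000) : ℝ) ≤
        EG T τ (fun t => ‖riemannZeta (1 / 2 + t * I)‖ ^ 2 *
          ‖GW κ C T M (fs (1 / 2 + t * I))‖ ^ 2) := by
  obtain ⟨M₁, h1⟩ := hq κ hk
  obtain ⟨T₂, hT₂, h2⟩ := hL
  refine ⟨M₁, fun M hM C hC => ?_⟩
  obtain ⟨T₁, hT₁, h1⟩ := h1 M hM C hC
  obtain ⟨T₃, hT₃, h3⟩ := hf κ hk M C hC
  refine ⟨max T₁ (max T₂ T₃), hT₁.trans (le_max_left _ _), fun T hT => ?_⟩
  have hTT₁ : T₁ ≤ T := (le_max_left _ _).trans hT
  have hTT₂ : T₂ ≤ T := (le_max_left _ _).trans ((le_max_right _ _).trans hT)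
  have hTT₃ : T₃ ≤ T := (le_max_right _ _).trans ((le_max_right _ _).trans hT)
  have hT3 : 3 ≤ T := hT₁.trans hTT₁
  have hT0 : 0 < T := by linarith
  obtain ⟨c, hc1, hc2, hc3⟩ := h1 T hTT₁
  set N := ⌊T ^ (89 / 100 : ℝ)⌋₊ with hN
  have hNT : (N : ℝ) ≤ T := by
    refine (Nat.floor_le (Real.rpow_nonneg hT0.le _)).trans ?_
    calc T ^ (89 / 100 : ℝ) ≤ T ^ (1 : ℝ) :=
          Real.rpow_le_rpow_of_exponent_le (by linarith) (by norm_num)
      _ = T := Real.rpow_one T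
  refine ⟨RB N c, K5.SecFAux.RB_diff N c, fun w hw => ?_, fun τ hτ1 hτ2 => ?_⟩
  · exact h3 T hTT₃ N c hNT (fun f hf' => hc3 f hf') w hw
  · have h4 := h2 T hTT₂ τ hτ1 hτ2 N c hNT hc1 hc2
    have h5 : EG T τ (fun t => ((‖riemannZeta (1 / 2 + t * I)‖ ^ 2 : ℝ) : ℂ) *
        GB N c (fs (1 / 2 + t * I))) =
        ((EG T τ (fun t => ‖riemannZeta (1 / 2 + t * I)‖ ^ 2 *
          ‖GW κ C T M (fs (1 / 2 + t * I))‖ ^ 2) : ℝ) : ℂ) := by
      unfold EG
      refine Eq.trans (integral_congr_ae (Filter.Eventually.of_forall fun t => ?_))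
        integral_complex_ofReal
      show _ * _ = _
      rw [← hc3 _ (cmul_fs _), ← Complex.ofReal_mul]
    rw [h5] at h4
    have h6 := (Complex.abs_re_le_norm _).trans h4
    rw [Complex.sub_re, Complex.ofReal_re] at h6
    have := (abs_le.1 h6).1
    linarith

/-- the factors of the limit are bounded on the unit disc -/
lemma fac_bound {κ : ℝ} {M : ℕ} {C : Cfg} (hC : Adm κ M C) : ∃ B : ℝ, 0 ≤ B ∧ ∀ i, i < C.N →
    ∀ u : ℂ, ‖u‖ ≤ 1 → ‖LG (C.D i) (vv (C.te (i + 1)) (C.te i) u + (C.c i : ℂ)) (C.V i : ℂ) /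
      (C.m i : ℂ) ^ (2 * C.D i)‖ ≤ B := by
  have h1 : ∀ i, i < C.N → ∃ B : ℝ, ∀ u : ℂ, ‖u‖ ≤ 1 →
      ‖LG (C.D i) (vv (C.te (i + 1)) (C.te i) u + (C.c i : ℂ)) (C.V i : ℂ) /
        (C.m i : ℂ) ^ (2 * C.D i)‖ ≤ B := by
    intro i hi
    have hv : Continuous (vv (C.te (i + 1)) (C.te i)) := by
      rw [continuous_iff_continuousAt]
      intro u
      exact (K5.RhoA.vv_hasDeriv (hC.hpos (i + 1) (by omega)) (hC.hdec i hi).le u).continuousAt
    have hg : Continuous (fun u : ℂ => LG (C.D i) (vv (C.te (i + 1)) (C.te i) u + (C.c i : ℂ))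
        (C.V i : ℂ) / (C.m i : ℂ) ^ (2 * C.D i)) := by
      apply Continuous.div_const
      unfold LG
      fun_prop
    obtain ⟨B, hB⟩ := (isCompact_closedBall (0 : ℂ) 1).exists_bound_of_continuousOn
      hg.continuousOn
    refine ⟨B, fun u hu => hB u ?_⟩
    rw [mem_closedBall_zero_iff]
    exact hu
  choose! B hB using h1
  refine ⟨∑ i ∈ Finset.range C.N, |B i|, Finset.sum_nonneg fun i _ => abs_nonneg _, ?_⟩
  intro i hi u hu
  refine (hB i hi u hu).trans ((le_abs_self _).trans ?_)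
  exact Finset.single_le_sum (f := fun i => |B i|) (fun j _ => abs_nonneg _)
    (Finset.mem_range.2 hi)

/-- the logarithm of the conductor from below -/
lemma log_lower {T τ : ℝ} (hT : 3 ≤ T) (h1 : T / Real.log T ≤ |τ|) :
    Real.log T - Real.log (Real.log T) - 2 ≤
      Real.log (|τ| / (2 * Real.pi)) + 2 * Real.eulerMascheroniConstant := by
  have hT0 : 0 < T := by linarith
  have hL : 0 < Real.log T := Real.log_pos (by linarith)
  have hg1 := Real.one_half_lt_eulerMascheroniConstant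
  have hpi := Real.pi_pos
  have h2 : 0 < T / Real.log T := div_pos hT0 hL
  have h3 : Real.log (T / Real.log T / (2 * Real.pi)) ≤ Real.log (|τ| / (2 * Real.pi)) := by
    apply Real.log_le_log (by positivity)
    exact div_le_div_of_nonneg_right h1 (by positivity)
  rw [Real.log_div h2.ne' (by positivity), Real.log_div hT0.ne' hL.ne'] at h3
  have h4 : Real.log (2 * Real.pi) ≤ 3 := by
    have h5 : 2 * Real.pi ≤ Real.exp 3 := by
      have h6 := Real.pi_lt_four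
      have h7 : (2 : ℝ) ^ 3 ≤ Real.exp 1 ^ 3 :=
        pow_le_pow_left₀ (by norm_num) (by linarith [Real.add_one_le_exp (1 : ℝ)]) 3
      have h8 : Real.exp 1 ^ 3 = Real.exp 3 := by
        rw [← Real.exp_nat_mul]
        norm_num
      linarith
    calc Real.log (2 * Real.pi) ≤ Real.log (Real.exp 3) :=
          Real.log_le_log (by positivity) h5
      _ = 3 := Real.log_exp 3
  linarith

end Sec10Aux

open K5.SecFAux Sec10Aux in
theorem stSec10 (hL : K5.StLong) (hq : StBQ10) (hf : StFact10) (hm : StBotg) (ht : StTop10)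
    (hr : StRho10) (hA : StAKg) : StSec10 := by
  intro κ hk η hη
  obtain ⟨K, hK1, hr⟩ := hr κ hk
  have hK0 : 0 < K := by linarith
  obtain ⟨Ml, hl⟩ := Sec10Aux.long_apply hL hq hf hk
  set η3 : ℝ := min η 1 / 8 with hη3
  have hmin : 0 < min η 1 := lt_min hη one_pos
  have hη30 : 0 < η3 := by positivity
  have hη3a : 8 * η3 ≤ η := by
    have := min_le_left η 1
    rw [hη3]
    linarith
  have hη3b : η3 ≤ 1 / 8 := by
    have := min_le_right η 1
    rw [hη3]
    linarith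
  set η1 : ℝ := η3 / (2 * (K + 1)) with hη1
  set η2 : ℝ := η3 / 2 with hη2
  have hη10 : 0 < η1 := by positivity
  have hη20 : 0 < η2 := by positivity
  obtain ⟨Mm, hm⟩ := hm κ hk η1 hη10
  refine ⟨max Ml Mm, fun M hM C hC => ?_⟩
  obtain ⟨hρd, haZ, -, hr80, hρ0, hρ', hρK⟩ := hr M C hC
  obtain ⟨T₁, hT₁, h1⟩ := hl M ((le_max_left _ _).trans hM) C hC
  obtain ⟨T₂, hT₂, h2⟩ := hm M ((le_max_right _ _).trans hM)
  obtain ⟨Cb, hCb0, hCb⟩ := Sec10Aux.fac_bound hC
  set n := C.N with hn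
  set PA : ℝ := ∏ i ∈ Finset.range n, aZ C i with hPA
  have hPA0 : 0 < PA := Finset.prod_pos fun i hi => haZ i (Finset.mem_range.1 hi)
  -- the precision for the top blocks
  set ε : ℝ := min 1 (η2 * PA / ((n + 1) * (Cb + 1) ^ n)) with hε
  have hε0 : 0 < ε := lt_min one_pos (by positivity)
  have hε1 : ε ≤ 1 := min_le_left _ _
  have hεn : n * (Cb + 1) ^ n * ε ≤ η2 * PA := by
    have e1 : ε ≤ η2 * PA / ((n + 1) * (Cb + 1) ^ n) := min_le_right _ _
    rw [le_div_iff₀ (by positivity)] at e1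
    have e2 : 0 ≤ (Cb + 1) ^ n * ε := by positivity
    nlinarith
  obtain ⟨T₃, hT₃, h3⟩ := unif (P := fun i T => i < n → ∀ u : ℂ, ‖u‖ ≤ 1 →
    ‖ETz C T (u / Real.log T) i -
      LG (C.D i) (vv (C.te (i + 1)) (C.te i) u + (C.c i : ℂ)) (C.V i : ℂ) /
        (C.m i : ℂ) ^ (2 * C.D i)‖ ≤ ε) (by
      intro i
      by_cases hi : i < n
      · obtain ⟨S, hS, hS'⟩ := ht κ hk M C hC i hi ε hε0
        exact ⟨S, hS, fun T hT _ => (hS' T hT).1⟩
      · exact ⟨3, le_rfl, fun T _ h => absurd h hi⟩) n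
  have haK : 0 < aK (1 + κ) := (hA (1 + κ) (by linarith)).1
  -- the size of `T`
  have hev : ∀ᶠ T : ℝ in atTop, Real.log (Real.log T) + 2 ≤ η3 * Real.log T ∧
      Real.exp M ≤ Real.log T ∧ T ^ (-(5 / 1000) : ℝ) ≤ η3 * (aK (1 + κ) * PA) := by
    have e1 : ∀ᶠ T : ℝ in atTop, Real.log (Real.log T) ≤ η3 / 2 * Real.log T := by
      have h5 := Real.isLittleO_log_id_atTop.def (c := η3 / 2) (by positivity)
      have h6 := Real.tendsto_log_atTop.eventually h5
      filter_upwards [h6, Real.tendsto_log_atTop.eventually_ge_atTop 1] with T h7 h8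
      rw [Real.norm_of_nonneg (Real.log_nonneg h8), id, Real.norm_of_nonneg (by linarith)] at h7
      exact h7
    have e2 := Real.tendsto_log_atTop.eventually_ge_atTop (Real.exp M)
    have e3 : ∀ᶠ T : ℝ in atTop, T ^ (-(5 / 1000) : ℝ) < η3 * (aK (1 + κ) * PA) :=
      (tendsto_rpow_neg_atTop (show (0 : ℝ) < 5 / 1000 by norm_num)).eventually_lt_const
        (by positivity)
    have e4 := Real.tendsto_log_atTop.eventually_ge_atTop (4 / η3)
    filter_upwards [e1, e2, e3, e4] with T a b c d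
    refine ⟨?_, b, c.le⟩
    rw [div_le_iff₀ hη30] at d
    linarith
  obtain ⟨T₄, h4⟩ := hev.exists_forall_of_atTop
  refine ⟨max (max T₁ T₂) (max T₃ T₄), (hT₁.trans (le_max_left _ _)).trans (le_max_left _ _),
    fun T hT τ hτ1 hτ2 => ?_⟩
  have hTT₁ : T₁ ≤ T := ((le_max_left _ _).trans (le_max_left _ _)).trans hT
  have hTT₂ : T₂ ≤ T := ((le_max_right _ _).trans (le_max_left _ _)).trans hT
  have hTT₃ : T₃ ≤ T := ((le_max_left _ _).trans (le_max_right _ _)).trans hT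
  have hTT₄ : T₄ ≤ T := ((le_max_right _ _).trans (le_max_right _ _)).trans hT
  have hT3 : 3 ≤ T := hT₁.trans hTT₁
  obtain ⟨hTb, hTc, hTd⟩ := h4 T hTT₄
  set L := Real.log T with hLdef
  have hL1 : 1 ≤ L := (Real.one_le_exp (Nat.cast_nonneg M)).trans hTc
  have hL0 : 0 < L := by linarith
  obtain ⟨R, hR, hRe, hRE⟩ := h1 T hTT₁
  have hEG := hRE τ hτ1 hτ2
  have hΛ := Sec10Aux.log_lower hT3 hτ1
  set Λ := Real.log (|τ| / (2 * Real.pi)) + 2 * Real.eulerMascheroniConstant with hΛdef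
  set D0 : ℝ := aK (1 + κ) * lM T M ^ ((1 + κ) ^ 2 - 1) with hD0
  have hlM : 0 < lM T M := by
    unfold lM
    positivity
  have hD00 : 0 < D0 := mul_pos haK (Real.rpow_pos_of_pos hlM _)
  have hclose : ∀ u : ℂ, ‖u‖ ≤ 1 → ‖R (u / L) - (D0 : ℂ) * rhoZ C u‖ ≤ D0 * PA * η3 := by
    intro u hu
    have hw : ‖u / (L : ℂ)‖ ≤ 1 / L := by
      rw [norm_div, Complex.norm_real, Real.norm_of_nonneg hL0.le]
      exact div_le_div_of_nonneg_right hu hL0.le
    have hE := h2 T hTT₂ (u / L) hw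
    have hB := prod_close (a := fun i => ETz C T (u / L) i)
      (b := fun i => LG (C.D i) (vv (C.te (i + 1)) (C.te i) u + (C.c i : ℂ)) (C.V i : ℂ) /
        (C.m i : ℂ) ^ (2 * C.D i)) hCb0 hε0.le hε1 n
      (fun i hi => hCb i hi u hu) (fun i hi => h3 T hTT₃ i hi hi u hu)
    obtain ⟨-, -, hB3⟩ := hB
    have hrho : rhoZ C u = ∏ i ∈ Finset.range n,
      (LG (C.D i) (vv (C.te (i + 1)) (C.te i) u + (C.c i : ℂ)) (C.V i : ℂ) /
        (C.m i : ℂ) ^ (2 * C.D i)) := rfl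
    rw [← hrho] at hB3
    have hB4 := hB3.trans hεn
    set E := ∏ j ∈ Finset.range (JJ T + 1), EBo T M (1 + κ) (Finset.range (JJ T + 1)) ∅ (u / L) j
      with hEdef
    set B := ∏ i ∈ Finset.range n, ETz C T (u / L) i with hBdef
    rw [hRe (u / L) hw]
    have hBn : ‖B‖ ≤ (K + 1) * PA := by
      have e1 : B = (B - rhoZ C u) + rhoZ C u := by ring
      rw [e1]
      refine (norm_add_le _ _).trans ?_
      have e2 := hρK u hu
      have e3 : η2 * PA ≤ 1 * PA := by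
        apply mul_le_mul_of_nonneg_right _ hPA0.le
        rw [hη2]
        linarith
      calc ‖B - rhoZ C u‖ + ‖rhoZ C u‖ ≤ η2 * PA + K * PA := add_le_add hB4 e2
        _ ≤ 1 * PA + K * PA := by linarith
        _ = _ := by ring
    have e1 : E * B - (D0 : ℂ) * rhoZ C u = (E - (D0 : ℂ)) * B +
        (D0 : ℂ) * (B - rhoZ C u) := by ring
    rw [e1]
    refine (norm_add_le _ _).trans ?_
    rw [norm_mul, norm_mul, Complex.norm_real, Real.norm_of_nonneg hD00.le]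
    have e2 : ‖E - (D0 : ℂ)‖ * ‖B‖ ≤ (η1 * D0) * ((K + 1) * PA) :=
      mul_le_mul hE hBn (norm_nonneg _) (by positivity)
    have e3 : D0 * ‖B - rhoZ C u‖ ≤ D0 * (η2 * PA) := mul_le_mul_of_nonneg_left hB4 hD00.le
    have e4 : (η1 * D0) * ((K + 1) * PA) + D0 * (η2 * PA) = D0 * PA * η3 := by
      rw [hη1, hη2]
      field_simp
      ring
    linarith
  have hR0 : D0 * PA * (1 - η3) ≤ (R 0).re := by
    have e1 := hclose 0 (by simp)
    rw [zero_div, hρ0] at e1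
    have e2 := (Complex.abs_re_le_norm _).trans e1
    rw [Complex.sub_re, ← Complex.ofReal_mul, Complex.ofReal_re] at e2
    have e3 := (abs_le.1 e2).1
    have e4 : D0 * PA * (1 - η3) = D0 * PA - D0 * PA * η3 := by ring
    rw [e4]
    linarith
  have hR1 : -(L * (D0 * (rho8 C * PA))) - L * (D0 * PA * η3) ≤ (deriv R 0).re := by
    have e1 := cauchy hR hρd hL0 hclose
    have e2 := (Complex.abs_re_le_norm _).trans e1
    rw [Complex.sub_re] at e2
    have e3 : ((L : ℂ) * ((D0 : ℂ) * deriv (rhoZ C) 0)).re =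
        -(L * (D0 * (rho8 C * PA))) := by
      rw [hρ', Complex.re_ofReal_mul, Complex.re_ofReal_mul, Complex.ofReal_re]
      ring
    rw [e3] at e2
    have e4 := (abs_le.1 e2).1
    linarith
  have hDL : aK (1 + κ) ≤ D0 * L := by
    have e1 : 1 ≤ lM T M ^ ((1 + κ) ^ 2 - 1) * L := by
      have hk2 : 0 ≤ (1 + κ) ^ 2 - 1 := by nlinarith
      have hg := Real.one_half_lt_eulerMascheroniConstant
      have e2 : 1 ≤ lM T M := by
        rw [lM]
        calc (1 : ℝ) = Real.exp (-M) * Real.exp M := by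
              rw [← Real.exp_add, neg_add_cancel, Real.exp_zero]
          _ ≤ Real.exp (Real.eulerMascheroniConstant - M) * L := by
              apply mul_le_mul _ hTc (Real.exp_nonneg _) (Real.exp_nonneg _)
              exact Real.exp_le_exp.2 (by linarith)
      calc (1 : ℝ) = 1 * 1 := by ring
        _ ≤ _ := mul_le_mul (Real.one_le_rpow e2 hk2) hL1 zero_le_one
          (Real.rpow_nonneg hlM.le _)
    calc aK (1 + κ) = aK (1 + κ) * 1 := by ring
      _ ≤ aK (1 + κ) * (lM T M ^ ((1 + κ) ^ 2 - 1) * L) := mul_le_mul_of_nonneg_left e1 haK.le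
      _ = D0 * L := by rw [hD0]; ring
  have hsmall : T ^ (-(5 / 1000) : ℝ) ≤ η3 * (D0 * L * PA) := by
    refine hTd.trans (mul_le_mul_of_nonneg_left ?_ hη30.le)
    exact mul_le_mul_of_nonneg_right hDL hPA0.le
  have hre : (R 0 * ((Λ : ℝ) : ℂ) + deriv R 0).re = (R 0).re * Λ + (deriv R 0).re := by
    rw [Complex.add_re, mul_comm (R 0), Complex.re_ofReal_mul, mul_comm Λ]
  rw [hre] at hEG
  have hΛ1 : L * (1 - η3) ≤ Λ := by
    have e1 : L * (1 - η3) = L - η3 * L := by ring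
    rw [e1]
    linarith
  have hX : 0 < D0 * L * PA := by positivity
  have h5 : D0 * PA * (1 - η3) * (L * (1 - η3)) ≤ (R 0).re * Λ := by
    have e1 : 0 ≤ D0 * PA * (1 - η3) := mul_nonneg (by positivity) (by linarith)
    have e2 : 0 ≤ L * (1 - η3) := mul_nonneg hL0.le (by linarith)
    exact mul_le_mul hR0 hΛ1 e2 (e1.trans hR0)
  have h8 : D0 * PA * (1 - η3) * (L * (1 - η3)) + (-(L * (D0 * (rho8 C * PA))) -
      L * (D0 * PA * η3)) - η3 * (D0 * L * PA) =
      D0 * L * PA * ((1 - η3) ^ 2 - rho8 C - 2 * η3) := by ring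
  have h9 : 1 - rho8 C - η ≤ (1 - η3) ^ 2 - rho8 C - 2 * η3 := by
    nlinarith
  have h10 := mul_le_mul_of_nonneg_left h9 hX.le
  have h12 : D0 * PA * (1 - η3) * (L * (1 - η3)) + (-(L * (D0 * (rho8 C * PA))) -
      L * (D0 * PA * η3)) - η3 * (D0 * L * PA) ≤ (R 0).re * Λ + (deriv R 0).re -
        T ^ (-(5 / 1000) : ℝ) := by linarith
  rw [h8] at h12
  exact (h10.trans h12).trans hEG

end K10
end Pool.Agent.Lib.MP_973905_nt
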