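import Pool.Agent.Lib.MP_973905_nt.K10.Stmts
import Pool.Agent.Lib.MP_973905_nt.Len2

/-! Module (B5): our polynomials are as short as we like, `|α| ≤ A`. -/

namespace Pool.Agent.Lib.MP_973905_nt
namespace K10

open MeasureTheory ProbabilityTheory Complex Filter Topology

namespace Shortg

open Len

lemma dp_Ntrg {a : ℝ} (ha : 0 ≤ a) {N B : ℝ} (hN : 1 ≤ N) (hB : 1 ≤ B) {P : (ℕ → ℂ) → ℂ}
    (h : DP N B P) {α : ℝ} (hα : |α| ≤ a) (l : ℕ) :
    DP (N ^ l) (Real.exp a * B ^ l) (fun f => Ntr l α (P f)) := by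
  have hM0 : 0 ≤ B := by linarith
  have h0 : DP N (a * B) (fun f => (α : ℂ) * P f) :=
    (h.const_mul (α : ℂ)).mono le_rfl (by
      rw [norm_real, Real.norm_eq_abs]
      exact mul_le_mul_of_nonneg_right hα hM0)
  have h1 : ∀ i ∈ Finset.range (l + 1), DP (N ^ l) (B ^ l * (a ^ i / (i.factorial : ℝ)))
      (fun f => ((α : ℂ) * P f) ^ i / i.factorial) := by
    intro i hi
    rw [Finset.mem_range] at hi
    have h2 := (h0.pow i).const_mul ((i.factorial : ℂ)⁻¹)
    have h3 : ‖((i.factorial : ℂ)⁻¹)‖ = 1 / (i.factorial : ℝ) := by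
      rw [norm_inv, norm_natCast, one_div]
    rw [h3] at h2
    refine (h2.mono (pow_le_pow_right₀ hN (by omega)) ?_).congr fun f _ => by ring
    have h5 : B ^ i ≤ B ^ l := pow_le_pow_right₀ hB (by omega)
    rw [mul_pow]
    calc 1 / (i.factorial : ℝ) * (a ^ i * B ^ i) ≤ 1 / (i.factorial : ℝ) * (a ^ i * B ^ l) := by
          gcongr
      _ = _ := by ring
  have h4 := dp_sum (Finset.range (l + 1)) h1
  refine h4.mono le_rfl ?_
  rw [← Finset.mul_sum, mul_comm]
  gcongr
  exact Real.sum_le_exp_of_nonneg ha (l + 1)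

lemma dp_Fcg {a : ℝ} (ha : 0 ≤ a) {T : ℝ} (hT : 1 < T) {M J j : ℕ} (hM : 1 ≤ M) (h : j ≤ J)
    {α : ℝ} (hα : |α| ≤ a) (g h' : Finset ℕ) :
    DP ((Real.exp (bet M J j * Real.log T) ^ M) ^ (ll M J j + rr M J j))
      (Real.exp a * (M * Real.exp (bet M J j * Real.log T)) ^ (ll M J j + rr M J j))
      (fun f => Fc T M J α g h' j f) := by
  set y := Real.exp (bet M J j * Real.log T) with hy
  have hL : 0 < Real.log T := Real.log_pos hT
  have hy1 : 1 ≤ y := Real.one_le_exp (mul_nonneg (bet_pos _ _ _).le hL.le)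
  have hM1 : (1 : ℝ) ≤ M := by exact_mod_cast hM
  have hN1 : 1 ≤ y ^ M := one_le_pow₀ hy1
  have hB1 : 1 ≤ M * y := by nlinarith
  have hP := dp_Pj (A := M) (M := M) hT h
  rw [← hy] at hP
  have hK := KK_ge_one (M := M) h
  have h1 : DP ((y ^ M) ^ ll M J j) (Real.exp a * (M * y) ^ ll M J j)
      (fun f => if j ∈ g then Ntr (ll M J j) α (Pj M (Sj T M J j) f) else 1) := by
    split_ifs
    · exact dp_Ntrg ha hN1 hB1 hP hα _
    · have := dp_const 1
      rw [norm_one] at this
      refine this.mono (one_le_pow₀ hN1) ?_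
      exact one_le_mul_of_one_le_of_one_le (Real.one_le_exp ha) (one_le_pow₀ hB1)
  have h2 : DP ((y ^ M) ^ rr M J j) ((M * y) ^ rr M J j)
      (fun f => if j ∈ h' then (Pj M (Sj T M J j) f / (KK M J j : ℂ)) ^ (rr M J j) else 1) := by
    split_ifs
    · refine (DP.pow (DP.scale hP (c := ((KK M J j : ℝ) : ℂ)⁻¹) ?_) _).congr fun f _ => by
        rw [div_eq_mul_inv]; ring
      rw [norm_inv, norm_real, Real.norm_eq_abs, abs_of_nonneg (by linarith)]
      exact inv_le_one_of_one_le₀ hK
    · have := dp_const 1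
      rw [norm_one] at this
      exact this.mono (one_le_pow₀ hN1) (one_le_pow₀ hB1)
  have h3 := h1.mul h2
  refine h3.mono (le_of_eq ?_) (le_of_eq ?_)
  · rw [← pow_add]
  · rw [pow_add]; ring

/-- Lengths of our Dirichlet polynomials, arbitrarily small exponent. -/
theorem dp_AAg {a : ℝ} (ha : 0 ≤ a) {ε : ℝ} (hε : 0 < ε) : ∃ M₀ : ℕ, ∀ M : ℕ, M₀ ≤ M →
    ∃ T₀ : ℝ, ∀ T, T₀ ≤ T → ∀ α : ℝ, |α| ≤ a → ∀ g h : Finset ℕ, DP (T ^ ε) (T ^ ε) (AA T M (JJ T) α g h) := by
  obtain ⟨M₀, hM₀, hM₀'⟩ := M_bound2 hε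
  refine ⟨M₀, fun M hM => ?_⟩
  have hMb := hM₀' M hM
  have hM1 : (100 : ℝ) ≤ M := by exact_mod_cast hM₀.trans hM
  set D : ℝ := (2 / ε) * (a + 12 * Real.log M * Real.exp (3 / 4 * M)) with hD
  have hev : ∀ᶠ T : ℝ in atTop, 3 ≤ T ∧ 1 ≤ Real.log T ∧ 1 ≤ Real.log (Real.log T) ∧
      D * ((4 * Real.log (Real.log (Real.log T)) + 1) *
      Real.exp (3 / 4 * (4 * Real.log (Real.log (Real.log T))))) ≤ Real.log T := by
    have h1 : Tendsto (fun T : ℝ => Real.log (Real.log T)) atTop atTop :=
      Real.tendsto_log_atTop.comp Real.tendsto_log_atTop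
    filter_upwards [eventually_ge_atTop 3, Real.tendsto_log_atTop.eventually_ge_atTop 1,
      h1.eventually_ge_atTop 1, eventually_small D] with T a b c d
    exact ⟨a, b, c, d⟩
  obtain ⟨T₀, hT₀⟩ := eventually_atTop.1 hev
  refine ⟨T₀, fun T hT α hα g h => ?_⟩
  obtain ⟨hT3, hL1, hb1, hsm⟩ := hT₀ T hT
  have hT0 : 0 < T := by linarith
  have hT1 : 1 < T := by linarith
  set L := Real.log T with hL
  set b := Real.log (Real.log T) with hb
  set J := JJ T with hJ
  have hJle : (J : ℝ) ≤ 4 * Real.log b := by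
    rw [hJ, JJ]
    exact Nat.floor_le (mul_nonneg (by norm_num) (Real.log_nonneg hb1))
  have hlogM : 0 ≤ Real.log M := Real.log_nonneg (by linarith)
  have hM1' : 1 ≤ M := by
    have : (1 : ℝ) ≤ M := by linarith
    exact_mod_cast this
  have key := dp_prod (Finset.range (J + 1)) (fun j hj => dp_Fcg ha (M := M) (J := J) hT1 hM1'
    (show j ≤ J by rw [Finset.mem_range] at hj; omega) hα g h)
  have hexpM : 0 < Real.exp (-(M : ℝ) / 4) := Real.exp_pos _
  refine key.mono ?_ ?_
  · -- length
    have e1 : ∏ j ∈ Finset.range (J + 1),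
        (Real.exp (bet M J j * L) ^ M) ^ (ll M J j + rr M J j) =
        Real.exp (∑ j ∈ Finset.range (J + 1),
          bet M J j * L * M * ((ll M J j + rr M J j : ℕ) : ℝ)) := by
      rw [Real.exp_sum]
      refine Finset.prod_congr rfl fun j _ => ?_
      rw [← pow_mul, ← Real.exp_nat_mul]
      congr 1
      push_cast
      ring
    rw [e1, Real.rpow_def_of_pos hT0]
    apply Real.exp_le_exp.2
    calc ∑ j ∈ Finset.range (J + 1), bet M J j * L * M * ((ll M J j + rr M J j : ℕ) : ℝ)
        ≤ ∑ j ∈ Finset.range (J + 1), (12 * L * M) * (bet M J j * KK M J j) := by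
          refine Finset.sum_le_sum fun j hj => ?_
          have h1 := lr_le (M := M) (show j ≤ J by rw [Finset.mem_range] at hj; omega)
          have h2 : 0 ≤ bet M J j * L * M := by
            have := (bet_pos M J j).le
            positivity
          calc bet M J j * L * M * ((ll M J j + rr M J j : ℕ) : ℝ)
              ≤ bet M J j * L * M * (12 * KK M J j) := mul_le_mul_of_nonneg_left h1 h2
            _ = _ := by ring
      _ = (12 * L * M) * ∑ j ∈ Finset.range (J + 1), bet M J j * KK M J j := by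
          rw [Finset.mul_sum]
      _ ≤ (12 * L * M) * (5 * Real.exp (-(M : ℝ) / 4)) := by
          gcongr
          exact sum_bet_KK M J
      _ = L * (60 * M * Real.exp (-(M : ℝ) / 4)) := by ring
      _ ≤ L * ε := by
          gcongr
          linarith
  · -- norm
    have hM0 : (0 : ℝ) < M := by linarith
    have e1 : ∏ j ∈ Finset.range (J + 1),
        (Real.exp a * (M * Real.exp (bet M J j * L)) ^ (ll M J j + rr M J j)) =
        Real.exp (∑ j ∈ Finset.range (J + 1),
          (a + (Real.log M + bet M J j * L) * ((ll M J j + rr M J j : ℕ) : ℝ))) := by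
      rw [Real.exp_sum]
      refine Finset.prod_congr rfl fun j _ => ?_
      rw [Real.exp_add]
      congr 1
      rw [mul_comm (Real.log M + bet M J j * L), Real.exp_nat_mul, Real.exp_add,
        Real.exp_log hM0]
    rw [e1, Real.rpow_def_of_pos hT0]
    apply Real.exp_le_exp.2
    calc ∑ j ∈ Finset.range (J + 1),
          (a + (Real.log M + bet M J j * L) * ((ll M J j + rr M J j : ℕ) : ℝ))
        ≤ ∑ j ∈ Finset.range (J + 1),
          (a + (12 * Real.log M) * KK M J j + (12 * L) * (bet M J j * KK M J j)) := by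
          refine Finset.sum_le_sum fun j hj => ?_
          have h1 := lr_le (M := M) (show j ≤ J by rw [Finset.mem_range] at hj; omega)
          have h2 : 0 ≤ Real.log M + bet M J j * L := by
            have := (bet_pos M J j).le
            positivity
          have h3 := mul_le_mul_of_nonneg_left h1 h2
          linarith
      _ = (J + 1) * a + (12 * Real.log M) * ∑ j ∈ Finset.range (J + 1), KK M J j +
          (12 * L) * ∑ j ∈ Finset.range (J + 1), bet M J j * KK M J j := by
          rw [Finset.sum_add_distrib, Finset.sum_add_distrib, ← Finset.mul_sum, ← Finset.mul_sum]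
          simp
      _ ≤ (J + 1) * a + (12 * Real.log M) * ((J + 1) * Real.exp (3 / 4 * ((M : ℝ) + J))) +
          (12 * L) * (5 * Real.exp (-(M : ℝ) / 4)) := by
          have h1 := sum_KK M J
          have h2 := sum_bet_KK M J
          gcongr
      _ ≤ (4 * Real.log b + 1) * a + (12 * Real.log M) * ((4 * Real.log b + 1) *
          (Real.exp (3 / 4 * M) * Real.exp (3 / 4 * (4 * Real.log b)))) + L * (ε / 2) := by
          have h3 : Real.exp (3 / 4 * ((M : ℝ) + J)) ≤
              Real.exp (3 / 4 * M) * Real.exp (3 / 4 * (4 * Real.log b)) := by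
            rw [← Real.exp_add]
            apply Real.exp_le_exp.2
            linarith
          have h4 : (12 * L) * (5 * Real.exp (-(M : ℝ) / 4)) ≤ L * (ε / 2) := by
            have h5 : Real.exp (-(M : ℝ) / 4) ≤ M * Real.exp (-(M : ℝ) / 4) := by
              nlinarith
            have h6 : 60 * Real.exp (-(M : ℝ) / 4) ≤ ε / 2 := by nlinarith
            have h7 : 0 ≤ L := by linarith
            nlinarith
          have h8 : 0 ≤ 12 * Real.log M := by positivity
          have h9 : 0 ≤ 4 * Real.log b + 1 := by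
            have := Real.log_nonneg hb1; linarith
          gcongr
      _ ≤ L * (ε / 2) + L * (ε / 2) := by
          have h9 : 0 ≤ 4 * Real.log b + 1 := by
            have := Real.log_nonneg hb1; linarith
          have h10 : 1 ≤ Real.exp (3 / 4 * (4 * Real.log b)) := by
            apply Real.one_le_exp
            have := Real.log_nonneg hb1
            positivity
          have h11 : (4 * Real.log b + 1) * a ≤
              (4 * Real.log b + 1) * (a * Real.exp (3 / 4 * (4 * Real.log b))) := by
            gcongr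
            exact le_mul_of_one_le_right ha h10
          have h12 : (4 * Real.log b + 1) * a + (12 * Real.log M) * ((4 * Real.log b + 1) *
              (Real.exp (3 / 4 * M) * Real.exp (3 / 4 * (4 * Real.log b)))) ≤
              (ε / 2) * (D * ((4 * Real.log b + 1) * Real.exp (3 / 4 * (4 * Real.log b)))) := by
            calc _ ≤ (4 * Real.log b + 1) * (a * Real.exp (3 / 4 * (4 * Real.log b))) +
                (12 * Real.log M) * ((4 * Real.log b + 1) *
              (Real.exp (3 / 4 * M) * Real.exp (3 / 4 * (4 * Real.log b)))) := by linarith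
              _ = _ := by
                rw [hD]
                field_simp
          have h13 : (ε / 2) * (D * ((4 * Real.log b + 1) * Real.exp (3 / 4 * (4 * Real.log b))))
              ≤ (ε / 2) * L := by gcongr
          linarith
      _ = L * ε := by ring

end Shortg

theorem stShortg : StShortg := by
  intro A θ hθ
  obtain ⟨M₀, hM₀⟩ := Shortg.dp_AAg (abs_nonneg A) hθ
  refine ⟨M₀, fun M hM => ?_⟩
  obtain ⟨T₀, hT₀⟩ := hM₀ M hM
  refine ⟨max T₀ 3, le_max_right _ _, fun T hT α hα g h => ?_⟩
  exact hT₀ T ((le_max_left _ _).trans hT) α (hα.trans (le_abs_self A)) g h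

end K10
end Pool.Agent.Lib.MP_973905_nt
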