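import Pool.Agent.Lib.MP_973905_nt.K10.Stmts
import Pool.Agent.Lib.MP_973905_nt.K1.Averages

/-! Module (V7): the side without zeta on `[0, T]`: `stSideV10` (compare `K8.stSideV`). -/

namespace Pool.Agent.Lib.MP_973905_nt
namespace K10

open MeasureTheory ProbabilityTheory Complex Filter Topology K1 K4 K5
open K8 (Cfg pe rk tk GW VT nb LG aZ aV rhoZ rho8 ETz SB8 BB8 lam8)

namespace SideV10Aux

/-- the limit of the product over the top blocks -/
lemma prod_lim {κ : ℝ} (ht : StTop10) (h1 : 1 ≤ κ) {M : ℕ} {C : Cfg}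
    (hC : Adm κ M C) :
    Tendsto (fun T : ℝ => ∏ i ∈ Finset.range C.N,
      ES (C.U T i) (fun f => VT κ C T i (tw (1 / 2) f))) atTop
      (𝓝 (∏ i ∈ Finset.range C.N, aV κ C i)) := by
  refine tendsto_finsetProd _ fun i hi => ?_
  have hi' := Finset.mem_range.mp hi
  rw [Metric.tendsto_atTop]
  intro ε hε
  obtain ⟨T₀, -, h⟩ := ht κ h1 M C hC i hi' (ε / 2) (by positivity)
  refine ⟨T₀, fun T hT => ?_⟩
  rw [Real.dist_eq]
  exact ((h T hT).2).trans_lt (by linarith)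

/-- the main term tends to infinity -/
lemma main_top {a k : ℝ} (ha : 0 < a) (hk : 0 < k) (M : ℕ) :
    Tendsto (fun T : ℝ => a * lM T M ^ k) atTop atTop := by
  refine Tendsto.const_mul_atTop ha ?_
  refine (tendsto_rpow_atTop hk).comp ?_
  unfold lM
  exact Tendsto.const_mul_atTop (Real.exp_pos _) Real.tendsto_log_atTop

/-- the numbers at the end -/
lemma num {x X D I η : ℝ} (hx0 : 0 < x) (hx : x ≤ 1 / 8) (hxη : 8 * x ≤ η) (hX : 0 ≤ X)
    (hD : D = (1 + x) * (1 + x) * X + x * X) (hI : I ≤ D + x * D) : I ≤ (1 + η) * X := by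
  have e1 : D + x * D = (1 + 4 * x + 4 * x ^ 2 + x ^ 3) * X := by rw [hD]; ring
  have e2 : 1 + 4 * x + 4 * x ^ 2 + x ^ 3 ≤ 1 + η := by
    have h1 : x ^ 2 ≤ 1 / 8 * x := by nlinarith
    have h2 : x ^ 3 ≤ 1 / 8 * x := by nlinarith [sq_nonneg x]
    linarith
  rw [e1] at hI
  exact hI.trans (mul_le_mul_of_nonneg_right e2 hX)

end SideV10Aux

open SideV10Aux in
theorem stSideV10 (hm : StMeanV10) (hb : StBotV10) (ht : StTop10) (hc : StCont10)
    (hr : StRho10) (hA : StAKg) : StSideV10 := by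
  intro κ h1 η hη
  have h0 : 0 < κ := by linarith
  obtain ⟨Ca, T₁, hCa, hT₁, ha⟩ := stAvgUp
  set x : ℝ := min η 1 / 8 with hxdef
  have hmin : 0 < min η 1 := lt_min hη one_pos
  have hx0 : 0 < x := by positivity
  have hx8 : x ≤ 1 / 8 := by
    have := min_le_right η 1
    rw [hxdef]
    linarith
  have hxη : 8 * x ≤ η := by
    have := min_le_left η 1
    rw [hxdef]
    linarith
  obtain ⟨M₁, hm⟩ := hm κ h1
  obtain ⟨M₂, hb⟩ := hb κ h1 x hx0
  obtain ⟨M₃, hc⟩ := hc κ h1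
  obtain ⟨_, -, hr⟩ := hr κ h1
  have hak : 0 < aK (1 + κ) := (hA (1 + κ) (by linarith)).1
  refine ⟨max M₁ (max M₂ M₃), fun M hM C hC => ?_⟩
  obtain ⟨T₂, hT₂, hm⟩ := hm M ((le_max_left _ _).trans hM) C hC
  obtain ⟨T₃, hT₃, hb⟩ := hb M (((le_max_left _ _).trans (le_max_right _ _)).trans hM)
  obtain ⟨T₄, hT₄, hc⟩ := hc M (((le_max_right _ _).trans (le_max_right _ _)).trans hM) C hC
  obtain ⟨-, -, haV, -⟩ := hr M C hC
  set PV : ℝ := ∏ i ∈ Finset.range C.N, aV κ C i with hPV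
  have hPV0 : 0 < PV := Finset.prod_pos fun i hi => haV i (Finset.mem_range.mp hi)
  have hk2 : 0 < (1 + κ) ^ 2 := by positivity
  have hev : ∀ᶠ T : ℝ in atTop,
      (∏ i ∈ Finset.range C.N, ES (C.U T i) (fun f => VT κ C T i (tw (1 / 2) f))) ≤
        (1 + x) * PV ∧
      0 ≤ (∏ i ∈ Finset.range C.N, ES (C.U T i) (fun f => VT κ C T i (tw (1 / 2) f))) ∧
      1 ≤ Real.log T ∧ 2 * Ca / x ≤ Real.log T ∧
      x⁻¹ ≤ aK (1 + κ) * PV * lM T M ^ ((1 + κ) ^ 2) := by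
    have e1 : ∀ᶠ T : ℝ in atTop,
        (∏ i ∈ Finset.range C.N, ES (C.U T i) (fun f => VT κ C T i (tw (1 / 2) f))) <
          (1 + x) * PV :=
      (prod_lim ht h1 hC).eventually_lt_const (by nlinarith)
    have e0 : ∀ᶠ T : ℝ in atTop,
        0 < (∏ i ∈ Finset.range C.N, ES (C.U T i) (fun f => VT κ C T i (tw (1 / 2) f))) :=
      (prod_lim ht h1 hC).eventually_const_lt hPV0
    have e2 := Real.tendsto_log_atTop.eventually_ge_atTop 1
    have e3 := Real.tendsto_log_atTop.eventually_ge_atTop (2 * Ca / x)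
    have e4 := (main_top (mul_pos hak hPV0) hk2 M).eventually_ge_atTop x⁻¹
    filter_upwards [e1, e0, e2, e3, e4] with T a a0 b c d
    exact ⟨a.le, a0.le, b, c, d⟩
  obtain ⟨T₅, hT₅⟩ := hev.exists_forall_of_atTop
  refine ⟨max T₁ (max (max T₂ T₃) (max T₄ T₅)), hT₁.trans (le_max_left _ _), fun T hT => ?_⟩
  have hTT₁ : T₁ ≤ T := (le_max_left _ _).trans hT
  have hT' := (le_max_right _ _).trans hT
  have hTT₂ : T₂ ≤ T := ((le_max_left _ _).trans (le_max_left _ _)).trans hT'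
  have hTT₃ : T₃ ≤ T := ((le_max_right _ _).trans (le_max_left _ _)).trans hT'
  have hTT₄ : T₄ ≤ T := ((le_max_left _ _).trans (le_max_right _ _)).trans hT'
  have hTT₅ : T₅ ≤ T := ((le_max_right _ _).trans (le_max_right _ _)).trans hT'
  have hT3 : 3 ≤ T := hT₁.trans hTT₁
  have hT0 : 0 < T := by linarith
  have hTone : 1 ≤ T := by linarith
  obtain ⟨hP, hP0, hL1, hLC, hXx⟩ := hT₅ T hTT₅
  have hL0 : 0 < Real.log T := by linarith
  obtain ⟨-, -, cV, nV, bV⟩ := hc T hTT₄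
  have hlM0 : 0 < lM T M := by
    unfold lM
    exact mul_pos (Real.exp_pos _) hL0
  have hlk : 0 < lM T M ^ ((1 + κ) ^ 2) := Real.rpow_pos_of_pos hlM0 _
  set X : ℝ := aK (1 + κ) * lM T M ^ ((1 + κ) ^ 2) * PV with hXdef
  have hX0 : 0 < X := by positivity
  have hX1 : x⁻¹ ≤ X := by
    rw [hXdef]
    calc x⁻¹ ≤ aK (1 + κ) * PV * lM T M ^ ((1 + κ) ^ 2) := hXx
      _ = _ := by ring
  have hxX : 1 ≤ x * X := by
    rw [inv_le_iff_one_le_mul₀ hx0] at hX1
    linarith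
  set D : ℝ := (1 + x) * (1 + x) * X + x * X with hD
  have hD1 : 1 ≤ D := by
    have : 0 ≤ (1 + x) * (1 + x) * X := by positivity
    rw [hD]
    linarith
  have hmean : ∀ τ : ℝ, EG T τ (fun t => VV10 κ C T M (fs (1 / 2 + t * I))) ≤ D := by
    intro τ
    refine (hm T hTT₂ τ).trans ?_
    have e1 := hb T hTT₃
    have e2 : T ^ (-10 : ℝ) ≤ x * X := by
      refine le_trans ?_ hxX
      exact Real.rpow_le_one_of_one_le_of_nonpos hTone (by norm_num)
    have e4 : 0 ≤ (1 + x) * (aK (1 + κ) * lM T M ^ ((1 + κ) ^ 2)) := by positivity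
    have e5 := mul_le_mul e1 hP hP0 e4
    rw [hD]
    calc _ ≤ (1 + x) * (aK (1 + κ) * lM T M ^ ((1 + κ) ^ 2)) * ((1 + x) * PV) + x * X :=
          add_le_add e5 e2
      _ = _ := by rw [hXdef]; ring
  have hmain := ha T hTT₁ (fun t => VV10 κ C T M (fs (1 / 2 + t * I))) cV (fun t => nV _)
    (fun t => (bV t).trans (by
      have e1 : T ^ 2 ≤ T ^ 4 := pow_le_pow_right₀ hTone (by norm_num)
      have e2 : 1 ≤ (1 + |t|) ^ 4 := one_le_pow₀ (by linarith [abs_nonneg t])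
      calc T ^ 2 ≤ T ^ 4 := e1
        _ ≤ T ^ 4 * (1 + |t|) ^ 4 := le_mul_of_one_le_right (by positivity) e2))
    D D (by linarith) hD1 (fun τ _ _ => hmean τ) (fun τ _ => hmean τ)
  have hI : T⁻¹ * ∫ t in (0 : ℝ)..T, VV10 κ C T M (fs (1 / 2 + t * I)) ≤ D + x * D := by
    refine hmain.trans ?_
    have e1 : Ca * (D + D) / Real.log T ≤ x * D := by
      rw [div_le_iff₀ hx0] at hLC
      rw [div_le_iff₀ hL0]
      calc Ca * (D + D) = (2 * Ca) * D := by ring
        _ ≤ (Real.log T * x) * D := by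
            apply mul_le_mul_of_nonneg_right hLC (by linarith)
        _ = _ := by ring
    linarith
  exact num hx0 hx8 hxη hX0.le hD hI

end K10
end Pool.Agent.Lib.MP_973905_nt
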