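import Pool.Agent.Lib.MP_973905_nt.K10.Stmts
import Pool.Agent.Lib.MP_973905_nt.Holder

/-! Module (Z9): the side of zeta on `[0, T]`: `stSideZ`. -/

namespace Pool.Agent.Lib.MP_973905_nt
namespace K10

open MeasureTheory ProbabilityTheory Complex Filter Topology K1 K4 K5
open K8 (Cfg pe rk tk GW VT nb LG aZ aV rhoZ rho8 ETz SB8 BB8 lam8)

namespace SideZ10Aux

lemma zcont : Continuous fun t : ℝ => riemannZeta (1 / 2 + t * I) := by
  have h := continuous_zeta_line (σ := 1 / 2) (by norm_num)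
  have e : ((1 / 2 : ℝ) : ℂ) = 1 / 2 := by push_cast; ring
  simpa only [e] using h

lemma zbd : ∃ C : ℝ, 0 < C ∧ ∀ t : ℝ, ‖riemannZeta (1 / 2 + t * I)‖ ^ 2 ≤ C * (1 + |t|) ^ 4 := by
  obtain ⟨C, hC, h⟩ := zeta_poly
  refine ⟨C ^ 2, by positivity, fun t => ?_⟩
  have h1 := h (1 / 2) t le_rfl (by norm_num)
  have e : ((1 / 2 : ℝ) : ℂ) = 1 / 2 := by push_cast; ring
  rw [e] at h1
  calc ‖riemannZeta (1 / 2 + t * I)‖ ^ 2 ≤ (C * (1 + |t|) ^ 2) ^ 2 := by gcongr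
    _ = _ := by ring

end SideZ10Aux

open SideZ10Aux in
theorem stSideZ10 (hs : StSec10) (ha : K8.StAvL) (hc : StCont10) (hr : StRho10) (hA : StAKg) :
    StSideZ10 := by
  intro κ hk1 η hη
  have hk0 : 0 < κ := by linarith
  obtain ⟨Cz, hCz, hz⟩ := zbd
  obtain ⟨Ca, T₀, hCa, hT₀, ha⟩ := ha
  obtain ⟨Kr, -, hr⟩ := hr κ hk1
  have haK : 0 < aK (1 + κ) := (hA (1 + κ) (by linarith)).1
  have hk2 : 0 ≤ (1 + κ) ^ 2 - 1 := by nlinarith
  set η' : ℝ := min (η / 2) (1 / 20) with hη'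
  have hη'0 : 0 < η' := lt_min (by positivity) (by norm_num)
  have hη'1 : η' ≤ η / 2 := min_le_left _ _
  have hη'2 : η' ≤ 1 / 20 := min_le_right _ _
  obtain ⟨M₁, hs⟩ := hs κ hk1 η' hη'0
  obtain ⟨M₂, hc⟩ := hc κ hk1
  refine ⟨max M₁ M₂, fun M hM C hC => ?_⟩
  obtain ⟨T₁, hT₁, hs⟩ := hs M ((le_max_left _ _).trans hM) C hC
  obtain ⟨T₂, hT₂, hc⟩ := hc M ((le_max_right _ _).trans hM) C hC
  obtain ⟨-, haZ, -, hrho0, -, -, -⟩ := hr M C hC
  have hrho1 : rho8 C ≤ 9 / 10 := hC.hrho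
  set PA : ℝ := ∏ i ∈ Finset.range C.N, aZ C i with hPA
  have hPA0 : 0 < PA := Finset.prod_pos fun i hi => haZ i (Finset.mem_range.mp hi)
  have hev : ∀ᶠ T : ℝ in atTop, Real.exp M ≤ Real.log T ∧ 4 * Ca / η ≤ Real.log T ∧
      Cz ≤ T ∧ 1 / (η / 4 * (aK (1 + κ) * PA)) ≤ T := by
    have e1 := Real.tendsto_log_atTop.eventually_ge_atTop (Real.exp M)
    have e2 := Real.tendsto_log_atTop.eventually_ge_atTop (4 * Ca / η)
    filter_upwards [e1, e2, eventually_ge_atTop Cz,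
      eventually_ge_atTop (1 / (η / 4 * (aK (1 + κ) * PA)))] with T a b c d
    exact ⟨a, b, c, d⟩
  obtain ⟨T₃, hT₃⟩ := hev.exists_forall_of_atTop
  refine ⟨max (max T₀ T₁) (max T₂ T₃), (hT₀.trans (le_max_left _ _)).trans (le_max_left _ _),
    fun T hT => ?_⟩
  have hTT₀ : T₀ ≤ T := ((le_max_left _ _).trans (le_max_left _ _)).trans hT
  have hTT₁ : T₁ ≤ T := ((le_max_right _ _).trans (le_max_left _ _)).trans hT
  have hTT₂ : T₂ ≤ T := ((le_max_left _ _).trans (le_max_right _ _)).trans hT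
  have hTT₃ : T₃ ≤ T := ((le_max_right _ _).trans (le_max_right _ _)).trans hT
  obtain ⟨hLM, hL2, hCzT, hTe⟩ := hT₃ T hTT₃
  obtain ⟨hGc, hGb, -, -, -⟩ := hc T hTT₂
  have hT3 : 3 ≤ T := hT₀.trans hTT₀
  have hT0 : 0 < T := by linarith
  have hT1 : 1 ≤ T := by linarith
  set L := Real.log T with hLdef
  have hL1 : 1 ≤ L := (Real.one_le_exp (Nat.cast_nonneg M)).trans hLM
  have hL0 : 0 < L := by linarith
  have hlM1 : 1 ≤ lM T M := by
    rw [lM]
    calc (1 : ℝ) = Real.exp (-M) * Real.exp M := by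
          rw [← Real.exp_add, neg_add_cancel, Real.exp_zero]
      _ ≤ Real.exp (Real.eulerMascheroniConstant - M) * L := by
          apply mul_le_mul _ hLM (Real.exp_nonneg _) (Real.exp_nonneg _)
          have := Real.one_half_lt_eulerMascheroniConstant
          exact Real.exp_le_exp.2 (by linarith)
  have hP1 : 1 ≤ lM T M ^ ((1 + κ) ^ 2 - 1) := Real.one_le_rpow hlM1 hk2
  set X : ℝ := aK (1 + κ) * lM T M ^ ((1 + κ) ^ 2 - 1) * L * PA with hX
  have hXc : aK (1 + κ) * PA ≤ X := by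
    have e1 : 1 ≤ lM T M ^ ((1 + κ) ^ 2 - 1) * L := by
      calc (1 : ℝ) = 1 * 1 := by ring
        _ ≤ _ := mul_le_mul hP1 hL1 zero_le_one (by linarith)
    calc aK (1 + κ) * PA = (aK (1 + κ) * PA) * 1 := by ring
      _ ≤ (aK (1 + κ) * PA) * (lM T M ^ ((1 + κ) ^ 2 - 1) * L) := by gcongr
      _ = X := by rw [hX]; ring
  have hX0 : 0 < X := lt_of_lt_of_le (by positivity) hXc
  have hFc : Continuous fun t : ℝ => ‖riemannZeta (1 / 2 + t * I)‖ ^ 2 *
      ‖GW κ C T M (fs (1 / 2 + t * I))‖ ^ 2 := (zcont.norm.pow 2).mul (hGc.norm.pow 2)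
  have hFb : ∀ t : ℝ, ‖riemannZeta (1 / 2 + t * I)‖ ^ 2 *
      ‖GW κ C T M (fs (1 / 2 + t * I))‖ ^ 2 ≤ T ^ 6 * (1 + |t|) ^ 6 := by
    intro t
    have h1t : 1 ≤ 1 + |t| := by
      have := abs_nonneg t
      linarith
    calc ‖riemannZeta (1 / 2 + t * I)‖ ^ 2 * ‖GW κ C T M (fs (1 / 2 + t * I))‖ ^ 2 ≤
        (Cz * (1 + |t|) ^ 4) * T ^ 2 := by
          apply mul_le_mul (hz t) _ (by positivity) (by positivity)
          have := hGb t
          gcongr
      _ ≤ (T * (1 + |t|) ^ 4) * T ^ 2 := by gcongr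
      _ = T ^ 3 * (1 + |t|) ^ 4 := by ring
      _ ≤ T ^ 6 * (1 + |t|) ^ 6 := by
          apply mul_le_mul (pow_le_pow_right₀ hT1 (by norm_num))
            (pow_le_pow_right₀ h1t (by norm_num)) (by positivity) (by positivity)
  have hpos : 0 ≤ 1 - rho8 C - η' := by linarith
  have hmain := ha T hTT₀ (fun t => ‖riemannZeta (1 / 2 + t * I)‖ ^ 2 *
      ‖GW κ C T M (fs (1 / 2 + t * I))‖ ^ 2) hFc (fun t => by positivity) hFb
      (X * (1 - rho8 C - η')) (mul_nonneg hX0.le hpos) (fun τ h1 h2 => hs T hTT₁ τ h1 h2)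
  have e1 : Ca / L * (1 - rho8 C - η') ≤ η / 4 := by
    have h1 : Ca / L ≤ η / 4 := by
      rw [div_le_iff₀ hη] at hL2
      rw [div_le_iff₀ hL0]
      linarith
    have h2 : 0 ≤ Ca / L := by positivity
    calc Ca / L * (1 - rho8 C - η') ≤ Ca / L * 1 := by
          apply mul_le_mul_of_nonneg_left _ h2
          linarith
      _ ≤ η / 4 := by rw [mul_one]; exact h1
  have e2 : 1 / T ≤ η / 4 * X := by
    have h0 : 0 < η / 4 * (aK (1 + κ) * PA) := by positivity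
    have h1 : 1 / T ≤ η / 4 * (aK (1 + κ) * PA) := by
      rw [div_le_iff₀ h0] at hTe
      rw [div_le_iff₀ hT0]
      linarith
    exact h1.trans (by gcongr)
  have e3 : X * (Ca / L * (1 - rho8 C - η')) ≤ X * (η / 4) := by gcongr
  have e4 : (1 - Ca / L) * (X * (1 - rho8 C - η')) =
      X * (1 - rho8 C - η') - X * (Ca / L * (1 - rho8 C - η')) := by ring
  have e5 : X * η' ≤ X * (η / 2) := by gcongr
  have e6 : X * (1 - rho8 C - η) = X * (1 - rho8 C - η') + X * η' - X * η := by ring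
  rw [e4] at hmain
  rw [e6]
  linarith

end K10
end Pool.Agent.Lib.MP_973905_nt
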