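import Pool.Agent.Lib.MP_973905_nt.K10.Base
import Pool.Agent.Lib.MP_973905_nt.K5.TopLim

set_option autoImplicit false

/-! Module (Z2) of K10: the limits of the factors of the top blocks. -/

namespace Pool.Agent.Lib.MP_973905_nt
namespace K10

open MeasureTheory ProbabilityTheory Complex Filter Topology K1 K4 K5
open K8 (Cfg pe rk tk GW VT nb LG aZ aV rhoZ rho8 ETz SB8 BB8 lam8)

namespace Top10Aux

/-- the power of the norm of the shifted prime sum -/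
noncomputable def Q (S : Finset ℕ) (c : ℝ) (n : ℕ) (f : ℕ → ℂ) : ℝ :=
  ‖(∑ p ∈ S, tw (1 / 2) f p) + (c : ℂ)‖ ^ (2 * n)

lemma bs_Q (S : Finset ℕ) (c : ℝ) (n : ℕ) : BS S (Q S c n) := by
  obtain ⟨h1, C, h2⟩ := bs_sum (S := S) S (F := fun p f => tw (1 / 2) f p)
    (fun p _ => bs_tw S (1 / 2) p)
  refine ⟨((h1.add continuous_const).norm).pow (2 * n), (C + |c|) ^ (2 * n), fun ω => ?_⟩
  unfold Q
  rw [norm_pow, norm_norm]
  refine pow_le_pow_left₀ (norm_nonneg _) ?_ _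
  refine (norm_add_le _ _).trans (add_le_add (h2 ω) (le_of_eq ?_))
  rw [Complex.norm_real, Real.norm_eq_abs]

/-- the norm of the linear form -/
lemma norm_z {C : Cfg} {T : ℝ} {i : ℕ} (hm : 0 < C.m i) (n : ℕ) (f : ℕ → ℂ) :
    ‖C.z T i (tw (1 / 2) f)‖ ^ (2 * n) = (C.m i ^ (2 * n))⁻¹ * Q (C.U T i) (C.c i) n f := by
  unfold Cfg.z Q
  rw [norm_div, Complex.norm_real, Real.norm_eq_abs, abs_of_pos hm, div_pow]
  rw [div_eq_inv_mul]

end Top10Aux

open Top10Aux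

/-- (Z2) the limits of the top factors (compare `K5.StTopLim`) -/
theorem stTop10 (h : K8.StGaussC) : StTop10 := by
  intro κ hκ1 M C hC i hi ε hε
  have hκ : 0 < κ := by linarith
  have hlo : 0 < C.te (i + 1) := hC.hpos (i + 1) (by omega)
  have hlh : C.te (i + 1) < C.te i := hC.hdec i hi
  have hhi : C.te i ≤ 1 := (Blk10.te_anti hC (Nat.zero_le i) hi.le).trans (Blk10.te_zero_le hC)
  have hm : 0 < C.m i := hC.hm i hi
  have hmD : 0 < C.m i ^ (2 * C.D i) := pow_pos hm _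
  have hmr : 0 < C.m i ^ (2 * rk κ C i) := pow_pos hm _
  have hmr' : 0 < C.m i ^ (2 * (rk κ C i + 1)) := pow_pos hm _
  obtain ⟨T₁, hT₁, h1⟩ := h _ _ (C.c i) hlo hlh hhi (C.D i) (ε * C.m i ^ (2 * C.D i))
    (mul_pos hε hmD)
  obtain ⟨T₂, hT₂, h2⟩ := h _ _ (C.c i) hlo hlh hhi (rk κ C i) (ε * C.m i ^ (2 * rk κ C i))
    (mul_pos hε hmr)
  obtain ⟨T₃, hT₃, h3⟩ := h _ _ (C.c i) hlo hlh hhi (rk κ C i + 1)
    (ε * C.m i ^ (2 * (rk κ C i + 1))) (mul_pos hε hmr')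
  refine ⟨max T₁ (max T₂ T₃), le_trans hT₁ (le_max_left _ _), fun T hT => ?_⟩
  have hTa : T₁ ≤ T := (le_max_left _ _).trans hT
  have hTb : T₂ ≤ T := (le_max_left _ _).trans ((le_max_right _ _).trans hT)
  have hTc : T₃ ≤ T := (le_max_right _ _).trans ((le_max_right _ _).trans hT)
  constructor
  · intro u hu
    have h4 := (h1 T hTa (C.U T i) rfl).1 u hu
    have e1 : ETz C T (u / Real.log T) i = ((C.m i : ℂ) ^ (2 * C.D i))⁻¹ *
        (ES (C.U T i) (fun f => ZZ (C.U T i) (tw (1 / 2 + u / Real.log T) f) *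
        (starRingEnd ℂ) (ZZ (C.U T i) (tw (1 / 2 + (starRingEnd ℂ) (u / Real.log T)) f)) *
        ((‖(∑ p ∈ C.U T i, tw (1 / 2) f p) + (C.c i : ℂ)‖ ^ (2 * C.D i) : ℝ) : ℂ)) *
        ∏ p ∈ C.U T i, (1 - (p : ℂ) ^ (-(1 + u / Real.log T + u / Real.log T)))) := by
      unfold ETz
      rw [← mul_assoc]
      congr 1
      have e2 : ∀ f : ℕ → ℂ, ZZ (C.U T i) (tw (1 / 2 + u / Real.log T) f) *
          (starRingEnd ℂ) (ZZ (C.U T i) (tw (1 / 2 + (starRingEnd ℂ) (u / Real.log T)) f)) *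
          ((‖C.z T i (tw (1 / 2) f)‖ ^ (2 * C.D i) : ℝ) : ℂ) =
          ((C.m i : ℂ) ^ (2 * C.D i))⁻¹ * (ZZ (C.U T i) (tw (1 / 2 + u / Real.log T) f) *
          (starRingEnd ℂ) (ZZ (C.U T i) (tw (1 / 2 + (starRingEnd ℂ) (u / Real.log T)) f)) *
          ((‖(∑ p ∈ C.U T i, tw (1 / 2) f p) + (C.c i : ℂ)‖ ^ (2 * C.D i) : ℝ) : ℂ)) := by
        intro f
        rw [norm_z hm, Q]
        push_cast
        ring
      simp only [e2]
      exact integral_const_mul _ _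
    have e3 : LG (C.D i) (vv (C.te (i + 1)) (C.te i) u + (C.c i : ℂ)) (C.V i : ℂ) /
        (C.m i : ℂ) ^ (2 * C.D i) = ((C.m i : ℂ) ^ (2 * C.D i))⁻¹ *
        LG (C.D i) (vv (C.te (i + 1)) (C.te i) u + (C.c i : ℂ))
          ((Real.log (C.te i / C.te (i + 1)) : ℝ) : ℂ) := by
      rw [div_eq_inv_mul]
      rfl
    rw [e1, e3, ← mul_sub, norm_mul, norm_inv, norm_pow, Complex.norm_real, Real.norm_eq_abs,
      abs_of_pos hm, inv_mul_le_iff₀ hmD, mul_comm (C.m i ^ (2 * C.D i)) ε]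
    exact h4
  · have h4 := (h2 T hTb (C.U T i) rfl).2
    have h5 := (h3 T hTc (C.U T i) rfl).2
    obtain ⟨ht0, ht1⟩ := Blk10.tk_mem (C := C) hκ i
    set t := tk κ C i with ht
    set r := rk κ C i with hr
    have e1 : ∀ f : ℕ → ℂ, VT κ C T i (tw (1 / 2) f) =
        ((1 - t) * (C.m i ^ (2 * r))⁻¹) * Q (C.U T i) (C.c i) r f +
          (t * (C.m i ^ (2 * (r + 1)))⁻¹) * Q (C.U T i) (C.c i) (r + 1) f := by
      intro f
      have e2 : VT κ C T i (tw (1 / 2) f) = (1 - t) * ‖C.z T i (tw (1 / 2) f)‖ ^ (2 * r) +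
          t * ‖C.z T i (tw (1 / 2) f)‖ ^ (2 * (r + 1)) := by
        unfold VT
        rw [← ht, ← hr]
        ring
      rw [e2, norm_z hm, norm_z hm]
      ring
    have e3 : ES (C.U T i) (fun f => VT κ C T i (tw (1 / 2) f)) =
        ((1 - t) * (C.m i ^ (2 * r))⁻¹) * ES (C.U T i) (Q (C.U T i) (C.c i) r) +
          (t * (C.m i ^ (2 * (r + 1)))⁻¹) * ES (C.U T i) (Q (C.U T i) (C.c i) (r + 1)) := by
      simp only [e1]
      have e4 : ES (C.U T i) (fun f => ((1 - t) * (C.m i ^ (2 * r))⁻¹) * Q (C.U T i) (C.c i) r f +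
          (t * (C.m i ^ (2 * (r + 1)))⁻¹) * Q (C.U T i) (C.c i) (r + 1) f) =
          ES (C.U T i) (fun f => ((1 - t) * (C.m i ^ (2 * r))⁻¹) * Q (C.U T i) (C.c i) r f) +
          ES (C.U T i) (fun f => (t * (C.m i ^ (2 * (r + 1)))⁻¹) *
            Q (C.U T i) (C.c i) (r + 1) f) :=
        integral_add ((bs_Q _ _ _).integrable.const_mul _) ((bs_Q _ _ _).integrable.const_mul _)
      rw [e4]
      congr 1
      · exact integral_const_mul _ _
      · exact integral_const_mul _ _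
    have e5 : aV κ C i = ((1 - t) * (C.m i ^ (2 * r))⁻¹) *
        LG r (C.c i) (Real.log (C.te i / C.te (i + 1))) +
          (t * (C.m i ^ (2 * (r + 1)))⁻¹) *
            LG (r + 1) (C.c i) (Real.log (C.te i / C.te (i + 1))) := by
      unfold aV
      rw [← ht, ← hr, div_eq_mul_inv, div_eq_mul_inv]
      change (1 - t) * (LG r (C.c i) (Real.log (C.te i / C.te (i + 1))) * _) +
        t * (LG (r + 1) (C.c i) (Real.log (C.te i / C.te (i + 1))) * _) = _
      ring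
    have e6 : ES (C.U T i) (fun f => VT κ C T i (tw (1 / 2) f)) - aV κ C i =
        (1 - t) * ((C.m i ^ (2 * r))⁻¹ * (ES (C.U T i) (Q (C.U T i) (C.c i) r) -
          LG r (C.c i) (Real.log (C.te i / C.te (i + 1))))) +
        t * ((C.m i ^ (2 * (r + 1)))⁻¹ * (ES (C.U T i) (Q (C.U T i) (C.c i) (r + 1)) -
          LG (r + 1) (C.c i) (Real.log (C.te i / C.te (i + 1))))) := by
      rw [e3, e5]; ring
    have b1 : |(C.m i ^ (2 * r))⁻¹ * (ES (C.U T i) (Q (C.U T i) (C.c i) r) -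
          LG r (C.c i) (Real.log (C.te i / C.te (i + 1))))| ≤ ε := by
      rw [abs_mul, abs_inv, abs_of_pos hmr, inv_mul_le_iff₀ hmr,
        mul_comm (C.m i ^ (2 * r)) ε]
      exact h4
    have b2 : |(C.m i ^ (2 * (r + 1)))⁻¹ * (ES (C.U T i) (Q (C.U T i) (C.c i) (r + 1)) -
          LG (r + 1) (C.c i) (Real.log (C.te i / C.te (i + 1))))| ≤ ε := by
      rw [abs_mul, abs_inv, abs_of_pos hmr', inv_mul_le_iff₀ hmr',
        mul_comm (C.m i ^ (2 * (r + 1))) ε]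
      exact h5
    rw [e6]
    refine (abs_add_le _ _).trans ?_
    rw [abs_mul (1 - t), abs_mul t, abs_of_nonneg ht0,
      abs_of_nonneg (by linarith : (0 : ℝ) ≤ 1 - t)]
    calc _ ≤ (1 - t) * ε + t * ε := add_le_add
          (mul_le_mul_of_nonneg_left b1 (by linarith)) (mul_le_mul_of_nonneg_left b2 ht0)
      _ = ε := by ring

end K10
end Pool.Agent.Lib.MP_973905_nt
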