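import Pool.Agent.Lib.MP_973905_nt.K5.AllK5
import Pool.Agent.Lib.MP_973905_nt.K8.AllK8
import Pool.Agent.Lib.MP_973905_nt.K9.CrudeD
import Pool.Agent.Lib.MP_973905_nt.K10.AKg
import Pool.Agent.Lib.MP_973905_nt.K10.Adm10
import Pool.Agent.Lib.MP_973905_nt.K10.Ah10
import Pool.Agent.Lib.MP_973905_nt.K10.BQ10
import Pool.Agent.Lib.MP_973905_nt.K10.BadN10
import Pool.Agent.Lib.MP_973905_nt.K10.Bh10
import Pool.Agent.Lib.MP_973905_nt.K10.BlkNg
import Pool.Agent.Lib.MP_973905_nt.K10.Blkg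
import Pool.Agent.Lib.MP_973905_nt.K10.BotV10
import Pool.Agent.Lib.MP_973905_nt.K10.Botg
import Pool.Agent.Lib.MP_973905_nt.K10.Cont10
import Pool.Agent.Lib.MP_973905_nt.K10.Fact10
import Pool.Agent.Lib.MP_973905_nt.K10.Gu10
import Pool.Agent.Lib.MP_973905_nt.K10.Hold10
import Pool.Agent.Lib.MP_973905_nt.K10.LFg
import Pool.Agent.Lib.MP_973905_nt.K10.Lam10
import Pool.Agent.Lib.MP_973905_nt.K10.Len10
import Pool.Agent.Lib.MP_973905_nt.K10.MeanV10
import Pool.Agent.Lib.MP_973905_nt.K10.Num10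
import Pool.Agent.Lib.MP_973905_nt.K10.Part10
import Pool.Agent.Lib.MP_973905_nt.K10.Pt10
import Pool.Agent.Lib.MP_973905_nt.K10.PtB10
import Pool.Agent.Lib.MP_973905_nt.K10.Rho10
import Pool.Agent.Lib.MP_973905_nt.K10.Sec10
import Pool.Agent.Lib.MP_973905_nt.K10.Shortg
import Pool.Agent.Lib.MP_973905_nt.K10.SideV10
import Pool.Agent.Lib.MP_973905_nt.K10.SideZ10
import Pool.Agent.Lib.MP_973905_nt.K10.Top10
import Pool.Agent.Lib.MP_973905_nt.K10.Plan10

/-! Assembly of the lower bound with explicit constants for all orders `k ≥ 2`. -/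

namespace Pool.Agent.Lib.MP_973905_nt.K10

/-- The lower bound for every order `k ≥ 2`. -/
theorem final10 : StFinal10 := by
  have l1 : K5.StHalf := K5.stHalf K5.stRect K5.stStripH (K5.stFE K1.stFFpair (K5.stM4 F4.stCr4_all))
  have l2 : K5.StLong := K5.stLong l1 K5.stMove K5.stPairA (K5.stBack K5.stRect) K5.stMS
  exact plan10 K5.stMertens l2 (K8.stGaussC K5.stPrimeInt) K8.stFock K8.stAvL K9.stCrudeD
    stAKg stLFg stBlkg stBotg stBlkNg stShortg stTop10 stRho10 stFact10 stBQ10 stSec10 stLen10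
    stCont10 stSideZ10 stPtB10 stPt10 stBadN10 stBotV10 stMeanV10 stSideV10 stHold10
    stAh10 stPart10 stBh10 stAdm10 stLam10 stGu10 stNum10

end Pool.Agent.Lib.MP_973905_nt.K10
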