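import Pool.Agent.Lib.MP_973905_nt.K10.Stmts
import Pool.Agent.Lib.MP_973905_nt.K1R.BlockShift
import Pool.Agent.Lib.MP_973905_nt.K5.BotMain

/-! Module (B2) of K10: one block with shifts, `1 ≤ k ≤ K₁`. -/

namespace Pool.Agent.Lib.MP_973905_nt
namespace K10

open MeasureTheory ProbabilityTheory Complex Filter Topology K1

namespace BlkgAux

open K1.BlkShift K1R.BlkShiftR

lemma LF_lower2 (h : StLFg) {K : ℝ} (hK : 1 ≤ K) : ∃ B c : ℝ, 0 < B ∧ 0 < c ∧ c ≤ 1 / 60 ∧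
    ∀ (k x : ℝ) (x₁ x₂ : ℂ), 1 ≤ k → k ≤ K → 0 ≤ x → x ≤ 7072 / 10000 → ‖x₁ - x‖ ≤ 105 / 100 * x * c →
    ‖x₂ - x‖ ≤ 105 / 100 * x * c →
    Real.exp (k ^ 2 * x ^ 2 - B * (x * ‖x₁ - x‖ + x * ‖x₂ - x‖ + x ^ 4)) ≤ ‖LF (1 - k) x x₁ x₂‖ := by
  obtain ⟨C', _, h⟩ := h K (by linarith)
  set C : ℝ := |C'| + 1 with hC
  have hC0 : 0 < C := by positivity
  have hCC : C' ≤ C := by rw [hC]; linarith [le_abs_self C']
  refine ⟨6 * C + 5 + 3 * K ^ 4, 1 / (60 * (C + 3)), by positivity, by positivity, ?_,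
    fun k x x₁ x₂ hk0 hk1 hx0 hx h1 h2 => ?_⟩
  · apply one_div_le_one_div_of_le (by norm_num)
    nlinarith
  set ε : ℝ := x * ‖x₁ - x‖ + x * ‖x₂ - x‖ with hε
  have hε0 : 0 ≤ ε := by positivity
  have hxs : x ^ 2 ≤ 5002 / 10000 := by nlinarith
  have hC3 : 0 < C + 3 := by linarith
  have hc1 : (C + 3) * (1 / (60 * (C + 3))) = 1 / 60 := by field_simp
  have hc2 : 1 / (60 * (C + 3)) ≤ 1 / 60 := by
    apply one_div_le_one_div_of_le (by norm_num)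
    nlinarith
  have hs : (C + 3) * ε ≤ 1 / 20 := by
    have e1 : (C + 3) * (x * ‖x₁ - x‖) ≤ x ^ 2 * (105 / 100) * ((C + 3) * (1 / (60 * (C + 3)))) := by
      have : x * ‖x₁ - x‖ ≤ x * (105 / 100 * x * (1 / (60 * (C + 3)))) := by gcongr
      calc (C + 3) * (x * ‖x₁ - x‖) ≤ (C + 3) * (x * (105 / 100 * x * (1 / (60 * (C + 3))))) := by gcongr
        _ = _ := by ring
    have e2 : (C + 3) * (x * ‖x₂ - x‖) ≤ x ^ 2 * (105 / 100) * ((C + 3) * (1 / (60 * (C + 3)))) := by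
      have : x * ‖x₂ - x‖ ≤ x * (105 / 100 * x * (1 / (60 * (C + 3)))) := by gcongr
      calc (C + 3) * (x * ‖x₂ - x‖) ≤ (C + 3) * (x * (105 / 100 * x * (1 / (60 * (C + 3))))) := by gcongr
        _ = _ := by ring
    rw [hc1] at e1 e2
    rw [hε, mul_add]
    nlinarith
  have hd1 : ‖x₁ - x‖ ≤ x / 50 := by
    refine h1.trans ?_
    have : 105 / 100 * x * (1 / (60 * (C + 3))) ≤ 105 / 100 * x * (1 / 60) := by gcongr
    linarith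
  have hd2 : ‖x₂ - x‖ ≤ x / 50 := by
    refine h2.trans ?_
    have : 105 / 100 * x * (1 / (60 * (C + 3))) ≤ 105 / 100 * x * (1 / 60) := by gcongr
    linarith
  have h3 := h (1 - k) x x₁ x₂ (by linarith) (by linarith) hx0 hx hd1 hd2
  rw [K5.BotMainAux.LF_diag (k := k) hx0 (by linarith)] at h3
  have h3' : ‖(1 - x₁ * x₂) * LF (1 - k) x x₁ x₂ - (1 - (x : ℂ) * x) * ((Dl k x : ℝ) : ℂ)‖ ≤ C * ε := by
    refine h3.trans ?_
    have : C' * x * (‖x₁ - x‖ + ‖x₂ - x‖) = C' * ε := by rw [hε]; ring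
    rw [this]
    exact mul_le_mul_of_nonneg_right hCC hε0
  have hDl := Dl_ge (k := k) (x := x) (by linarith) hx0 (by linarith)
  have hm0 : 0 ≤ 1 - x ^ 2 := by linarith
  set m : ℝ := (1 - x ^ 2) * Dl k x with hm
  have hA0 : 0 ≤ k ^ 2 * x ^ 2 := by positivity
  have hm1 : (1 - x ^ 2) * (1 + k ^ 2 * x ^ 2) ≤ m := mul_le_mul_of_nonneg_left hDl hm0
  have hm2 : 4998 / 10000 ≤ m := by nlinarith
  have h4 : m - C * ε ≤ ‖(1 - x₁ * x₂) * LF (1 - k) x x₁ x₂‖ := by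
    have h5 := norm_sub_norm_le ((1 - (x : ℂ) * x) * ((Dl k x : ℝ) : ℂ))
      ((1 - x₁ * x₂) * LF (1 - k) x x₁ x₂)
    have h6 : ‖(1 - (x : ℂ) * x) * ((Dl k x : ℝ) : ℂ)‖ = m := by
      have : (1 - (x : ℂ) * x) * ((Dl k x : ℝ) : ℂ) = ((m : ℝ) : ℂ) := by rw [hm]; push_cast; ring
      rw [this, norm_real, Real.norm_eq_abs, abs_of_nonneg (by linarith)]
    rw [h6, norm_sub_rev] at h5
    linarith
  have h5 : ‖1 - x₁ * x₂‖ ≤ (1 - x ^ 2) * Real.exp (5 * ε) := by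
    have e5 : 1 - x₁ * x₂ = ((1 - x ^ 2 : ℝ) : ℂ) - (x * (x₂ - x) + x₂ * (x₁ - x)) := by
      push_cast; ring
    have hx2n : ‖x₂‖ ≤ 2 * x := by
      have h3 : ‖x₂‖ ≤ ‖x₂ - x‖ + ‖(x : ℂ)‖ := by
        have := norm_add_le (x₂ - x) (x : ℂ); rwa [sub_add_cancel] at this
      rw [norm_real, Real.norm_eq_abs, abs_of_nonneg hx0] at h3
      linarith
    have h6 : ‖(x : ℂ) * (x₂ - x) + x₂ * (x₁ - x)‖ ≤ 2 * ε := by
      refine (norm_add_le _ _).trans ?_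
      rw [norm_mul, norm_mul, norm_real, Real.norm_eq_abs, abs_of_nonneg hx0]
      have : ‖x₂‖ * ‖x₁ - x‖ ≤ 2 * x * ‖x₁ - x‖ := by gcongr
      have h7 : 0 ≤ x * ‖x₁ - x‖ := by positivity
      have h8 : 0 ≤ x * ‖x₂ - x‖ := by positivity
      rw [hε]
      nlinarith
    have h7 : ‖1 - x₁ * x₂‖ ≤ (1 - x ^ 2) + 2 * ε := by
      rw [e5]
      refine (norm_sub_le _ _).trans ?_
      rw [norm_real, Real.norm_eq_abs, abs_of_nonneg hm0]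
      linarith
    have h8 := Real.add_one_le_exp (5 * ε)
    have h9 : (1 - x ^ 2) * (1 + 5 * ε) ≤ (1 - x ^ 2) * Real.exp (5 * ε) := by
      gcongr; linarith
    have h10 : 4998 / 10000 * ε ≤ (1 - x ^ 2) * ε :=
      mul_le_mul_of_nonneg_right (by linarith) hε0
    have h11 : (1 - x ^ 2) * (1 + 5 * ε) = (1 - x ^ 2) + 5 * ((1 - x ^ 2) * ε) := by ring
    linarith
  have hCε : C * ε ≤ 1 / 20 := by
    have : (C + 3) * ε = C * ε + 3 * ε := by ring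
    linarith
  have hCε0 : 0 ≤ C * ε := by positivity
  have h6 : m * Real.exp (-(2 * (3 * (C * ε)))) ≤ m - C * ε := by
    have h7 : Real.exp (-(2 * (3 * (C * ε)))) ≤ 1 - 3 * (C * ε) :=
      one_sub_ge_exp (by positivity) (by linarith)
    calc m * Real.exp (-(2 * (3 * (C * ε)))) ≤ m * (1 - 3 * (C * ε)) := by gcongr
      _ = m - 3 * (m * (C * ε)) := by ring
      _ ≤ m - C * ε := by
          have : 4998 / 10000 * (C * ε) ≤ m * (C * ε) := mul_le_mul_of_nonneg_right hm2 hCε0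
          linarith
  have h7 : Real.exp (k ^ 2 * x ^ 2 - 3 * (k ^ 2 * x ^ 2) ^ 2) ≤ 1 + k ^ 2 * x ^ 2 :=
    one_add_ge_exp (by linarith)
  have hpos : 0 < 1 - x ^ 2 := by linarith
  have h8 : (1 - x ^ 2) * (Real.exp (k ^ 2 * x ^ 2 - 3 * (k ^ 2 * x ^ 2) ^ 2) *
      Real.exp (-(2 * (3 * (C * ε))))) ≤
      (1 - x ^ 2) * (Real.exp (5 * ε) * ‖LF (1 - k) x x₁ x₂‖) := by
    calc (1 - x ^ 2) * (Real.exp (k ^ 2 * x ^ 2 - 3 * (k ^ 2 * x ^ 2) ^ 2) *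
        Real.exp (-(2 * (3 * (C * ε))))) ≤
        (1 - x ^ 2) * ((1 + k ^ 2 * x ^ 2) * Real.exp (-(2 * (3 * (C * ε))))) := by gcongr
      _ = ((1 - x ^ 2) * (1 + k ^ 2 * x ^ 2)) * Real.exp (-(2 * (3 * (C * ε)))) := by ring
      _ ≤ m * Real.exp (-(2 * (3 * (C * ε)))) := by gcongr
      _ ≤ ‖(1 - x₁ * x₂) * LF (1 - k) x x₁ x₂‖ := h6.trans h4
      _ = ‖1 - x₁ * x₂‖ * ‖LF (1 - k) x x₁ x₂‖ := norm_mul _ _
      _ ≤ ((1 - x ^ 2) * Real.exp (5 * ε)) * ‖LF (1 - k) x x₁ x₂‖ := by gcongr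
      _ = _ := by ring
  have h9 := le_of_mul_le_mul_left h8 hpos
  have h10 : Real.exp (-(5 * ε)) * (Real.exp (5 * ε) * ‖LF (1 - k) x x₁ x₂‖) =
      ‖LF (1 - k) x x₁ x₂‖ := by
    rw [← mul_assoc, ← Real.exp_add]; simp
  rw [← h10]
  refine le_trans ?_ (mul_le_mul_of_nonneg_left h9 (Real.exp_pos _).le)
  rw [← Real.exp_add, ← Real.exp_add]
  apply Real.exp_le_exp.mpr
  have h11 : (k ^ 2 * x ^ 2) ^ 2 ≤ K ^ 4 * x ^ 4 := by
    have : k ^ 4 ≤ K ^ 4 := by gcongr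
    calc (k ^ 2 * x ^ 2) ^ 2 = k ^ 4 * x ^ 4 := by ring
      _ ≤ _ := by gcongr
  have h12 : 0 ≤ x ^ 4 := by positivity
  have h13 : 0 ≤ C * x ^ 4 := by positivity
  have h14 : (6 * C + 5 + 3 * K ^ 4) * (ε + x ^ 4) =
      2 * (3 * (C * ε)) + 5 * ε + 3 * (K ^ 4 * ε) + 6 * (C * x ^ 4) + 5 * x ^ 4 +
        3 * (K ^ 4 * x ^ 4) := by ring
  have h15 : 0 ≤ K ^ 4 * ε := by positivity
  rw [h14]
  linarith

lemma sq_moment2 {K : ℝ} (hK : 1 ≤ K) : ∃ C : ℝ, 0 ≤ C ∧ ∀ (S : Finset ℕ) (k : ℝ) (a : ℂ),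
    (∀ p ∈ S, p.Prime) → 1 ≤ k → k ≤ K → (∀ p ∈ S, ‖a‖ * Real.log p ≤ 1 / 20) → ‖a‖ * ∑ p ∈ S, Real.log p / p ≤ 1 →
    ES S (fun f => ‖ZZ S (tw (1 / 2 + a) f)‖ ^ 2 * Wt (1 - k) S f) ≤
      Real.exp (C + k ^ 2 * ∑ p ∈ S, 1 / (p : ℝ)) := by
  obtain ⟨C, hC, h⟩ := ES_exp K
  refine ⟨16 * K + (4 * K + 2) + 3 * C, by positivity, fun S k a hS hk0 hk1 ha hsum => ?_⟩
  have hγ : ‖((k - 1 : ℝ) : ℂ)‖ ≤ K := by
    rw [norm_real, Real.norm_eq_abs, abs_le]; constructor <;> linarith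
  have h1 := h 3 1 S (1 / 2 + a) ((k - 1 : ℝ) : ℂ) (1 / 2) (by norm_num) (by norm_num) hγ hS
    (fun p hp => (yp_bd (hS p hp) (ha p hp)).2)
  have hw : 0 < (1 / 2 + a : ℂ).re → BS S (fun f => ‖(ZZ S (tw (1 / 2 + a) f)) ^ 1 *
      cexp (((k - 1 : ℝ) : ℂ) * Pj 3 S (tw ((1 / 2 : ℝ) : ℂ) f))‖ ^ 2) := fun hw =>
    (((bs_ZZ hS hw).pow 1).mul (((bs_const S _).mul (bs_Pj 3 S S _)).cexp)).norm_sq
  -- positivity of the abscissa
  rcases S.eq_empty_or_nonempty with hSe | ⟨p₀, hp₀⟩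
  · subst hSe
    have e0 : ES ∅ (fun f => ‖ZZ ∅ (tw (1 / 2 + a) f)‖ ^ 2 * Wt (1 - k) ∅ f) = 1 := by
      simp [ES, ZZ, Wt]
    rw [e0]
    apply Real.one_le_exp
    have : 0 ≤ k ^ 2 * ∑ p ∈ (∅ : Finset ℕ), 1 / (p : ℝ) := by simp
    linarith
  have hre : 0 < (1 / 2 + a : ℂ).re := by
    have h2 := ha p₀ hp₀
    have h3 : Real.log 2 ≤ Real.log p₀ :=
      Real.log_le_log (by norm_num) (by exact_mod_cast (hS p₀ hp₀).two_le)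
    have h4 : 0.69 ≤ Real.log 2 := by have := Real.log_two_gt_d9; linarith
    have h5 : ‖a‖ ≤ 1 / 13 := by
      have h0 := norm_nonneg a
      nlinarith
    have h6 := (abs_le.mp ((abs_re_le_norm a).trans h5)).1
    have h7 : (1 / 2 + a : ℂ).re = 1 / 2 + a.re := by simp
    rw [h7]; linarith
  have hBS := hw hre
  have step : ES S (fun f => ‖ZZ S (tw (1 / 2 + a) f)‖ ^ 2 * Wt (1 - k) S f) ≤
      ES S (fun f => Real.exp (16 * K) * ‖(ZZ S (tw (1 / 2 + a) f)) ^ 1 *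
        cexp (((k - 1 : ℝ) : ℂ) * Pj 3 S (tw ((1 / 2 : ℝ) : ℂ) f))‖ ^ 2) := by
    apply ES_mono
    · intro ω; exact mul_nonneg (by positivity) (Wt_nonneg _ _ _)
    · exact hBS.integrable.const_mul _
    · intro ω
      rw [pow_one, norm_mul, mul_pow, mul_left_comm]
      refine mul_le_mul_of_nonneg_left ?_ (by positivity)
      rw [Wt_eq, norm_ZZ_rpow 3 hS le_rfl (norm_ext S ω), norm_exp, ← Real.exp_nat_mul,
        ← Real.exp_add]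
      apply Real.exp_le_exp.mpr
      have h2 := (norm_Rm_le 3 hS le_rfl (norm_ext S ω)).trans (rho_three hS)
      have h3 := (abs_le.mp ((abs_re_le_norm _).trans h2)).1
      have h4 := (abs_le.mp ((abs_re_le_norm _).trans h2)).2
      rw [re_ofReal_mul, Nat.cast_ofNat]
      set P := (Pj 3 S (tw ((1 / 2 : ℝ) : ℂ) (ext S ω))).re
      set R := (Rm 3 S (tw ((1 / 2 : ℝ) : ℂ) (ext S ω))).re
      have h5 : 0 ≤ (k - 1) * (8 - R) := mul_nonneg (by linarith) (by linarith)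
      have h6 : (k - 1) * R ≤ K * 8 := by linarith
      linarith
  refine step.trans ?_
  rw [ES_const_mul]
  refine (mul_le_mul_of_nonneg_left h1 (Real.exp_pos _).le).trans ?_
  rw [← Real.exp_add]
  apply Real.exp_le_exp.mpr
  have hterm : ∀ p ∈ S, ‖((1 : ℕ) : ℂ) * (p : ℂ) ^ (-(1 / 2 + a)) + ((k - 1 : ℝ) : ℂ) *
      ((p : ℝ) ^ (-(1 / 2) : ℝ) : ℝ)‖ ^ 2 + C * (yp (1 / 2 + a).re (1 / 2) p) ^ 4 ≤
      k ^ 2 * (1 / (p : ℝ)) + (4 * K + 2) * (‖a‖ * (Real.log p / p)) +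
        3 / 2 * C * ((p : ℝ) ^ 2)⁻¹ := by
    intro p hp
    obtain ⟨b1, b2, b3⟩ := shift_bd (hS p hp) (ha p hp)
    obtain ⟨b4, b5⟩ := yp_bd (hS p hp) (ha p hp)
    set x : ℝ := (p : ℝ) ^ (-(1 / 2) : ℝ) with hx
    have hx0 : 0 ≤ x := by positivity
    set d : ℝ := ‖(p : ℂ) ^ (-(1 / 2 + a)) - (x : ℂ)‖ with hd
    have hd0 : 0 ≤ d := norm_nonneg _
    have e1 : ‖((1 : ℕ) : ℂ) * (p : ℂ) ^ (-(1 / 2 + a)) + ((k - 1 : ℝ) : ℂ) * (x : ℂ)‖ ≤ k * x + d := by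
      have : ((1 : ℕ) : ℂ) * (p : ℂ) ^ (-(1 / 2 + a)) + ((k - 1 : ℝ) : ℂ) * (x : ℂ) =
          ((k * x : ℝ) : ℂ) + ((p : ℂ) ^ (-(1 / 2 + a)) - (x : ℂ)) := by push_cast; ring
      rw [this]
      refine (norm_add_le _ _).trans ?_
      rw [norm_real, Real.norm_eq_abs, abs_of_nonneg (by positivity)]
    have e2 := pow_le_pow_left₀ (norm_nonneg _) e1 2
    have e3 : (k * x + d) ^ 2 ≤ k ^ 2 * x ^ 2 + (2 * K + 1) * (x * d) := by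
      have q1 : d ≤ x := by nlinarith
      have q2 : k * x * d ≤ K * (x * d) := by
        have : k * (x * d) ≤ K * (x * d) := mul_le_mul_of_nonneg_right hk1 (by positivity)
        linarith
      have q3 : d * d ≤ x * d := mul_le_mul_of_nonneg_right q1 hd0
      nlinarith
    have e4 : (2 * K + 1) * (x * d) ≤ (4 * K + 2) * (‖a‖ * (Real.log p / p)) := by
      have q1 : x * d ≤ x * (105 / 100 * x * (‖a‖ * Real.log p)) := by gcongr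
      have q2 : x * (105 / 100 * x * (‖a‖ * Real.log p)) = 105 / 100 * (‖a‖ * (Real.log p / p)) := by
        have : x ^ 2 = 1 / (p : ℝ) := inv_form
        calc x * (105 / 100 * x * (‖a‖ * Real.log p)) = 105 / 100 * (‖a‖ * (Real.log p * x ^ 2)) := by ring
          _ = _ := by rw [this]; ring
      have q3 : 0 ≤ ‖a‖ * (Real.log p / p) := by
        have := Real.log_natCast_nonneg p
        positivity
      have q4 : x * d ≤ 2 * (‖a‖ * (Real.log p / p)) := by linarith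
      calc (2 * K + 1) * (x * d) ≤ (2 * K + 1) * (2 * (‖a‖ * (Real.log p / p))) := by gcongr
        _ = _ := by ring
    have e5 : C * (yp (1 / 2 + a).re (1 / 2) p) ^ 4 ≤ 3 / 2 * C * ((p : ℝ) ^ 2)⁻¹ := by
      have q1 := pow_le_pow_left₀ (yp_nonneg _ _ p) b4 4
      rw [mul_pow, hx, inv_form4] at q1
      have q2 : 0 ≤ ((p : ℝ) ^ 2)⁻¹ := by positivity
      have q3 : (10525 / 10000 : ℝ) ^ 4 ≤ 3 / 2 := by norm_num
      calc C * (yp (1 / 2 + a).re (1 / 2) p) ^ 4 ≤ C * ((10525 / 10000 : ℝ) ^ 4 * ((p : ℝ) ^ 2)⁻¹) := by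
            gcongr
        _ ≤ C * (3 / 2 * ((p : ℝ) ^ 2)⁻¹) := by gcongr
        _ = _ := by ring
    have e6 : x ^ 2 = 1 / (p : ℝ) := inv_form
    rw [← e6]
    linarith
  have hS2 := Finset.sum_le_sum hterm
  have hsplit : ∑ p ∈ S, (k ^ 2 * (1 / (p : ℝ)) + (4 * K + 2) * (‖a‖ * (Real.log p / p)) +
      3 / 2 * C * ((p : ℝ) ^ 2)⁻¹) = k ^ 2 * ∑ p ∈ S, 1 / (p : ℝ) +
        (4 * K + 2) * (‖a‖ * ∑ p ∈ S, Real.log p / p) + 3 / 2 * C * ∑ p ∈ S, ((p : ℝ) ^ 2)⁻¹ := by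
    simp only [Finset.sum_add_distrib, Finset.mul_sum]
  rw [hsplit] at hS2
  have hS3 := XB.sum_inv_sq hS
  have hS4 : 3 / 2 * C * ∑ p ∈ S, ((p : ℝ) ^ 2)⁻¹ ≤ 3 * C := by nlinarith
  have hS5 : (4 * K + 2) * (‖a‖ * ∑ p ∈ S, Real.log p / p) ≤ (4 * K + 2) * 1 :=
    mul_le_mul_of_nonneg_left hsum (by linarith)
  linarith

lemma LP_lower2 (h : StLFg) {K : ℝ} (hK : 1 ≤ K) : ∃ C c : ℝ, 0 ≤ C ∧ 0 < c ∧ c ≤ 1 / 60 ∧
    ∀ (S : Finset ℕ) (k : ℝ) (a₁ a₂ : ℂ), (∀ p ∈ S, p.Prime) → 1 ≤ k → k ≤ K →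
    (∀ p ∈ S, ‖a₁‖ * Real.log p ≤ c ∧ ‖a₂‖ * Real.log p ≤ c) →
    (‖a₁‖ + ‖a₂‖) * ∑ p ∈ S, Real.log p / p ≤ 1 →
    Real.exp (k ^ 2 * ∑ p ∈ S, 1 / (p : ℝ) - C) ≤ ‖LP (1 - k) a₁ a₂ S‖ := by
  obtain ⟨B, c, hB, hc, hc60, h⟩ := LF_lower2 h hK
  refine ⟨B * 4, c, by positivity, hc, hc60, fun S k a₁ a₂ hS hk0 hk1 ha hsum => ?_⟩
  have hterm : ∀ p ∈ S, Real.exp (k ^ 2 * (1 / (p : ℝ)) - B * (2 * ((‖a₁‖ + ‖a₂‖) * (Real.log p / p)) +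
      ((p : ℝ) ^ 2)⁻¹)) ≤ ‖LF (1 - k) ((p : ℝ) ^ (-(1 / 2) : ℝ)) ((p : ℂ) ^ (-(1 / 2 + a₁)))
        ((p : ℂ) ^ (-(1 / 2 + a₂)))‖ := by
    intro p hp
    obtain ⟨b1, b2, b3⟩ := shift_bd (hS p hp) (a := a₁) (by linarith [(ha p hp).1])
    obtain ⟨c1, c2, c3⟩ := shift_bd (hS p hp) (a := a₂) (by linarith [(ha p hp).2])
    have hx0 : 0 ≤ (p : ℝ) ^ (-(1 / 2) : ℝ) := by positivity
    have b4 : ‖(p : ℂ) ^ (-(1 / 2 + a₁)) - (((p : ℝ) ^ (-(1 / 2) : ℝ) : ℝ) : ℂ)‖ ≤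
        105 / 100 * (p : ℝ) ^ (-(1 / 2) : ℝ) * c :=
      b1.trans (mul_le_mul_of_nonneg_left (ha p hp).1 (by positivity))
    have c4 : ‖(p : ℂ) ^ (-(1 / 2 + a₂)) - (((p : ℝ) ^ (-(1 / 2) : ℝ) : ℝ) : ℂ)‖ ≤
        105 / 100 * (p : ℝ) ^ (-(1 / 2) : ℝ) * c :=
      c1.trans (mul_le_mul_of_nonneg_left (ha p hp).2 (by positivity))
    have h1 := h k ((p : ℝ) ^ (-(1 / 2) : ℝ)) ((p : ℂ) ^ (-(1 / 2 + a₁)))
      ((p : ℂ) ^ (-(1 / 2 + a₂))) hk0 hk1 (by positivity) b3 b4 c4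
    refine le_trans (Real.exp_le_exp.mpr ?_) h1
    rw [inv_form, inv_form4]
    have hlog : 0 ≤ Real.log p / p := div_nonneg (Real.log_natCast_nonneg p) (by positivity)
    have key : ∀ (a : ℂ) (d : ℝ), d ≤ 105 / 100 * (p : ℝ) ^ (-(1 / 2) : ℝ) * (‖a‖ * Real.log p) →
        (p : ℝ) ^ (-(1 / 2) : ℝ) * d ≤ 2 * (‖a‖ * (Real.log p / p)) := by
      intro a d hd
      have q1 : (p : ℝ) ^ (-(1 / 2) : ℝ) * d ≤ (p : ℝ) ^ (-(1 / 2) : ℝ) *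
          (105 / 100 * (p : ℝ) ^ (-(1 / 2) : ℝ) * (‖a‖ * Real.log p)) := by gcongr
      have q2 : (p : ℝ) ^ (-(1 / 2) : ℝ) *
          (105 / 100 * (p : ℝ) ^ (-(1 / 2) : ℝ) * (‖a‖ * Real.log p)) =
          105 / 100 * (‖a‖ * (Real.log p / p)) := by
        calc (p : ℝ) ^ (-(1 / 2) : ℝ) * (105 / 100 * (p : ℝ) ^ (-(1 / 2) : ℝ) * (‖a‖ * Real.log p)) =
            105 / 100 * (‖a‖ * (Real.log p * ((p : ℝ) ^ (-(1 / 2) : ℝ)) ^ 2)) := by ring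
          _ = _ := by rw [inv_form]; ring
      have q3 : 0 ≤ ‖a‖ * (Real.log p / p) := by positivity
      linarith
    have k1 := key a₁ _ b1
    have k2 := key a₂ _ c1
    have k4 := mul_le_mul_of_nonneg_left (add_le_add k1 k2) hB.le
    nlinarith
  have hprod : ‖LP (1 - k) a₁ a₂ S‖ = ∏ p ∈ S, ‖LF (1 - k) ((p : ℝ) ^ (-(1 / 2) : ℝ))
      ((p : ℂ) ^ (-(1 / 2 + a₁))) ((p : ℂ) ^ (-(1 / 2 + a₂)))‖ := by
    rw [LP, norm_prod]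
  rw [hprod]
  refine le_trans ?_ (Finset.prod_le_prod (fun p _ => (Real.exp_pos _).le) hterm)
  rw [← Real.exp_sum]
  apply Real.exp_le_exp.mpr
  have hsplit : ∑ p ∈ S, (k ^ 2 * (1 / (p : ℝ)) - B * (2 * ((‖a₁‖ + ‖a₂‖) * (Real.log p / p)) +
      ((p : ℝ) ^ 2)⁻¹)) = k ^ 2 * ∑ p ∈ S, 1 / (p : ℝ) -
        B * (2 * ((‖a₁‖ + ‖a₂‖) * ∑ p ∈ S, Real.log p / p) + ∑ p ∈ S, ((p : ℝ) ^ 2)⁻¹) := by
    rw [Finset.sum_sub_distrib, ← Finset.mul_sum, ← Finset.mul_sum, Finset.sum_add_distrib,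
      ← Finset.mul_sum, ← Finset.mul_sum]
  rw [hsplit]
  have h3 := XB.sum_inv_sq hS
  have h4 : B * (2 * ((‖a₁‖ + ‖a₂‖) * ∑ p ∈ S, Real.log p / p) + ∑ p ∈ S, ((p : ℝ) ^ 2)⁻¹) ≤ B * 4 := by
    gcongr; linarith
  linarith

lemma Ntr_one (l : ℕ) (α : ℝ) (z : ℂ) : Ntr l α z = Ntr l 1 (α * z) := by
  simp only [Ntr, ofReal_one, one_mul]

lemma norm_mul_leK {α K : ℝ} (hα : |α| ≤ K) (z : ℂ) : ‖(α : ℂ) * z‖ ≤ K * ‖z‖ := by
  rw [norm_mul, norm_real, Real.norm_eq_abs]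
  exact mul_le_mul_of_nonneg_right hα (norm_nonneg _)

lemma Ntr_tailK (l : ℕ) {α K : ℝ} (hα : |α| ≤ K) (z : ℂ) :
    ‖cexp (α * z) - Ntr l α z‖ ≤ Real.exp (-l) * Real.exp (3 * (K * ‖z‖)) := by
  have h := Ntr_tail l (α := 1) (by norm_num) ((α : ℂ) * z)
  rw [ofReal_one, one_mul, ← Ntr_one] at h
  refine h.trans ?_
  have := norm_mul_leK hα z
  gcongr

lemma norm_Ntr_leK (l : ℕ) {α K : ℝ} (hα : |α| ≤ K) (z : ℂ) :
    ‖Ntr l α z‖ ≤ Real.exp (K * ‖z‖) := by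
  have h := norm_Ntr_le l (α := 1) (by norm_num) ((α : ℂ) * z)
  rw [← Ntr_one] at h
  exact h.trans (Real.exp_le_exp.mpr (norm_mul_leK hα z))

/-- pointwise comparison of the truncated exponentials with the weight -/
lemma pointwise2 {A l : ℕ} {S : Finset ℕ} {k K : ℝ} (hS : ∀ p ∈ S, p.Prime) (hk0 : 1 ≤ k)
    (hk1 : k ≤ K) {f : ℕ → ℂ} (hf : ∀ n, ‖f n‖ = 1) :
    ‖Ntr l (k - 1) (Pj A S (tw ((1 / 2 : ℝ) : ℂ) f)) *
      (starRingEnd ℂ) (Ntr l (k - 1) (Pj A S (tw ((1 / 2 : ℝ) : ℂ) f))) - ((Wt (1 - k) S f : ℝ) : ℂ)‖ ≤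
      (Real.exp (2 * K * rho A S) - 1) * Wt (1 - k) S f +
        2 * Real.exp (-l) * Real.exp (2 * K * ‖Pj A S (tw ((1 / 2 : ℝ) : ℂ) f)‖) ^ 2 := by
  have ha : |k - 1| ≤ K := by rw [abs_le]; constructor <;> linarith
  set P := Pj A S (tw ((1 / 2 : ℝ) : ℂ) f) with hP
  set R := Rm A S (tw ((1 / 2 : ℝ) : ℂ) f) with hR
  have hR1 : ‖R‖ ≤ rho A S := norm_Rm_le A hS le_rfl hf
  have hR2 := (abs_le.mp ((abs_re_le_norm _).trans hR1))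
  have hρ := rho_nonneg A S
  have hW : Wt (1 - k) S f = Real.exp (2 * (-(1 - k)) * P.re + 2 * (-(1 - k)) * R.re) := by
    rw [Wt_eq, norm_ZZ_rpow A hS le_rfl hf]
  set E : ℂ := cexp (((k - 1 : ℝ) : ℂ) * P) with hE
  have hEn : ‖E‖ ^ 2 = Real.exp (2 * (k - 1) * P.re) := by
    rw [hE, norm_exp, ← Real.exp_nat_mul, re_ofReal_mul, Nat.cast_ofNat]
    congr 1; ring
  have h1 : |‖E‖ ^ 2 - Wt (1 - k) S f| ≤ (Real.exp (2 * K * rho A S) - 1) * Wt (1 - k) S f := by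
    have e1 : ‖E‖ ^ 2 = Wt (1 - k) S f * Real.exp (2 * (1 - k) * R.re) := by
      rw [hEn, hW, ← Real.exp_add]; congr 1; ring
    rw [e1, ← mul_sub_one, abs_mul, abs_of_nonneg (Wt_nonneg _ _ _), mul_comm]
    refine mul_le_mul_of_nonneg_right ?_ (Wt_nonneg _ _ _)
    have h3 : |2 * (1 - k) * R.re| ≤ 2 * K * rho A S := by
      rw [abs_mul, abs_of_nonpos (by linarith : 2 * (1 - k) ≤ (0:ℝ))]
      have := (abs_re_le_norm R).trans hR1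
      have h0 := abs_nonneg R.re
      exact mul_le_mul (by linarith) this h0 (by linarith)
    have h4 : |Real.exp (2 * (1 - k) * R.re) - 1| ≤ Real.exp |2 * (1 - k) * R.re| - 1 := by
      have := norm_exp_sub_one_le' ((2 * (1 - k) * R.re : ℝ) : ℂ)
      rw [← ofReal_exp, ← ofReal_one, ← ofReal_sub, norm_real, norm_real, Real.norm_eq_abs,
        Real.norm_eq_abs] at this
      exact this
    refine h4.trans ?_
    have := Real.exp_le_exp.mpr h3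
    linarith
  have hK0 : 0 ≤ K := by linarith
  have hN := norm_Ntr_leK l ha P
  have hE1 : ‖E‖ ≤ Real.exp (K * ‖P‖) := by
    rw [hE, norm_exp]
    apply Real.exp_le_exp.mpr
    rw [re_ofReal_mul]
    have h5 : |(k - 1) * P.re| ≤ K * ‖P‖ := by
      rw [abs_mul]
      exact mul_le_mul ha (abs_re_le_norm P) (abs_nonneg _) hK0
    exact (le_abs_self _).trans h5
  have hT := Ntr_tailK l ha P
  have h2 : |‖Ntr l (k - 1) P‖ ^ 2 - ‖E‖ ^ 2| ≤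
      2 * Real.exp (-l) * Real.exp (2 * K * ‖P‖) ^ 2 := by
    have e1 : ‖Ntr l (k - 1) P‖ ^ 2 - ‖E‖ ^ 2 = (‖Ntr l (k - 1) P‖ - ‖E‖) * (‖Ntr l (k - 1) P‖ + ‖E‖) := by
      ring
    rw [e1, abs_mul]
    have h3 : |‖Ntr l (k - 1) P‖ - ‖E‖| ≤ Real.exp (-l) * Real.exp (3 * (K * ‖P‖)) := by
      refine (abs_norm_sub_norm_le _ _).trans ?_
      rw [norm_sub_rev, hE]
      exact hT
    have h4 : |‖Ntr l (k - 1) P‖ + ‖E‖| ≤ 2 * Real.exp (K * ‖P‖) := by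
      rw [abs_of_nonneg (by positivity)]; linarith
    calc |‖Ntr l (k - 1) P‖ - ‖E‖| * |‖Ntr l (k - 1) P‖ + ‖E‖| ≤
          (Real.exp (-l) * Real.exp (3 * (K * ‖P‖))) * (2 * Real.exp (K * ‖P‖)) := by gcongr
      _ = 2 * Real.exp (-l) * (Real.exp (3 * (K * ‖P‖)) * Real.exp (K * ‖P‖)) := by ring
      _ = _ := by
          rw [← Real.exp_add, ← Real.exp_nat_mul, Nat.cast_ofNat]
          congr 2; ring
  have e3 : Ntr l (k - 1) P * (starRingEnd ℂ) (Ntr l (k - 1) P) - ((Wt (1 - k) S f : ℝ) : ℂ) =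
      ((‖Ntr l (k - 1) P‖ ^ 2 - Wt (1 - k) S f : ℝ) : ℂ) := by
    rw [mul_conj, normSq_eq_norm_sq]; push_cast; rfl
  rw [e3, norm_real, Real.norm_eq_abs]
  calc |‖Ntr l (k - 1) P‖ ^ 2 - Wt (1 - k) S f| ≤ |‖E‖ ^ 2 - Wt (1 - k) S f| +
        |‖Ntr l (k - 1) P‖ ^ 2 - ‖E‖ ^ 2| := by
        have := abs_add_le (‖E‖ ^ 2 - Wt (1 - k) S f) (‖Ntr l (k - 1) P‖ ^ 2 - ‖E‖ ^ 2)
        rwa [show ‖E‖ ^ 2 - Wt (1 - k) S f + (‖Ntr l (k - 1) P‖ ^ 2 - ‖E‖ ^ 2) =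
          ‖Ntr l (k - 1) P‖ ^ 2 - Wt (1 - k) S f by ring] at this
    _ ≤ _ := add_le_add h1 h2

end BlkgAux

open K1.BlkShift K1R.BlkShiftR BlkgAux in
/-- (B2) one block with shifts -/
theorem stBlkg (h : StLFg) : StBlkg := by
  intro K hK
  obtain ⟨C2, c₀, hC2, hc₀, hc60, hlow⟩ := LP_lower2 h hK
  obtain ⟨C3, hC3, hsq⟩ := sq_moment2 hK
  obtain ⟨C4, hC4, hexp⟩ := ES_exp_norm (q := 2 * K) (by linarith)
  have hK0 : 0 ≤ K := by linarith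
  set C₁ : ℝ := Real.exp (C3 + C2) + 2 * Real.exp C2 + 4 * C4 + 6 + 2 * K with hC1
  have hC12 : 2 * K ≤ C₁ := by
    rw [hC1]; have := Real.exp_pos (C3 + C2); have := Real.exp_pos C2; linarith
  have hC16 : 4 * C4 + 6 ≤ C₁ := by
    rw [hC1]; have := Real.exp_pos (C3 + C2); have := Real.exp_pos C2; linarith
  have hC10 : 0 < C₁ := by positivity
  refine ⟨C₁, c₀, hC10, hc₀, fun A l S k a₁ a₂ hA hS hk0 hk1 ha hsum hcond => ?_⟩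
  have hlog : 0 ≤ ∑ p ∈ S, Real.log p / p :=
    Finset.sum_nonneg fun p _ => div_nonneg (Real.log_natCast_nonneg p) (by positivity)
  have hρ := rho_nonneg A S
  have hinv : 0 ≤ ∑ p ∈ S, 1 / (p : ℝ) := Finset.sum_nonneg fun p _ => by positivity
  have hLP := hlow S k a₁ a₂ hS hk0 hk1 ha hsum
  rcases S.eq_empty_or_nonempty with hSe | hne
  · subst hSe
    have e0 : ES ∅ (fun f => ZZ ∅ (tw (1 / 2 + a₁) f) *
        (starRingEnd ℂ) (ZZ ∅ (tw (1 / 2 + (starRingEnd ℂ) a₂) f)) *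
        (Ntr l (k - 1) (Pj A ∅ (tw (1 / 2) f)) *
          (starRingEnd ℂ) (Ntr l (k - 1) (Pj A ∅ (tw (1 / 2) f))))) = 1 := by
      have : ∀ α : ℝ, Ntr l α 0 = 1 := by
        intro α
        rw [Ntr, Finset.sum_range_succ']
        simp
      simp [ES, ZZ, Pj, this]
    have e1 : LP (1 - k) a₁ a₂ ∅ = 1 := by simp [LP]
    rw [e0, e1, sub_self, norm_zero]
    have h3 : 0 ≤ Real.exp (C₁ * rho A ∅) - 1 := by
      have := Real.one_le_exp (show 0 ≤ C₁ * rho A ∅ by positivity); linarith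
    positivity
  have ha1 : ∀ p ∈ S, ‖a₁‖ * Real.log p ≤ 1 / 20 := fun p hp => by linarith [(ha p hp).1]
  have ha2 : ∀ p ∈ S, ‖(starRingEnd ℂ) a₂‖ * Real.log p ≤ 1 / 20 := fun p hp => by
    rw [RCLike.norm_conj]; linarith [(ha p hp).2]
  have hs1 : ‖a₁‖ * ∑ p ∈ S, Real.log p / p ≤ 1 := by
    refine le_trans (mul_le_mul_of_nonneg_right ?_ hlog) hsum
    linarith [norm_nonneg a₂]
  have hs2 : ‖(starRingEnd ℂ) a₂‖ * ∑ p ∈ S, Real.log p / p ≤ 1 := by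
    rw [RCLike.norm_conj]
    refine le_trans (mul_le_mul_of_nonneg_right ?_ hlog) hsum
    linarith [norm_nonneg a₁]
  have hr1 := re_pos_of hS ha1 hne
  have hr2 := re_pos_of hS ha2 hne
  have q1 := hsq S k a₁ hS hk0 hk1 ha1 hs1
  have q2 := hsq S k _ hS hk0 hk1 ha2 hs2
  have hypsum : ∀ a : ℂ, (∀ p ∈ S, ‖a‖ * Real.log p ≤ 1 / 20) →
      ∑ p ∈ S, (yp (1 / 2 + a).re (1 / 2) p) ^ 2 ≤ 2 * ∑ p ∈ S, 1 / (p : ℝ) := by
    intro a ha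
    rw [Finset.mul_sum]
    refine Finset.sum_le_sum fun p hp => ?_
    have h1 := pow_le_pow_left₀ (yp_nonneg _ _ p) (yp_bd (hS p hp) (ha p hp)).1 2
    rw [mul_pow, inv_form] at h1
    have h2 : 0 ≤ 1 / (p : ℝ) := by positivity
    nlinarith
  have hE : ∀ a : ℂ, (∀ p ∈ S, ‖a‖ * Real.log p ≤ 1 / 20) → 0 < (1 / 2 + a : ℂ).re →
      ES S (fun f => ‖ZZ S (tw (1 / 2 + a) f)‖ ^ 2 *
        Real.exp (2 * K * ‖Pj A S (tw ((1 / 2 : ℝ) : ℂ) f)‖) ^ 2) ≤ Real.exp (l / 2) := by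
    intro a ha hr
    have h1 := hexp A 1 S (1 / 2 + a) (1 / 2) hA (by norm_num) hr hS
      (fun p hp => (yp_bd (hS p hp) (ha p hp)).2)
    simp only [pow_one] at h1
    refine h1.trans ?_
    have h16 : (16 : ℝ) ≤ Real.exp 3 := by
      have e1 := Real.exp_one_gt_d9
      have e2 : Real.exp 3 = Real.exp 1 ^ 3 := by rw [← Real.exp_nat_mul]; norm_num
      rw [e2]
      calc (16 : ℝ) ≤ 2.7 ^ 3 := by norm_num
        _ ≤ Real.exp 1 ^ 3 := by gcongr; linarith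
    have h17 : C4 * ∑ p ∈ S, (yp (1 / 2 + a).re (1 / 2) p) ^ 2 ≤
        C4 * (2 * ∑ p ∈ S, 1 / (p : ℝ)) := by
      gcongr; exact hypsum a ha
    calc 16 * Real.exp (C4 * ∑ p ∈ S, (yp (1 / 2 + a).re (1 / 2) p) ^ 2) ≤
          Real.exp 3 * Real.exp (C4 * (2 * ∑ p ∈ S, 1 / (p : ℝ))) := by gcongr
      _ = Real.exp (3 + C4 * (2 * ∑ p ∈ S, 1 / (p : ℝ))) := by rw [Real.exp_add]
      _ ≤ Real.exp (l / 2) := by
          apply Real.exp_le_exp.mpr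
          have h18 : (4 * C4 + 6) * (1 + ∑ p ∈ S, 1 / (p : ℝ)) ≤
              C₁ * (1 + ∑ p ∈ S, 1 / (p : ℝ)) :=
            mul_le_mul_of_nonneg_right hC16 (by linarith)
          have h19 : 0 ≤ C4 * ∑ p ∈ S, 1 / (p : ℝ) := by positivity
          nlinarith
  have hE1 := hE a₁ ha1 hr1
  have hE2 := hE _ ha2 hr2
  -- the difference
  have bZ1 : BS S (fun f => ZZ S (tw (1 / 2 + a₁) f)) := bs_ZZ hS hr1
  have bZ2 : BS S (fun f => ZZ S (tw (1 / 2 + (starRingEnd ℂ) a₂) f)) := bs_ZZ hS hr2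
  have bP : BS S (fun f => Pj A S (tw ((1 / 2 : ℝ) : ℂ) f)) := bs_Pj A S S _
  have bN : BS S (fun f => Ntr l (k - 1) (Pj A S (tw ((1 / 2 : ℝ) : ℂ) f))) := bs_Ntr l _ bP
  have bW : BS S (Wt (1 - k) S) := bs_WtR (by linarith) hS
  have bWc : BS S (fun f => ((Wt (1 - k) S f : ℝ) : ℂ)) := by
    obtain ⟨h1, C, h2⟩ := bW
    exact ⟨continuous_ofReal.comp h1, C, fun ω => by rw [norm_real]; exact h2 ω⟩
  have bE : BS S (fun f => Real.exp (2 * K * ‖Pj A S (tw ((1 / 2 : ℝ) : ℂ) f)‖)) :=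
    bP.exp_norm (2 * K) (by linarith)
  have bE2 : BS S (fun f => Real.exp (2 * K * ‖Pj A S (tw ((1 / 2 : ℝ) : ℂ) f)‖) ^ 2) := by
    simp only [sq]; exact bE.mul_real bE
  have hcast : ∀ f : ℕ → ℂ, Pj A S (tw (1 / 2) f) = Pj A S (tw ((1 / 2 : ℝ) : ℂ) f) := by
    intro f; congr 2; push_cast; rfl
  simp only [hcast]
  set Z₁ : (ℕ → ℂ) → ℂ := fun f => ZZ S (tw (1 / 2 + a₁) f) with hZ1
  set Z₂ : (ℕ → ℂ) → ℂ := fun f => ZZ S (tw (1 / 2 + (starRingEnd ℂ) a₂) f) with hZ2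
  set N : (ℕ → ℂ) → ℂ := fun f => Ntr l (k - 1) (Pj A S (tw ((1 / 2 : ℝ) : ℂ) f)) with hN
  set E2 : (ℕ → ℂ) → ℝ := fun f => Real.exp (2 * K * ‖Pj A S (tw ((1 / 2 : ℝ) : ℂ) f)‖) ^ 2 with hE2d
  have hF : ∀ f, ZZ S (tw (1 / 2 + a₁) f) * (starRingEnd ℂ) (ZZ S (tw (1 / 2 + (starRingEnd ℂ) a₂) f)) *
      (Ntr l (k - 1) (Pj A S (tw ((1 / 2 : ℝ) : ℂ) f)) *
        (starRingEnd ℂ) (Ntr l (k - 1) (Pj A S (tw ((1 / 2 : ℝ) : ℂ) f)))) =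
      Z₁ f * (starRingEnd ℂ) (Z₂ f) * (N f * (starRingEnd ℂ) (N f)) := fun f => rfl
  have hLPe : LP (1 - k) a₁ a₂ S = ES S (fun f => Z₁ f * (starRingEnd ℂ) (Z₂ f) *
      ((Wt (1 - k) S f : ℝ) : ℂ)) := (LP_eq _ _ _ _).symm
  simp only [hF]
  have bF : BS S (fun f => Z₁ f * (starRingEnd ℂ) (Z₂ f) * (N f * (starRingEnd ℂ) (N f))) :=
    (bZ1.mul bZ2.conj).mul (bN.mul bN.conj)
  have bG : BS S (fun f => Z₁ f * (starRingEnd ℂ) (Z₂ f) * ((Wt (1 - k) S f : ℝ) : ℂ)) :=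
    (bZ1.mul bZ2.conj).mul bWc
  set r : ℝ := Real.exp (2 * K * rho A S) - 1 with hr
  have hr0 : 0 ≤ r := by
    have := Real.one_le_exp (show 0 ≤ 2 * K * rho A S by positivity); linarith
  set U : (ℕ → ℂ) → ℝ := fun f => r * (1 / 2 * (‖Z₁ f‖ ^ 2 * Wt (1 - k) S f) +
      1 / 2 * (‖Z₂ f‖ ^ 2 * Wt (1 - k) S f)) + 2 * Real.exp (-l) * (1 / 2 * (‖Z₁ f‖ ^ 2 * E2 f) +
      1 / 2 * (‖Z₂ f‖ ^ 2 * E2 f)) with hU
  have w1 : BS S (fun f => ‖Z₁ f‖ ^ 2 * Wt (1 - k) S f) := bZ1.norm_sq.mul_real bW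
  have w2 : BS S (fun f => ‖Z₂ f‖ ^ 2 * Wt (1 - k) S f) := bZ2.norm_sq.mul_real bW
  have w3 : BS S (fun f => ‖Z₁ f‖ ^ 2 * E2 f) := bZ1.norm_sq.mul_real bE2
  have w4 : BS S (fun f => ‖Z₂ f‖ ^ 2 * E2 f) := bZ2.norm_sq.mul_real bE2
  have hpt : ∀ ω, ‖(Z₁ (ext S ω) * (starRingEnd ℂ) (Z₂ (ext S ω)) *
      (N (ext S ω) * (starRingEnd ℂ) (N (ext S ω)))) - Z₁ (ext S ω) * (starRingEnd ℂ) (Z₂ (ext S ω)) *
        ((Wt (1 - k) S (ext S ω) : ℝ) : ℂ)‖ ≤ U (ext S ω) := by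
    intro ω
    have h1 := pointwise2 (A := A) (l := l) hS hk0 hk1 (norm_ext S ω)
    rw [← mul_sub, norm_mul, norm_mul, RCLike.norm_conj]
    have h2 : ‖Z₁ (ext S ω)‖ * ‖Z₂ (ext S ω)‖ * ‖N (ext S ω) * (starRingEnd ℂ) (N (ext S ω)) -
        ((Wt (1 - k) S (ext S ω) : ℝ) : ℂ)‖ ≤ ‖Z₁ (ext S ω)‖ * ‖Z₂ (ext S ω)‖ *
          (r * Wt (1 - k) S (ext S ω) + 2 * Real.exp (-l) * E2 (ext S ω)) :=
      mul_le_mul_of_nonneg_left h1 (by positivity)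
    refine h2.trans ?_
    have h3 := amgm ‖Z₁ (ext S ω)‖ ‖Z₂ (ext S ω)‖ _ (Wt_nonneg (1 - k) S (ext S ω))
    have h4 := amgm ‖Z₁ (ext S ω)‖ ‖Z₂ (ext S ω)‖ (E2 (ext S ω)) (by positivity)
    have h5 := mul_le_mul_of_nonneg_left h3 hr0
    have h6 := mul_le_mul_of_nonneg_left h4 (show 0 ≤ 2 * Real.exp (-(l : ℝ)) by positivity)
    simp only [hU]
    calc ‖Z₁ (ext S ω)‖ * ‖Z₂ (ext S ω)‖ *
          (r * Wt (1 - k) S (ext S ω) + 2 * Real.exp (-l) * E2 (ext S ω)) =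
        r * (‖Z₁ (ext S ω)‖ * ‖Z₂ (ext S ω)‖ * Wt (1 - k) S (ext S ω)) +
          2 * Real.exp (-l) * (‖Z₁ (ext S ω)‖ * ‖Z₂ (ext S ω)‖ * E2 (ext S ω)) := by ring
      _ ≤ _ := add_le_add h5 h6
  have hUint : Integrable (fun ω : S → ℝ => U (ext S ω)) (Measure.pi fun _ => mu0) :=
    ((((w1.integrable.const_mul (1 / 2)).add (w2.integrable.const_mul (1 / 2))).const_mul r).add
      (((w3.integrable.const_mul (1 / 2)).add (w4.integrable.const_mul (1 / 2))).const_mul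
        (2 * Real.exp (-l))))
  have hUval : ES S U = r * (1 / 2 * ES S (fun f => ‖Z₁ f‖ ^ 2 * Wt (1 - k) S f) +
      1 / 2 * ES S (fun f => ‖Z₂ f‖ ^ 2 * Wt (1 - k) S f)) + 2 * Real.exp (-l) *
      (1 / 2 * ES S (fun f => ‖Z₁ f‖ ^ 2 * E2 f) + 1 / 2 * ES S (fun f => ‖Z₂ f‖ ^ 2 * E2 f)) := by
    unfold ES
    simp only [hU]
    rw [integral_add, integral_const_mul, integral_const_mul, integral_add, integral_add,
      integral_const_mul, integral_const_mul, integral_const_mul, integral_const_mul]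
    · exact w3.integrable.const_mul (1 / 2)
    · exact w4.integrable.const_mul (1 / 2)
    · exact w1.integrable.const_mul (1 / 2)
    · exact w2.integrable.const_mul (1 / 2)
    · exact ((w1.integrable.const_mul (1 / 2)).add (w2.integrable.const_mul (1 / 2))).const_mul r
    · exact ((w3.integrable.const_mul (1 / 2)).add (w4.integrable.const_mul (1 / 2))).const_mul
        (2 * Real.exp (-l))
  have hdiff : ‖ES S (fun f => Z₁ f * (starRingEnd ℂ) (Z₂ f) * (N f * (starRingEnd ℂ) (N f))) -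
      LP (1 - k) a₁ a₂ S‖ ≤ ES S U := by
    rw [hLPe]
    unfold ES
    rw [← integral_sub bF.integrable bG.integrable]
    refine (norm_integral_le_integral_norm _).trans ?_
    exact integral_mono (bF.integrable.sub bG.integrable).norm hUint hpt
  refine hdiff.trans ?_
  rw [hUval]
  set T₀ : ℝ := ∑ p ∈ S, 1 / (p : ℝ) with hT0
  have g1 : Real.exp (C3 + k ^ 2 * T₀) ≤ Real.exp (C3 + C2) * ‖LP (1 - k) a₁ a₂ S‖ := by
    calc Real.exp (C3 + k ^ 2 * T₀) = Real.exp (C3 + C2) * Real.exp (k ^ 2 * T₀ - C2) := by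
          rw [← Real.exp_add]; congr 1; ring
      _ ≤ _ := by gcongr
  have g2 : 1 ≤ Real.exp C2 * ‖LP (1 - k) a₁ a₂ S‖ := by
    calc (1 : ℝ) = Real.exp C2 * Real.exp (0 - C2) := by rw [← Real.exp_add]; simp
      _ ≤ Real.exp C2 * Real.exp (k ^ 2 * T₀ - C2) := by gcongr; positivity
      _ ≤ _ := by gcongr
  have g3 : r * (1 / 2 * ES S (fun f => ‖Z₁ f‖ ^ 2 * Wt (1 - k) S f) +
      1 / 2 * ES S (fun f => ‖Z₂ f‖ ^ 2 * Wt (1 - k) S f)) ≤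
      r * (Real.exp (C3 + C2) * ‖LP (1 - k) a₁ a₂ S‖) := by
    refine mul_le_mul_of_nonneg_left ?_ hr0
    have := q1.trans g1
    have := q2.trans g1
    linarith
  have g4 : 2 * Real.exp (-l) * (1 / 2 * ES S (fun f => ‖Z₁ f‖ ^ 2 * E2 f) +
      1 / 2 * ES S (fun f => ‖Z₂ f‖ ^ 2 * E2 f)) ≤
      2 * Real.exp (-(l / 2)) * (Real.exp C2 * ‖LP (1 - k) a₁ a₂ S‖) := by
    have e1 : 1 / 2 * ES S (fun f => ‖Z₁ f‖ ^ 2 * E2 f) + 1 / 2 * ES S (fun f => ‖Z₂ f‖ ^ 2 * E2 f) ≤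
        Real.exp (l / 2) := by linarith
    calc 2 * Real.exp (-l) * (1 / 2 * ES S (fun f => ‖Z₁ f‖ ^ 2 * E2 f) +
      1 / 2 * ES S (fun f => ‖Z₂ f‖ ^ 2 * E2 f)) ≤ 2 * Real.exp (-l) * Real.exp (l / 2) := by gcongr
      _ = 2 * (Real.exp (-l) * Real.exp (l / 2)) := by ring
      _ = 2 * Real.exp (-(l / 2)) := by rw [← Real.exp_add]; congr 2; ring
      _ = 2 * Real.exp (-(l / 2)) * 1 := by ring
      _ ≤ _ := by gcongr
  refine (add_le_add g3 g4).trans ?_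
  have hr3 : r ≤ Real.exp (C₁ * rho A S) - 1 := by
    have := Real.exp_le_exp.mpr (mul_le_mul_of_nonneg_right hC12 hρ)
    linarith
  have hx : 0 ≤ ‖LP (1 - k) a₁ a₂ S‖ := norm_nonneg _
  have hp1 := Real.exp_pos (C3 + C2)
  have hp2 := Real.exp_pos C2
  have hp3 := Real.exp_pos (-((l : ℝ) / 2))
  have k1 : r * (Real.exp (C3 + C2) * ‖LP (1 - k) a₁ a₂ S‖) ≤
      C₁ * (Real.exp (C₁ * rho A S) - 1) * ‖LP (1 - k) a₁ a₂ S‖ := by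
    calc r * (Real.exp (C3 + C2) * ‖LP (1 - k) a₁ a₂ S‖) ≤
          (Real.exp (C₁ * rho A S) - 1) * (C₁ * ‖LP (1 - k) a₁ a₂ S‖) := by
          gcongr
          · linarith
          · rw [hC1]; linarith
      _ = _ := by ring
  have k2 : 2 * Real.exp (-(l / 2)) * (Real.exp C2 * ‖LP (1 - k) a₁ a₂ S‖) ≤
      C₁ * Real.exp (-(l / 2)) * ‖LP (1 - k) a₁ a₂ S‖ := by
    calc 2 * Real.exp (-(l / 2)) * (Real.exp C2 * ‖LP (1 - k) a₁ a₂ S‖) =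
          (2 * Real.exp C2) * (Real.exp (-(l / 2)) * ‖LP (1 - k) a₁ a₂ S‖) := by ring
      _ ≤ C₁ * (Real.exp (-(l / 2)) * ‖LP (1 - k) a₁ a₂ S‖) := by
          gcongr
          rw [hC1]; linarith
      _ = _ := by ring
  calc _ ≤ C₁ * (Real.exp (C₁ * rho A S) - 1) * ‖LP (1 - k) a₁ a₂ S‖ +
        C₁ * Real.exp (-(l / 2)) * ‖LP (1 - k) a₁ a₂ S‖ := add_le_add k1 k2
    _ = _ := by ring

end K10
end Pool.Agent.Lib.MP_973905_nt
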