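import Pool.Agent.Lib.MP_973905_nt.K9.Stmts

/-! Definitions for the lower bounds with explicit constants for all orders `k ≥ 2`
(folder K10). Throughout `k = 1 + κ`, `κ ≥ 1`. The blocks and polynomials are those of K8. -/

namespace Pool.Agent.Lib.MP_973905_nt
namespace K10

open MeasureTheory ProbabilityTheory Complex Filter Topology K1 K4 K5
open K8 (Cfg pe rk tk GW VT nb LG aZ aV rhoZ rho8 ETz SB8 BB8 lam8)

/-- Admissible data (only `hc` differs from `K8.Adm`). -/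
structure Adm (κ : ℝ) (M : ℕ) (C : Cfg) : Prop where
  hN : 1 ≤ C.N
  hpos : ∀ i, i ≤ C.N → 0 < C.te i
  hdec : ∀ i, i < C.N → C.te (i + 1) < C.te i
  hlast : C.te C.N = Real.exp (-(M : ℝ))
  htop : C.te 0 ≤ 1 / 4
  hD : ∀ i, i < C.N → 1 ≤ C.D i
  hm : ∀ i, i < C.N → 0 < C.m i
  hc : ∀ i, i < C.N → (C.D i : ℝ) ≤ 4 * κ * (C.V i + C.c i)
  hrho : rho8 C ≤ 9 / 10
  bud1 : ∑ i ∈ Finset.range C.N, (C.D i : ℝ) * C.te i ≤ 44 / 100
  bud2 : ∑ i ∈ Finset.range C.N, ((rk κ C i : ℝ) + 1) * C.te i ≤ 93 / 100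

/-- The majorant of the power of a bottom factor, as a function of the prime sum. -/
noncomputable def VBz (κ T : ℝ) (M j : ℕ) (z : ℂ) : ℝ :=
  (1 + Real.exp (-(KK M (JJ T) j / 2))) * ‖Ntr (ll M (JJ T) j) (1 + κ) z‖ ^ 2 +
    Real.exp (2 * pe κ * KK M (JJ T) j) *
      ‖(((1 + κ : ℝ) : ℂ) * z / (KK M (JJ T) j : ℂ)) ^ nb κ T M j‖ ^ 2

/-- The majorant of the power of a bottom factor. -/
noncomputable def VB (κ T : ℝ) (M j : ℕ) (f : ℕ → ℂ) : ℝ :=
  VBz κ T M j (Pj M (Sj T M (JJ T) j) f)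

/-- The weight on the side without zeta. -/
noncomputable def VV10 (κ : ℝ) (C : Cfg) (T : ℝ) (M : ℕ) (f : ℕ → ℂ) : ℝ :=
  (∏ j ∈ Finset.range (JJ T + 1), VB κ T M j f) * ∏ i ∈ Finset.range C.N, VT κ C T i f

/-! ### Our choice -/

/-- The unit of the degrees. -/
noncomputable def dk (κ : ℝ) : ℕ := ⌈κ * (1 + κ)⌉₊

/-- The upper end of the first top block. -/
noncomputable def th (κ : ℝ) : ℝ := 44 / 100 / (4085 / 1000 * dk κ + 1)

/-- The number of top blocks. -/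
noncomputable def Nt (κ : ℝ) (M : ℕ) : ℕ := ⌊(M : ℝ) + Real.log (th κ)⌋₊

/-- The ends of the top blocks. -/
noncomputable def te10 (κ : ℝ) (M i : ℕ) : ℝ :=
  if i < Nt κ M then th κ * Real.exp (-(i : ℝ)) else Real.exp (-(M : ℝ))

/-- The degrees. -/
noncomputable def Dk (κ : ℝ) (i : ℕ) : ℕ := (2 + i) * dk κ

/-- Our choice of the top blocks. -/
noncomputable def cfg10 (κ : ℝ) (M : ℕ) : Cfg where
  N := Nt κ M
  te := te10 κ M
  D := fun i => Dk κ i
  c := fun i => (Dk κ i : ℝ) / κ - (1 + κ) * Real.log (te10 κ M i / te10 κ M (i + 1))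
  m := fun i => (Dk κ i : ℝ) / κ

/-- The bound for the total loss. -/
noncomputable def LamB (κ : ℝ) : ℝ := 4 / 5 * κ * (κ * (1 + κ) / dk κ) ^ 2

/-- The explicit constant of the theorem. -/
noncomputable def LL10 (k : ℝ) : ℝ := 8 ^ (-(k * (k - 1))) * k ^ (-(k * (k - 2)))

end K10
end Pool.Agent.Lib.MP_973905_nt
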