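import Pool.Agent.Lib.MP_973905_nt.K10.Stmts
import Pool.Agent.Lib.MP_973905_nt.K7.Num7

/-! (N7) the final inequality of folder K10. -/

namespace Pool.Agent.Lib.MP_973905_nt
namespace K10

namespace Num10Aux

/-- the inequality in one variable after bounding the logarithms -/
lemma poly (s : ℝ) (hs : 0 ≤ s) :
    0 < 573 / 1000 + (1 - (4085 * ((1 + s) * (2 + s)) + 5085) / (3520 * (2 + s) ^ 2)) -
      (88 / 100) / (4085 / 1000 * ((1 + s) * (2 + s)) + 1 - 88 / 100 * (1 + s)) -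
      4 / 5 * (1 + s) * ((1 + s) * (2 + s)) / ((1 + s) * (2 + s) + 1) ^ 2 -
      (2 + s) / (4 * (1 + s)) + 1 / (2 * ((1 + s) * (2 + s))) := by
  have h1 : 0 < (1 + s) * (2 + s) := by positivity
  have h2 : 0 < 4085 / 1000 * ((1 + s) * (2 + s)) + 1 - 88 / 100 * (1 + s) := by nlinarith
  have e : 573 / 1000 + (1 - (4085 * ((1 + s) * (2 + s)) + 5085) / (3520 * (2 + s) ^ 2)) -
      (88 / 100) / (4085 / 1000 * ((1 + s) * (2 + s)) + 1 - 88 / 100 * (1 + s)) -
      4 / 5 * (1 + s) * ((1 + s) * (2 + s)) / ((1 + s) * (2 + s) + 1) ^ 2 -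
      (2 + s) / (4 * (1 + s)) + 1 / (2 * ((1 + s) * (2 + s))) =
      ((2 + s) ^ 2 * (4085 / 1000 * ((1 + s) * (2 + s)) + 1 - 88 / 100 * (1 + s)) *
        ((1 + s) * (2 + s) + 1) ^ 2 * (1 + s) * (573 / 1000 + 1) -
       (4085 * ((1 + s) * (2 + s)) + 5085) / 3520 *
        (4085 / 1000 * ((1 + s) * (2 + s)) + 1 - 88 / 100 * (1 + s)) *
        ((1 + s) * (2 + s) + 1) ^ 2 * (1 + s) -
       88 / 100 * (2 + s) ^ 2 * ((1 + s) * (2 + s) + 1) ^ 2 * (1 + s) -
       4 / 5 * (1 + s) * ((1 + s) * (2 + s)) * (2 + s) ^ 2 *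
        (4085 / 1000 * ((1 + s) * (2 + s)) + 1 - 88 / 100 * (1 + s)) * (1 + s) -
       1 / 4 * (2 + s) ^ 3 * (4085 / 1000 * ((1 + s) * (2 + s)) + 1 - 88 / 100 * (1 + s)) *
        ((1 + s) * (2 + s) + 1) ^ 2 +
       1 / 2 * (2 + s) * (4085 / 1000 * ((1 + s) * (2 + s)) + 1 - 88 / 100 * (1 + s)) *
        ((1 + s) * (2 + s) + 1) ^ 2) /
      ((2 + s) ^ 2 * (4085 / 1000 * ((1 + s) * (2 + s)) + 1 - 88 / 100 * (1 + s)) *
        ((1 + s) * (2 + s) + 1) ^ 2 * (1 + s)) := by
    have n1 : (1 + s) ≠ 0 := by positivity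
    have n2 : (2 + s) ≠ 0 := by positivity
    have n3 : ((1 + s) * (2 + s) + 1) ≠ 0 := by positivity
    have n4 := h2.ne'
    generalize 4085 / 1000 * ((1 + s) * (2 + s)) + 1 - 88 / 100 * (1 + s) = D at *
    generalize (1 + s) * (2 + s) + 1 = E at *
    field_simp
    ring
  rw [e]
  apply div_pos
  · ring_nf
    positivity
  · positivity

/-- the degrees: the dependence on `d` -/
lemma mono {κ K d : ℝ} (hκ : 1 ≤ κ) (hK : K = κ * (1 + κ)) (h1 : K ≤ d) (h2 : d ≤ K + 1) :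
    4 / 5 * κ * (K / d) ^ 2 - 4 / 5 * κ * (K / (K + 1)) ^ 2 ≤
      K * (4085 / 1000 * (K + 1 - d) / (4085 / 1000 * (K + 1) + 1)) := by
  have hK2 : 2 ≤ K := by nlinarith
  have hκK : 2 * κ ≤ K := by nlinarith
  have hd : 0 < d := by linarith
  have hK0 : 0 < K := by linarith
  have e : 4 / 5 * κ * (K / d) ^ 2 - 4 / 5 * κ * (K / (K + 1)) ^ 2 =
      (K + 1 - d) * (4 / 5 * κ * ((K / d) ^ 2 * ((K + 1 + d) / (K + 1) ^ 2))) := by
    have : K + 1 ≠ 0 := by positivity
    field_simp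
    ring
  have e' : K * (4085 / 1000 * (K + 1 - d) / (4085 / 1000 * (K + 1) + 1)) =
      (K + 1 - d) * (K * (4085 / 1000) / (4085 / 1000 * (K + 1) + 1)) := by
    ring
  rw [e, e']
  apply mul_le_mul_of_nonneg_left _ (by linarith)
  have h3 : (K / d) ^ 2 ≤ 1 := by
    apply pow_le_one₀ (by positivity)
    rw [div_le_one hd]
    exact h1
  have h4 : (K + 1 + d) / (K + 1) ^ 2 ≤ 2 / (K + 1) := by
    rw [div_le_div_iff₀ (by positivity) (by positivity)]
    nlinarith
  have h5 : (K / d) ^ 2 * ((K + 1 + d) / (K + 1) ^ 2) ≤ 1 * (2 / (K + 1)) :=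
    mul_le_mul h3 h4 (by positivity) (by norm_num)
  have h6 : 4 / 5 * κ * ((K / d) ^ 2 * ((K + 1 + d) / (K + 1) ^ 2)) ≤
      4 / 5 * κ * (1 * (2 / (K + 1))) := by
    apply mul_le_mul_of_nonneg_left h5 (by positivity)
  refine h6.trans ?_
  have h7 : 4 / 5 * κ * (1 * (2 / (K + 1))) = (8 / 5 * κ) / (K + 1) := by ring
  rw [h7, div_le_div_iff₀ (by positivity) (by positivity)]
  have h8 : 8 / 5 * κ * (4085 / 1000 * (K + 1) + 1) ≤
      4 / 5 * K * (4085 / 1000 * (K + 1) + 1) := by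
    apply mul_le_mul_of_nonneg_right _ (by positivity)
    linarith
  nlinarith

end Num10Aux

open Num10Aux in
/-- (N7) the final inequality -/
theorem stNum10 : StNum10 := by
  intro κ hκ
  set K : ℝ := κ * (1 + κ) with hK
  have hK2 : 2 ≤ K := by nlinarith
  have hK0 : 0 < K := by linarith
  set d : ℝ := (dk κ : ℝ) with hd
  have hd1 : K ≤ d := Nat.le_ceil _
  have hd2 : d ≤ K + 1 := (Nat.ceil_lt_add_one (by positivity)).le
  have hd0 : 0 < d := by linarith
  have hk0 : 0 < 1 + κ := by linarith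
  -- logarithm of the end of the first block
  set a : ℝ := 4085 / 1000 * d + 1 with ha
  set b : ℝ := 4085 / 1000 * (K + 1) + 1 with hb
  have ha0 : 0 < a := by positivity
  have hb0 : 0 < b := by positivity
  have hth : th κ = 44 / 100 / a := rfl
  have l1 : Real.log (th κ) = Real.log (44 / 100) - Real.log a := by
    rw [hth, Real.log_div (by norm_num) ha0.ne']
  have l2 : Real.log a ≤ Real.log b - 4085 / 1000 * (K + 1 - d) / b := by
    have h1 := Real.log_le_sub_one_of_pos (div_pos ha0 hb0)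
    rw [Real.log_div ha0.ne' hb0.ne'] at h1
    have h2 : a / b - 1 = -(4085 / 1000 * (K + 1 - d) / b) := by
      rw [ha, hb]
      have : 4085 / 1000 * (K + 1) + 1 ≠ 0 := hb0.ne'
      field_simp
      ring
    linarith
  -- the loss
  have l3 : LamB κ = 4 / 5 * κ * (K / d) ^ 2 := rfl
  have l4 := mono hκ hK hd1 hd2
  rw [← hb] at l4
  -- the second logarithm
  set D : ℝ := 4085 / 1000 * K + 1 - 88 / 100 * κ with hD
  have hD0 : 0 < D := by nlinarith
  have hK1 : 0 < 4085 / 1000 * K + 1 := by positivity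
  have l5 : -(88 / 100 * κ / D) ≤ Real.log (1 - 2 * κ * th κ) := by
    have h1 : 1 - 88 / 100 * κ / (4085 / 1000 * K + 1) ≤ 1 - 2 * κ * th κ := by
      have h2 : th κ ≤ 44 / 100 / (4085 / 1000 * K + 1) := by
        rw [hth]
        apply div_le_div_of_nonneg_left (by norm_num) hK1
        rw [ha]
        linarith
      have h3 : 2 * κ * th κ ≤ 2 * κ * (44 / 100 / (4085 / 1000 * K + 1)) :=
        mul_le_mul_of_nonneg_left h2 (by positivity)
      have h4 : 2 * κ * (44 / 100 / (4085 / 1000 * K + 1)) =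
        88 / 100 * κ / (4085 / 1000 * K + 1) := by ring
      linarith
    have h5 : 1 - 88 / 100 * κ / (4085 / 1000 * K + 1) = D / (4085 / 1000 * K + 1) := by
      rw [hD]
      field_simp
    have h6 : 0 < D / (4085 / 1000 * K + 1) := by positivity
    have h7 : Real.log (D / (4085 / 1000 * K + 1)) ≤ Real.log (1 - 2 * κ * th κ) :=
      Real.log_le_log h6 (by rw [← h5]; exact h1)
    have h8 := Real.one_sub_inv_le_log_of_pos h6
    have h9 : 1 - (D / (4085 / 1000 * K + 1))⁻¹ = -(88 / 100 * κ / D) := by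
      rw [inv_div]
      have h10 : 4085 / 1000 * K + 1 = D + 88 / 100 * κ := by rw [hD]; ring
      rw [h10]
      field_simp
      ring
    linarith
  -- the main logarithm
  have l6 : 1 - b / (352 / 100 * (1 + κ) ^ 2) ≤
      Real.log (44 / 100) - Real.log b + Real.log 8 + 2 * Real.log (1 + κ) := by
    have h1 : 0 < 352 / 100 * (1 + κ) ^ 2 / b := by positivity
    have h2 := Real.one_sub_inv_le_log_of_pos h1
    rw [inv_div] at h2
    have h3 : Real.log (352 / 100 * (1 + κ) ^ 2 / b) =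
        Real.log (44 / 100) - Real.log b + Real.log 8 + 2 * Real.log (1 + κ) := by
      rw [Real.log_div (by positivity) hb0.ne', Real.log_mul (by norm_num) (by positivity),
        Real.log_pow, show (352 / 100 : ℝ) = 44 / 100 * 8 by norm_num,
        Real.log_mul (by norm_num) (by norm_num)]
      push_cast
      ring
    rw [h3] at h2
    exact h2
  have l7 := K7.Num7.gamma_ge
  have l8 := poly (κ - 1) (by linarith)
  rw [show 1 + (κ - 1) = κ by ring, show 2 + (κ - 1) = 1 + κ by ring, ← hK, ← hD] at l8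
  -- everything
  have m1 : K * (1 - b / (352 / 100 * (1 + κ) ^ 2)) ≤
      K * (Real.log (44 / 100) - Real.log b + Real.log 8 + 2 * Real.log (1 + κ)) :=
    mul_le_mul_of_nonneg_left l6 hK0.le
  have m2 : (1 + κ) * -(88 / 100 * κ / D) ≤ (1 + κ) * Real.log (1 - 2 * κ * th κ) :=
    mul_le_mul_of_nonneg_left l5 hk0.le
  have m3 : K * (573 / 1000) ≤ K * Real.eulerMascheroniConstant :=
    mul_le_mul_of_nonneg_left l7 hK0.le
  have m4 : K * Real.log a ≤ K * (Real.log b - 4085 / 1000 * (K + 1 - d) / b) :=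
    mul_le_mul_of_nonneg_left l2 hK0.le
  have m5 := mul_pos hK0 l8
  have m6 : K * (573 / 1000 + (1 - (4085 * K + 5085) / (3520 * (1 + κ) ^ 2)) - 88 / 100 / D -
      4 / 5 * κ * K / (K + 1) ^ 2 - (1 + κ) / (4 * κ) + 1 / (2 * K)) =
      K * (573 / 1000) + K * (1 - b / (352 / 100 * (1 + κ) ^ 2)) +
        (1 + κ) * -(88 / 100 * κ / D) - 4 / 5 * κ * (K / (K + 1)) ^ 2 -
        (1 + κ) ^ 2 / 4 + 1 / 2 := by
    have f1 : K * ((1 + κ) / (4 * κ)) = (1 + κ) ^ 2 / 4 := by
      rw [hK]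
      have : κ ≠ 0 := by positivity
      field_simp
    have f2 : K * (1 / (2 * K)) = 1 / 2 := by
      field_simp
    have f3 : K * (88 / 100 / D) = (1 + κ) * (88 / 100 * κ / D) := by
      rw [hK]
      ring
    have f4 : K * (4 / 5 * κ * K / (K + 1) ^ 2) = 4 / 5 * κ * (K / (K + 1)) ^ 2 := by
      rw [div_pow]
      ring
    have f5 : (4085 * K + 5085) / (3520 * (1 + κ) ^ 2) = b / (352 / 100 * (1 + κ) ^ 2) := by
      rw [hb]
      have : (1 + κ) ≠ 0 := hk0.ne'
      field_simp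
      ring
    rw [f5]
    linear_combination -f3 - f4 - f1 + f2
  rw [m6] at m5
  rw [l1, l3]
  have m7 : (1 + κ) ^ 2 * Real.log (1 + κ) + (1 + κ) * (κ - 1) * Real.log (1 + κ) =
      K * (2 * Real.log (1 + κ)) := by
    rw [hK]
    ring
  clear l8 l7 l6 l5 l3 l2 l1 m6 hd1 hd2 hth
  clear_value b D d a
  linarith [m1, m2, m3, m4, m5, m7, l4]

end K10
end Pool.Agent.Lib.MP_973905_nt
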